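import Pool.Agent.Lib.WC.Blue

/-! A short arc in the last coordinate. -/

namespace Pool.Agent.Lib.WC

open MeasureTheory Polynomial Finset

theorem blk_ARC (h2 : St_G2) (hS : St_SIG) : St_ARC := by
  intro d hd
  obtain ⟨A, C1, hC1, hS⟩ := hS (d + 1)
  refine ⟨A, fun ε hε => ?_⟩
  obtain ⟨C2, hC2, h2⟩ := h2 d ε hd hε
  obtain ⟨s, hs⟩ : ∃ s, sd (d + 1) = s + 1 := ⟨sd (d + 1) - 1, by
    have := one_le_sd (k := d + 1) (by omega); omega⟩
  have hp : 1 ≤ C1 ^ s := one_le_pow₀ hC1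
  refine ⟨4 * C1 ^ s * C2, by nlinarith, fun M a R ζ hM hR hRM => ?_⟩
  have hM1 : 1 ≤ M := by omega
  have hn : 1 ≤ 2 ^ a := Nat.one_le_two_pow
  have h3 := h2 M a R ζ hM1 hR hRM
  have hM0 : (1 : ℝ) ≤ M := by exact_mod_cast hM1
  have hL : ((2 ^ a * M : ℕ) : ℝ) = 2 ^ a * M := by push_cast; rfl
  have hsig := fun y : TT (d + 1) => sig_pos hM1 hn y
  have hden : ∀ y : TT (d + 1), 0 < 1 + R * ‖y (Fin.last d) - ζ‖ := fun y => by positivity
  have hc : Continuous fun y : TT (d + 1) => ‖S (2 ^ a * M) y‖ ^ (2 * sd (d + 1)) /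
      sig M (2 ^ a) y ^ (sd (d + 1) - 1) / (1 + R * ‖y (Fin.last d) - ζ‖) ^ 2 :=
    (Continuous.div (by fun_prop) (by fun_prop) fun y => (pow_pos (hsig y) _).ne').div
      (by fun_prop) fun y => (pow_pos (hden y) _).ne'
  have hm : MeasurableSet ({y : TT (d + 1) | ‖y (Fin.last d) - ζ‖ ≤ 1 / R} \
      Mj (d + 1) 1 (2 ^ a * M) ((M : ℝ) ^ A)) :=
    (isClosed_le (by fun_prop) continuous_const).measurableSet.diff (measurableSet_Mj _ _ _)
  have hK : (0 : ℝ) ≤ 4 * (C1 * (2 ^ a * M)) ^ s := by positivity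
  calc _ ≤ _ := setIntegral_mono_on (cint (by fun_prop)) (cint (hc.const_mul
          (4 * (C1 * (2 ^ a * M)) ^ s))) hm fun y hy => ?_
    _ ≤ ∫ y, _ := setIntegral_le_integral (cint (hc.const_mul _))
          (Filter.Eventually.of_forall fun y => by
            have := hsig y
            have := hden y
            positivity)
    _ = 4 * (C1 * (2 ^ a * M)) ^ s * Phi d M (2 ^ a) R ζ := integral_const_mul _ _
    _ ≤ 4 * (C1 * (2 ^ a * M)) ^ s * (C2 * ((2 : ℝ) ^ a) ^ (1 + ε) * M / R) :=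
        mul_le_mul_of_nonneg_left h3 hK
    _ = 4 * C1 ^ s * C2 * (((2 : ℝ) ^ a * M) ^ (s + 1) * ((2 : ℝ) ^ a) ^ ε) / R := by
        rw [Real.rpow_add (by positivity), Real.rpow_one]; ring
    _ ≤ _ := by
        rw [hL, Real.rpow_add (by positivity), Real.rpow_natCast, hs]
        gcongr
        exact le_mul_of_one_le_right (by positivity) hM0
  · have h4 := hS M (2 ^ a) y hM hn hy.2
    have h5 : R * ‖y (Fin.last d) - ζ‖ ≤ 1 := by
      have := hy.1
      rwa [Set.mem_ofPred_eq, le_div_iff₀' hR] at this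
    have h6 := hsig y
    have h7 := hden y
    push_cast at h4
    rw [hs, Nat.add_sub_cancel, div_div, ← mul_div_assoc, le_div_iff₀ (by positivity), mul_comm]
    refine mul_le_mul_of_nonneg_right ?_ (by positivity)
    rw [mul_comm, show (4 : ℝ) = 2 ^ 2 by norm_num]
    gcongr
    linarith

end Pool.Agent.Lib.WC
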