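import Pool.Agent.Lib.WC.Blue

/-! Averaging over translations and completing a Weyl sum. -/

namespace Pool.Agent.Lib.WC

open MeasureTheory Polynomial Finset

namespace AVG

variable {d : ℕ}

lemma ph_single (γ : UnitAddCircle) (m : ℤ) : ph (Pi.single 0 γ : TT (d + 1)) m = m • γ := by
  rw [ph, Finset.sum_eq_single 0] <;> simp +contextual

@[fun_prop] lemma cont_single :
    Continuous fun γ : UnitAddCircle => (Pi.single 0 γ : TT (d + 1)) :=
  continuous_single (A := fun _ : Fin (d + 1) => UnitAddCircle) 0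

/-- The weight of the completion. -/
noncomputable def w (N : ℕ) (γ : UnitAddCircle) : ℝ := (N : ℝ) * ‖dk N γ‖

lemma w_nonneg (N : ℕ) (γ : UnitAddCircle) : 0 ≤ w N γ := by unfold w; positivity

@[fun_prop] lemma continuous_w (N : ℕ) : Continuous (w N) := by unfold w; fun_prop

lemma norm_kernel {N : ℕ} (hN : 1 ≤ N) (a : ℕ) (γ : UnitAddCircle) :
    ‖∑ n ∈ range N, ee ((-((n : ℤ) + 1 + a)) • γ)‖ = w N γ := by
  have h : ∑ n ∈ range N, ee ((-((n : ℤ) + 1 + a)) • γ) =
      (starRingEnd ℂ) (ee (((1 : ℤ) + a) • γ) * ∑ n ∈ range N, ee (n • γ)) := by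
    rw [Finset.mul_sum, map_sum]
    refine Finset.sum_congr rfl fun n _ => ?_
    rw [← ee_add, ← ee_neg, neg_smul, ← natCast_zsmul, ← add_smul]
    congr 3; ring
  have hN0 : (N : ℝ) ≠ 0 := by exact_mod_cast (by omega : N ≠ 0)
  rw [h, Complex.norm_conj, norm_mul, norm_ee, one_mul, w, dk, norm_mul, norm_inv,
    Complex.norm_natCast, mul_inv_cancel_left₀ hN0]

/-- Completing a shifted sum. -/
lemma complete {N L a : ℕ} (h : N + a ≤ L) (y : TT (d + 1)) :
    ∑ n ∈ range N, ee (ph y ((n : ℤ) + 1 + a)) =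
      ∫ γ : UnitAddCircle, S L (y + Pi.single 0 γ) *
        ∑ n ∈ range N, ee ((-((n : ℤ) + 1 + a)) • γ) := by
  have e : ∀ γ : UnitAddCircle, S L (y + Pi.single 0 γ) *
      ∑ n ∈ range N, ee ((-((n : ℤ) + 1 + a)) • γ) =
      ∑ n ∈ range N, ∑ m ∈ range L,
        ee (ph y ((m : ℤ) + 1)) * ee (((m : ℤ) - (n + a : ℕ)) • γ) := fun γ => by
    rw [S, Finset.sum_mul_sum, Finset.sum_comm]
    refine Finset.sum_congr rfl fun n _ => Finset.sum_congr rfl fun m _ => ?_
    rw [ph_add, ph_single, ee_add, mul_assoc, ← ee_add, ← add_smul]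
    congr 3; push_cast; ring
  simp_rw [e]
  rw [integral_finsetSum _ fun n _ => cint (by fun_prop)]
  refine Finset.sum_congr rfl fun n hn => ?_
  rw [integral_finsetSum _ fun m _ => cint (by fun_prop)]
  simp_rw [integral_const_mul, integral_ee]
  have hn' := Finset.mem_range.1 hn
  rw [Finset.sum_eq_single (n + a)]
  · rw [sub_self, if_pos rfl, mul_one]
    congr 2; push_cast; ring
  · intro m _ hm
    rw [if_neg, mul_zero]
    intro h0
    exact hm (by exact_mod_cast sub_eq_zero.1 h0)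
  · intro h0
    exact absurd (Finset.mem_range.2 (by omega)) h0

/-- The pointwise bound. -/
lemma pointwise {N L a q : ℕ} (hN : 1 ≤ N) (hq : 1 ≤ q) (h : N + a ≤ L) (y : TT (d + 1)) :
    ‖S N (U (a : ℤ) y)‖ ^ q ≤ (∫ γ, w N γ) ^ (q - 1) *
      ∫ γ : UnitAddCircle, w N γ * ‖S L (y + Pi.single 0 γ)‖ ^ q := by
  have h1 : ‖S N (U (a : ℤ) y)‖ ≤ ∫ γ : UnitAddCircle, w N γ * ‖S L (y + Pi.single 0 γ)‖ := by
    have h2 := congrArg norm (S_shift N (a : ℤ) y)
    rw [norm_mul, norm_ee, one_mul] at h2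
    rw [← h2, complete h]
    refine (norm_integral_le_integral_norm _).trans (le_of_eq ?_)
    simp_rw [norm_mul, norm_kernel hN, mul_comm]
  exact (pow_le_pow_left₀ (norm_nonneg _) h1 q).trans
    (jensen (w_nonneg N) (fun _ => norm_nonneg _) hq (cint (by fun_prop)) (cint (by fun_prop)))

/-- The mass of the weight. -/
lemma mass (hK : St_KER) {N : ℕ} (hN : 1 ≤ N) {e : ℝ} (he : 0 < e) :
    ∫ γ, w N γ ≤ 3 * 2 ^ e / e * (N : ℝ) ^ e := by
  have hN1 : (1 : ℝ) ≤ N := by exact_mod_cast hN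
  have ht := hK.tail N (1 + e) 0 (by linarith) (by linarith)
  simp only [sub_zero, add_sub_cancel_left] at ht
  have hc : Continuous fun z : UnitAddCircle => (N : ℝ) / (1 + N * ‖z‖) ^ (1 + e) :=
    continuous_const.div ((Real.continuous_rpow_const (by linarith)).comp (by fun_prop))
      fun z => by positivity
  have hp : ∀ z : UnitAddCircle,
      w N z ≤ 3 / 2 * (2 * N) ^ e * ((N : ℝ) / (1 + N * ‖z‖) ^ (1 + e)) := fun z => by
    have h1 := hK.decay N z hN
    have h2 := norm_le_half z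
    have h0 : 0 < 1 + (N : ℝ) * ‖z‖ := by positivity
    have h3 : (1 + (N : ℝ) * ‖z‖) ^ e ≤ (2 * N) ^ e :=
      Real.rpow_le_rpow h0.le (by nlinarith) he.le
    have h4 : 0 < (1 + (N : ℝ) * ‖z‖) ^ e := Real.rpow_pos_of_pos h0 e
    rw [Real.rpow_add h0, Real.rpow_one, ← mul_div_assoc, le_div_iff₀ (by positivity), w]
    calc (N : ℝ) * ‖dk N z‖ * ((1 + N * ‖z‖) * (1 + N * ‖z‖) ^ e)
        = (‖dk N z‖ * (1 + N * ‖z‖)) * (1 + N * ‖z‖) ^ e * N := by ring
      _ ≤ 3 / 2 * (2 * N) ^ e * N := by gcongr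
  refine (integral_mono (cint (by fun_prop)) ((cint hc).const_mul _) hp).trans ?_
  rw [integral_const_mul]
  refine (mul_le_mul_of_nonneg_left ht (by positivity)).trans (le_of_eq ?_)
  rw [Real.mul_rpow (by norm_num) (by positivity)]
  field_simp

/-- A bounded measurable function times a continuous function is integrable. -/
lemma bint {X : Type*} [TopologicalSpace X] [CompactSpace X] [MeasurableSpace X]
    [OpensMeasurableSpace X] {μ : Measure X} [IsFiniteMeasure μ] {c f : X → ℝ} {B : ℝ}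
    (hc : Measurable c) (hB : ∀ x, 0 ≤ c x ∧ c x ≤ B) (hf : Continuous f) :
    Integrable (fun x => c x * f x) μ :=
  (cint hf).bdd_mul hc.aestronglyMeasurable (c := B) (Filter.Eventually.of_forall fun x => by
    rw [Real.norm_eq_abs, abs_of_nonneg (hB x).1]; exact (hB x).2)

/-- Fubini and a translation. -/
lemma fub {c G : TT (d + 1) → ℝ} {v : UnitAddCircle → ℝ} {B : ℝ} (hc : Measurable c)
    (hB : ∀ x, 0 ≤ c x ∧ c x ≤ B) (hG : Continuous G) (hv : Continuous v) :
    ∫ y, c y * ∫ γ, v γ * G (y + Pi.single 0 γ) =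
      ∫ γ, v γ * ∫ y, c (y - Pi.single 0 γ) * G y := by
  simp_rw [← integral_const_mul]
  have hc2 : Continuous fun p : TT (d + 1) × UnitAddCircle =>
      v p.2 * G (p.1 + Pi.single 0 p.2) :=
    (hv.comp continuous_snd).mul (hG.comp (continuous_fst.add (cont_single.comp continuous_snd)))
  rw [integral_integral_swap
    (f := fun (y : TT (d + 1)) (γ : UnitAddCircle) =>
      c y * (v γ * G (y + (Pi.single 0 γ : TT (d + 1)))))
    (bint (c := fun p : TT (d + 1) × UnitAddCircle => c p.1) (hc.comp measurable_fst)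
      (fun p => hB p.1) hc2)]
  refine integral_congr_ae (Filter.Eventually.of_forall fun γ => ?_)
  simp only
  rw [← int_add (fun y => v γ * (c (y - (Pi.single 0 γ : TT (d + 1))) * G y)) (Pi.single 0 γ)]
  simp only [add_sub_cancel_right, mul_left_comm]

lemma cnt_eq (N : ℕ) (E : Set (TT d)) (y : TT d) : (cnt N E y : ℝ) =
    ∑ t ∈ range N, ((U ((t : ℤ) + 1) : TT d → TT d) ⁻¹' E).indicator (fun _ => (1 : ℝ)) y := by
  classical
  rw [cnt, Finset.card_filter]
  push_cast
  refine Finset.sum_congr rfl fun t _ => ?_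
  rw [Set.indicator_apply]
  rfl

lemma measurable_cnt (N : ℕ) {E : Set (TT d)} (hE : MeasurableSet E) :
    Measurable fun y : TT d => (cnt N E y : ℝ) := by
  simp_rw [cnt_eq]
  exact Finset.measurable_sum _ fun t _ =>
    measurable_const.indicator ((continuous_U _).measurable hE)

/-- Averaging over the shears. -/
lemma avg {N : ℕ} {E : Set (TT d)} (hE : MeasurableSet E) {f F : TT d → ℝ} (hf : Continuous f)
    (hF : Continuous F) (h : ∀ t : ℕ, t < N → ∀ y, f (U ((t : ℤ) + 1) y) ≤ F y) :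
    N * ∫ x in E, f x ≤ ∫ y, (cnt N E y : ℝ) * F y := by
  classical
  have hm : ∀ t : ℕ, MeasurableSet ((U ((t : ℤ) + 1) : TT d → TT d) ⁻¹' E) := fun t =>
    (continuous_U _).measurable hE
  simp_rw [cnt_eq, Finset.sum_mul]
  rw [integral_finsetSum _ fun t _ => bint (B := 1) (measurable_const.indicator (hm t))
    (fun x => by rw [Set.indicator_apply]; split_ifs <;> simp) hF]
  have := Finset.card_nsmul_le_sum (range N) (fun t : ℕ => ∫ y,
    ((U ((t : ℤ) + 1) : TT d → TT d) ⁻¹' E).indicator (fun _ => (1 : ℝ)) y * F y)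
    (∫ x in E, f x) fun t ht => by
      rw [← setInt_mp (mp_U ((t : ℤ) + 1)) hE hf.aestronglyMeasurable]
      have e : ∀ y, ((U ((t : ℤ) + 1) : TT d → TT d) ⁻¹' E).indicator (fun _ => (1 : ℝ)) y * F y =
          ((U ((t : ℤ) + 1) : TT d → TT d) ⁻¹' E).indicator F y := fun y => by
        simp only [Set.indicator_apply]; split_ifs <;> simp
      simp_rw [e]
      rw [integral_indicator (hm t)]
      exact integral_mono (cint (by fun_prop)) (cint hF) (h t (Finset.mem_range.1 ht))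
  simpa using this

lemma cont_F {G : TT (d + 1) → ℝ} {v : UnitAddCircle → ℝ} (hG : Continuous G)
    (hv : Continuous v) : Continuous fun y : TT (d + 1) => ∫ γ, v γ * G (y + Pi.single 0 γ) := by
  have hc2 : Continuous fun p : TT (d + 1) × UnitAddCircle =>
      v p.2 * G (p.1 + Pi.single 0 p.2) :=
    (hv.comp continuous_snd).mul (hG.comp (continuous_fst.add (cont_single.comp continuous_snd)))
  have := continuous_parametric_integral_of_continuous (μ := volume)
    (f := fun (y : TT (d + 1)) (γ : UnitAddCircle) =>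
      v γ * G (y + (Pi.single 0 γ : TT (d + 1)))) hc2 isCompact_univ
  simpa only [Measure.restrict_univ] using this

/-- The abstract form of the averaging. -/
lemma main {N : ℕ} {E : Set (TT (d + 1))} {f G g : TT (d + 1) → ℝ} {v : UnitAddCircle → ℝ}
    {A B : ℝ} (hN : 1 ≤ N) (hE : MeasurableSet E) (hf : Continuous f) (hG : Continuous G)
    (hv : Continuous v) (hg : Measurable g) (hB : ∀ y, 0 ≤ g y ∧ g y ≤ B) (hA : 0 ≤ A)
    (G0 : ∀ y, 0 ≤ G y) (v0 : ∀ γ, 0 ≤ v γ)
    (h : ∀ t : ℕ, t < N → ∀ y, f (U ((t : ℤ) + 1) y) ≤ A * ∫ γ, v γ * G (y + Pi.single 0 γ))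
    (hc : ∀ (y : TT (d + 1)) (γ : UnitAddCircle), (cnt N E (y - Pi.single 0 γ) : ℝ) ≤ N * g y) :
    ∫ x in E, f x ≤ (A * ∫ γ, v γ) * ∫ y, g y * G y := by
  have hN0 : (0 : ℝ) < N := by exact_mod_cast hN
  have h1 := avg (N := N) (F := fun y => A * ∫ γ, v γ * G (y + Pi.single 0 γ)) hE hf
    (continuous_const.mul (cont_F hG hv)) h
  simp_rw [mul_left_comm _ A] at h1
  rw [integral_const_mul, fub (B := N) (measurable_cnt N hE)
    (fun x => ⟨Nat.cast_nonneg _, by exact_mod_cast cnt_le N E x⟩) hG hv] at h1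
  have h2 : ∫ γ, v γ * ∫ y, (cnt N E (y - Pi.single 0 γ) : ℝ) * G y ≤
      (∫ γ, v γ) * (N * ∫ y, g y * G y) := by
    rw [← integral_mul_const]
    refine integral_mono_of_nonneg (Filter.Eventually.of_forall fun γ =>
      mul_nonneg (v0 γ) (integral_nonneg fun y => mul_nonneg (Nat.cast_nonneg _) (G0 y)))
      ((cint hv).mul_const _) (Filter.Eventually.of_forall fun γ => ?_)
    refine mul_le_mul_of_nonneg_left ?_ (v0 γ)
    rw [← integral_const_mul]
    refine integral_mono_of_nonneg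
      (Filter.Eventually.of_forall fun y => mul_nonneg (Nat.cast_nonneg _) (G0 y))
      ((bint hg hB hG).const_mul _) (Filter.Eventually.of_forall fun y => ?_)
    simp only
    rw [← mul_assoc]
    exact mul_le_mul_of_nonneg_right (hc y γ) (G0 y)
  refine le_of_mul_le_mul_left
    (h1.trans ((mul_le_mul_of_nonneg_left h2 hA).trans (le_of_eq ?_))) hN0
  ring

end AVG

open AVG in
theorem blk_AVG (hK : St_KER) : St_AVG := by
  intro s ε hs hε
  have hs0 : (0 : ℝ) < s := by exact_mod_cast hs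
  obtain ⟨e, he⟩ : ∃ e : ℝ, e = ε / (2 * s) := ⟨_, rfl⟩
  have he0 : 0 < e := by rw [he]; positivity
  refine ⟨max 1 ((3 * 2 ^ e / e) ^ (2 * s)), le_max_left _ _, ?_⟩
  intro d N L E g B hN hL hE hg hB hc
  have hN0 : (0 : ℝ) < N := by exact_mod_cast hN
  have hW0 : 0 ≤ ∫ γ, w N γ := integral_nonneg (w_nonneg N)
  have hI0 : 0 ≤ ∫ y, g y * ‖S L y‖ ^ (2 * s) :=
    integral_nonneg fun y => mul_nonneg (hB y).1 (by positivity)
  have h := main (f := fun x => ‖S N x‖ ^ (2 * s)) (G := fun y => ‖S L y‖ ^ (2 * s))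
    (A := (∫ γ, w N γ) ^ (2 * s - 1)) hN hE (by fun_prop) (by fun_prop) (continuous_w N) hg hB
    (pow_nonneg hW0 _) (fun _ => by positivity) (w_nonneg N) (fun t ht y => by
      have := pointwise (N := N) (L := L) (a := t + 1) (q := 2 * s) hN (by omega) (by omega) y
      rwa [Nat.cast_add, Nat.cast_one] at this) hc
  refine h.trans (mul_le_mul_of_nonneg_right ?_ hI0)
  rw [← pow_succ, show 2 * s - 1 + 1 = 2 * s by omega]
  refine (pow_le_pow_left₀ hW0 (mass hK hN he0) _).trans ?_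
  rw [mul_pow, ← Real.rpow_natCast ((N : ℝ) ^ e), ← Real.rpow_mul hN0.le,
    show e * ((2 * s : ℕ) : ℝ) = ε by rw [he]; push_cast; field_simp]
  exact mul_le_mul_of_nonneg_right (le_max_right _ _) (by positivity)

end Pool.Agent.Lib.WC
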