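import Pool.Agent.Lib.WC.Blue

/-! The bilinear reduction. -/

namespace Pool.Agent.Lib.WC

open MeasureTheory Finset

namespace BN

/-- The inequality of Cauchy and Schwarz in the form used below. -/
lemma cs {n : ℕ} {p u v : TT n → ℝ} {X Y Z : ℝ} (hu : Continuous u) (hv : Continuous v)
    (p0 : ∀ x, 0 ≤ p x) (u0 : ∀ x, 0 ≤ u x) (v0 : ∀ x, 0 ≤ v x) (h : ∀ x, p x ^ 2 = u x * v x)
    (hX : ∫ x, u x ≤ X) (hY : ∫ x, v x ≤ Y) (hZ : 0 ≤ Z) (hXY : X * Y ≤ Z ^ 2) :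
    ∫ x, p x ≤ Z := by
  have H := holder (μ := volume) (cint hu) (cint hv) u0 v0 (θ := 1 / 2) (by norm_num) (by norm_num)
  have e : ∀ a b : ℝ, 0 ≤ a → 0 ≤ b → a ^ (1 / 2 : ℝ) * b ^ (1 - 1 / 2 : ℝ) = √(a * b) :=
    fun a b ha hb => by
      rw [show (1 - 1 / 2 : ℝ) = 1 / 2 by norm_num, ← Real.mul_rpow ha hb, Real.sqrt_eq_rpow]
  have hU : 0 ≤ ∫ x, u x := integral_nonneg u0
  have hV : 0 ≤ ∫ x, v x := integral_nonneg v0
  rw [e _ _ hU hV] at H
  have e2 : ∀ x, u x ^ (1 / 2 : ℝ) * v x ^ (1 - 1 / 2 : ℝ) = p x := fun x => by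
    rw [e _ _ (u0 x) (v0 x), ← h x, Real.sqrt_sq (p0 x)]
  simp_rw [e2] at H
  refine H.trans (Real.sqrt_le_iff.2 ⟨hZ, le_trans ?_ hXY⟩)
  exact mul_le_mul hX hY hV (hU.trans hX)

lemma amgm {c a b : ℝ} (s : ℕ) (ha : 0 ≤ a) (hb : 0 ≤ b) :
    (c ^ s) ^ 2 * (a * b) ^ s ≤ ((c * ((a + b) / 2)) ^ s) ^ 2 := by
  have h : a * b ≤ ((a + b) / 2) ^ 2 := by nlinarith [sq_nonneg (a - b)]
  rw [mul_pow c, mul_pow (c ^ s), ← pow_mul ((a + b) / 2), mul_comm s 2, pow_mul]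
  exact mul_le_mul_of_nonneg_left (pow_le_pow_left₀ (mul_nonneg ha hb) h s) (sq_nonneg _)

/-- The sum of the weights of one row. -/
lemma row_le {T : Finset ℤ} {κ : ℕ} (hT : T ⊆ Ico (0 : ℤ) κ) {D B : ℝ} (hD : 0 ≤ D) (hB : 0 ≤ B)
    (J : ℤ) : ∑ J' ∈ T, (if |J - J'| ≤ 1 then D else B) ≤ 3 * D + κ * B := by
  rw [sum_ite, sum_const, sum_const, nsmul_eq_mul, nsmul_eq_mul]
  have h1 : (T.filter fun J' => |J - J'| ≤ 1).card ≤ 3 := by
    refine le_trans (card_le_card (t := Icc (J - 1) (J + 1)) fun j hj => ?_) ?_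
    · have := abs_le.1 (mem_filter.1 hj).2
      rw [mem_Icc]; omega
    · rw [Int.card_Icc]; omega
  have h2 : (T.filter fun J' => ¬ |J - J'| ≤ 1).card ≤ κ := by
    refine le_trans (card_le_card ((filter_subset _ _).trans hT)) ?_
    rw [Int.card_Ico]; omega
  have h1' : ((T.filter fun J' => |J - J'| ≤ 1).card : ℝ) ≤ 3 := by exact_mod_cast h1
  have h2' : ((T.filter fun J' => ¬ |J - J'| ≤ 1).card : ℝ) ≤ κ := by exact_mod_cast h2
  gcongr

/-- The sum of all weights. -/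
lemma all_le {T : Finset ℤ} {κ : ℕ} (hT : T ⊆ Ico (0 : ℤ) κ) {D B : ℝ} (hD : 0 ≤ D) (hB : 0 ≤ B)
    {A : ℤ → ℝ} (hA : ∀ J, 0 ≤ A J) :
    ∑ p ∈ T ×ˢ T, (if |p.1 - p.2| ≤ 1 then D else B) * ((A p.1 + A p.2) / 2) ≤
      (3 * D + κ * B) * ∑ J ∈ T, A J := by
  have h1 : ∑ J ∈ T, ∑ J' ∈ T, (if |J - J'| ≤ 1 then D else B) * A J ≤
      (3 * D + κ * B) * ∑ J ∈ T, A J := by
    rw [mul_sum]
    refine sum_le_sum fun J _ => ?_
    rw [← sum_mul]
    exact mul_le_mul_of_nonneg_right (row_le hT hD hB J) (hA J)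
  have h2 : ∑ J ∈ T, ∑ J' ∈ T, (if |J - J'| ≤ 1 then D else B) * A J' =
      ∑ J ∈ T, ∑ J' ∈ T, (if |J - J'| ≤ 1 then D else B) * A J := by
    rw [sum_comm]
    simp_rw [abs_sub_comm]
  rw [sum_product]
  have h3 : ∀ J J' : ℤ, (if |J - J'| ≤ 1 then D else B) * ((A J + A J') / 2) =
      ((if |J - J'| ≤ 1 then D else B) * A J + (if |J - J'| ≤ 1 then D else B) * A J') / 2 :=
    fun J J' => by ring
  simp_rw [h3, ← sum_div, sum_add_distrib]
  rw [h2]; linarith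

/-- Groups that are not adjacent are separated. -/
lemma sep {a i j J J' : ℤ} {w κ n : ℕ} (hn : n ≤ κ * w)
    (hi : i ∈ Ico (a + J * w) (a + J * w + w)) (hj : j ∈ Ico (a + J' * w) (a + J' * w + w))
    (h : ¬ |J - J'| ≤ 1) : (n : ℤ) ≤ κ * |i - j| := by
  rw [mem_Ico] at hi hj
  have hw : (0 : ℤ) ≤ w := Int.natCast_nonneg w
  have h1 : (w : ℤ) ≤ |i - j| := by
    rw [le_abs]
    rcases le_or_gt J J' with hJ | hJ
    · have : J + 2 ≤ J' := by
        rw [abs_le] at h; omega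
      right; nlinarith [mul_le_mul_of_nonneg_right this hw]
    · have : J' + 2 ≤ J := by
        rw [abs_le] at h; omega
      left; nlinarith [mul_le_mul_of_nonneg_right this hw]
  have h2 : (n : ℤ) ≤ κ * w := by exact_mod_cast hn
  exact h2.trans (mul_le_mul_of_nonneg_left h1 (Int.natCast_nonneg κ))

/-- One step of the reduction. -/
lemma step (k l κ n w : ℕ) (D B : ℝ) (hk : 1 ≤ k) (hl : l ≤ k) (hw : 1 ≤ w) (hn : n ≤ κ * w)
    (hD : 0 ≤ D) (hB : 0 ≤ B) (hDec : Dec k w D) (hBil : Bil k l κ n n n B) :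
    Dec k n (3 * D + κ * B) := by
  intro m F c σ a I f hσ hI hf
  have hs : 1 ≤ sd k := one_le_sd hk
  have hls : sd l ≤ sd k := sd_mono hl
  set g : ℤ → ℤ := fun j => (j - a) / w with hg
  set T := I.image g with hTd
  set G : ℤ → Finset ℤ := fun J => I.filter fun j => g j = J with hG
  set Φ : ℤ → TT m → ℂ := fun J => ∑ j ∈ G J, f j with hΦ
  set A : ℤ → ℝ := fun J => ∑ j ∈ G J, nn (sd k) (f j) with hA
  have A0 : ∀ J, 0 ≤ A J := fun J => sum_nonneg fun _ _ => nn_nonneg _ _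
  have hGI : ∀ J, G J ⊆ I := fun J => filter_subset _ _
  have hGw : ∀ J, G J ⊆ Ico (a + J * w) (a + J * w + w) := fun J j hj =>
    (ediv_eq_iff hw).1 (mem_filter.1 hj).2
  have hΦc : ∀ J, Continuous (Φ J) := fun J => by
    have : Φ J = fun x => ∑ j ∈ G J, f j x := by ext x; simp [hΦ, Finset.sum_apply]
    rw [this]
    exact continuous_finsetSum _ fun j hj => Sp_cont (hf j (hGI J hj))
  have hT : T ⊆ Ico (0 : ℤ) κ := fun J hJ => by
    obtain ⟨j, hj, rfl⟩ := mem_image.1 hJ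
    have h1 := mem_Ico.1 (hI hj)
    have hw' : (0 : ℤ) < w := by exact_mod_cast hw
    have h2 : (n : ℤ) ≤ κ * w := by exact_mod_cast hn
    rw [mem_Ico]
    exact ⟨Int.ediv_nonneg (by linarith) hw'.le, (Int.ediv_lt_iff_lt_mul hw').2 (by linarith)⟩
  have hone : ∀ J, ∫ x, ‖Φ J x‖ ^ (2 * sd k) ≤ (D * A J) ^ sd k := fun J =>
    (nn_le_iff hs (mul_nonneg hD (A0 J))).1
      (hDec m F c σ _ (G J) f hσ (hGw J) fun j hj => hf j (hGI J hj))
  have htwo : ∀ J J', ¬ |J - J'| ≤ 1 →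
      ∫ x, ‖Φ J x‖ ^ (2 * sd l) * ‖Φ J' x‖ ^ (2 * (sd k - sd l)) ≤
        B ^ sd k * A J ^ sd l * A J' ^ (sd k - sd l) := fun J J' h =>
    hBil m F c σ a a a (G J) (G J') f f hσ ((hGI J).trans hI) ((hGI J').trans hI)
      ((hGI J).trans hI) ((hGI J').trans hI) (fun i hi j hj => sep hn (hGw J hi) (hGw J' hj) h)
      (fun j hj => hf j (hGI J hj)) fun j hj => hf j (hGI J' hj)
  have hpair : ∀ J J', ∫ x, (‖Φ J x‖ * ‖Φ J' x‖) ^ sd k ≤
      ((if |J - J'| ≤ 1 then D else B) * ((A J + A J') / 2)) ^ sd k := fun J J' => by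
    have c1 := hΦc J
    have c2 := hΦc J'
    have a1 := A0 J
    have a2 := A0 J'
    split_ifs with h
    · refine cs (u := fun x => ‖Φ J x‖ ^ (2 * sd k)) (v := fun x => ‖Φ J' x‖ ^ (2 * sd k))
        (by fun_prop) (by fun_prop) (fun x => by positivity) (fun x => by positivity)
        (fun x => by positivity) (fun x => by ring) (hone J) (hone J') (by positivity)
        (le_trans (le_of_eq (by ring)) (amgm (c := D) (sd k) a1 a2))
    · obtain ⟨r, hr⟩ := Nat.exists_eq_add_of_le hls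
      have h1 := htwo J J' h
      have h2 := htwo J' J (by rwa [abs_sub_comm])
      rw [hr, Nat.add_sub_cancel_left] at h1 h2
      rw [hr]
      refine cs (u := fun x => ‖Φ J x‖ ^ (2 * sd l) * ‖Φ J' x‖ ^ (2 * r))
        (v := fun x => ‖Φ J' x‖ ^ (2 * sd l) * ‖Φ J x‖ ^ (2 * r))
        (by fun_prop) (by fun_prop) (fun x => by positivity) (fun x => by positivity)
        (fun x => by positivity) (fun x => by ring) h1 h2 (by positivity)
        (le_trans (le_of_eq (by ring)) (amgm (c := B) (sd l + r) a1 a2))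
  have hβ : ∀ p : ℤ × ℤ, 0 ≤ (if |p.1 - p.2| ≤ 1 then D else B) * ((A p.1 + A p.2) / 2) :=
    fun p => mul_nonneg (by split_ifs <;> assumption) (by linarith [A0 p.1, A0 p.2])
  have hM := minkowski (μ := volume) (T ×ˢ T) (w := fun _ : TT m => 1)
    (a := fun p x => ‖Φ p.1 x‖ * ‖Φ p.2 x‖)
    (β := fun p => (if |p.1 - p.2| ≤ 1 then D else B) * ((A p.1 + A p.2) / 2)) hs
    (fun _ => zero_le_one) (fun _ _ _ => by positivity) (fun p _ => hβ p)
    (fun p _ => by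
      have c1 := hΦc p.1
      have c2 := hΦc p.2
      exact cint (by fun_prop))
    (fun p _ => by simpa only [one_mul] using hpair p.1 p.2)
  simp only [one_mul] at hM
  rw [sum_group I g fun j => nn (sd k) (f j), sum_group I g f]
  change nn (sd k) (∑ J ∈ T, Φ J) ≤ (3 * D + κ * B) * ∑ J ∈ T, A J
  rw [nn_le_iff hs (mul_nonneg (by positivity) (sum_nonneg fun J _ => A0 J))]
  refine le_trans ?_ (hM.trans (pow_le_pow_left₀ (sum_nonneg fun p _ => hβ p)
    (all_le hT hD hB A0) _))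
  refine integral_mono_of_nonneg (Filter.Eventually.of_forall fun x => by positivity)
    (cint ((continuous_finsetSum _ fun p _ => (hΦc p.1).norm.mul (hΦc p.2).norm).pow _))
    (Filter.Eventually.of_forall fun x => ?_)
  simp only
  rw [pow_mul, Finset.sum_apply, sum_product]
  simp only
  rw [← sum_mul_sum, ← sq]
  exact pow_le_pow_left₀ (by positivity)
    (pow_le_pow_left₀ (norm_nonneg _) (norm_sum_le _ _) 2) _

/-- The iteration of the reduction. -/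
lemma iter (hC : St_C1) (k : ℕ) (η : ℝ) (hk : 1 ≤ k) (hη : 0 < η)
    (h : ∀ κ : ℕ, 1 ≤ κ → ∃ l, l ≤ k ∧ ∃ C : ℝ, 1 ≤ C ∧
      ∀ n : ℕ, 1 ≤ n → Bil k l κ n n n (C * (n : ℝ) ^ η)) : DecE k η := by
  obtain ⟨κ, hκ3, hκ⟩ : ∃ κ : ℕ, 3 ≤ κ ∧ (6 : ℝ) ≤ ((κ : ℝ) / 2) ^ η := by
    refine ⟨⌈2 * (6 : ℝ) ^ η⁻¹⌉₊ + 3, by omega, ?_⟩
    have h1 := Nat.le_ceil (2 * (6 : ℝ) ^ η⁻¹)
    have h2 : (6 : ℝ) ^ η⁻¹ ≤ ((⌈2 * (6 : ℝ) ^ η⁻¹⌉₊ + 3 : ℕ) : ℝ) / 2 := by
      push_cast; linarith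
    refine le_trans (le_of_eq ?_) (Real.rpow_le_rpow (by positivity) h2 hη.le)
    rw [Real.rpow_inv_rpow (by norm_num) hη.ne']
  obtain ⟨l, hl, C, hC1, hB⟩ := h κ (by omega)
  have hκr : (3 : ℝ) ≤ κ := by exact_mod_cast hκ3
  have hK : (κ : ℝ) ≤ 2 * κ * C := by nlinarith
  refine ⟨2 * κ * C, by linarith, fun n => ?_⟩
  induction n using Nat.strong_induction_on with
  | _ n ih =>
    intro hn
    have hn1 : (1 : ℝ) ≤ n := by exact_mod_cast hn
    have hp : 1 ≤ (n : ℝ) ^ η := Real.one_le_rpow hn1 hη.le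
    rcases le_or_gt n κ with hnκ | hnκ
    · refine (hC.triv k n hk).mono ?_
      have : (n : ℝ) ≤ κ := by exact_mod_cast hnκ
      nlinarith
    · set w := (n + κ - 1) / κ with hwd
      have e1 := Nat.div_add_mod (n + κ - 1) κ
      have e2 := Nat.mod_lt (n + κ - 1) (by omega : κ > 0)
      rw [← hwd] at e1
      have hw1 : n ≤ κ * w := by omega
      have hw2 : κ * w ≤ 2 * n := by omega
      have hw0 : 1 ≤ w := by
        rcases Nat.eq_zero_or_pos w with h0 | h0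
        · rw [h0] at hw1; omega
        · exact h0
      have hwn : w < n := by nlinarith
      have hwr : (κ : ℝ) / 2 * w ≤ n := by
        have : ((κ * w : ℕ) : ℝ) ≤ (2 * n : ℕ) := by exact_mod_cast hw2
        push_cast at this; linarith
      have hw6 : 6 * (w : ℝ) ^ η ≤ (n : ℝ) ^ η := by
        refine le_trans ?_ (Real.rpow_le_rpow (by positivity) hwr hη.le)
        rw [Real.mul_rpow (by positivity) (by positivity)]
        exact mul_le_mul_of_nonneg_right hκ (by positivity)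
      refine (step k l κ n w _ _ hk hl hw0 hw1 (by positivity) (by positivity) (ih w hwn hw0)
        (hB n hn)).mono ?_
      have : 0 ≤ (κ : ℝ) * C := by positivity
      nlinarith [mul_le_mul_of_nonneg_left hw6 this]

end BN

theorem blk_BN (hC : St_C1) : St_BN := ⟨BN.step, BN.iter hC⟩

end Pool.Agent.Lib.WC
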