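import Pool.Agent.Lib.WC.Blue

/-! The bootstrap of the bilinear estimates. -/

namespace Pool.Agent.Lib.WC

namespace BOOT1

/-- the gains after `m` rounds -/
noncomputable def al (k : ℕ) : ℕ → ℕ → ℝ
  | 0, l => if l = 0 then 1 else 0
  | m + 1, l => if l = 0 then 1 else
      al k m (k - l) / l + ((k : ℝ) - l) / ((k : ℝ) - l + 1) * al k m (l - 1)

lemma al_zero (k m : ℕ) : al k m 0 = 1 := by cases m <;> simp [al]

lemma sum_al (r m : ℕ) : ∑ i ∈ Finset.range r, al (r + 1) m (i + 1) = m * r / (r + 1) := by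
  induction m with
  | zero => simp [al]
  | succ m ih =>
    set f : ℕ → ℝ := fun j => al (r + 1) m (j + 1) / ((r : ℝ) - j) with hf
    set g : ℕ → ℝ := fun i => ((r : ℝ) - i) / ((r : ℝ) - i + 1) * al (r + 1) m i with hg
    have h1 : ∀ i ∈ Finset.range r, al (r + 1) (m + 1) (i + 1) = f (r - 1 - i) + g i := by
      intro i hi
      rw [Finset.mem_range] at hi
      have e1 : r - 1 - i + 1 = r + 1 - (i + 1) := by omega
      have e2 : ((r - 1 - i : ℕ) : ℝ) = r - 1 - i := by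
        rw [Nat.sub_sub, Nat.cast_sub (by omega)]; push_cast; ring
      simp only [al, hf, hg, e1, e2, Nat.succ_ne_zero, if_false, Nat.add_sub_cancel]
      push_cast
      congr 2 <;> ring
    have h2 : ∑ i ∈ Finset.range r, g i = ∑ i ∈ Finset.range r, g (i + 1) + g 0 := by
      rw [← Finset.sum_range_succ', Finset.sum_range_succ]
      simp [hg]
    have h3 : ∀ i ∈ Finset.range r, f i + g (i + 1) = al (r + 1) m (i + 1) := by
      intro i hi
      have : (i : ℝ) < r := by exact_mod_cast Finset.mem_range.mp hi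
      have e : (r : ℝ) - i ≠ 0 := by linarith
      simp only [hf, hg]
      push_cast
      rw [show (r : ℝ) - (i + 1) + 1 = r - i by ring]
      field_simp
      ring
    rw [Finset.sum_congr rfl h1, Finset.sum_add_distrib, Finset.sum_range_reflect f r, h2,
      ← add_assoc, ← Finset.sum_add_distrib, Finset.sum_congr rfl h3, ih]
    simp only [hg, al_zero]
    push_cast
    field_simp
    ring

lemma exists_al {k : ℕ} (hk : 2 ≤ k) (m : ℕ) : ∃ l, 1 ≤ l ∧ l < k ∧ (m : ℝ) / k ≤ al k m l := by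
  obtain ⟨r, rfl⟩ : ∃ r, k = r + 1 := ⟨k - 1, by omega⟩
  obtain ⟨i, hi, h⟩ := Finset.exists_le_of_sum_le (s := Finset.range r)
    (f := fun _ => (m : ℝ) / ((r + 1 : ℕ) : ℝ)) (g := fun i => al (r + 1) m (i + 1))
    ⟨0, Finset.mem_range.mpr (by omega)⟩ (by
      rw [sum_al, Finset.sum_const, Finset.card_range, nsmul_eq_mul]
      push_cast
      exact le_of_eq (by ring))
  exact ⟨i + 1, by omega, by have := Finset.mem_range.mp hi; omega, h⟩

/-- the inductive claim -/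
def Cl (k : ℕ) (η : ℝ) (m l : ℕ) : Prop :=
  ∀ (κ : ℕ) (b ε : ℝ), 1 ≤ κ → 0 ≤ b → b ≤ 1 / (k : ℝ) ^ m → 0 < ε →
    ∃ C : ℝ, 1 ≤ C ∧ ∀ n u : ℕ, 1 ≤ n → 1 ≤ u → (u : ℝ) ≤ 2 * (n : ℝ) ^ (1 - b) →
      Bil k l κ n n u (C * (n : ℝ) ^ (η * (1 - al k m l * b) + ε))

lemma cl_zero (hH : St_HOL) {k : ℕ} {η : ℝ} (hk : 2 ≤ k) (hη : 0 < η) (hD : DecE k η) (m : ℕ) :
    Cl k η m 0 := by
  intro κ b ε _ _ _ hε
  obtain ⟨C, hC, h⟩ := hD
  have h2 : (1 : ℝ) ≤ 2 ^ η := Real.one_le_rpow one_le_two hη.le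
  refine ⟨C * 2 ^ η, one_le_mul_of_one_le_of_one_le hC h2, fun n u hn hu hun => ?_⟩
  have hn' : (1 : ℝ) ≤ n := by exact_mod_cast hn
  refine (hH.zero k κ n n u _ (by omega) (h u hu)).mono (by positivity) ?_
  rw [mul_assoc, al_zero, one_mul]
  refine mul_le_mul_of_nonneg_left ?_ (by linarith)
  calc (u : ℝ) ^ η ≤ (2 * (n : ℝ) ^ (1 - b)) ^ η := Real.rpow_le_rpow (by positivity) hun hη.le
    _ = 2 ^ η * (n : ℝ) ^ (η * (1 - b)) := by
        rw [Real.mul_rpow (by positivity) (by positivity), ← Real.rpow_mul (by positivity),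
          mul_comm (1 - b)]
    _ ≤ _ := mul_le_mul_of_nonneg_left
        (Real.rpow_le_rpow_of_exponent_le hn' (by linarith)) (by positivity)

lemma cl_base (hH : St_HOL) {k l : ℕ} {η : ℝ} (hk : 2 ≤ k) (hD : DecE k η) (hl : 1 ≤ l)
    (hlk : l < k) : Cl k η 0 l := by
  intro κ b ε _ _ _ hε
  obtain ⟨C, hC, h⟩ := hD
  refine ⟨C, hC, fun n u hn _ _ => ?_⟩
  have hn' : (1 : ℝ) ≤ n := by exact_mod_cast hn
  refine (hH.triv k l κ n n u _ (by omega) hlk.le (h n hn)).mono (by positivity) ?_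
  refine mul_le_mul_of_nonneg_left (Real.rpow_le_rpow_of_exponent_le hn' ?_) (by linarith)
  rw [al, if_neg (by omega)]
  linarith

lemma ld_cond {k l i n u u' : ℕ} {b b' : ℝ} (hn : 1 ≤ n) (hi : i ≤ k) (hb : b' * l ≤ b * i)
    (hu : (u : ℝ) ≤ 2 * (n : ℝ) ^ (1 - b)) (hu' : (n : ℝ) ^ (1 - b') ≤ u') :
    u ^ i * n ^ l ≤ 2 ^ k * (u' ^ l * n ^ i) := by
  have hn' : (1 : ℝ) ≤ n := by exact_mod_cast hn
  have h0 : (0 : ℝ) < n := by linarith
  have : (u : ℝ) ^ i * n ^ l ≤ 2 ^ k * (u' ^ l * n ^ i) :=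
    calc (u : ℝ) ^ i * n ^ l ≤ (2 * (n : ℝ) ^ (1 - b)) ^ i * n ^ l := by gcongr
      _ = 2 ^ i * (n : ℝ) ^ ((1 - b) * i + l) := by
          rw [mul_pow, Real.rpow_add h0, Real.rpow_mul_natCast h0.le, Real.rpow_natCast, mul_assoc]
      _ ≤ 2 ^ k * (n : ℝ) ^ ((1 - b') * l + i) :=
          mul_le_mul (pow_le_pow_right₀ one_le_two hi)
            (Real.rpow_le_rpow_of_exponent_le hn' (by linarith)) (by positivity) (by positivity)
      _ = 2 ^ k * (((n : ℝ) ^ (1 - b')) ^ l * n ^ i) := by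
          rw [Real.rpow_add h0, Real.rpow_mul_natCast h0.le, Real.rpow_natCast]
      _ ≤ _ := by gcongr
  exact_mod_cast this

lemma cl_step (hL : St_LD) (hH : St_HOL) {k l m : ℕ} {η : ℝ} (hl : 1 ≤ l) (hlk : l < k)
    (hA : DecAll l) (h1 : Cl k η m (k - l)) (h2 : Cl k η m (l - 1)) : Cl k η (m + 1) l := by
  intro κ b ε hκ hb0 hb hε
  have hl' : (1 : ℝ) ≤ l := by exact_mod_cast hl
  have hlk' : (l : ℝ) < k := by exact_mod_cast hlk
  have hk' : (1 : ℝ) ≤ k := by linarith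
  have hkm : (1 : ℝ) ≤ (k : ℝ) ^ m := one_le_pow₀ hk'
  have hkb : k * b ≤ 1 / (k : ℝ) ^ m :=
    (mul_le_mul_of_nonneg_left hb (by positivity)).trans_eq (by rw [pow_succ]; field_simp)
  set b' : ℝ := ((k : ℝ) - l + 1) * b / l with hb'
  have hd : (0 : ℝ) < k - l + 1 := by linarith
  have hb'0 : 0 ≤ b' := by positivity
  have hb'1 : b' ≤ 1 / (k : ℝ) ^ m :=
    ((div_le_self (by positivity) hl').trans
      (mul_le_mul_of_nonneg_right (by linarith) hb0)).trans hkb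
  have hb'2 : b' ≤ 1 := hb'1.trans ((div_le_one (by positivity)).mpr hkm)
  have hbl : b' * l = ((k : ℝ) - l + 1) * b := by rw [hb']; field_simp
  obtain ⟨C1, hC1, h1⟩ := h1 κ b' (ε / 2) hκ hb'0 hb'1 (by positivity)
  obtain ⟨C2, hC2, h2⟩ := h2 κ b (ε / 2) hκ hb0
    ((le_mul_of_one_le_left hb0 hk').trans hkb) (by positivity)
  obtain ⟨C, hC, h3⟩ := hL k l κ (2 ^ k) (ε / 2) hl hlk hκ (by positivity) hA
  refine ⟨C * (C1 * C2), one_le_mul_of_one_le_of_one_le hC
    (one_le_mul_of_one_le_of_one_le hC1 hC2), fun n u hn hu hun => ?_⟩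
  have hn' : (1 : ℝ) ≤ n := by exact_mod_cast hn
  have h0 : (0 : ℝ) < n := by linarith
  have p1 : (1 : ℝ) ≤ (n : ℝ) ^ (1 - b') := Real.one_le_rpow hn' (by linarith)
  have p2 : (n : ℝ) ^ (1 - b') ≤ n := by
    simpa using Real.rpow_le_rpow_of_exponent_le hn' (show 1 - b' ≤ 1 by linarith)
  set u' : ℕ := ⌈(n : ℝ) ^ (1 - b')⌉₊ with hu'
  have q1 : 1 ≤ u' := Nat.one_le_iff_ne_zero.mpr (Nat.ceil_pos.mpr (by linarith)).ne'
  have q2 : u' ≤ n := Nat.ceil_le.mpr p2
  have q3 : (u' : ℝ) ≤ 2 * (n : ℝ) ^ (1 - b') := by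
    have := Nat.ceil_lt_add_one (show 0 ≤ (n : ℝ) ^ (1 - b') by linarith)
    linarith
  have h4 := hH.hol k l κ n u' u _ _ hl hlk (by positivity) (by positivity) (h1 n u' hn q1 q3)
    (h2 n u hn hu hun)
  have h5 := h3 n u' u _ q1 q2 hu (by positivity) (fun i hi hik => ld_cond hn hik (by
    have : (k : ℝ) - l + 1 ≤ i := by
      have : k + 1 ≤ i + l := by omega
      have : (k : ℝ) + 1 ≤ i + l := by exact_mod_cast this
      linarith
    rw [hbl, mul_comm b]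
    exact mul_le_mul_of_nonneg_right this hb0) hun (Nat.le_ceil _)) h4
  refine h5.mono (by positivity) ?_
  have t1 : C1 ^ (1 / ((k : ℝ) - l + 1)) ≤ C1 := by
    simpa using Real.rpow_le_rpow_of_exponent_le hC1
      (show 1 / ((k : ℝ) - l + 1) ≤ 1 from (div_le_one hd).mpr (by linarith))
  have t2 : C2 ^ (((k : ℝ) - l) / ((k : ℝ) - l + 1)) ≤ C2 := by
    simpa using Real.rpow_le_rpow_of_exponent_le hC2
      (show ((k : ℝ) - l) / ((k : ℝ) - l + 1) ≤ 1 from (div_le_one hd).mpr (by linarith))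
  have e : η * (1 - al k (m + 1) l * b) + ε = ε / 2 +
      ((η * (1 - al k m (k - l) * b') + ε / 2) * (1 / ((k : ℝ) - l + 1)) +
        (η * (1 - al k m (l - 1) * b) + ε / 2) * (((k : ℝ) - l) / ((k : ℝ) - l + 1))) := by
    rw [al, if_neg (by omega), hb']
    field_simp
    ring
  rw [e, Real.mul_rpow (by positivity) (by positivity),
    Real.mul_rpow (by positivity) (by positivity), ← Real.rpow_mul h0.le, ← Real.rpow_mul h0.le,
    Real.rpow_add h0, Real.rpow_add h0]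
  calc _ = C * (C1 ^ (1 / ((k : ℝ) - l + 1)) * C2 ^ (((k : ℝ) - l) / ((k : ℝ) - l + 1))) * _ := ?_
    _ ≤ _ := mul_le_mul_of_nonneg_right (by gcongr) (by positivity)
  ring

end BOOT1

open BOOT1 in
theorem blk_BOOT1 (hL : St_LD) (hH : St_HOL) : St_BOOT1 := by
  intro k η m hk hη hA hD
  have key : ∀ m l, l < k → Cl k η m l := by
    intro m
    induction m with
    | zero =>
      intro l hl
      rcases Nat.eq_zero_or_pos l with rfl | h0
      · exact cl_zero hH hk hη hD 0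
      · exact cl_base hH hk hD h0 hl
    | succ m ih =>
      intro l hl
      rcases Nat.eq_zero_or_pos l with rfl | h0
      · exact cl_zero hH hk hη hD _
      · exact cl_step hL hH h0 hl (hA l h0 hl) (ih _ (by omega)) (ih _ (by omega))
  obtain ⟨l, h1, h2, h3⟩ := exists_al hk m
  refine ⟨l, h1, h2, fun κ b ε hκ hb0 hb hε => ?_⟩
  obtain ⟨C, hC, h⟩ := key m l h2 κ b ε hκ hb0 hb hε
  refine ⟨C, hC, fun n u hn hu hun => (h n u hn hu hun).mono (by positivity) ?_⟩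
  refine mul_le_mul_of_nonneg_left
    (Real.rpow_le_rpow_of_exponent_le (by exact_mod_cast hn) ?_) (by linarith)
  have := mul_le_mul_of_nonneg_left (mul_le_mul_of_nonneg_right h3 hb0) hη.le
  linarith

end Pool.Agent.Lib.WC
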