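import Pool.Agent.Lib.WC.Blue

/-! From the cube in Euclidean space to the torus. -/

namespace Pool.Agent.Lib.WC

open MeasureTheory Finset

namespace BR

lemma weyl_eq (k N : ℕ) (x : Fin k → ℝ) :
    MP_4e7873_nt.weylSum k N x = S N (k := k) fun j => (x j : UnitAddCircle) := by
  rw [MP_4e7873_nt.weylSum, S, ← Finset.Ico_add_one_right_eq_Icc, Finset.sum_Ico_eq_sum_range,
    Nat.add_sub_cancel]
  refine sum_congr rfl fun n _ => ?_
  rw [← ee_coe, ph]
  congr 1
  have h : ∀ j : Fin k, ((n : ℤ) + 1) ^ (j.val + 1) • (x j : UnitAddCircle) =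
      ((x j * ((1 + n : ℕ) : ℝ) ^ (j.val + 1) : ℝ) : UnitAddCircle) := fun j => by
    rw [← AddCircle.coe_zsmul, zsmul_eq_mul]
    congr 1
    push_cast
    ring
  simp only [h]
  exact map_sum (QuotientAddGroup.mk' _) _ _

lemma mp (k : ℕ) (ξ : Fin k → ℝ) :
    MeasurePreserving (fun (x : Fin k → ℝ) (j : Fin k) => (x j : UnitAddCircle))
      (volume.restrict (Set.univ.pi fun j => Set.Ioc (ξ j) (ξ j + 1))) (volume : Measure (TT k)) := by
  rw [volume_pi, Measure.restrict_pi_pi]
  exact measurePreserving_pi _ _ fun j => UnitAddCircle.measurePreserving_mk (ξ j)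

end BR

open BR in
theorem blk_BR : St_BR := by
  intro k N s δ ξ hs hδ h1
  have hc : Continuous fun x : TT k => ‖S N x‖ ^ (2 * s) :=
    (Real.continuous_rpow_const (by positivity)).comp (by fun_prop)
  have hm := mp k ξ
  have hi : Integrable (fun x : Fin k → ℝ => ‖S N (k := k) fun j => (x j : UnitAddCircle)‖ ^ (2 * s))
      (volume.restrict (Set.univ.pi fun j => Set.Ioc (ξ j) (ξ j + 1))) :=
    (hm.integrable_comp hc.aestronglyMeasurable).2 (cint hc)
  rw [← setInt_mp hm Metric.isClosed_closedBall.measurableSet hc.aestronglyMeasurable,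
    MP_4e7873_nt.localMean]
  simp only [weyl_eq]
  have hA : (Set.univ.pi fun j => Set.Ioc (ξ j) (ξ j + δ)) =ᵐ[(volume : Measure (Fin k → ℝ))]
      Set.Icc ξ fun j => ξ j + δ := Measure.univ_pi_Ioc_ae_eq_Icc
  have hsub : (Set.univ.pi fun j => Set.Ioc (ξ j) (ξ j + δ)) ⊆
      Set.univ.pi fun j => Set.Ioc (ξ j) (ξ j + 1) :=
    Set.pi_mono fun j _ => Set.Ioc_subset_Ioc_right (by linarith)
  rw [← setIntegral_congr_set hA, ← Measure.restrict_restrict_of_subset hsub]
  refine setIntegral_mono_set hi.integrableOn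
    (Filter.Eventually.of_forall fun x => by positivity) (LE.le.eventuallyLE ?_)
  intro x hx
  rw [Set.mem_preimage, mem_ball_iff hδ.le]
  intro j
  have := hx j (Set.mem_univ _)
  rw [← AddCircle.coe_sub]
  refine (norm_coe_le _).trans ?_
  rw [abs_le]
  constructor <;> linarith [this.1, this.2]

end Pool.Agent.Lib.WC
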