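import Pool.Agent.Lib.WC.Blue

/-! Elementary decoupling facts. -/

namespace Pool.Agent.Lib.WC

open MeasureTheory Polynomial

namespace C1

variable {m : ℕ}

lemma classes {s N : ℕ} {D : ℝ} (hs : 1 ≤ s) (I : Finset ℤ) (g : ℤ → ℤ)
    {f : ℤ → TT m → ℂ} (hf : ∀ j ∈ I, Continuous (f j)) (hN : (I.image g).card ≤ N)
    (h : ∀ J ∈ I.image g,
      nn s (∑ j ∈ I with g j = J, f j) ≤ D * ∑ j ∈ I with g j = J, nn s (f j)) :
    nn s (∑ j ∈ I, f j) ≤ N * D * ∑ j ∈ I, nn s (f j) := by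
  rw [sum_group I g f, sum_group I g fun j => nn s (f j), mul_assoc]
  refine (nn_sum_le _ hs fun J _ => ?_).trans (mul_le_mul (by exact_mod_cast hN) ?_
    (Finset.sum_nonneg fun _ _ => nn_nonneg _ _) (Nat.cast_nonneg _))
  · rw [Finset.sum_fn]
    exact continuous_finsetSum _ fun j hj => hf j (Finset.mem_filter.mp hj).1
  · rw [Finset.mul_sum]
    exact Finset.sum_le_sum h

lemma nn_one (f : TT m → ℂ) : nn 1 f = ∫ x, ‖f x‖ ^ 2 := by
  simpa using nn_pow le_rfl f

lemma nn_one_add {P Q : Set (Fin m → ℤ)} {f g : TT m → ℂ} (hf : f ∈ Sp P) (hg : g ∈ Sp Q)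
    (h : Disjoint P Q) : nn 1 (f + g) = nn 1 f + nn 1 g := by
  have hfc := Sp_cont hf
  have hgc := Sp_cont hg
  have e : ∀ x, ‖(f + g) x‖ ^ 2 =
      ‖f x‖ ^ 2 + ‖g x‖ ^ 2 + 2 * RCLike.re (f x * (starRingEnd ℂ) (g x)) := fun x => by
    simp only [← Complex.normSq_eq_norm_sq, Pi.add_apply, Complex.normSq_add, RCLike.re_to_complex]
  simp only [nn_one, e]
  rw [integral_add (cint (by fun_prop)) (cint (by fun_prop)),
    integral_add (cint (by fun_prop)) (cint (by fun_prop)), integral_const_mul,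
    integral_re (cint (by fun_prop)), Sp_orth hf hg h]
  simp

lemma orth (S : Finset ℤ) (P : ℤ → Set (Fin m → ℤ)) {f : ℤ → TT m → ℂ}
    (hf : ∀ j ∈ S, f j ∈ Sp (P j)) (h : ∀ i ∈ S, ∀ j ∈ S, i ≠ j → Disjoint (P i) (P j)) :
    nn 1 (∑ j ∈ S, f j) = ∑ j ∈ S, nn 1 (f j) := by
  induction S using Finset.induction_on with
  | empty => simpa using nn_zero le_rfl
  | insert a S ha ih =>
    have h1 : ∑ j ∈ S, f j ∈ Sp (⋃ j ∈ S, P j) := sum_mem fun j hj =>
      Sp_mono (Set.subset_biUnion_of_mem (u := P) hj) (hf j (Finset.mem_insert_of_mem hj))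
    rw [Finset.sum_insert ha, Finset.sum_insert ha,
      nn_one_add (hf a (Finset.mem_insert_self _ _)) h1 (Set.disjoint_iUnion₂_right.mpr fun j hj =>
        h a (Finset.mem_insert_self _ _) j (Finset.mem_insert_of_mem hj) fun e => ha (e ▸ hj)),
      ih (fun j hj => hf j (Finset.mem_insert_of_mem hj)) fun i hi j hj =>
        h i (Finset.mem_insert_of_mem hi) j (Finset.mem_insert_of_mem hj)]

lemma card_emod (I : Finset ℤ) {q : ℕ} (hq : 1 ≤ q) : (I.image fun j : ℤ => j % (q : ℤ)).card ≤ q := by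
  have hq' : (0 : ℤ) < q := by exact_mod_cast hq
  refine (Finset.card_le_card (t := Finset.Ico (0 : ℤ) q) fun r hr => ?_).trans (by simp)
  obtain ⟨j, -, rfl⟩ := Finset.mem_image.mp hr
  exact Finset.mem_Ico.mpr ⟨Int.emod_nonneg _ hq'.ne', Int.emod_lt_of_pos _ hq'⟩

lemma in_one {F : Fam m} {c σ : ℚ} {ω : Fin m → ℤ} (h : ω ∈ In 1 F c σ) :
    |F.L ω X - c| ≤ σ := by
  have h1 := h 1 le_rfl le_rfl
  rwa [pow_one, pow_one, map_sub, ← mul_one (C c), ← smul_eq_C_mul, map_smul, F.L_one,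
    smul_eq_mul, mul_one] at h1

lemma one (n : ℕ) : Dec 1 n 3 := by
  intro m F c σ a I f hσ _ hf
  have h := classes (s := 1) (N := 3) (D := 1) le_rfl I (fun j => j % (3 : ℕ))
    (fun j hj => Sp_cont (hf j hj)) (card_emod I (q := 3) (by norm_num)) fun J _ => by
      rw [one_mul]
      refine (orth _ (fun j => In 1 F (c + j * σ) σ) (fun j hj => hf j (Finset.mem_filter.mp hj).1)
        fun i hi j hj hij => Set.disjoint_left.mpr fun ω h1 h2 => ?_).le
      have h3 := abs_le.mp (in_one h1)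
      have h4 := abs_le.mp (in_one h2)
      have h5 := (Finset.mem_filter.mp hi).2
      have h6 := (Finset.mem_filter.mp hj).2
      have h7 : i + 3 ≤ j ∨ j + 3 ≤ i := by omega
      rcases h7 with h7 | h7
      · have h8 : (i : ℚ) + 3 ≤ j := by exact_mod_cast h7
        nlinarith [h3.1, h3.2, h4.1, h4.2]
      · have h8 : (j : ℚ) + 3 ≤ i := by exact_mod_cast h7
        nlinarith [h3.1, h3.2, h4.1, h4.2]
  simpa using h

lemma triv (k n : ℕ) (hk : 1 ≤ k) : Dec k n n := by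
  intro m F c σ a I f _ hI hf
  refine (nn_sum_le I (one_le_sd hk) fun j hj => Sp_cont (hf j hj)).trans
    (mul_le_mul_of_nonneg_right ?_ (Finset.sum_nonneg fun _ _ => nn_nonneg _ _))
  have := Finset.card_le_card hI
  rw [Int.card_Ico, add_sub_cancel_left, Int.toNat_natCast] at this
  exact_mod_cast this

lemma rad (k lam n : ℕ) (D : ℝ) (hk : 1 ≤ k) (hl : 1 ≤ lam) (_hD : 0 ≤ D) (h : Dec k n D) :
    DecR k lam n (lam * D) := by
  intro m F c σ a I f hσ hI hf
  refine classes (one_le_sd hk) I (fun j => j % lam) (fun j hj => Sp_cont (hf j hj))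
    (card_emod I hl) fun r _ => ?_
  have hl' : (0 : ℤ) < lam := by exact_mod_cast hl
  have hlq : (0 : ℚ) < lam := by exact_mod_cast hl
  set S := I.filter fun j => j % lam = r with hS
  have hdiv : ∀ j ∈ S, lam * (j / lam) + r = j := fun j hj => by
    rw [← (Finset.mem_filter.mp hj).2]; exact Int.mul_ediv_add_emod j lam
  have hinj : ∀ i ∈ S, ∀ j ∈ S, i / (lam : ℤ) = j / lam → i = j := fun i hi j hj e => by
    rw [← hdiv i hi, e, hdiv j hj]
  have e : ∀ {M : Type} [AddCommMonoid M] (φ : ℤ → M),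
      ∑ j ∈ S.image (fun j => j / (lam : ℤ)), φ (lam * j + r) = ∑ j ∈ S, φ j := fun φ => by
    rw [Finset.sum_image hinj]
    exact Finset.sum_congr rfl fun j hj => by rw [hdiv j hj]
  rw [← e f, ← e fun j => nn (sd k) (f j)]
  refine h m F (c + r * σ) (lam * σ) (a / lam) _ (fun j => f (lam * j + r)) (by positivity)
    (fun j' hj' => ?_) fun j' hj' => ?_
  · obtain ⟨j, hj, rfl⟩ := Finset.mem_image.mp hj'
    have h1 := Finset.mem_Ico.mp (hI (Finset.mem_filter.mp hj).1)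
    refine Finset.mem_Ico.mpr ⟨Int.ediv_le_ediv hl' h1.1, ?_⟩
    have h2 : j ≤ a + (n - 1) * lam := by nlinarith [h1.1, h1.2]
    have h3 := Int.ediv_le_ediv hl' h2
    rw [Int.add_mul_ediv_right _ _ hl'.ne'] at h3
    omega
  · obtain ⟨j, hj, rfl⟩ := Finset.mem_image.mp hj'
    have h1 := hf j (Finset.mem_filter.mp hj).1
    have h2 : ((lam * (j / lam) + r : ℤ) : ℚ) = j := by rw [hdiv j hj]
    rw [hdiv j hj]
    convert h1 using 3
    rw [← h2]
    push_cast
    ring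

end C1

theorem blk_C1 : St_C1 := ⟨C1.one, C1.triv, C1.rad⟩

end Pool.Agent.Lib.WC
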