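import Pool.Agent.Lib.WC.Blue

/-! Block DB: a dual basis for the projected curve. -/

namespace Pool.Agent.Lib.WC

open Polynomial Finset

namespace DB

lemma anti (p : ℚ[X]) (r l : ℕ) (h1 : ∀ n < r, p.coeff n = 0) (h2 : ∀ n, r + l ≤ n → p.coeff n = 0) :
    derivative (∑ i ∈ Ioc r (r + l), C (p.coeff (i - 1) / i) * X ^ i) = p := by
  ext n
  rw [coeff_derivative, finsetSum_coeff]
  simp only [coeff_C_mul_X_pow, sum_ite_eq, mem_Ioc]
  split_ifs with h
  · have : (n : ℚ) + 1 ≠ 0 := by positivity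
    push_cast
    rw [div_mul_cancel₀ _ this]
  · rw [zero_mul]
    by_cases h' : n < r
    · exact (h1 n h').symm
    · exact (h2 n (by omega)).symm

lemma expand (w : ℚ[X]) (l m : ℕ) (h0 : w.eval 1 = 0) (h1 : (X - 1) ^ l ∣ derivative w)
    (h2 : w.natDegree ≤ m) : w = ∑ i ∈ Ioc l m, C ((taylor 1 w).coeff i) * (X - 1) ^ i := by
  have h3 : X ^ l ∣ derivative (taylor 1 w) := by
    obtain ⟨c, hc⟩ := h1
    refine ⟨taylor 1 c, ?_⟩
    rw [taylor_apply, derivative_comp, hc, taylor_apply]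
    simp
  conv_lhs => rw [← sum_taylor_eq w 1, Polynomial.sum, C_1]
  refine sum_subset (fun i hi => ?_) fun i _ hi => by rw [notMem_support_iff.1 hi]; simp
  have h4 := le_natDegree_of_mem_supp i hi
  rw [natDegree_taylor] at h4
  refine mem_Ioc.2 ⟨lt_of_not_ge fun h => mem_support_iff.1 hi ?_, h4.trans h2⟩
  rcases i with _ | i
  · rw [taylor_coeff_zero, h0]
  · have h5 := X_pow_dvd_iff.1 h3 i (by omega)
    rw [coeff_derivative] at h5
    exact (mul_eq_zero.1 h5).resolve_right (by positivity)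

end DB

theorem blk_DB : St_DB := by
  intro l r μ h1 h2
  have hm : ((X - 1 : ℚ[X]) ^ l).Monic := (monic_X_sub_C 1).pow l
  obtain ⟨a, b, hab⟩ : IsCoprime ((X : ℚ[X]) ^ r) ((X - 1) ^ l) :=
    IsCoprime.pow ⟨1, -1, by ring⟩
  set u : ℚ[X] := derivative ((X - 1) ^ μ) with hu
  set h : ℚ[X] := (u * a) %ₘ (X - 1) ^ l with hh
  have hdeg : h.degree < l := by
    have := degree_modByMonic_lt (u * a) hm
    rwa [degree_pow, ← C_1, degree_X_sub_C, nsmul_eq_mul, mul_one] at this
  set g : ℚ[X] := ∑ i ∈ Ioc r (r + l), C ((X ^ r * h).coeff (i - 1) / (i : ℚ)) * X ^ i with hg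
  have hd : derivative g = X ^ r * h := DB.anti _ r l
    (fun n hn => by rw [coeff_X_pow_mul', if_neg (by omega)])
    (fun n hn => by
      rw [coeff_X_pow_mul', if_pos (by omega)]
      exact coeff_eq_zero_of_degree_lt (hdeg.trans_le (by exact_mod_cast (by omega))))
  have hw := DB.expand (C (-g.eval 1) + g - (X - 1) ^ μ) l (r + l)
    (by simp [show μ ≠ 0 by omega]) (by
      refine ⟨-(X ^ r * ((u * a) /ₘ (X - 1) ^ l)) - u * b, ?_⟩
      have e : h + _ = _ := modByMonic_add_div (u * a) ((X - 1) ^ l)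
      rw [derivative_sub, derivative_add, derivative_C, hd, ← hu]
      linear_combination X ^ r * e + u * hab) (by
      refine (natDegree_sub_le _ _).trans (max_le ((natDegree_add_le _ _).trans (max_le
        (by simp) ?_)) ?_)
      · exact natDegree_sum_le_of_forall_le _ _ fun i hi =>
          (natDegree_C_mul_X_pow_le _ _).trans (mem_Ioc.1 hi).2
      · rw [← C_1, (monic_X_sub_C 1).natDegree_pow, natDegree_X_sub_C]
        omega)
  refine ⟨fun i => if i = 0 then -g.eval 1 else (X ^ r * h).coeff (i - 1) / (i : ℚ),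
    fun i => (taylor 1 (C (-g.eval 1) + g - (X - 1) ^ μ)).coeff i,
    Eq.trans ?_ (eq_add_of_sub_eq' hw)⟩
  beta_reduce
  rw [if_pos rfl]
  congr 1
  exact sum_congr rfl fun i hi => by rw [if_neg (by have := (mem_Ioc.1 hi).1; omega)]

end Pool.Agent.Lib.WC
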