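import Pool.Agent.Lib.WC.Blue

namespace Pool.Agent.Lib.WC

namespace DEC

lemma ceil_le {x : ℝ} (hx : 1 ≤ x) : (⌈x⌉₊ : ℝ) ≤ 2 * x := by
  have := Nat.ceil_lt_add_one (show 0 ≤ x by linarith)
  linarith

lemma gain (hB : St_BOOT1) (hS : St_SPW) (hN : St_BN) {k m : ℕ} {η η₁ b : ℝ} (hk : 2 ≤ k)
    (ih : ∀ l, 1 ≤ l → l < k → DecAll l) (h0 : 0 < η) (h1 : 0 < η₁) (hb : 0 < b)
    (hb1 : b ≤ 1 / (k : ℝ) ^ m) (hD : DecE k η) (he : b + (η * (1 - m / k * b) + b / 4) ≤ η₁) :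
    DecE k η₁ := by
  obtain ⟨l, -, hl, h⟩ := hB k η m hk h0 ih hD
  refine hN.iter k η₁ (by omega) h1 fun κ hκ => ⟨l, hl.le, ?_⟩
  obtain ⟨C, hC, h⟩ := h κ b (b / 4) hκ hb.le hb1 (by positivity)
  refine ⟨2 * C, by linarith, fun n hn => ?_⟩
  have hn1 : (1 : ℝ) ≤ n := by exact_mod_cast hn
  have hb2 : b ≤ 1 := hb1.trans (by
    rw [div_le_one (by positivity)]
    exact one_le_pow₀ (by exact_mod_cast (by omega : 1 ≤ k)))
  have a1 : (1 : ℝ) ≤ (n : ℝ) ^ (1 - b) := Real.one_le_rpow hn1 (by linarith)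
  have a2 : (1 : ℝ) ≤ (n : ℝ) ^ b := Real.one_le_rpow hn1 hb.le
  have u1 : 1 ≤ ⌈(n : ℝ) ^ (1 - b)⌉₊ := Nat.ceil_pos.2 (by linarith)
  have u2 : 1 ≤ ⌈(n : ℝ) ^ b⌉₊ := Nat.ceil_pos.2 (by linarith)
  have u3 : n ≤ ⌈(n : ℝ) ^ b⌉₊ * ⌈(n : ℝ) ^ (1 - b)⌉₊ := by
    have : (n : ℝ) = (n : ℝ) ^ b * (n : ℝ) ^ (1 - b) := by
      rw [← Real.rpow_add (by linarith)]; simp
    have h3 := mul_le_mul (Nat.le_ceil ((n : ℝ) ^ b)) (Nat.le_ceil ((n : ℝ) ^ (1 - b)))
      (by positivity) (by positivity)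
    rw [← this] at h3
    exact_mod_cast h3
  refine (hS k l κ n _ _ _ hl u1 u2 u3 (by positivity) (h n _ hn u1 (ceil_le a1))).mono
    (by positivity) ?_
  calc _ ≤ (2 * (n : ℝ) ^ b) * (C * (n : ℝ) ^ (η * (1 - m / k * b) + b / 4)) :=
        mul_le_mul_of_nonneg_right (ceil_le a2) (by positivity)
    _ = 2 * C * (n : ℝ) ^ (b + (η * (1 - m / k * b) + b / 4)) := by
        rw [Real.rpow_add (by linarith) b]; ring
    _ ≤ _ := mul_le_mul_of_nonneg_left (Real.rpow_le_rpow_of_exponent_le hn1 he) (by positivity)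

end DEC

theorem blk_DEC (hC : St_C1) (hB : St_BOOT1) (hS : St_SPW) (hN : St_BN) : St_DEC := by
  intro k
  induction k using Nat.strong_induction_on with
  | _ k ih =>
  intro hk η hη
  rcases (show k = 1 ∨ 2 ≤ k by omega) with rfl | hk2
  · refine ⟨3, by norm_num, fun n hn => (hC.one n).mono ?_⟩
    have : (1 : ℝ) ≤ (n : ℝ) ^ η := Real.one_le_rpow (by exact_mod_cast hn) hη.le
    linarith
  by_contra hc
  set E : Set ℝ := {x | 0 < x ∧ DecE k x} with hE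
  have hne : E.Nonempty := ⟨1, one_pos, 1, le_rfl, fun n _ => by simpa using hC.triv k n hk⟩
  have hlow : ∀ x ∈ E, η ≤ x := fun x hx => by
    by_contra h
    exact hc (hx.2.mono (not_le.1 h).le)
  have hbd : BddBelow E := ⟨η, hlow⟩
  have h0 : η ≤ sInf E := le_csInf hne hlow
  have hk0 : (0 : ℝ) < k := by exact_mod_cast hk
  obtain ⟨m, hm⟩ := exists_nat_ge (2 * k / η)
  have hm2 : 2 ≤ η * (m / k) := by
    rw [div_le_iff₀ hη] at hm
    rw [← mul_div_assoc, le_div_iff₀ hk0]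
    linarith
  set b : ℝ := 1 / (k : ℝ) ^ m with hb
  have hb0 : 0 < b := by positivity
  obtain ⟨x, hx, hx1⟩ := exists_lt_of_csInf_lt hne (show sInf E < sInf E + b / 4 by linarith)
  have hx2 := hlow x hx
  have h1 : DecE k (max (sInf E - b / 2) (sInf E / 2)) :=
    DEC.gain hB hS hN hk2 (fun l h1 h2 => ih l h2 h1) hx.1 (lt_max_of_lt_right (by linarith)) hb0
      le_rfl hx.2 (le_max_of_le_left (by
        have h3 : η * (m / k) ≤ x * (m / k) := mul_le_mul_of_nonneg_right hx2 (by positivity)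
        have h4 : 2 * b ≤ x * (m / k) * b := mul_le_mul_of_nonneg_right (by linarith) hb0.le
        nlinarith))
  have h2 := csInf_le hbd (show max (sInf E - b / 2) (sInf E / 2) ∈ E from
    ⟨lt_max_of_lt_right (by linarith), h1⟩)
  rcases le_max_iff.1 h2 with h | h <;> linarith

end Pool.Agent.Lib.WC
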