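import Pool.Agent.Lib.WC.Blue

/-! Block E1: the cube off the wide arcs. -/

namespace Pool.Agent.Lib.WC

open MeasureTheory Finset

namespace E1

lemma exists_pow {M N : ℕ} (hM : 1 ≤ M) (h : M ≤ N) :
    ∃ a : ℕ, 2 * N ≤ 2 ^ a * M ∧ 2 ^ a * M ≤ 4 * N := by
  classical
  have hex : ∃ a : ℕ, 2 * N ≤ 2 ^ a * M :=
    ⟨2 * N, Nat.lt_two_pow_self.le.trans (Nat.le_mul_of_pos_right _ hM)⟩
  refine ⟨Nat.find hex, Nat.find_spec hex, ?_⟩
  rcases h0 : Nat.find hex with _ | a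
  · omega
  · have := Nat.find_min hex (m := a) (by omega)
    rw [pow_succ, mul_right_comm]
    omega

/-- A short arc in the last coordinate, off a set `G`. -/
def arc {d : ℕ} (G : Set (TT (d + 1))) (R : ℝ) (ζ : UnitAddCircle) : Set (TT (d + 1)) :=
  {y : TT (d + 1) | ‖y (Fin.last d) - ζ‖ ≤ 1 / R} \ G

lemma arc_meas {d : ℕ} {G : Set (TT (d + 1))} (hG : MeasurableSet G) (R : ℝ) (ζ : UnitAddCircle) :
    MeasurableSet (arc G R ζ) :=
  (isClosed_le (by fun_prop) continuous_const).measurableSet.diff hG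

lemma ind_mul {k : ℕ} (E : Set (TT k)) (F : TT k → ℝ) (y : TT k) :
    E.indicator (fun _ => (1 : ℝ)) y * F y = E.indicator F y := by
  by_cases h : y ∈ E <;> simp [h]

lemma ind_bd {k : ℕ} (E : Set (TT k)) (y : TT k) :
    0 ≤ E.indicator (fun _ => (1 : ℝ)) y ∧ E.indicator (fun _ => (1 : ℝ)) y ≤ 1 := by
  by_cases h : y ∈ E <;> simp [h]

lemma int_eq {k : ℕ} {ι : Type*} (c : ℝ) {E : Set (TT k)} (hE : MeasurableSet E) (P : Finset ι)
    {E' : ι → Set (TT k)} (hE' : ∀ p, MeasurableSet (E' p)) {F : TT k → ℝ} (hF : Continuous F) :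
    ∫ y, (c * E.indicator (fun _ => (1 : ℝ)) y +
      ∑ p ∈ P, (E' p).indicator (fun _ => (1 : ℝ)) y) * F y =
      c * (∫ y in E, F y) + ∑ p ∈ P, ∫ y in E' p, F y := by
  simp only [add_mul, Finset.sum_mul, mul_assoc, ind_mul]
  rw [integral_add (((cint hF).indicator hE).const_mul c)
      (integrable_finsetSum _ fun p _ => (cint hF).indicator (hE' p)),
    integral_const_mul, integral_indicator hE,
    integral_finsetSum _ fun p _ => (cint hF).indicator (hE' p)]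
  simp only [integral_indicator (hE' _)]

end E1

open E1 in
theorem blk_E1 (hA : St_AVG) (hF : St_FEJ1) (hR : St_ARC) : St_E1 := by
  intro d hd
  obtain ⟨A1, C1, hA1, hC1, hF⟩ := hF d
  obtain ⟨AG, hR⟩ := hR d hd
  refine ⟨(2 * A1 + (d + 1) + 1) * AG + (d + 1), 3 * A1 + (d + 1) + 1, by omega, fun ε hε => ?_⟩
  have hs : 1 ≤ sd (d + 1) := by
    unfold sd
    rw [Nat.le_div_iff_mul_le two_pos]
    nlinarith
  obtain ⟨CA, hCA, hA⟩ := hA (sd (d + 1)) (ε / 2) hs (by positivity)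
  obtain ⟨CR, hCR, hR⟩ := hR (ε / 2) (by positivity)
  have h4 : (1 : ℝ) ≤ 4 ^ ((sd (d + 1) : ℝ) + ε / 2) :=
    Real.one_le_rpow (by norm_num) (by positivity)
  refine ⟨CA * ((C1 + 1) * CR * 4 ^ ((sd (d + 1) : ℝ) + ε / 2)),
    one_le_mul_of_one_le_of_one_le hCA (one_le_mul_of_one_le_of_one_le
      (one_le_mul_of_one_le_of_one_le (by linarith) hCR) h4), fun N δ ξ hδ hδ' hN => ?_⟩
  set Δ : ℝ := 1 / δ with hΔ
  have hΔ20 : 20 ≤ Δ := by rw [hΔ, le_div_iff₀ hδ]; linarith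
  have hΔ1 : 1 ≤ Δ := by linarith
  have hδΔ : δ = 1 / Δ := by rw [hΔ, one_div_one_div]
  set M : ℕ := ⌈Δ ^ (2 * A1 + (d + 1))⌉₊ with hM
  have hM1 : Δ ^ (2 * A1 + (d + 1)) ≤ M := Nat.le_ceil _
  have hM2 : (M : ℝ) ≤ Δ ^ (2 * A1 + (d + 1) + 1) := by
    have h1 : (M : ℝ) < Δ ^ (2 * A1 + (d + 1)) + 1 := Nat.ceil_lt_add_one (by positivity)
    have h2 : 1 ≤ Δ ^ (2 * A1 + (d + 1)) := one_le_pow₀ hΔ1
    rw [pow_succ]
    nlinarith
  have hM3 : Δ ≤ M := (le_self_pow₀ hΔ1 (by omega)).trans hM1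
  have hM4 : 2 ≤ M := by
    have : (2 : ℝ) ≤ M := by linarith
    exact_mod_cast this
  have hM0 : (0 : ℝ) < M := by linarith
  have hH1 : 1 ≤ Δ ^ A1 := one_le_pow₀ hΔ1
  have hHM : Δ ^ A1 * M ≤ N := by
    refine le_trans ?_ hN
    calc Δ ^ A1 * M ≤ Δ ^ A1 * Δ ^ (2 * A1 + (d + 1) + 1) := by gcongr
      _ = _ := by rw [← pow_add]; congr 1; omega
  have hMN : M ≤ N := by
    have : (M : ℝ) ≤ N := le_trans (le_mul_of_one_le_left hM0.le hH1) hHM
    exact_mod_cast this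
  have hN1 : 1 ≤ N := by omega
  have hN0 : (0 : ℝ) < N := by exact_mod_cast hN1
  obtain ⟨a, ha1, ha2⟩ := exists_pow (by omega) hMN
  set G := Mj (d + 1) 1 (2 ^ a * M) ((M : ℝ) ^ AG) with hG
  have hGm : MeasurableSet G := measurableSet_Mj _ _ _
  set P := Icc 1 ⌊Δ ^ A1⌋₊ ×ˢ range ⌊Δ ^ A1⌋₊ with hP
  set E' : ℕ × ℕ → Set (TT (d + 1)) :=
    fun p => arc G M (((p.2 : ℝ) / p.1 : ℝ) : UnitAddCircle) with hE'
  have hc0 : 0 ≤ C1 * δ ^ d := by positivity
  have key := hA d N (2 ^ a * M)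
    (Metric.closedBall ξ δ \ Mj (d + 1) 1 N (Δ ^ ((2 * A1 + (d + 1) + 1) * AG + (d + 1))))
    (fun y => C1 * δ ^ d * (arc G Δ (ξ (Fin.last d))).indicator (fun _ => (1 : ℝ)) y +
      ∑ p ∈ P, (E' p).indicator (fun _ => (1 : ℝ)) y) (C1 * δ ^ d + P.card) hN1 ha1
    (Metric.isClosed_closedBall.measurableSet.diff (measurableSet_Mj _ _ _))
    (((measurable_const.indicator (arc_meas hGm _ _)).const_mul _).add
      (Finset.measurable_sum _ fun p _ => measurable_const.indicator (arc_meas hGm _ _)))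
    (fun y => ⟨add_nonneg (mul_nonneg hc0 (ind_bd _ y).1)
        (Finset.sum_nonneg fun p _ => (ind_bd _ y).1),
      add_le_add (mul_le_of_le_one_right hc0 (ind_bd _ y).2) (by
        simpa using Finset.sum_le_card_nsmul P _ (1 : ℝ) fun p _ => (ind_bd (E' p) y).2)⟩) ?_
  · rw [int_eq _ (arc_meas hGm _ _) P (fun p => arc_meas hGm _ _) (by fun_prop)] at key
    refine key.trans ?_
    set W : ℝ := ((2 ^ a * M : ℕ) : ℝ) ^ ((sd (d + 1) : ℝ) + ε / 2) with hW
    have hW0 : 0 ≤ W := by positivity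
    have h1 : ∫ y in arc G Δ (ξ (Fin.last d)), ‖S (2 ^ a * M) y‖ ^ (2 * sd (d + 1)) ≤
        CR * W / Δ := hR M a Δ _ hM4 (by linarith) hM3
    have h2 : ∑ p ∈ P, ∫ y in E' p, ‖S (2 ^ a * M) y‖ ^ (2 * sd (d + 1)) ≤
        P.card • (CR * W / M) :=
      Finset.sum_le_card_nsmul _ _ _ fun p _ => hR M a M _ hM4 hM0 le_rfl
    have h3 : (P.card : ℝ) ≤ Δ ^ A1 * Δ ^ A1 := by
      rw [hP, Finset.card_product, Nat.card_Icc, Nat.add_sub_cancel, Finset.card_range,
        Nat.cast_mul]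
      have := Nat.floor_le (zero_le_one.trans hH1)
      gcongr
    have h5 : (P.card : ℝ) / M ≤ δ ^ (d + 1) := by
      calc (P.card : ℝ) / M ≤ Δ ^ A1 * Δ ^ A1 / Δ ^ (2 * A1 + (d + 1)) := by gcongr
        _ = δ ^ (d + 1) := by
          rw [pow_add Δ, two_mul, pow_add Δ, div_mul_cancel_left₀ (by positivity), hΔ, one_div,
            inv_pow, inv_inv]
    have h6 : W ≤ 4 ^ ((sd (d + 1) : ℝ) + ε / 2) * (N : ℝ) ^ ((sd (d + 1) : ℝ) + ε / 2) := by
      rw [← Real.mul_rpow (by norm_num) hN0.le]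
      refine Real.rpow_le_rpow (by positivity) ?_ (by positivity)
      exact_mod_cast ha2
    have h7 : (N : ℝ) ^ ((sd (d + 1) : ℝ) + ε) =
        (N : ℝ) ^ (ε / 2) * (N : ℝ) ^ ((sd (d + 1) : ℝ) + ε / 2) := by
      rw [← Real.rpow_add hN0]; congr 1; ring
    have h8 : C1 * δ ^ d * (CR * W / Δ) + P.card • (CR * W / M) ≤
        (C1 + 1) * CR * δ ^ (d + 1) * W := by
      have e1 : C1 * δ ^ d * (CR * W / Δ) = C1 * CR * δ ^ (d + 1) * W := by
        rw [hΔ, pow_succ]; field_simp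
      have e2 : P.card • (CR * W / M) = P.card / M * (CR * W) := by
        rw [nsmul_eq_mul]; ring
      have e3 : (P.card : ℝ) / M * (CR * W) ≤ δ ^ (d + 1) * (CR * W) := by gcongr
      rw [e1, e2]
      linarith
    calc _ ≤ CA * (N : ℝ) ^ (ε / 2) * ((C1 + 1) * CR * δ ^ (d + 1) * W) := by
          refine mul_le_mul_of_nonneg_left (le_trans ?_ h8) (by positivity)
          exact add_le_add (mul_le_mul_of_nonneg_left h1 hc0) h2
      _ ≤ CA * (N : ℝ) ^ (ε / 2) * ((C1 + 1) * CR * δ ^ (d + 1) *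
          (4 ^ ((sd (d + 1) : ℝ) + ε / 2) * (N : ℝ) ^ ((sd (d + 1) : ℝ) + ε / 2))) := by gcongr
      _ = _ := by rw [h7]; ring
  · intro y γ
    have hsum : 0 ≤ ∑ p ∈ P, (E' p).indicator (fun _ => (1 : ℝ)) y :=
      Finset.sum_nonneg fun p _ => (ind_bd _ y).1
    have hind := mul_nonneg hc0 (ind_bd (arc G Δ (ξ (Fin.last d))) y).1
    rcases cnt_eq_zero_or N (Metric.closedBall ξ δ \
      Mj (d + 1) 1 N (Δ ^ ((2 * A1 + (d + 1) + 1) * AG + (d + 1)))) (y - Pi.single 0 γ) with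
      h0 | ⟨t, ht, h1, h2⟩
    · rw [h0, Nat.cast_zero]
      positivity
    have hlast : (y - Pi.single 0 γ : TT (d + 1)) (Fin.last d) = y (Fin.last d) := by
      have : Fin.last d ≠ 0 := by
        intro h
        have := congrArg Fin.val h
        simp at this
        omega
      simp [this]
    have hyG : y ∉ G := by
      intro hy
      refine h2 (Mj_mono ?_ (Mj_shear (Mj_anti hN1 (by omega) ((Mj_sub_single y γ).2 hy)) hN1
        (by rw [abs_of_nonneg (by omega)]; omega)))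
      rw [pow_add Δ, pow_mul, mul_comm]
      gcongr
      linarith
    by_cases hb : y (Fin.last d) ∈ Bd N (Δ ^ A1)
    · obtain ⟨q, hq1, hq2, hq3⟩ := hb
      obtain ⟨b, hb1, hb2⟩ := exists_tors hq1 (y (Fin.last d))
      have hq4 : q ≤ ⌊Δ ^ A1⌋₊ := Nat.le_floor hq2
      have hp : (q, b) ∈ P := by
        simp only [hP, Finset.mem_product, Finset.mem_Icc, Finset.mem_range]
        omega
      have hy : y ∈ E' (q, b) := by
        refine ⟨?_, hyG⟩
        have hq5 : (1 : ℝ) ≤ q := by exact_mod_cast hq1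
        calc ‖y (Fin.last d) - (((b : ℝ) / q : ℝ) : UnitAddCircle)‖
            ≤ ‖q • y (Fin.last d)‖ / q := hb2
          _ ≤ ‖q • y (Fin.last d)‖ := div_le_self (norm_nonneg _) hq5
          _ ≤ Δ ^ A1 / N := hq3
          _ ≤ 1 / M := by rw [div_le_div_iff₀ hN0 hM0]; linarith
      have h3 := Finset.single_le_sum (f := fun p => (E' p).indicator (fun _ => (1 : ℝ)) y)
        (fun p _ => (ind_bd _ y).1) hp
      rw [Set.indicator_of_mem hy] at h3
      have h4 : (cnt N (Metric.closedBall ξ δ \ Mj (d + 1) 1 N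
          (Δ ^ ((2 * A1 + (d + 1) + 1) * AG + (d + 1)))) (y - Pi.single 0 γ) : ℝ) ≤ N := by
        exact_mod_cast cnt_le _ _ _
      exact h4.trans (le_mul_of_one_le_right hN0.le (by linarith))
    · have hy : y ∈ arc G Δ (ξ (Fin.last d)) := by
        refine ⟨?_, hyG⟩
        have := (mem_ball_iff hδ.le).1 h1 (Fin.last d)
        rw [U_last, hlast, hδΔ] at this
        exact this
      have h3 := hF N δ (y - Pi.single 0 γ) ξ hN1 hδ hδ' (by rw [hlast]; exact hb)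
      have h4 : (cnt N (Metric.closedBall ξ δ \ Mj (d + 1) 1 N
          (Δ ^ ((2 * A1 + (d + 1) + 1) * AG + (d + 1)))) (y - Pi.single 0 γ) : ℝ) ≤
          cnt N (Metric.closedBall ξ δ) (y - Pi.single 0 γ) := by
        exact_mod_cast cnt_mono N Set.sdiff_subset _
      rw [Set.indicator_of_mem hy]
      nlinarith

end Pool.Agent.Lib.WC
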