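import Pool.Agent.Lib.WC.Blue

/-! The small cube on the wide arcs. -/

namespace Pool.Agent.Lib.WC

open MeasureTheory

namespace E2

variable {k : ℕ}

lemma mono {f : TT k → ℝ} (hf : Continuous f) (f0 : ∀ x, 0 ≤ f x) {s t : Set (TT k)} (h : s ⊆ t) :
    ∫ x in s, f x ≤ ∫ x in t, f x :=
  setIntegral_mono_set (cint hf) (ae_of_all _ f0) h.eventuallyLE

lemma union {f : TT k → ℝ} (hf : Continuous f) (f0 : ∀ x, 0 ≤ f x) (s t : Set (TT k)) :
    ∫ x in s ∪ t, f x ≤ (∫ x in s, f x) + ∫ x in t, f x := by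
  rw [← integral_add_measure (cint hf) (cint hf)]
  exact integral_mono_measure (Measure.restrict_union_le s t) (ae_of_all _ f0) (cint hf)

lemma cont (N : ℕ) {p : ℝ} (hp : 0 ≤ p) : Continuous fun x : TT k => ‖S N x‖ ^ p :=
  (Real.continuous_rpow_const hp).comp (by fun_prop)

/-- Raising the exponent by the trivial bound. -/
lemma raise {N q : ℕ} (hq : 1 ≤ q) {p : ℝ} (hp : (q : ℝ) ≤ p) (E : Set (TT k)) :
    ∫ x in E, ‖S N x‖ ^ p ≤ (N : ℝ) ^ (p - q) * ∫ x in E, ‖S N x‖ ^ q := by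
  have hq0 : (0 : ℝ) < q := by exact_mod_cast hq
  rw [← integral_const_mul]
  refine integral_mono (cint (cont N (by linarith))) (cint (by fun_prop)) fun x => ?_
  have h := Real.rpow_add' (norm_nonneg (S N x)) (y := p - q) (z := q) (by linarith)
  rw [sub_add_cancel, Real.rpow_natCast] at h
  simp only [h]
  exact mul_le_mul_of_nonneg_right (Real.rpow_le_rpow (norm_nonneg _) (norm_S_le N x)
    (by linarith)) (by positivity)

/-- Interpolation on a small set. -/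
lemma interp {N s n : ℕ} (hN : 1 ≤ N) (hs : 1 ≤ s) {p ε C D : ℝ} (hε : 0 < ε) (hC : 1 ≤ C)
    (hD : 1 ≤ D) (hp : 2 * s - 1 / ((n : ℝ) + 2) ≤ p) (hp' : p ≤ 2 * s) {E : Set (TT k)}
    (h1 : ∫ x in E, ‖S N x‖ ^ (2 * s) ≤ C * (1 / D) * (N : ℝ) ^ ((s : ℝ) + ε))
    (h2 : volume.real E ≤ D ^ n / (N : ℝ) ^ s) :
    ∫ x in E, ‖S N x‖ ^ p ≤ C * (N : ℝ) ^ (p - s + ε) := by
  have hs1 : (1 : ℝ) ≤ s := by exact_mod_cast hs
  have hN1 : (1 : ℝ) ≤ N := by exact_mod_cast hN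
  have hn0 : (0 : ℝ) ≤ n := Nat.cast_nonneg n
  have hc : 1 / ((n : ℝ) + 2) ≤ 1 / 2 := one_div_le_one_div_of_le two_pos (by linarith)
  have hc' : 1 / ((n : ℝ) + 2) * (n + 2) = 1 := one_div_mul_cancel (by positivity)
  have hc0 : 0 < 1 / ((n : ℝ) + 2) := by positivity
  have h3 := holder_pow (μ := volume.restrict E) (f := fun x : TT k => ‖S N x‖)
    (fun _ => norm_nonneg _) (P := 2 * s) (by linarith) (p := p) (by linarith) hp'
    (cint (cont N (by linarith)))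
  have h4 : ∀ x : TT k, ‖S N x‖ ^ (2 * s : ℝ) = ‖S N x‖ ^ (2 * s) := fun x => by
    rw [← Real.rpow_natCast]; push_cast; rfl
  simp only [h4, measureReal_restrict_apply_univ] at h3
  have hθ : p = p / (2 * s) * (2 * s) := (div_mul_cancel₀ _ (by positivity)).symm
  generalize p / (2 * s) = θ at h3 hθ
  have hθ1 : θ ≤ 1 := by nlinarith
  have hθ2 : 1 - θ ≤ 1 / ((n : ℝ) + 2) := by nlinarith
  have hθ0 : 0 ≤ θ := by linarith
  have hθ3 : n * (1 - θ) ≤ θ := by nlinarith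
  refine h3.trans ((mul_le_mul (Real.rpow_le_rpow (integral_nonneg fun _ => by positivity) h1 hθ0)
    (Real.rpow_le_rpow measureReal_nonneg h2 (by linarith)) (by positivity)
    (by positivity)).trans ?_)
  have hD0 : 0 < D := by linarith
  have hN0 : (0 : ℝ) < N := by linarith
  rw [Real.mul_rpow (by positivity) (by positivity), Real.mul_rpow (by positivity) (by positivity),
    Real.div_rpow (by positivity) (by positivity), Real.div_rpow (by positivity) (by positivity),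
    Real.one_rpow, ← Real.rpow_natCast, ← Real.rpow_natCast, ← Real.rpow_mul hD0.le,
    ← Real.rpow_mul hN0.le, ← Real.rpow_mul hN0.le]
  have h5 : C ^ θ ≤ C := Real.rpow_le_self_of_one_le hC hθ1
  have h6 : D ^ (n * (1 - θ)) / D ^ θ ≤ 1 :=
    (div_le_one (by positivity)).2 (Real.rpow_le_rpow_of_exponent_le hD hθ3)
  have h7 : (N : ℝ) ^ ((s + ε) * θ) / (N : ℝ) ^ (s * (1 - θ)) ≤ (N : ℝ) ^ (p - s + ε) := by
    rw [← Real.rpow_sub hN0]
    exact Real.rpow_le_rpow_of_exponent_le hN1 (by nlinarith)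
  calc _ = C ^ θ * (D ^ (n * (1 - θ)) / D ^ θ) *
        ((N : ℝ) ^ ((s + ε) * θ) / (N : ℝ) ^ (s * (1 - θ))) := by ring
    _ ≤ C * 1 * (N : ℝ) ^ (p - s + ε) := by gcongr
    _ = _ := by rw [mul_one]

end E2

open E2 in
theorem blk_E2 (hL : St_LEV) (h3 : St_E3) (hM : St_MA) : St_E2 := by
  intro d A hd hA
  obtain ⟨AL, CL, hAL, hCL, hL⟩ := hL (d + 1) (by omega)
  obtain ⟨A3, hA3, h3⟩ := h3 d
  obtain ⟨B, CM, hCM, hM⟩ := hM (d + 1) (by omega)
  set n0 := 2 * (A3 * AL) + 1 with hn0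
  set n1 := n0 * A * AL * (d + 1 + 1) + (d + 1) with hn1
  refine ⟨B, 1 / ((n1 : ℝ) + 2), 1 / 20 ^ n0, by positivity, by positivity, fun ε hε => ?_⟩
  obtain ⟨C3, hC3, h3⟩ := h3 ε hε
  refine ⟨CL + C3 + CL + CM, by linarith, fun N δ p ξ hN hδ hδ0 hB hp hp' => ?_⟩
  have hN1 : (1 : ℝ) ≤ N := by exact_mod_cast hN
  have hN0 : (0 : ℝ) < N := by linarith
  have hd1 : (1 : ℝ) ≤ d := by exact_mod_cast hd
  obtain ⟨D, hD0, hD⟩ : ∃ D : ℝ, 0 ≤ D ∧ D ^ n0 = 1 / δ :=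
    ⟨(1 / δ) ^ ((n0 : ℝ)⁻¹), by positivity, Real.rpow_inv_natCast_pow (by positivity) (by omega)⟩
  have h20 : 20 ≤ D := by
    refine le_of_pow_le_pow_left₀ (n := n0) (by omega) hD0 ?_
    rw [hD]
    exact (le_one_div (by positivity) hδ).2 hδ0
  have hD1 : 1 ≤ D := by linarith
  have hpw : ∀ n : ℕ, 1 ≤ n → 2 ≤ D ^ n := fun n hn =>
    le_trans (by linarith) (le_self_pow₀ hD1 (by omega))
  have hδD : δ ≤ 1 / D := by
    rw [le_one_div hδ (by linarith), ← hD]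
    exact le_self_pow₀ hD1 (by omega)
  have hc : 1 / ((n1 : ℝ) + 2) ≤ 1 / 2 :=
    one_div_le_one_div_of_le two_pos (by linarith [Nat.cast_nonneg (α := ℝ) n1])
  have hs := sd_cast (d + 1)
  have hp1 : ((d + 1 : ℕ) : ℝ) ^ 2 + 3 / 2 ≤ p := by
    push_cast at hs ⊢
    nlinarith
  have hp0 : 0 ≤ p := le_trans (by positivity) hp1
  have hc0 := cont (k := d + 1) N hp0
  have hf0 : ∀ x : TT (d + 1), 0 ≤ ‖S N x‖ ^ p := fun x => by positivity
  have hε' : (N : ℝ) ^ (p - sd (d + 1)) ≤ (N : ℝ) ^ (p - sd (d + 1) + ε) :=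
    Real.rpow_le_rpow_of_exponent_le hN1 (by linarith)
  have e1 := hL N ((1 / δ) ^ A) p hN (by
    rw [← hD, ← pow_mul]; exact hpw _ (Nat.mul_pos (by omega) hA)) hp1
  have e3 := hL N (D ^ A3) p hN (hpw _ hA3) hp1
  have e4 := hM N ((D ^ A3) ^ AL) δ ξ (by rw [← pow_mul]; exact hpw _ (Nat.mul_pos hA3 hAL))
    (le_trans (pow_le_pow_left₀ (by positivity) (by
      rw [← pow_mul, ← hD]; exact pow_le_pow_right₀ hD1 (by omega)) B) hB) hδ (by
      have h : δ * (((D ^ A3) ^ AL) ^ 2 * D) = 1 := by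
        rw [← pow_mul, ← pow_mul, ← pow_succ, show A3 * (AL * 2) + 1 = n0 by rw [hn0]; ring, hD,
          mul_one_div_cancel hδ.ne']
      have h' : 0 ≤ δ * ((D ^ A3) ^ AL) ^ 2 := by positivity
      nlinarith)
  have e4' := (raise (q := (d + 1) ^ 2 + 1) (by omega) (p := p) (by push_cast at hp1 ⊢; linarith)
    _).trans (mul_le_mul_of_nonneg_left e4 (by positivity))
  have e5 : (N : ℝ) ^ (p - ((d + 1) ^ 2 + 1 : ℕ)) *
      (CM * (N : ℝ) ^ ((d + 1) ^ 2 + 1) / (N : ℝ) ^ sd (d + 1)) = CM * (N : ℝ) ^ (p - sd (d + 1)) := by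
    rw [Real.rpow_sub hN0, Real.rpow_sub hN0, Real.rpow_natCast, Real.rpow_natCast]
    field_simp
  rw [e5] at e4'
  have e6 := h3 N (1 / D) ξ hN (by positivity) (one_div_le_one_div_of_le (by norm_num) h20)
  rw [one_div_one_div] at e6
  have e2 := interp (n := n1) hN (one_le_sd (k := d + 1) (by omega)) hε hC3 hD1 hp hp'
    (E := Mj (d + 1) 0 N (((1 / δ) ^ A) ^ AL) ∩
      (Metric.closedBall ξ (1 / D) \ Mj (d + 1) 1 N (D ^ A3)))
    ((mono (by fun_prop) (fun _ => by positivity) Set.inter_subset_right).trans e6)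
    ((measureReal_mono Set.inter_subset_left).trans ((vol_Mj (by positivity)).trans (by
      refine div_le_div_of_nonneg_right ?_ (by positivity)
      rw [← hD, ← pow_mul, ← pow_mul, mul_pow, ← mul_assoc n0, hn1]
      calc _ ≤ D ^ (n0 * A * AL) * (D ^ (d + 1) * (D ^ (n0 * A * AL)) ^ (d + 1)) := by
            gcongr
            linarith
        _ = _ := by ring)))
  refine (mono hc0 hf0 (t := (((Mj (d + 1) 1 N ((1 / δ) ^ A) \ Mj (d + 1) 0 N (((1 / δ) ^ A) ^ AL)) ∪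
    Mj (d + 1) 0 N (((1 / δ) ^ A) ^ AL) ∩ (Metric.closedBall ξ (1 / D) \ Mj (d + 1) 1 N (D ^ A3))) ∪
    (Mj (d + 1) 1 N (D ^ A3) \ Mj (d + 1) 0 N ((D ^ A3) ^ AL))) ∪
    Metric.closedBall ξ δ ∩ Mj (d + 1) 0 N ((D ^ A3) ^ AL)) fun x hx => ?_).trans ?_
  · have h1 := Metric.closedBall_subset_closedBall hδD hx.1
    have h2 := hx.1
    have h4 := hx.2
    simp only [Set.mem_union, Set.mem_inter_iff, Set.mem_sdiff]
    tauto
  · refine (union hc0 hf0 _ _).trans ((add_le_add_left ((union hc0 hf0 _ _).trans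
      (add_le_add_left (union hc0 hf0 _ _) _)) _).trans ?_)
    have := mul_le_mul_of_nonneg_left hε' (zero_le_one.trans hCL)
    have := mul_le_mul_of_nonneg_left hε' (zero_le_one.trans hCM)
    linarith

end Pool.Agent.Lib.WC
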