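import Pool.Agent.Lib.WC.Blue

/-! A weak gain off lower wide arcs. -/

namespace Pool.Agent.Lib.WC

open MeasureTheory Polynomial Finset

theorem blk_E3 (hA : St_AVG) (hF : St_FEJ2) (hV : St_VM) : St_E3 := by
  intro d
  obtain ⟨A, C2, hA1, hC2, hF⟩ := hF d
  refine ⟨A + (d + 1), by omega, fun ε hε => ?_⟩
  have hs : 1 ≤ sd (d + 1) := one_le_sd (by omega)
  obtain ⟨C1, hC1, hA⟩ := hA (sd (d + 1)) (ε / 2) hs (by positivity)
  obtain ⟨C3, hC3, hV⟩ := hV (d + 1) (ε / 2) (by omega) (by positivity)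
  have h2 : (1 : ℝ) ≤ 2 ^ ((sd (d + 1) : ℝ) + ε / 2) :=
    Real.one_le_rpow (by norm_num) (by positivity)
  refine ⟨C1 * C2 * C3 * 2 ^ ((sd (d + 1) : ℝ) + ε / 2), one_le_mul_of_one_le_of_one_le
    (one_le_mul_of_one_le_of_one_le (one_le_mul_of_one_le_of_one_le hC1 hC2) hC3) h2,
    fun N δ ξ hN h0 h1 => ?_⟩
  have hN' : (0 : ℝ) < N := by exact_mod_cast hN
  have h4 : (4 : ℝ) ≤ 1 / δ := by rw [le_div_iff₀ h0]; linarith
  have h := hA d N (2 * N) (Metric.closedBall ξ δ \ Mj (d + 1) 1 N ((1 / δ) ^ (A + (d + 1))))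
    (fun _ => C2 * δ) (C2 * δ) hN le_rfl
    (Metric.isClosed_closedBall.measurableSet.diff (measurableSet_Mj _ _ _)) measurable_const
    (fun _ => ⟨by positivity, le_rfl⟩) (fun y γ => by
      rcases cnt_eq_zero_or N (Metric.closedBall ξ δ \ Mj (d + 1) 1 N ((1 / δ) ^ (A + (d + 1))))
        (y - Pi.single 0 γ) with h | ⟨t, ht, h⟩
      · rw [h]; push_cast; positivity
      · have h3 : y - Pi.single 0 γ ∉ Mj (d + 1) 1 N ((1 / δ) ^ A) := fun h3 => h.2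
          (Mj_mono (by rw [pow_add (1 / δ) A, mul_comm]; gcongr) (Mj_shear h3 hN (t := (t : ℤ) + 1)
            (by rw [abs_of_nonneg (by positivity)]; omega)))
        refine le_trans ?_ ((hF N δ _ ξ hN h0 h1 h3).trans (le_of_eq (by ring)))
        exact_mod_cast cnt_mono N Set.sdiff_subset _)
  refine h.trans ?_
  rw [integral_const_mul]
  have h5 := hV (2 * N) (by omega)
  push_cast at h5
  rw [Real.mul_rpow (by norm_num) hN'.le] at h5
  rw [show (sd (d + 1) : ℝ) + ε = ε / 2 + ((sd (d + 1) : ℝ) + ε / 2) by ring,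
    Real.rpow_add hN' (ε / 2)]
  calc _ ≤ C1 * (N : ℝ) ^ (ε / 2) * (C2 * δ * (C3 * (2 ^ ((sd (d + 1) : ℝ) + ε / 2) *
        (N : ℝ) ^ ((sd (d + 1) : ℝ) + ε / 2)))) := by gcongr
    _ = _ := by ring

end Pool.Agent.Lib.WC
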