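import Pool.Agent.Lib.WC.Blue

/-! Block FEJ0: counting points in a box with the Fejer kernel. -/

namespace Pool.Agent.Lib.WC

open MeasureTheory Polynomial Finset

theorem blk_FEJ0 (hK : St_KER) : St_FEJ0 := by
  intro k r N J η P ξ hr hη hP
  classical
  set s : Fin k → Finset ℕ := fun j => if j ∈ J then range r else {0} with hs
  set A := Fintype.piFinset s with hA
  set D : TT k → ℂ := fun x => ∑ a ∈ A, ch (fun j => (a j : ℤ)) x with hD
  have hr0 : (0 : ℝ) < r := by exact_mod_cast hr
  have hcard : (A.card : ℝ) = (r : ℝ) ^ J.card := by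
    rw [hA, Fintype.card_piFinset]
    simp [hs, apply_ite Finset.card]
  have hprod : ∀ x, D x = ∏ j ∈ J, ((r : ℂ) * dk r (x j)) := by
    intro x
    have e : D x = ∏ j, ∑ i ∈ s j, ee (i • x j) := by
      rw [Finset.prod_univ_sum, hD]
      refine Finset.sum_congr rfl fun a _ => ?_
      simp [ch, ee_sum]
    rw [e, ← Finset.prod_subset (Finset.subset_univ J) fun j _ hj => by simp [hs, hj]]
    refine Finset.prod_congr rfl fun j hj => ?_
    rw [dk, mul_inv_cancel_left₀ (by exact_mod_cast hr0.ne')]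
    simp [hs, hj]
  have hlow : ∀ t, (∀ j ∈ J, 10 * r * ‖P t j - ξ j‖ ≤ 1) →
      (((r : ℝ) / 2) ^ J.card) ^ 2 ≤ ‖D (P t - ξ)‖ ^ 2 := by
    intro t ht
    refine pow_le_pow_left₀ (by positivity) ?_ 2
    rw [hprod, norm_prod, ← Finset.prod_const]
    refine Finset.prod_le_prod (fun _ _ => by positivity) fun j hj => ?_
    rw [norm_mul, Complex.norm_natCast, div_eq_mul_one_div]
    exact mul_le_mul_of_nonneg_left (hK.low r _ hr (ht j hj)) hr0.le
  have hsq : ∀ x, ((‖D x‖ ^ 2 : ℝ) : ℂ) =
      ∑ a ∈ A, ∑ b ∈ A, ch (fun j => (a j : ℤ) - b j) x := by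
    intro x
    rw [← Complex.normSq_eq_norm_sq, ← Complex.mul_conj, hD]
    simp only [map_sum, Finset.sum_mul_sum]
    refine Finset.sum_congr rfl fun a _ => Finset.sum_congr rfl fun b _ => ?_
    rw [← ch_neg, ← ch_add]
    congr 1
  have hterm : ∀ a ∈ A, ∀ b ∈ A, ‖∑ t ∈ range N, ch (fun j => (a j : ℤ) - b j) (P t - ξ)‖ ≤
      (if a = b then (N : ℝ) else 0) + η * N := by
    intro a ha b hb
    simp only [sub_eq_add_neg (P _), ch_add_pt]
    rw [← Finset.sum_mul, norm_mul, norm_ch, mul_one]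
    split_ifs with hab
    · refine (norm_sum_le _ _).trans ?_
      simp only [norm_ch, Finset.sum_const, card_range, nsmul_eq_mul, mul_one]
      exact le_add_of_nonneg_right (by positivity)
    · rw [zero_add]
      rw [hA, Fintype.mem_piFinset] at ha hb
      refine hP _ (fun e => hab (funext fun j => ?_)) (fun j => ?_) fun j hj => ?_
      · have := congrFun e j
        simp only [Pi.zero_apply] at this
        omega
      · have h1 := ha j
        have h2 := hb j
        simp only [hs] at h1 h2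
        rw [abs_lt]
        split_ifs at h1 h2
        · rw [mem_range] at h1 h2; omega
        · rw [mem_singleton] at h1 h2; omega
      · have h1 := ha j
        have h2 := hb j
        simp only [hs, hj, if_false, mem_singleton] at h1 h2
        simp [h1, h2]
  have hsum : ∑ t ∈ range N, ‖D (P t - ξ)‖ ^ 2 ≤
      (r : ℝ) ^ J.card * (N + (r : ℝ) ^ J.card * (η * N)) := by
    have e : ((∑ t ∈ range N, ‖D (P t - ξ)‖ ^ 2 : ℝ) : ℂ) =
        ∑ a ∈ A, ∑ b ∈ A, ∑ t ∈ range N, ch (fun j => (a j : ℤ) - b j) (P t - ξ) := by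
      rw [Complex.ofReal_sum]
      simp only [hsq]
      rw [Finset.sum_comm]
      exact Finset.sum_congr rfl fun a _ => Finset.sum_comm
    refine (le_abs_self _).trans ?_
    rw [← Real.norm_eq_abs, ← Complex.norm_real, e]
    refine (norm_sum_le_of_le (n := fun _ => N + (r : ℝ) ^ J.card * (η * N)) _
      fun a ha => ?_).trans (by rw [Finset.sum_const, nsmul_eq_mul, hcard])
    refine (norm_sum_le_of_le _ fun b hb => hterm a ha b hb).trans ?_
    rw [Finset.sum_add_distrib, Finset.sum_ite_eq, if_pos ha, Finset.sum_const, nsmul_eq_mul, hcard]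
  have hmain : (((range N).filter fun t => ∀ j ∈ J, 10 * r * ‖P t j - ξ j‖ ≤ 1).card : ℝ) *
      (((r : ℝ) / 2) ^ J.card) ^ 2 ≤ (r : ℝ) ^ J.card * (N + (r : ℝ) ^ J.card * (η * N)) := by
    refine le_trans ?_ hsum
    rw [← nsmul_eq_mul, ← Finset.sum_const]
    refine (Finset.sum_le_sum fun t ht => hlow t (Finset.mem_filter.mp ht).2).trans ?_
    exact Finset.sum_le_sum_of_subset_of_nonneg (Finset.filter_subset _ _)
      fun _ _ _ => by positivity
  rw [← le_div_iff₀ (by positivity)] at hmain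
  refine hmain.trans (le_of_eq ?_)
  have h4 : (4 : ℝ) ^ J.card = (2 ^ J.card) ^ 2 := by rw [← pow_mul, mul_comm, pow_mul]; norm_num
  rw [div_pow, div_pow, div_pow, h4]
  field_simp

end Pool.Agent.Lib.WC
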