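import Pool.Agent.Lib.WC.Blue

namespace Pool.Agent.Lib.WC

open Finset

namespace FEJ1

variable {k : ℕ}

/-- The phase vector attached to a frequency and a base point. -/
noncomputable def xx (h : Fin k → ℤ) (y : TT k) : TT k := fun i =>
  ∑ j : Fin k, ∑ l : Fin k,
    (if l.val = j.val + i.val + 1 then h j * ((l.val + 1).choose (j.val + 1) : ℤ) else 0) • y l

lemma coef (h t : ℤ) (j l : Fin k) :
    h * (((l.val + 1).choose (j.val + 1) : ℤ) * t ^ (l.val - j.val)) =
      (if l = j then h else 0) + ∑ i : Fin k, t ^ (i.val + 1) *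
        (if l.val = j.val + i.val + 1 then h * ((l.val + 1).choose (j.val + 1) : ℤ) else 0) := by
  rcases lt_trichotomy l.val j.val with h1 | h1 | h1
  · rw [Nat.choose_eq_zero_of_lt (by omega), if_neg (fun e => by rw [e] at h1; omega)]
    simp
  · obtain rfl : l = j := Fin.ext h1
    rw [Finset.sum_eq_zero fun i _ => by rw [if_neg (by omega), mul_zero]]
    simp
  · rw [if_neg (fun e => by rw [e] at h1; omega), zero_add,
      Finset.sum_eq_single (⟨l.val - j.val - 1, by omega⟩ : Fin k)]
    · rw [if_pos (by simp only; omega), show l.val - j.val - 1 + 1 = l.val - j.val by omega]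
      ring
    · intro i _ hi
      rw [if_neg (fun e => hi (Fin.ext (by simp only; omega))), mul_zero]
    · simp

lemma phase (h : Fin k → ℤ) (y : TT k) (t : ℤ) :
    ∑ j, h j • U t y j = ∑ j, h j • y j + ph (xx h y) t := by
  simp only [U_apply, ph, xx, Finset.smul_sum, smul_smul, coef, add_smul, Finset.sum_add_distrib,
    Finset.sum_smul]
  congr 1
  · refine Finset.sum_congr rfl fun j _ => ?_
    rw [Finset.sum_eq_single j] <;> simp +contextual
  · rw [Finset.sum_comm (s := Finset.univ) (t := Finset.univ) (f := fun (i j : Fin k) => ∑ l : Fin k,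
      (t ^ (i.val + 1) * (if l.val = j.val + i.val + 1 then
        h j * ((l.val + 1).choose (j.val + 1) : ℤ) else 0)) • y l)]
    exact Finset.sum_congr rfl fun j _ => Finset.sum_comm

lemma norm_sum (h : Fin k → ℤ) (y : TT k) (N : ℕ) :
    ‖∑ t ∈ range N, ch h (U ((t : ℤ) + 1) y)‖ = ‖S N (xx h y)‖ := by
  simp only [ch, phase, ee_add, S, ← Finset.mul_sum, norm_mul, norm_ee, one_mul]

lemma xx_top {d : ℕ} (h : Fin (d + 1) → ℤ) (y : TT (d + 1)) (j0 i0 : Fin (d + 1))
    (h0 : ∀ j, j < j0 → h j = 0) (hi : j0.val + i0.val + 1 = d) :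
    xx h y i0 = (h j0 * ((d + 1).choose (j0.val + 1) : ℤ)) • y (Fin.last d) := by
  rw [xx, Finset.sum_eq_single j0, Finset.sum_eq_single (Fin.last d)]
  · rw [if_pos (by simp [hi]), Fin.val_last]
  · intro l _ hl
    rw [if_neg (fun e => hl (Fin.ext (by rw [Fin.val_last]; omega))), zero_smul]
  · simp
  · intro j _ hj
    refine Finset.sum_eq_zero fun l _ => ?_
    rcases lt_or_gt_of_ne hj with h1 | h1
    · simp [h0 j h1]
    · have h2 : j0.val < j.val := h1
      have := l.isLt
      rw [if_neg (by omega), zero_smul]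
  · simp

end FEJ1

open FEJ1 in
theorem blk_FEJ1 (hF : St_FEJ0) (hI : St_INV) : St_FEJ1 := by
  classical
  intro d
  obtain ⟨A, hA, hI⟩ := hI (d + 1)
  refine ⟨d * A + d + 2, 80 ^ d + 4 ^ d, by omega,
    le_add_of_le_of_nonneg (one_le_pow₀ (by norm_num)) (by positivity), ?_⟩
  intro N δ y ξ hN h0 h1 hy
  have hN0 : (1 : ℝ) ≤ N := by exact_mod_cast hN
  have hD : 20 ≤ 1 / δ := by rw [le_div_iff₀ h0]; linarith
  set D := 1 / δ with hDd
  have hDδ : D * δ = 1 := by rw [hDd]; field_simp
  obtain ⟨r, hr⟩ : ∃ r : ℕ, r = ⌊D / 10⌋₊ := ⟨_, rfl⟩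
  have r1 : (r : ℝ) ≤ D / 10 := hr ▸ Nat.floor_le (by positivity)
  have r2 : D / 10 < r + 1 := hr ▸ Nat.lt_floor_add_one _
  have r3 : (1 : ℝ) < r := by linarith
  have r4 : 1 ≤ r := by exact_mod_cast r3.le
  have hJ : (Finset.univ.erase (Fin.last d)).card = d := by simp
  have key := hF (d + 1) r N (Finset.univ.erase (Fin.last d)) (δ ^ d)
    (fun t => U ((t : ℤ) + 1) y) ξ r4 (by positivity) (fun h hh hb hl => by
      rw [norm_sum]
      by_contra hc
      push Not at hc
      apply hy
      have hlast : h (Fin.last d) = 0 := hl _ (by simp)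
      obtain ⟨j0, hj0, hmin⟩ := Finset.exists_min_image (Finset.univ.filter fun j => h j ≠ 0) id
        (by
          obtain ⟨j, hj⟩ := Function.ne_iff.1 hh
          exact ⟨j, by simpa using hj⟩)
      have hj1 : h j0 ≠ 0 := by simpa using hj0
      have hj2 : j0.val < d := by
        have : j0 ≠ Fin.last d := fun e => hj1 (e ▸ hlast)
        exact Fin.val_lt_last this
      have e := xx_top h y j0 ⟨d - j0.val - 1, by omega⟩ (fun j hj => by
        by_contra hc
        exact absurd (hmin j (by simpa using hc)) (not_le.2 hj)) (by simp only; omega)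
      have hH : 2 ≤ D ^ d := le_trans (by linarith) (le_self_pow₀ (by linarith) (by omega))
      obtain ⟨q, q1, q2, q3⟩ := hI N N (D ^ d) (xx h y) hN le_rfl hH (by
        refine le_trans (le_of_eq ?_) hc.le
        rw [hDd, one_div, inv_pow, div_inv_eq_mul, mul_comm])
      have q4 := q3 ⟨d - j0.val - 1, by omega⟩ (Nat.zero_le _)
      have hc1 : 1 ≤ (d + 1).choose (j0.val + 1) := Nat.choose_pos (by omega)
      have hc2 : (((d + 1).choose (j0.val + 1) : ℕ) : ℝ) ≤ D ^ (d + 1) := by
        have : (((d + 1).choose (j0.val + 1) : ℕ) : ℝ) ≤ 2 ^ (d + 1) := by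
          exact_mod_cast Nat.choose_le_two_pow _ _
        exact this.trans (pow_le_pow_left₀ (by norm_num) (by linarith) _)
      have hn1 : 1 ≤ (h j0).natAbs := Int.natAbs_pos.2 hj1
      have hn2 : ((h j0).natAbs : ℝ) ≤ D := by
        have h3 : ((h j0).natAbs : ℤ) < r := by rw [Int.natCast_natAbs]; exact hb j0
        have : ((h j0).natAbs : ℝ) < r := by exact_mod_cast h3
        linarith
      have hle : (D ^ d) ^ A ≤ D ^ (d * A + d + 2) := by
        rw [← pow_mul]; exact pow_le_pow_right₀ (by linarith) (by omega)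
      refine ⟨q * ((h j0).natAbs * (d + 1).choose (j0.val + 1)),
        Nat.mul_pos q1 (Nat.mul_pos hn1 hc1), ?_, ?_⟩
      · push_cast [Nat.cast_mul]
        calc _ ≤ (D ^ d) ^ A * (D * D ^ (d + 1)) := by
              refine mul_le_mul q2 (mul_le_mul ?_ hc2 (by positivity) (by positivity))
                (by positivity) (by positivity)
              simpa using hn2
          _ = _ := by ring
      · have e2 : ‖(q * ((h j0).natAbs * (d + 1).choose (j0.val + 1))) • y (Fin.last d)‖ =
            ‖q • xx h y ⟨d - j0.val - 1, by omega⟩‖ := by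
          rw [e, ← natCast_zsmul, ← natCast_zsmul _ q, smul_smul]
          push_cast
          rcases abs_cases (h j0) with h3 | h3
          · rw [h3.1]
          · rw [h3.1, neg_mul, mul_neg, neg_smul, norm_neg]
        rw [e2]
        refine q4.trans (div_le_div₀ (by positivity) hle (by positivity) ?_)
        exact le_self_pow₀ hN0 (by omega))
  rw [hJ] at key
  refine le_trans ?_ (key.trans ?_)
  · unfold cnt
    refine Nat.cast_le.2 (Finset.card_le_card fun t ht => ?_)
    rw [Finset.mem_filter] at ht ⊢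
    refine ⟨ht.1, fun j _ => ?_⟩
    have := (mem_ball_iff h0.le).1 ht.2 j
    calc _ ≤ D * δ := mul_le_mul (by linarith) this (norm_nonneg _) (by positivity)
      _ = 1 := hDδ
  · have : (4 : ℝ) / r ≤ 80 * δ := by
      rw [div_le_iff₀ (by linarith)]
      nlinarith
    have h2 := pow_le_pow_left₀ (by positivity) this d
    rw [mul_pow] at h2
    refine mul_le_mul_of_nonneg_right ?_ (by positivity)
    linarith

end Pool.Agent.Lib.WC
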