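import Pool.Agent.Lib.WC.Blue

/-! Block FEJ2: equidistribution of the shears in the first coordinate. -/

namespace Pool.Agent.Lib.WC

open MeasureTheory Polynomial Finset

namespace FEJ2

/-- The derivative phase. -/
noncomputable def dx {d : ℕ} (h : ℤ) (y : TT (d + 1)) : TT (d + 1) :=
  Fin.snoc (α := fun _ => UnitAddCircle) (fun i : Fin d => (h * ((i.val : ℤ) + 2)) • y i.succ) 0

lemma smul_U {d : ℕ} (h t : ℤ) (y : TT (d + 1)) : h • U t y 0 = h • y 0 + ph (dx h y) t := by
  rw [U_apply, Fin.sum_univ_succ, ph, Fin.sum_univ_castSucc, smul_add, Finset.smul_sum]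
  simp only [dx, Fin.snoc_castSucc, Fin.snoc_last, smul_zero, add_zero, smul_smul]
  congr 1
  · simp
  · refine Finset.sum_congr rfl fun i _ => ?_
    congr 1
    simp only [Fin.val_succ, Fin.val_zero, zero_add, Nat.choose_one_right, Nat.sub_zero,
      Fin.val_castSucc]
    push_cast; ring

lemma norm_sum {d : ℕ} (N : ℕ) (h : ℤ) (y : TT (d + 1)) :
    ‖∑ t ∈ range N, ch (Pi.single 0 h) (U ((t : ℤ) + 1) y)‖ = ‖S N (dx h y)‖ := by
  simp only [ch_single, smul_U, ee_add, ← Finset.mul_sum, norm_mul, norm_ee, one_mul, S]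

lemma wide {d N : ℕ} {h : ℤ} {y : TT (d + 1)} {H D : ℝ} (h0 : h ≠ 0) (hh : (|h| : ℝ) ≤ D)
    (hx : dx h y ∈ Mj (d + 1) 0 N H) : y ∈ Mj (d + 1) 1 N (H * D * (d + 1).factorial) := by
  have hH := Mj.one_le hx
  obtain ⟨q, h1, h2, h3⟩ := hx
  have ha : 1 ≤ h.natAbs := Int.natAbs_pos.2 h0
  have ha' : (h.natAbs : ℝ) = |(h : ℝ)| := by rw [Nat.cast_natAbs, Int.cast_abs]
  have hD : 1 ≤ D := by
    have : (1 : ℝ) ≤ h.natAbs := by exact_mod_cast ha
    linarith
  have hf := Nat.factorial_pos (d + 1)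
  refine ⟨q * h.natAbs * (d + 1).factorial, Nat.mul_pos (Nat.mul_pos h1 ha) hf, ?_, ?_⟩
  · push_cast
    rw [ha']
    gcongr
  · intro j hj
    obtain ⟨i, rfl⟩ := Fin.exists_succ_eq.2 (show j ≠ 0 by rintro rfl; simp at hj)
    obtain ⟨m, hm⟩ : i.val + 2 ∣ (d + 1).factorial :=
      Nat.dvd_factorial (by omega) (by have := i.2; omega)
    have hm' : m ≤ (d + 1).factorial := by rw [hm]; nlinarith
    have h4 := h3 i.castSucc (Nat.zero_le _)
    simp only [dx, Fin.snoc_castSucc, Fin.val_castSucc, Nat.sub_zero] at h4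
    have e : (q * h.natAbs * (d + 1).factorial) • y i.succ =
        (h.sign * m) • (q • ((h * ((i.val : ℤ) + 2)) • y i.succ)) := by
      rw [← natCast_zsmul, ← natCast_zsmul, smul_smul, smul_smul, hm]
      congr 1
      push_cast
      rw [← Int.sign_mul_self_eq_abs]
      ring
    have h5 : |((h.sign * m : ℤ) : ℝ)| ≤ (d + 1).factorial := by
      have : |h.sign * (m : ℤ)| ≤ (d + 1).factorial := by
        rw [abs_mul, Int.abs_sign_of_ne_zero h0, one_mul, Nat.abs_cast]
        exact_mod_cast hm'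
      exact_mod_cast this
    rw [e, Fin.val_succ, Nat.add_sub_cancel]
    refine (norm_zsmul_le' _ _).trans ?_
    calc _ ≤ ((d + 1).factorial : ℝ) * (H / (N : ℝ) ^ (i.val + 1)) := by gcongr
      _ = H * 1 * (d + 1).factorial / (N : ℝ) ^ (i.val + 1) := by ring
      _ ≤ _ := by gcongr

end FEJ2

open FEJ2 in
theorem blk_FEJ2 (hF : St_FEJ0) (hI : St_INV) : St_FEJ2 := by
  classical
  intro d
  obtain ⟨A, hA, hI⟩ := hI (d + 1)
  refine ⟨A + 1 + (d + 1).factorial, 84, by omega, by norm_num, fun N δ y ξ hN h0 h1 hy => ?_⟩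
  have hD : 20 ≤ 1 / δ := by rw [le_div_iff₀ h0]; linarith
  set D := 1 / δ with hDdef
  have hδ : δ * D = 1 := by rw [hDdef]; field_simp
  set r := ⌊D / 10⌋₊ with hr
  have r1 : (r : ℝ) ≤ D / 10 := Nat.floor_le (by linarith)
  have r2 : D / 10 < r + 1 := Nat.lt_floor_add_one _
  have r3 : (1 : ℝ) ≤ r := by linarith
  have key := hF (d + 1) r N {0} δ (fun t => U ((t : ℤ) + 1) y) ξ (by exact_mod_cast r3) h0.le
    (fun h hne hlt hz => by
      have e : h = Pi.single 0 (h 0) := by
        ext j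
        by_cases hj : j = 0
        · subst hj; simp
        · rw [hz j (by simpa using hj), Pi.single_eq_of_ne hj]
      have hh : h 0 ≠ 0 := fun h' => hne (by rw [e, h']; simp)
      rw [e, norm_sum]
      by_contra hc
      push Not at hc
      have hx := hI N N D (dx (h 0) y) hN le_rfl (by linarith)
        (by rw [hDdef, div_div_eq_mul_div, div_one, mul_comm]; exact hc.le)
      have hb : (|h 0| : ℝ) ≤ D := by
        have : ((|h 0| : ℤ) : ℝ) ≤ ((r : ℤ) : ℝ) := by exact_mod_cast (hlt 0).le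
        push_cast at this
        linarith
      refine hy (Mj_mono ?_ (wide hh hb hx))
      have h2 : (((d + 1).factorial : ℕ) : ℝ) ≤ D ^ (d + 1).factorial :=
        calc (((d + 1).factorial : ℕ) : ℝ) ≤ 2 ^ (d + 1).factorial := by
              exact_mod_cast Nat.lt_two_pow_self.le
          _ ≤ _ := by gcongr; linarith
      rw [pow_add, pow_succ]
      gcongr)
  refine le_trans ?_ (key.trans ?_)
  · rw [cnt]
    refine Nat.cast_le.2 (Finset.card_le_card fun t ht => ?_)
    rw [Finset.mem_filter] at ht ⊢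
    refine ⟨ht.1, fun j _ => ?_⟩
    have h2 := (mem_ball_iff h0.le).1 ht.2 j
    calc _ ≤ 10 * (D / 10) * δ := by gcongr
      _ = 1 := by linarith
  · have h2 : 4 / (r : ℝ) ≤ 80 * δ := by
      rw [div_le_iff₀ (by linarith)]
      nlinarith
    rw [Finset.card_singleton, pow_one, pow_one]
    gcongr
    linarith

end Pool.Agent.Lib.WC
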