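import Pool.Agent.Lib.WC.Blue

/-! The refined mean value for one block. -/

namespace Pool.Agent.Lib.WC

open MeasureTheory Finset

namespace G0

variable {k : ℕ}

lemma Kn_le (hK : St_KER) {M : ℕ} (hM : 1 ≤ M) (v : TT k) :
    Kn (fun j : Fin k => M ^ (j.val + 1)) 2 v ≤ (9 / 4) ^ k * Wk M v := by
  rw [Kn, Wk, ← Fin.prod_const, ← prod_mul_distrib]
  refine prod_le_prod (fun l _ => by positivity) fun l _ => ?_
  have h := hK.decay (M ^ (l.val + 1)) (v l) (Nat.pow_pos hM)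
  have h2 := pow_le_pow_left₀ (by positivity) h 2
  push_cast at h2 ⊢
  rw [wt, ← mul_div_assoc, le_div_iff₀ (by positivity)]
  calc _ = (M : ℝ) ^ (l.val + 1) *
        (‖dk (M ^ (l.val + 1)) (v l)‖ * (1 + (M : ℝ) ^ (l.val + 1) * ‖v l‖)) ^ 2 := by ring
    _ ≤ (M : ℝ) ^ (l.val + 1) * (3 / 2) ^ 2 := by gcongr
    _ = _ := by ring

lemma point (hK : St_KER) (hU : St_UP) {M : ℕ} (hM : 1 ≤ M) (y : TT k) :
    ‖S M y‖ ^ 2 ≤ 5 ^ (k * 2) * (9 / 4) ^ k * sg M y := by
  have hS : (S M : TT k → ℂ) ∈ Sp {ω | ∀ i : Fin k, |((AddMonoidHom.id (Fin k → ℤ) ω i : ℤ) : ℝ) +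
      (0 : Fin k → ℝ) i| ≤ ((M ^ (i.val + 1) : ℕ) : ℝ)} := by
    rw [S_eq]
    refine Submodule.sum_mem _ fun n hn => ch_mem fun i => ?_
    have h1 : (n : ℝ) + 1 ≤ M := by exact_mod_cast mem_range.1 hn
    simp only [AddMonoidHom.id_apply, mom, Pi.zero_apply, add_zero]
    push_cast
    rw [abs_of_nonneg (by positivity)]
    gcongr
  have h := hU k k (AddMonoidHom.id _) 0 (fun j => M ^ (j.val + 1)) 2 2 (S M) y
    (fun _ => Nat.pow_pos hM) le_rfl (by norm_num) hS
  simp only [tr_id] at h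
  have h5 : ((2 : ℕ) : ℝ) + 3 = 5 := by norm_num
  rw [h5] at h
  refine h.trans ?_
  rw [mul_assoc]
  refine mul_le_mul_of_nonneg_left ?_ (by positivity)
  calc _ ≤ ∫ v : TT k, (9 / 4) ^ k * (Wk M v * ‖S M (y + v)‖ ^ 2) := by
        refine integral_mono (cint (by fun_prop)) (cint (by fun_prop)) fun v => ?_
        simp only
        rw [← mul_assoc]
        exact mul_le_mul_of_nonneg_right (Kn_le hK hM v) (by positivity)
    _ ≤ _ := by
        rw [integral_const_mul, sg]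
        gcongr
        exact le_add_of_nonneg_left (Nat.cast_nonneg _)

lemma orth {d : ℕ} (hd : 1 ≤ d) (ρ : UnitAddCircle → ℂ) (ω : Fin (d + 1) → ℤ) (h : ω 0 ≠ 0) :
    ∫ y : TT (d + 1), ch ω y * ρ (y (Fin.last d)) = 0 := by
  refine integral_eq_zero_of_add_right_eq_neg
    (g := Pi.single 0 ((1 / 2 / ω 0 : ℝ) : UnitAddCircle)) fun y => ?_
  have h0 : Fin.last d ≠ 0 := by
    intro h1
    have := congrArg Fin.val h1
    simp at this
    omega
  have h1 : ch ω (Pi.single 0 ((1 / 2 / ω 0 : ℝ) : UnitAddCircle)) = -1 := by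
    rw [ch, Finset.sum_eq_single 0 (by simp +contextual) (by simp), Pi.single_eq_same,
      ← AddCircle.coe_zsmul, zsmul_eq_mul, mul_div_cancel₀ _ (by exact_mod_cast h), ee_coe,
      ← Complex.exp_pi_mul_I]
    congr 1
    push_cast
    ring
  rw [ch_add_pt, h1, Pi.add_apply, Pi.single_eq_of_ne h0, add_zero]
  ring

lemma mean {d : ℕ} (hd : 1 ≤ d) {ρ : UnitAddCircle → ℝ} (hρ : Continuous ρ) (M : ℕ) :
    ∫ y : TT (d + 1), ‖S M y‖ ^ 2 * ρ (y (Fin.last d)) = M * ∫ z, ρ z := by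
  apply Complex.ofReal_injective
  rw [← integral_complex_ofReal]
  have h1 : ∀ y : TT (d + 1), ((‖S M y‖ ^ 2 * ρ (y (Fin.last d)) : ℝ) : ℂ) =
      ∑ n ∈ range M, ∑ m ∈ range M, ch (mom (d + 1) ((n : ℤ) + 1) - mom (d + 1) ((m : ℤ) + 1)) y *
        (ρ (y (Fin.last d)) : ℂ) := fun y => by
    rw [Complex.ofReal_mul, ← Complex.normSq_eq_norm_sq, ← Complex.mul_conj, S_eq, Finset.sum_apply,
      map_sum, sum_mul_sum, sum_mul]
    refine sum_congr rfl fun n _ => ?_
    rw [sum_mul]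
    refine sum_congr rfl fun m _ => ?_
    rw [sub_eq_add_neg, ch_add, ch_neg]
  simp_rw [h1]
  rw [integral_finsetSum _ fun n _ => cint (by fun_prop)]
  have h2 : ∀ n ∈ range M, ∫ y : TT (d + 1), ∑ m ∈ range M,
      ch (mom (d + 1) ((n : ℤ) + 1) - mom (d + 1) ((m : ℤ) + 1)) y * (ρ (y (Fin.last d)) : ℂ) =
      ((∫ z, ρ z : ℝ) : ℂ) := fun n hn => by
    rw [integral_finsetSum _ fun m _ => cint (by fun_prop), sum_eq_single_of_mem n hn]
    · simp only [sub_self, ch_zero, one_mul]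
      rw [integral_complex_ofReal, int_eval (Fin.last d) hρ]
    · intro m _ hm
      refine orth hd (fun z => (ρ z : ℂ)) _ ?_
      simp only [mom, Pi.sub_apply, Fin.val_zero, zero_add, pow_one]
      omega
  rw [sum_congr rfl h2]
  simp

end G0

open G0 in
theorem blk_G0 (hK : St_KER) (hU : St_UP) : St_G0 := by
  intro d hd
  set C0 : ℝ := 5 ^ ((d + 1) * 2) * (9 / 4) ^ (d + 1) with hC0
  have h1 : 1 ≤ C0 :=
    one_le_mul_of_one_le_of_one_le (one_le_pow₀ (by norm_num)) (one_le_pow₀ (by norm_num))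
  obtain ⟨e, he⟩ : ∃ e, sd (d + 1) = e + 1 := by
    refine Nat.exists_eq_succ_of_ne_zero ?_
    have : 2 ≤ (d + 1) * (d + 1 + 1) := by nlinarith
    unfold sd
    omega
  refine ⟨2 * C0 ^ e, one_le_mul_of_one_le_of_one_le one_le_two (one_le_pow₀ h1),
    fun M R ζ hM hR => ?_⟩
  have hρ : Continuous fun z : UnitAddCircle => 1 / (1 + R * ‖z - ζ‖) ^ 2 :=
    continuous_const.div (by fun_prop) fun z => by positivity
  have ht : ∫ z : UnitAddCircle, 1 / (1 + R * ‖z - ζ‖) ^ 2 ≤ 2 / R := by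
    have h := hK.tail R 2 ζ hR one_lt_two
    have h2 : ∀ z : UnitAddCircle, R / (1 + R * ‖z - ζ‖) ^ (2 : ℝ) =
        R * (1 / (1 + R * ‖z - ζ‖) ^ 2) := fun z => by
      rw [Real.rpow_two, mul_one_div]
    simp_rw [h2] at h
    rw [integral_const_mul] at h
    rw [le_div_iff₀ hR]
    linarith
  have hρ' : Continuous fun y : TT (d + 1) => 1 / (1 + R * ‖y (Fin.last d) - ζ‖) ^ 2 :=
    hρ.comp (continuous_apply _)
  calc Phi d M 1 R ζ ≤ ∫ y : TT (d + 1),
        C0 ^ e * (‖S M y‖ ^ 2 * (1 / (1 + R * ‖y (Fin.last d) - ζ‖) ^ 2)) := by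
        rw [Phi]
        refine integral_mono_of_nonneg (Filter.Eventually.of_forall fun y => ?_)
          (cint (by fun_prop)) (Filter.Eventually.of_forall fun y => ?_)
        · have := sig_pos hM le_rfl y
          simp only [Pi.zero_apply]
          positivity
        · have hs : sig M 1 y = sg M y := by simp [sig]
          have hp : 0 < sg M y := hs ▸ sig_pos hM le_rfl y
          have h3 := pow_le_pow_left₀ (by positivity) (point hK hU hM y) e
          simp only [he, hs, one_mul, Nat.add_sub_cancel]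
          rw [← mul_assoc, mul_one_div]
          refine div_le_div_of_nonneg_right ?_ (by positivity)
          rw [div_le_iff₀ (by positivity)]
          calc _ = (‖S M y‖ ^ 2) ^ e * ‖S M y‖ ^ 2 := by ring
            _ ≤ (C0 * sg M y) ^ e * ‖S M y‖ ^ 2 := by gcongr
            _ = _ := by ring
    _ = C0 ^ e * (M * ∫ z : UnitAddCircle, 1 / (1 + R * ‖z - ζ‖) ^ 2) := by
        rw [integral_const_mul, mean hd hρ M]
    _ ≤ C0 ^ e * (M * (2 / R)) := by gcongr
    _ = _ := by ring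

end Pool.Agent.Lib.WC
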