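import Pool.Agent.Lib.WC.Blue

/-! The recursion for the refined mean value. -/

namespace Pool.Agent.Lib.WC

open MeasureTheory Finset

namespace G1

lemma vary {A σ₁ σ₂ q₁ q₂ T E : ℝ} {a e : ℕ} (hA : 0 ≤ A) (h1 : 0 < σ₁) (h2 : 0 < σ₂)
    (h3 : 0 < q₁) (h4 : 0 < q₂) (hE : 0 ≤ E) (hT : 0 ≤ T) (hσ : σ₁ ≤ (E * T) ^ a * σ₂)
    (hq : q₁ ≤ T * q₂) :
    A / σ₂ ^ e / q₂ ^ 2 ≤ E ^ (a * e) * T ^ (a * e + 2) * (A / σ₁ ^ e / q₁ ^ 2) := by
  have k1 : σ₁ ^ e * q₁ ^ 2 ≤ E ^ (a * e) * T ^ (a * e + 2) * (σ₂ ^ e * q₂ ^ 2) := by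
    calc σ₁ ^ e * q₁ ^ 2 ≤ ((E * T) ^ a * σ₂) ^ e * (T * q₂) ^ 2 := by gcongr
      _ = _ := by rw [mul_pow, ← pow_mul, mul_pow, mul_pow, pow_add]; ring
  rw [div_div, div_div, ← mul_div_assoc, div_le_div_iff₀ (by positivity) (by positivity)]
  calc A * (σ₁ ^ e * q₁ ^ 2) ≤ A * (E ^ (a * e) * T ^ (a * e + 2) * (σ₂ ^ e * q₂ ^ 2)) := by gcongr
    _ = _ := by ring

variable {k : ℕ}

lemma conv {κ H : TT k → ℝ} (hκ : Continuous κ) (hH : Continuous H) :
    ∫ y, ∫ v, κ v * H (y + v) = (∫ v, κ v) * ∫ y, H y := by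
  rw [swap_int (f := fun y v => κ v * H (y + v)) (by fun_prop), ← integral_mul_const]
  refine integral_congr_ae (Filter.Eventually.of_forall fun v => ?_)
  simp only
  rw [integral_const_mul, int_add H v]

lemma Kn_Th (hK : St_KER) {M L : ℕ} (hM : 1 ≤ M) (hL : 1 ≤ L) (μ b : ℕ) (v : TT k) :
    Kn (fun l : Fin k => M * L ^ l.val) (μ + b) v * Th M L v ^ b ≤
      ((3 / 2) ^ b) ^ k * Kn (fun l : Fin k => M * L ^ l.val) μ v := by
  rw [Kn, Kn, Th, ← prod_pow, ← prod_mul_distrib, ← Fin.prod_const, ← prod_mul_distrib]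
  refine prod_le_prod (fun l _ => by positivity) fun l _ => ?_
  have h := hK.decay (M * L ^ l.val) (v l) (Nat.mul_pos hM (Nat.pow_pos hL))
  have h2 := pow_le_pow_left₀ (by positivity) h b
  push_cast at h2 ⊢
  rw [mul_pow] at h2
  calc _ = (M : ℝ) * L ^ l.val * ‖dk (M * L ^ l.val) (v l)‖ ^ μ *
        (‖dk (M * L ^ l.val) (v l)‖ ^ b * (1 + (M : ℝ) * L ^ l.val * ‖v l‖) ^ b) := by ring
    _ ≤ (M : ℝ) * L ^ l.val * ‖dk (M * L ^ l.val) (v l)‖ ^ μ * (3 / 2) ^ b := by gcongr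
    _ = _ := by ring

lemma Kn_mass (hK : St_KER) (r : Fin k → ℕ) (hr : ∀ i, 1 ≤ r i) (μ : ℕ) :
    (1 / (5 * 2 ^ μ)) ^ k ≤ ∫ v, Kn r μ v := by
  unfold Kn
  rw [integral_fintype_prod_volume_eq_prod fun i (z : UnitAddCircle) =>
    (r i : ℝ) * ‖dk (r i) z‖ ^ μ, ← Fin.prod_const]
  exact prod_le_prod (fun _ _ => by positivity) fun i _ => hK.mass _ _ (hr i)

lemma Th_neg (M L : ℕ) (v : TT k) : Th M L (-v) = Th M L v := by simp [Th]

lemma le_Th {M L : ℕ} (v : TT k) (l : Fin k) : 1 + (M : ℝ) * L ^ l.val * ‖v l‖ ≤ Th M L v := by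
  rw [Th, ← mul_prod_erase _ _ (mem_univ l)]
  refine le_mul_of_one_le_right (by positivity) ?_
  exact prod_induction _ (fun x : ℝ => 1 ≤ x) (fun _ _ => one_le_mul_of_one_le_of_one_le) le_rfl
    fun _ _ => le_add_of_nonneg_right (by positivity)

lemma q_vary {d M L : ℕ} (hL : 1 ≤ L) {R : ℝ} (h0 : 0 ≤ R) (hR : R ≤ M) (ζ : UnitAddCircle)
    (y v : TT (d + 1)) :
    1 + R * ‖(y + v) (Fin.last d) - ζ‖ ≤ Th M L v * (1 + R * ‖y (Fin.last d) - ζ‖) := by
  have h1 : ‖(y + v) (Fin.last d) - ζ‖ ≤ ‖y (Fin.last d) - ζ‖ + ‖v (Fin.last d)‖ := by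
    rw [Pi.add_apply, add_sub_right_comm]; exact norm_add_le _ _
  have h2 : R ≤ (M : ℝ) * L ^ (Fin.last d).val :=
    hR.trans (le_mul_of_one_le_right (by positivity) (one_le_pow₀ (by exact_mod_cast hL)))
  have h3 : 1 + R * ‖v (Fin.last d)‖ ≤ Th M L v :=
    le_trans (by gcongr) (le_Th v (Fin.last d))
  have h4 := mul_nonneg h0 (norm_nonneg (y (Fin.last d) - ζ))
  have h5 := mul_nonneg h0 (norm_nonneg (v (Fin.last d)))
  calc _ ≤ 1 + R * (‖y (Fin.last d) - ζ‖ + ‖v (Fin.last d)‖) := by gcongr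
    _ ≤ (1 + R * ‖v (Fin.last d)‖) * (1 + R * ‖y (Fin.last d) - ζ‖) := by nlinarith
    _ ≤ _ := by gcongr

lemma sig_vary (hS : St_SV) {M L n t : ℕ} (hM : 1 ≤ M) (hL : M ≤ L) (ht : n * M + t ≤ L)
    (y v : TT k) :
    sig M n (U t (y + v)) ≤ (2 ^ k * Th M L v) ^ (2 * k) * sig M n (U t y) := by
  rw [sig, sig, mul_sum]
  refine sum_le_sum fun j hj => ?_
  rw [U_U, U_U]
  refine hS k M L _ y v hM hL ?_
  have h1 : j * M + t ≤ L := le_trans (by have := mem_range.1 hj; gcongr) ht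
  rw [abs_of_nonneg (by positivity)]
  exact_mod_cast h1

/-- The integrand of `Phi`. -/
noncomputable def FF (d M n : ℕ) (R : ℝ) (ζ : UnitAddCircle) (y : TT (d + 1)) : ℝ :=
  ‖S (n * M) y‖ ^ (2 * sd (d + 1)) / sig M n y ^ (sd (d + 1) - 1) /
    (1 + R * ‖y (Fin.last d) - ζ‖) ^ 2

lemma cont_FF {d M n : ℕ} (hM : 1 ≤ M) (hn : 1 ≤ n) {R : ℝ} (hR : 0 ≤ R) (ζ : UnitAddCircle) :
    Continuous (FF d M n R ζ) :=
  (Continuous.div (by fun_prop) (by fun_prop) fun y => (pow_pos (sig_pos hM hn y) _).ne').div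
    (by fun_prop) fun y => by positivity

lemma FF_nonneg {d M n : ℕ} (hM : 1 ≤ M) (hn : 1 ≤ n) {R : ℝ} (ζ : UnitAddCircle)
    (y : TT (d + 1)) : 0 ≤ FF d M n R ζ y := by
  have := sig_pos hM hn y
  unfold FF; positivity

end G1

open G1 in
theorem blk_G1 (hK : St_KER) (hC : St_C1) (hS : St_SV) (hG : St_G1a) : St_G1 := by
  intro d
  obtain ⟨lam, hlam, hG⟩ := hG d
  obtain ⟨s, hs⟩ : ∃ s, sd (d + 1) = s + 1 :=
    ⟨sd (d + 1) - 1, by have := one_le_sd (k := d + 1) (by omega); omega⟩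
  set k := d + 1 with hk
  have hs1 : sd (d + 1) - 1 = s := by change sd k - 1 = s; omega
  set b := 2 * k * s + 2 with hb
  set μ := 2 * sd k * (k + 1) with hμ
  obtain ⟨ν, hν, hν2⟩ : ∃ ν, μ = ν + b ∧ 2 ≤ ν :=
    ⟨2 * s + 2 * k, by rw [hμ, hb, hs]; ring, by omega⟩
  set E : ℝ := ((2 : ℝ) ^ k) ^ (2 * k * s) with hE
  set c₂ : ℝ := ((3 / 2 : ℝ) ^ b) ^ k with hc₂
  set c₁ : ℝ := (1 / (5 * 2 ^ (μ + b))) ^ k with hc₁
  have hE0 : 0 < E := by positivity
  have hc₂0 : 0 < c₂ := by positivity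
  have hc₁0 : 0 < c₁ := by positivity
  refine ⟨max 1 ((c₂ * E) ^ 2 * (lam : ℝ) ^ sd k / c₁), le_max_left _ _, ?_⟩
  intro M n w D R ζ hM hn hw hwd hR0 hR hD hDec
  set L := w * n * M with hL
  have hwn : 1 ≤ w * n := Nat.mul_pos hw hn
  have hML : M ≤ L := Nat.le_mul_of_pos_left M hwn
  have hL1 : 1 ≤ L := hM.trans hML
  set r : Fin k → ℕ := fun l => M * L ^ l.val with hr
  have hr1 : ∀ l, 1 ≤ r l := fun l => Nat.mul_pos hM (Nat.pow_pos hL1)
  have hF := cont_FF (d := d) hM hwn hR0 ζ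
  have hF' := cont_FF (d := d) hM hn hR0 ζ
  have hq : ∀ y : TT k, 0 < 1 + R * ‖y (Fin.last d) - ζ‖ := fun y => by positivity
  -- the pointwise inequality
  have key : ∀ y : TT k, ∫ v, Kn r (μ + b) v * FF d M (w * n) R ζ (y + v) ≤
      (c₂ * E) ^ 2 * ((lam : ℝ) * D) ^ sd k * ∑ i ∈ range w,
        ∫ v, Kn r ν v * FF d M n R ζ (U ((i : ℤ) * (n * M : ℕ)) (y + v)) := by
    intro y
    have hσ := sig_pos hM hwn y
    have hqy := hq y
    set a : ℕ → ℝ := fun i => ∫ v, Kk M L v *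
      ‖S (n * M) (U ((i : ℤ) * (n * M : ℕ)) (y + v))‖ ^ (2 * sd k) with ha
    have ha0 : ∀ i, 0 ≤ a i := fun i =>
      integral_nonneg fun v => mul_nonneg (Kk_nonneg _ _ _) (by positivity)
    set σ : ℕ → ℝ := fun i => sig M n (U ((i : ℤ) * (n * M : ℕ)) y) with hσd
    have hσ0 : ∀ i, 0 < σ i := fun i => sig_pos hM hn _
    have hA : ∫ v, Kk M L v * ‖S L (y + v)‖ ^ (2 * sd k) ≤
        ((lam : ℝ) * D) ^ sd k * (sig M (w * n) y ^ s * ∑ i ∈ range w, a i / σ i ^ s) := by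
      refine (hG M n w _ y hM hn hw hwd (hC.rad k lam w D (by omega) hlam hD hDec)).trans ?_
      rw [mul_pow]
      refine mul_le_mul_of_nonneg_left ?_ (by positivity)
      refine (radon (range w) (σ := σ) (fun i _ => Real.rpow_nonneg (ha0 i) _)
        (fun i _ => hσ0 i) (by omega : 1 ≤ sd k)).trans (le_of_eq ?_)
      rw [sig_mul, show sd k - 1 = s by omega]
      congr 1
      refine sum_congr rfl fun i _ => ?_
      rw [Real.rpow_inv_natCast_pow (ha0 i) (by omega)]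
    have hB : ∫ v, Kn r (μ + b) v * FF d M (w * n) R ζ (y + v) ≤
        c₂ * E * (∫ v, Kk M L v * ‖S L (y + v)‖ ^ (2 * sd k)) / sig M (w * n) y ^ s /
          (1 + R * ‖y (Fin.last d) - ζ‖) ^ 2 := by
      rw [← integral_const_mul, ← integral_div, ← integral_div]
      refine integral_mono (cint (by fun_prop)) (cint (by fun_prop)) fun v => ?_
      have h1 := sig_vary hS (n := w * n) (t := 0) hM hML (by omega) (y + v) (-v)
      have h2 := q_vary hL1 hR0 hR ζ (y + v) (-v)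
      simp only [add_neg_cancel_right, Nat.cast_zero, U_zero, Th_neg] at h1 h2
      have h3 := vary (A := ‖S L (y + v)‖ ^ (2 * sd k)) (e := s) (by positivity) hσ
        (sig_pos hM hwn (y + v)) hqy (hq (y + v)) (by positivity)
        (zero_le_one.trans (one_le_Th M L v)) h1 h2
      have h4 := Kn_Th hK hM hL1 μ b v
      have h5 : 0 ≤ ‖S L (y + v)‖ ^ (2 * sd k) / sig M (w * n) y ^ s /
        (1 + R * ‖y (Fin.last d) - ζ‖) ^ 2 := by positivity
      simp only [FF, hs1]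
      refine (mul_le_mul_of_nonneg_left h3 (Kn_nonneg _ _ _)).trans ?_
      calc _ = E * (Kn r (μ + b) v * Th M L v ^ b) * (‖S L (y + v)‖ ^ (2 * sd k) /
            sig M (w * n) y ^ s / (1 + R * ‖y (Fin.last d) - ζ‖) ^ 2) := by ring
        _ ≤ E * (c₂ * Kk M L v) * (‖S L (y + v)‖ ^ (2 * sd k) /
            sig M (w * n) y ^ s / (1 + R * ‖y (Fin.last d) - ζ‖) ^ 2) :=
          mul_le_mul_of_nonneg_right (mul_le_mul_of_nonneg_left h4 hE0.le) h5
        _ = _ := by ring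
    have hCi : ∀ i ∈ range w, a i / σ i ^ s / (1 + R * ‖y (Fin.last d) - ζ‖) ^ 2 ≤
        c₂ * E * ∫ v, Kn r ν v * FF d M n R ζ (U ((i : ℤ) * (n * M : ℕ)) (y + v)) := by
      intro i hi
      rw [ha, ← integral_const_mul, ← integral_div, ← integral_div]
      refine integral_mono (cint (by fun_prop)) (cint (by fun_prop)) fun v => ?_
      have h0 : n * M + i * (n * M) ≤ L := by
        have := mem_range.1 hi
        calc n * M + i * (n * M) = (i + 1) * (n * M) := by ring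
          _ ≤ w * (n * M) := Nat.mul_le_mul_right _ this
          _ = L := by rw [hL, mul_assoc]
      have h1 := sig_vary hS (n := n) (t := i * (n * M)) hM hML h0 y v
      rw [Nat.cast_mul] at h1
      have h2 := q_vary hL1 hR0 hR ζ y v
      have h3 := vary (A := ‖S (n * M) (U ((i : ℤ) * (n * M : ℕ)) (y + v))‖ ^ (2 * sd k)) (e := s)
        (by positivity) (sig_pos hM hn _) (hσ0 i) (hq (y + v)) hqy (by positivity)
        (zero_le_one.trans (one_le_Th M L v)) h1 h2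
      have h4 := Kn_Th hK hM hL1 ν b v
      rw [← hν] at h4
      have h5 := FF_nonneg hM hn (R := R) ζ (U ((i : ℤ) * (n * M : ℕ)) (y + v))
      have h6 : FF d M n R ζ (U ((i : ℤ) * (n * M : ℕ)) (y + v)) =
          ‖S (n * M) (U ((i : ℤ) * (n * M : ℕ)) (y + v))‖ ^ (2 * sd k) /
            sig M n (U ((i : ℤ) * (n * M : ℕ)) (y + v)) ^ s /
              (1 + R * ‖(y + v) (Fin.last d) - ζ‖) ^ 2 := by
        rw [FF, U_last, hs1]
      rw [← h6] at h3
      simp only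
      rw [mul_div_assoc, mul_div_assoc]
      refine (mul_le_mul_of_nonneg_left h3 (Kk_nonneg _ _ _)).trans ?_
      calc _ = E * (Kk M L v * Th M L v ^ b) *
            FF d M n R ζ (U ((i : ℤ) * (n * M : ℕ)) (y + v)) := by ring
        _ ≤ E * (c₂ * Kn r ν v) * FF d M n R ζ (U ((i : ℤ) * (n * M : ℕ)) (y + v)) :=
          mul_le_mul_of_nonneg_right (mul_le_mul_of_nonneg_left h4 hE0.le) h5
        _ = _ := by ring
    refine hB.trans ?_
    calc _ ≤ c₂ * E * (((lam : ℝ) * D) ^ sd k *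
          (sig M (w * n) y ^ s * ∑ i ∈ range w, a i / σ i ^ s)) / sig M (w * n) y ^ s /
          (1 + R * ‖y (Fin.last d) - ζ‖) ^ 2 := by gcongr
      _ = c₂ * E * ((lam : ℝ) * D) ^ sd k *
          ∑ i ∈ range w, a i / σ i ^ s / (1 + R * ‖y (Fin.last d) - ζ‖) ^ 2 := by
        rw [← sum_div]; field_simp
      _ ≤ c₂ * E * ((lam : ℝ) * D) ^ sd k * ∑ i ∈ range w, c₂ * E *
          ∫ v, Kn r ν v * FF d M n R ζ (U ((i : ℤ) * (n * M : ℕ)) (y + v)) := by
        gcongr with i hi; exact hCi i hi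
      _ = _ := by rw [← mul_sum]; ring
  have hP0 : 0 ≤ Phi d M (w * n) R ζ := integral_nonneg (FF_nonneg hM hwn ζ)
  have hP1 : 0 ≤ Phi d M n R ζ := integral_nonneg (FF_nonneg hM hn ζ)
  have hci : ∀ i : ℕ, Continuous fun y : TT k =>
      ∫ v, Kn r ν v * FF d M n R ζ (U ((i : ℤ) * (n * M : ℕ)) (y + v)) := fun i =>
    cont_int (f := fun y v => Kn r ν v * FF d M n R ζ (U ((i : ℤ) * (n * M : ℕ)) (y + v)))
      (by fun_prop)
  have hint := integral_mono (μ := volume) (cint (cont_int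
    (f := fun y v => Kn r (μ + b) v * FF d M (w * n) R ζ (y + v)) (by fun_prop)))
    ((cint (continuous_finsetSum _ fun i _ => hci i)).const_mul _) key
  rw [conv (by fun_prop) hF, integral_const_mul, integral_finsetSum _ fun i _ => cint (hci i)]
    at hint
  have h7 : ∑ i ∈ range w, ∫ y : TT k,
      ∫ v, Kn r ν v * FF d M n R ζ (U ((i : ℤ) * (n * M : ℕ)) (y + v)) ≤ w * Phi d M n R ζ := by
    refine (sum_le_card_nsmul _ _ (Phi d M n R ζ) fun i _ => ?_).trans (by simp)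
    rw [conv (H := fun y => FF d M n R ζ (U ((i : ℤ) * (n * M : ℕ)) y)) (by fun_prop)
      (by fun_prop), int_mp (mp_U _) hF'.aestronglyMeasurable]
    exact mul_le_of_le_one_left hP1 (hK.kn k ν r hr1 hν2)
  have h8 : c₁ * Phi d M (w * n) R ζ ≤
      (c₂ * E) ^ 2 * ((lam : ℝ) * D) ^ sd k * (w * Phi d M n R ζ) :=
    ((mul_le_mul_of_nonneg_right (Kn_mass hK r hr1 _) hP0).trans hint).trans (by gcongr)
  calc Phi d M (w * n) R ζ ≤
      (c₂ * E) ^ 2 * (lam : ℝ) ^ sd k / c₁ * D ^ sd k * w * Phi d M n R ζ := by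
        rw [← le_div_iff₀' hc₁0] at h8
        refine h8.trans (le_of_eq ?_)
        rw [mul_pow]; ring
    _ ≤ _ := by gcongr; exact le_max_right _ _

end Pool.Agent.Lib.WC
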