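import Pool.Agent.Lib.WC.Blue

/-! Local decoupling of a Weyl sum. -/

namespace Pool.Agent.Lib.WC

open MeasureTheory Polynomial Finset

namespace G1a

lemma pert {d M n w e : ℕ} (hw : 1 ≤ w) (h : w ^ d ≤ 2 ^ d * n) {c : ℚ}
    (hc : |c| ≤ (w * n * M : ℕ)) (he : 1 ≤ e) (he' : e ≤ d + 1) {a : Fin (d + 1) → ℤ}
    (ha : ∀ j, 0 ≤ a j ∧ a j ≤ (d + 1 + 1 : ℕ) * (M * (w * n * M) ^ j.val : ℕ)) :
    |(stdFam (d + 1)).B a ((X - C c) ^ e)| ≤
      ((d + 1) * ((d + 2) * 2 ^ (d + 1) * 2 ^ d) : ℕ) * ((n * M : ℕ) : ℚ) ^ e := by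
  obtain ⟨e, rfl⟩ := Nat.exists_eq_add_of_le' he
  have h1 : ((M * (w * n * M) ^ e : ℕ) : ℚ) ≤ (2 ^ d * (n * M) ^ (e + 1) : ℕ) := by
    refine Nat.cast_le.mpr ?_
    have h2 : w ^ e ≤ 2 ^ d * n := (Nat.pow_le_pow_right hw (by omega)).trans h
    calc M * (w * n * M) ^ e = w ^ e * (M * (n * M) ^ e) := by ring
      _ ≤ 2 ^ d * n * (M * (n * M) ^ e) := Nat.mul_le_mul_right _ h2
      _ = _ := by ring
  rw [stdFam_B]
  refine (abs_sum_le_sum_abs _ _).trans ((sum_le_card_nsmul _ _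
    ((d + 2) * 2 ^ (d + 1) * ((M * (w * n * M) ^ e : ℕ) : ℚ)) fun j _ => ?_).trans ?_)
  · rw [sub_eq_add_neg, ← C_neg, coeff_X_add_C_pow, abs_mul, abs_mul, abs_pow, abs_neg,
      Nat.abs_cast]
    rcases lt_or_ge e j.val with hj | hj
    · rw [Nat.choose_eq_zero_of_lt (by omega), Nat.cast_zero, mul_zero, mul_zero]
      positivity
    · have h2 : |(a j : ℚ)| ≤ (d + 2) * (M * ((w * n * M : ℕ) : ℚ) ^ j.val) := by
        rw [abs_of_nonneg (by exact_mod_cast (ha j).1)]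
        exact_mod_cast (ha j).2
      have h3 : ((e + 1).choose (j.val + 1) : ℚ) ≤ 2 ^ (d + 1) := by
        exact_mod_cast (Nat.choose_le_two_pow _ _).trans (Nat.pow_le_pow_right two_pos he')
      calc _ ≤ (d + 2) * (M * ((w * n * M : ℕ) : ℚ) ^ j.val) *
            (((w * n * M : ℕ) : ℚ) ^ (e + 1 - (j.val + 1)) * 2 ^ (d + 1)) := by gcongr
        _ = _ := by
          obtain ⟨t, rfl⟩ := Nat.exists_eq_add_of_le hj
          rw [show j.val + t + 1 - (j.val + 1) = t by omega]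
          push_cast
          ring
  · rw [card_univ, Fintype.card_fin, nsmul_eq_mul]
    calc _ ≤ ((d + 1 : ℕ) : ℚ) * ((d + 2) * 2 ^ (d + 1) * (2 ^ d * (n * M) ^ (e + 1) : ℕ)) := by
          gcongr
      _ = _ := by push_cast; ring

end G1a

theorem blk_G1a : St_G1a := by
  intro d
  refine ⟨1 + (d + 1) * ((d + 2) * 2 ^ (d + 1) * 2 ^ d), by omega, ?_⟩
  intro M n w D y hM hn hw h hD
  have hs : 1 ≤ sd (d + 1) := one_le_sd (by omega)
  set r : Fin (d + 1) → ℕ := fun l => M * (w * n * M) ^ l.val with hr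
  set kap : TT (d + 1) → ℂ := fun v => ∏ i, dk (r i) (v i) ^ (d + 1 + 1) with hkap
  let f : ℤ → TT (d + 1) → ℂ := fun i => kap * ∑ m ∈ range (n * M),
    ee (ph y ((m : ℤ) + 1 + i * (n * M : ℕ))) • ch (mom (d + 1) ((m : ℤ) + 1 + i * (n * M : ℕ)))
  have hf : ∀ i v, f i v = kap v * (ee (ph (y + v) (i * (n * M : ℕ))) *
      S (n * M) (U (i * (n * M : ℕ)) (y + v))) := fun i v => by
    rw [← S_shift]
    simp only [f, Pi.mul_apply, Finset.sum_apply, Pi.smul_apply, smul_eq_mul, ch_mom, ph_add,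
      ee_add]
  have hL : (0 : ℚ) < (n * M : ℕ) := by positivity
  have h1 := hD _ (stdFam (d + 1)) 0 (n * M : ℕ) 0 ((range w).map Nat.castEmbedding) f hL
    (fun j hj => by
      obtain ⟨i, hi, rfl⟩ := mem_map.mp hj
      simpa using hi) fun j hj => by
      obtain ⟨i, hi, rfl⟩ := mem_map.mp hj
      refine Sp_mul (Q := In (d + 1) (stdFam (d + 1)) (0 + (i : ℤ) * (n * M : ℕ)) (n * M : ℕ))
        (dk_prod_mem r _) (Submodule.sum_mem _ fun m hm => Submodule.smul_mem _ _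
          (ch_mem (mom_mem _ ?_))) fun a ha b hb e he he' => ?_
      · have h2 : ((m + 1 : ℕ) : ℚ) ≤ (n * M : ℕ) := Nat.cast_le.mpr (mem_range.mp hm)
        simp only [Nat.castEmbedding_apply]
        push_cast at h2 ⊢
        rw [zero_add, add_sub_cancel_right, abs_of_nonneg (by positivity)]
        exact h2
      · have h2 := G1a.pert hw h (c := 0 + (i : ℤ) * (n * M : ℕ)) (by
          rw [zero_add, abs_of_nonneg (by positivity), mul_assoc w, Nat.cast_mul w]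
          exact mul_le_mul_of_nonneg_right (by exact_mod_cast (mem_range.mp hi).le) hL.le) he he' ha
        rw [add_comm a, Fam.L_add, mul_pow]
        refine (abs_add_le _ _).trans ((add_le_add (hb e he he') h2).trans ?_)
        refine le_trans (le_of_eq ?_) (mul_le_mul_of_nonneg_right (le_self_pow₀
          (Nat.one_le_cast.mpr (by omega)) (by omega)) (by positivity))
        rw [Nat.cast_add 1, Nat.cast_one, add_mul (1 : ℚ), one_mul]
  have hP : (0 : ℝ) ≤ ∏ i, (r i : ℝ) := by positivity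
  have hK : ∀ v, Kk M (w * n * M) v = (∏ i, (r i : ℝ)) * ‖kap v‖ ^ (2 * sd (d + 1)) := fun v =>
    Kn_eq r _ _ v
  have h2 : ∀ i : ℕ, (∫ v, Kk M (w * n * M) v * ‖S (n * M) (U ((i : ℤ) * (n * M : ℕ)) (y + v))‖ ^
      (2 * sd (d + 1))) ^ ((sd (d + 1) : ℝ)⁻¹) =
        (∏ i, (r i : ℝ)) ^ ((sd (d + 1) : ℝ)⁻¹) * nn (sd (d + 1)) (f i) := fun i => by
    rw [nn, ← Real.mul_rpow hP (integral_nonneg fun _ => by positivity), ← integral_const_mul]
    simp only [hK]
    simp only [hf, norm_mul, norm_ee, one_mul, mul_pow, mul_assoc]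
  rw [sum_map, sum_map] at h1
  simp only [h2, ← mul_sum]
  rw [mul_left_comm, mul_pow, Real.rpow_inv_natCast_pow hP (by omega)]
  refine le_trans (le_of_eq ?_) (mul_le_mul_of_nonneg_left
    (pow_le_pow_left₀ (nn_nonneg _ _) h1 _) hP)
  rw [nn_pow hs, ← integral_const_mul]
  refine integral_congr_ae (Filter.Eventually.of_forall fun v => ?_)
  simp only [Finset.sum_apply, hf, ← mul_sum, Nat.castEmbedding_apply]
  rw [← S_blocks, hK, norm_mul, mul_pow, mul_assoc, mul_assoc]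

end Pool.Agent.Lib.WC
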