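import Pool.Agent.Lib.WC.Blue

/-! The refined mean value estimate by induction on scales. -/

namespace Pool.Agent.Lib.WC

open MeasureTheory Polynomial Finset

theorem G2_big (d : ℕ) (C ε : ℝ) (hε : 0 < ε) : ∃ a₀ : ℕ, ∀ a b : ℕ, a₀ < a → a ≤ b * (d + 1) →
    C ≤ ((2 : ℝ) ^ b) ^ (ε / 2) := by
  have h1 : Filter.Tendsto (fun b : ℕ => ((2 : ℝ) ^ b) ^ (ε / 2)) Filter.atTop Filter.atTop :=
    (tendsto_rpow_atTop (by positivity)).comp (tendsto_pow_atTop_atTop_of_one_lt (by norm_num))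
  obtain ⟨b₀, hb₀⟩ := Filter.eventually_atTop.1 (h1.eventually_ge_atTop C)
  refine ⟨b₀ * (d + 1), fun a b h1 h2 => hb₀ b ?_⟩
  by_contra h
  have : b * (d + 1) ≤ b₀ * (d + 1) := Nat.mul_le_mul_right _ (by omega)
  omega

theorem blk_G2 (hD : St_DEC) (h0 : St_G0) (h1 : St_G1) : St_G2 := by
  intro d ε hd hε
  obtain ⟨C0, hC0, h0⟩ := h0 d hd
  obtain ⟨C1, hC1, h1⟩ := h1 d
  have hs : 0 < sd (d + 1) := by
    unfold sd
    have : 2 ≤ (d + 1) * (d + 1 + 1) := by nlinarith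
    omega
  have hs' : (0 : ℝ) < sd (d + 1) := by exact_mod_cast hs
  obtain ⟨CD, hCD, hD⟩ := hD (d + 1) (by omega) (ε / 2 / sd (d + 1)) (by positivity)
  set C2 : ℝ := C1 * CD ^ sd (d + 1) with hC2d
  have hC2 : 1 ≤ C2 := one_le_mul_of_one_le_of_one_le hC1 (one_le_pow₀ hCD)
  obtain ⟨a₀, ha₀⟩ := G2_big d C2 ε hε
  refine ⟨C0 * C2 ^ a₀, one_le_mul_of_one_le_of_one_le hC0 (one_le_pow₀ hC2), ?_⟩
  intro M a R ζ hM hR hRM
  have hMR : (0 : ℝ) ≤ M / R := by positivity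
  have key : ∀ a : ℕ, Phi d M (2 ^ a) R ζ ≤
      C0 * C2 ^ min a a₀ * ((2 : ℝ) ^ a) ^ (1 + ε) * (M / R) := by
    intro a
    induction a using Nat.strong_induction_on with
    | _ a ih =>
      rcases Nat.eq_zero_or_pos a with rfl | ha
      · simpa [mul_div_assoc] using h0 M R ζ hM hR
      obtain ⟨a', ha'⟩ : ∃ a', a' = d * a / (d + 1) := ⟨_, rfl⟩
      have e1 : a' * (d + 1) ≤ d * a := ha' ▸ Nat.div_mul_le_self _ _
      have e2 : d * a < (a' + 1) * (d + 1) := by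
        rw [ha']
        have := Nat.lt_div_mul_add (a := d * a) (b := d + 1) (by omega)
        nlinarith
      have e3 : a' < a := by
        by_contra h
        have : a * (d + 1) ≤ a' * (d + 1) := Nat.mul_le_mul_right _ (by omega)
        nlinarith
      obtain ⟨b, rfl⟩ : ∃ b, a = b + a' := ⟨a - a', by omega⟩
      have e4 : b + a' ≤ b * (d + 1) := by nlinarith
      have e5 : (2 ^ b) ^ d ≤ 2 ^ d * 2 ^ a' := by
        rw [← pow_mul, ← pow_add]
        exact Nat.pow_le_pow_right (by norm_num) (by nlinarith)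
      have hw : 1 ≤ 2 ^ b := Nat.one_le_two_pow
      have hw' : (1 : ℝ) ≤ (2 : ℝ) ^ b := one_le_pow₀ (by norm_num)
      have hw0 : (0 : ℝ) < (2 : ℝ) ^ b := by positivity
      have h2 := h1 M (2 ^ a') (2 ^ b) _ R ζ hM Nat.one_le_two_pow hw e5 hR.le hRM
        (by positivity) (hD _ hw)
      rw [← pow_add] at h2
      have h3 := ih a' e3
      have h4 : C1 * (CD * ((2 ^ b : ℕ) : ℝ) ^ (ε / 2 / sd (d + 1))) ^ sd (d + 1) *
          ((2 ^ b : ℕ) : ℝ) = C2 * (((2 : ℝ) ^ b) ^ (ε / 2) * (2 : ℝ) ^ b) := by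
        push_cast
        rw [mul_pow, ← Real.rpow_natCast (((2 : ℝ) ^ b) ^ (ε / 2 / sd (d + 1))),
          ← Real.rpow_mul hw0.le, div_mul_cancel₀ _ hs'.ne', hC2d]
        ring
      rw [h4] at h2
      have h5 : ((2 : ℝ) ^ (b + a')) ^ (1 + ε) = ((2 : ℝ) ^ b) ^ (ε / 2) *
          (((2 : ℝ) ^ b) ^ (ε / 2) * (2 : ℝ) ^ b) * ((2 : ℝ) ^ a') ^ (1 + ε) := by
        rw [pow_add, Real.mul_rpow hw0.le (by positivity)]
        congr 1
        rw [show 1 + ε = ε / 2 + (ε / 2 + 1) by ring, Real.rpow_add hw0, Real.rpow_add hw0,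
          Real.rpow_one]
      have h6 : C2 * C2 ^ min a' a₀ ≤ C2 ^ min (b + a') a₀ * ((2 : ℝ) ^ b) ^ (ε / 2) := by
        rcases le_or_gt (b + a') a₀ with h | h
        · rw [min_eq_left h, min_eq_left (by omega), ← pow_succ']
          exact (pow_le_pow_right₀ hC2 (by omega)).trans (le_mul_of_one_le_right (by positivity)
            (Real.one_le_rpow hw' (by positivity)))
        · rw [mul_comm]
          exact mul_le_mul (pow_le_pow_right₀ hC2 (min_le_min_right _ e3.le)) (ha₀ _ b h e4)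
            (by positivity) (by positivity)
      refine h2.trans ((mul_le_mul_of_nonneg_left h3 (by positivity)).trans ?_)
      rw [h5]
      have h7 : 0 ≤ C0 * ((((2 : ℝ) ^ b) ^ (ε / 2) * (2 : ℝ) ^ b) * ((2 : ℝ) ^ a') ^ (1 + ε) *
          (M / R)) := by positivity
      have := mul_le_mul_of_nonneg_right h6 h7
      nlinarith [this]
  refine (key a).trans ?_
  rw [mul_div_assoc]
  gcongr
  exact min_le_right _ _

end Pool.Agent.Lib.WC
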