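import Pool.Agent.Lib.WC.Blue

/-! A short piece of the projected curve is a moment curve of lower degree. -/

namespace Pool.Agent.Lib.WC

open Polynomial Finset

namespace GC1

lemma term_le {A S a b z : ℚ} (ε : ℚ) {κ k l μ i : ℕ} (hκ : 1 ≤ κ) (hS : 0 < S)
    (h1 : S ≤ 2 * κ * |A|) (h2 : |A| ≤ 2 * S) (hμ : μ ≤ l) (hi : i ≤ k) (ha : 0 ≤ a)
    (hz : |z| ≤ a ^ i) (hb : (a / S) ^ i ≤ b) :
    |ε * A ^ μ / A ^ i * z| ≤ |ε| * (2 ^ l * (2 * κ) ^ k * b * S ^ μ) := by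
  have hκ' : (1 : ℚ) ≤ κ := by exact_mod_cast hκ
  have hA : 0 < |A| := by
    by_contra h
    have : |A| = 0 := le_antisymm (not_lt.mp h) (abs_nonneg _)
    rw [this] at h1; linarith
  have e1 : |A| ^ μ ≤ 2 ^ l * S ^ μ := by
    calc |A| ^ μ ≤ (2 * S) ^ μ := pow_le_pow_left₀ hA.le h2 μ
      _ = 2 ^ μ * S ^ μ := mul_pow _ _ _
      _ ≤ _ := by gcongr; norm_num
  have e2 : a / |A| ≤ 2 * κ * (a / S) := by
    rw [div_le_iff₀ hA]
    calc a = a / S * S := by field_simp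
      _ ≤ a / S * (2 * κ * |A|) := by gcongr
      _ = _ := by ring
  have hb0 : 0 ≤ b := le_trans (by positivity) hb
  have e3 : |z| / |A| ^ i ≤ (2 * κ) ^ k * b := by
    calc |z| / |A| ^ i ≤ a ^ i / |A| ^ i := by gcongr
      _ = (a / |A|) ^ i := (div_pow _ _ _).symm
      _ ≤ (2 * κ * (a / S)) ^ i := pow_le_pow_left₀ (by positivity) e2 i
      _ = (2 * κ) ^ i * (a / S) ^ i := mul_pow _ _ _
      _ ≤ _ := by gcongr; linarith
  calc |ε * A ^ μ / A ^ i * z| = |ε| * (|A| ^ μ * (|z| / |A| ^ i)) := by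
        rw [abs_mul, abs_div, abs_mul, abs_pow, abs_pow]; ring
    _ ≤ |ε| * (2 ^ l * S ^ μ * ((2 * κ) ^ k * b)) := by gcongr
    _ = _ := by ring

/-- The rescaled dual basis. -/
lemma rescale {l r μ : ℕ} {ε e : ℕ → ℚ} {c t : ℚ} (hA : c - t ≠ 0)
    (h : (C (ε 0) + ∑ i ∈ Ioc r (r + l), C (ε i) * X ^ i : ℚ[X]) =
      (X - 1) ^ μ + ∑ i ∈ Ioc l (r + l), C (e i) * (X - 1) ^ i) :
    (ε 0 * (c - t) ^ μ) • (1 : ℚ[X]) +
        ∑ i ∈ Ioc r (r + l), (ε i * (c - t) ^ μ / (c - t) ^ i) • (X - C t) ^ i =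
      (X - C c) ^ μ + ∑ i ∈ Ioc l (r + l), (e i * (c - t) ^ μ / (c - t) ^ i) • (X - C c) ^ i := by
  have h1 : ((c - t)⁻¹ • (X - C t) - 1 : ℚ[X]) = (c - t)⁻¹ • (X - C c) := by
    have : (1 : ℚ[X]) = (c - t)⁻¹ • (C c - C t) := by
      rw [← C_sub, smul_C, smul_eq_mul, inv_mul_cancel₀ hA, C_1]
    rw [this, ← smul_sub]; congr 1; ring
  have h2 := congrArg (fun P => (c - t) ^ μ • aeval ((c - t)⁻¹ • (X - C t) : ℚ[X]) P) h
  simp only [map_add, map_sum, map_mul, map_pow, map_sub, map_one, aeval_X, aeval_C, h1,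
    smul_add, Finset.smul_sum, _root_.smul_pow, ← Algebra.smul_def, smul_smul] at h2
  rw [← mul_pow, mul_inv_cancel₀ hA, one_pow, one_smul, Algebra.algebraMap_eq_smul_one,
    smul_smul] at h2
  convert h2 using 3
  · ring
  · congr 1; rw [inv_pow]; ring
  · congr 1; rw [inv_pow]; ring

/-- The linear map with prescribed values on the powers of `X - c`. -/
noncomputable def lift (l : ℕ) (c : ℚ) (Ψ : ℕ → ℚ[X]) : ℚ[X] →ₗ[ℚ] ℚ[X] :=
  ∑ μ ∈ range (l + 1), ((lcoeff ℚ μ).comp (taylor c)).smulRight (Ψ μ)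

lemma lift_pow {l : ℕ} (c : ℚ) (Ψ : ℕ → ℚ[X]) {μ : ℕ} (hμ : μ ≤ l) :
    lift l c Ψ ((X - C c) ^ μ) = Ψ μ := by
  have : taylor c ((X - C c) ^ μ : ℚ[X]) = X ^ μ := by
    rw [taylor_pow, map_sub, taylor_X, taylor_C, add_sub_cancel_right]
  simp only [lift, LinearMap.sum_apply, LinearMap.smulRight_apply, LinearMap.comp_apply, this,
    lcoeff_apply, coeff_X_pow]
  rw [Finset.sum_eq_single μ] <;> simp +contextual [Nat.lt_succ_iff, hμ]

/-- Pulling a family back along a linear map fixing `1`. -/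
noncomputable def pull {m : ℕ} (G : Fam m) (T : ℚ[X] →ₗ[ℚ] ℚ[X]) (hT : T 1 = 1) : Fam m where
  B := { toFun := fun ν => (G.B ν).comp T
         map_zero' := by simp
         map_add' := fun a b => by simp [LinearMap.add_comp] }
  B0 := G.B0.comp T
  B_one := fun ν => by simp [hT, G.B_one]
  B0_one := by simp [hT, G.B0_one]

lemma pull_L {m : ℕ} (G : Fam m) (T : ℚ[X] →ₗ[ℚ] ℚ[X]) (hT : T 1 = 1) (ν : Fin m → ℤ)
    (P : ℚ[X]) : (pull G T hT).L ν P = G.L ν (T P) := rfl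

lemma shift_le {D : ℚ[X] →ₗ[ℚ] ℚ} {c c' S T : ℚ} {i : ℕ} (hT : 0 ≤ T) (hc : |c - c'| ≤ S)
    (h : ∀ μ ≤ i, |D ((X - C c) ^ μ)| ≤ T * S ^ μ) : |D ((X - C c') ^ i)| ≤ T * (2 * S) ^ i := by
  have hS : 0 ≤ S := (abs_nonneg _).trans hc
  rw [lam_expand D c c' i, two_mul, add_pow, Finset.mul_sum]
  refine (Finset.abs_sum_le_sum_abs _ _).trans (Finset.sum_le_sum fun r hr => ?_)
  have hr' : r ≤ i := Nat.lt_succ_iff.mp (Finset.mem_range.1 hr)
  rw [abs_mul, abs_mul, abs_pow, Nat.abs_cast]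
  calc (i.choose r : ℚ) * |c - c'| ^ (i - r) * |D ((X - C c) ^ r)|
      ≤ (i.choose r : ℚ) * S ^ (i - r) * (T * S ^ r) := by
        gcongr
        exact h r hr'
    _ = _ := by ring

end GC1

open GC1 in
theorem blk_GC1 (hDB : St_DB) : St_GC1 := by
  intro k l κ K hl hlk hκ
  obtain ⟨r, rfl⟩ : ∃ r, k = r + l := ⟨k - l, by omega⟩
  have hch : ∀ μ : ℕ, ∃ ε e : ℕ → ℚ, 1 ≤ μ → μ ≤ l →
      (C (ε 0) + ∑ i ∈ Ioc r (r + l), C (ε i) * X ^ i : ℚ[X]) =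
        (X - 1) ^ μ + ∑ i ∈ Ioc l (r + l), C (e i) * (X - 1) ^ i := fun μ => by
    by_cases h : 1 ≤ μ ∧ μ ≤ l
    · obtain ⟨ε, e, h'⟩ := hDB l r μ h.1 h.2
      exact ⟨ε, e, fun _ _ => h'⟩
    · exact ⟨0, 0, fun h1 h2 => absurd ⟨h1, h2⟩ h⟩
  choose ε e hε using hch
  set W : ℚ := 2 ^ l * (2 * κ) ^ (r + l) with hW
  set E : ℕ → ℚ := fun μ => (∑ i ∈ Ioc r (r + l), |ε μ i|) * (W * K) +
    (∑ i ∈ Ioc l (r + l), |e μ i|) * W with hE
  have hE0 : ∀ μ, 0 ≤ E μ := fun μ => by simp only [hE]; positivity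
  set C0 : ℚ := ∑ μ ∈ range (l + 1), E μ with hC0
  have hC00 : 0 ≤ C0 := Finset.sum_nonneg fun μ _ => hE0 μ
  refine ⟨⌈C0 * 2 ^ l⌉₊ + 1, by omega, fun m G c τ S t ρ w hτ hρ hwS h1 h2 hx hρS => ?_⟩
  rcases Nat.eq_zero_or_pos w with rfl | hw
  · exact ⟨G, fun j h h' => absurd h' (by simpa using h)⟩
  have hw' : (1 : ℚ) ≤ w := by exact_mod_cast hw
  have hτS : τ ≤ S := le_trans (by nlinarith) hwS
  have hS : 0 < S := hτ.trans_le hτS
  have hA : c - t ≠ 0 := fun h => by rw [h, abs_zero] at h1; linarith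
  set Ψ : ℕ → ℚ[X] := fun μ => if μ = 0 then 1 else
    (X - C c) ^ μ + ∑ i ∈ Ioc l (r + l), (e μ i * (c - t) ^ μ / (c - t) ^ i) • (X - C c) ^ i
    with hΨ
  have hT : lift l c Ψ 1 = 1 := by simpa [hΨ] using lift_pow c Ψ (Nat.zero_le l)
  refine ⟨pull G _ hT, fun j hj hjw ν ⟨lam, hl1, hn, hd⟩ => ?_⟩
  have hj' : (0 : ℚ) ≤ j := by exact_mod_cast hj
  have hjw' : (j : ℚ) + 1 ≤ w := by exact_mod_cast hjw
  have hcj : |c + j * τ - c| = j * τ := by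
    rw [add_sub_cancel_left, abs_of_nonneg (by positivity)]
  have hn' : Near (r + l) lam c (w * τ) := hn.mono hl1 hτ.le (by rw [hcj]; nlinarith)
  set y : ℚ := (τ / S) ^ l with hy
  have hy0 : 0 ≤ y := by positivity
  have key : ∀ μ ≤ l, |((pull G _ hT).L ν - lam) ((X - C c) ^ μ)| ≤ C0 * y * S ^ μ := by
    intro μ hμ
    rw [LinearMap.sub_apply, pull_L, lift_pow c Ψ hμ]
    rcases Nat.eq_zero_or_pos μ with rfl | hμ0
    · simp only [hΨ, if_true, pow_zero, G.L_one, hl1, sub_self, abs_zero]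
      positivity
    have hr := rescale hA (hε μ hμ0 hμ)
    have hΨμ : Ψ μ = (X - C c) ^ μ +
        ∑ i ∈ Ioc l (r + l), (e μ i * (c - t) ^ μ / (c - t) ^ i) • (X - C c) ^ i := by
      simp only [hΨ, hμ0.ne', if_false]
    have a1 : G.L ν (Ψ μ) - lam (Ψ μ) = ∑ i ∈ Ioc r (r + l), ε μ i * (c - t) ^ μ / (c - t) ^ i *
        (G.L ν ((X - C t) ^ i) - lam ((X - C t) ^ i)) := by
      rw [hΨμ, ← hr]
      simp only [map_add, map_sum, map_smul, smul_eq_mul, G.L_one, hl1, mul_sub,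
        Finset.sum_sub_distrib]
      ring
    have a2 : lam (Ψ μ) - lam ((X - C c) ^ μ) = ∑ i ∈ Ioc l (r + l),
        e μ i * (c - t) ^ μ / (c - t) ^ i * lam ((X - C c) ^ i) := by
      rw [hΨμ]
      simp only [map_add, map_sum, map_smul, smul_eq_mul, add_sub_cancel_left]
    have b1 : |G.L ν (Ψ μ) - lam (Ψ μ)| ≤
        (∑ i ∈ Ioc r (r + l), |ε μ i|) * (W * (K * y) * S ^ μ) := by
      rw [a1, Finset.sum_mul]
      refine (Finset.abs_sum_le_sum_abs _ _).trans (Finset.sum_le_sum fun i hi => ?_)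
      rw [Finset.mem_Ioc] at hi
      exact term_le _ hκ hS h1 h2 hμ hi.2 hρ (hd i (by omega) hi.2) (hρS i (by omega) hi.2)
    have b2 : |lam (Ψ μ) - lam ((X - C c) ^ μ)| ≤
        (∑ i ∈ Ioc l (r + l), |e μ i|) * (W * y * S ^ μ) := by
      rw [a2, Finset.sum_mul]
      refine (Finset.abs_sum_le_sum_abs _ _).trans (Finset.sum_le_sum fun i hi => ?_)
      rw [Finset.mem_Ioc] at hi
      refine term_le _ hκ hS h1 h2 hμ hi.2 (by positivity) (hn' i (by omega) hi.2)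
        (le_trans ?_ hx)
      exact pow_le_pow_of_le_one (by positivity) ((div_le_one hS).mpr hwS) hi.1
    have b3 : E μ ≤ C0 :=
      Finset.single_le_sum (fun μ _ => hE0 μ) (Finset.mem_range.mpr (Nat.lt_succ_of_le hμ))
    calc |G.L ν (Ψ μ) - lam ((X - C c) ^ μ)|
        ≤ |G.L ν (Ψ μ) - lam (Ψ μ)| + |lam (Ψ μ) - lam ((X - C c) ^ μ)| := abs_sub_le _ _ _
      _ ≤ _ := add_le_add b1 b2
      _ = E μ * y * S ^ μ := by simp only [hE]; ring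
      _ ≤ _ := by gcongr
  intro i hi1 hil
  have k1 := shift_le (c' := c + j * τ) (S := S) (i := i) (mul_nonneg hC00 hy0)
    (by rw [abs_sub_comm, hcj]; nlinarith) fun μ hμ => key μ (hμ.trans hil)
  have k2 := hn i hi1 (by omega)
  rw [LinearMap.sub_apply] at k1
  have k3 : y * S ^ i ≤ τ ^ i := by
    calc y * S ^ i ≤ (τ / S) ^ i * S ^ i := by
          gcongr
          exact pow_le_pow_of_le_one (by positivity) ((div_le_one hS).mpr hτS) hil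
      _ = τ ^ i := by rw [← mul_pow, div_mul_cancel₀ _ hS.ne']
  have k4 : C0 * y * (2 * S) ^ i ≤ C0 * 2 ^ l * τ ^ i := by
    calc C0 * y * (2 * S) ^ i = C0 * 2 ^ i * (y * S ^ i) := by rw [mul_pow]; ring
      _ ≤ _ := by gcongr; norm_num
  have k5 : C0 * 2 ^ l + 1 ≤ ((⌈C0 * 2 ^ l⌉₊ + 1 : ℕ) : ℚ) := by
    push_cast; linarith [Nat.le_ceil (C0 * 2 ^ l)]
  have k6 : (1 : ℚ) ≤ ((⌈C0 * 2 ^ l⌉₊ + 1 : ℕ) : ℚ) := by exact_mod_cast Nat.le_add_left 1 _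
  have k7 := abs_sub_abs_le_abs_sub ((pull G _ hT).L ν ((X - C (c + j * τ)) ^ i))
    (lam ((X - C (c + j * τ)) ^ i))
  calc |(pull G _ hT).L ν ((X - C (c + j * τ)) ^ i)| ≤ (C0 * 2 ^ l + 1) * τ ^ i := by linarith
    _ ≤ ((⌈C0 * 2 ^ l⌉₊ + 1 : ℕ) : ℚ) ^ i * τ ^ i := by
        gcongr
        exact k5.trans (le_self_pow₀ k6 (by omega))
    _ = _ := (mul_pow _ _ _).symm

end Pool.Agent.Lib.WC
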