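import Pool.Agent.Lib.WC.Blue

/-! Block GC2: decoupling for the projected curve. -/

namespace Pool.Agent.Lib.WC

open MeasureTheory Polynomial Finset Filter

namespace GC2

lemma card_le {c τ S t : ℚ} {W : ℕ} {I : Finset ℤ} (hτ : 0 < τ) (hS : S < W * τ)
    (h : ∀ j ∈ I, |c + j * τ - t| ≤ S + τ) : I.card ≤ 2 * W + 4 := by
  have h1 : I ⊆ Icc (⌊(t - c) / τ⌋ - W - 1) (⌊(t - c) / τ⌋ + W + 2) := fun j hj => by
    have h2 := abs_le.1 (h j hj)
    have h3 := Int.floor_le ((t - c) / τ)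
    have h4 := Int.lt_floor_add_one ((t - c) / τ)
    rw [le_div_iff₀ hτ] at h3
    rw [div_lt_iff₀ hτ] at h4
    rw [mem_Icc]
    constructor
    · have : ((⌊(t - c) / τ⌋ : ℚ) - W - 1) * τ ≤ j * τ := by linarith [h2.1]
      exact_mod_cast le_of_mul_le_mul_right this hτ
    · have : (j : ℚ) * τ ≤ ((⌊(t - c) / τ⌋ : ℚ) + W + 2) * τ := by linarith [h2.2]
      exact_mod_cast le_of_mul_le_mul_right this hτ
  refine (card_le_card h1).trans ?_
  rw [Int.card_Icc]
  omega

lemma exists_w (κ : ℕ) (A : ℝ) {ε : ℝ} (hε : 0 < ε) :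
    ∃ w : ℕ, 2 * κ ≤ w ∧ A ≤ (w : ℝ) ^ ε :=
  ((eventually_ge_atTop (2 * κ)).and (((tendsto_rpow_atTop hε).comp
    tendsto_natCast_atTop_atTop).eventually_ge_atTop A)).exists

end GC2

open GC2 in
theorem blk_GC2 (hC : St_C1) (hG : St_GC1) : St_GC2 := by
  intro k l κ K ε hl hlk hκ hε hD
  obtain ⟨lam, hlam, hG⟩ := hG k l κ K hl hlk hκ
  obtain ⟨D, hD1, hD⟩ := hD (ε / 2) (by linarith)
  obtain ⟨w, hw1, hw2⟩ := exists_w κ (lam * D) (ε := ε / 2) (by linarith)
  have hw : 1 ≤ w := by omega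
  have hwR : (0 : ℝ) < w := by exact_mod_cast hw
  have hwQ : (2 : ℚ) ≤ w := by exact_mod_cast (by omega : 2 ≤ w)
  have hκQ : (0 : ℚ) < κ := by exact_mod_cast hκ
  have hR := hC.rad l lam w _ hl hlam (by positivity) (hD w hw)
  have hle : lam * (D * (w : ℝ) ^ (ε / 2)) ≤ (w : ℝ) ^ ε := by
    rw [← mul_assoc]
    conv_rhs => rw [← add_halves ε, Real.rpow_add hwR]
    gcongr
  have hs := one_le_sd hl
  refine ⟨(2 * w ^ (l + 1) + 4 : ℕ), by exact_mod_cast (by omega), fun m G c τ S t ρ I f h1 h2 => ?_⟩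
  obtain ⟨n, hn⟩ : ∃ n : ℕ, S ≤ n * τ := by
    obtain ⟨n, hn⟩ := exists_nat_ge (S / τ)
    exact ⟨n, (div_le_iff₀ h1).1 hn⟩
  induction n generalizing τ I f with
  | zero => simp at hn; linarith
  | succ n ih =>
    intro h3 h4 h5 h6
    have hS : 0 < S := h1.trans_le h2
    have hsum : 0 ≤ ∑ j ∈ I, nn (sd l) (f j) := sum_nonneg fun _ _ => nn_nonneg _ _
    by_cases hb : S < (w ^ (l + 1) : ℕ) * τ
    · refine (nn_sum_le I hs fun j hj => Sp_cont (h6 j hj)).trans
        (mul_le_mul_of_nonneg_right ?_ hsum)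
      have e1 : (1 : ℝ) ≤ ((S / τ : ℚ) : ℝ) ^ ε :=
        Real.one_le_rpow (by exact_mod_cast (one_le_div h1).2 h2) hε.le
      refine le_trans ?_ (le_mul_of_one_le_right (by positivity) e1)
      exact_mod_cast card_le h1 hb fun j hj => (h5 j hj).2
    push_cast at hb hn
    rw [not_lt] at hb
    have e1 : (w : ℚ) * w * τ ≤ S := by
      refine le_trans (mul_le_mul_of_nonneg_right ?_ h1.le) hb
      rw [← sq]
      exact pow_le_pow_right₀ (by linarith) (by omega)
    have e0 : 0 < w * τ := by positivity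
    have e2 : w * τ ≤ S := by nlinarith
    have e3 : 2 * κ * (w * τ) ≤ S := by
      have : (2 * κ : ℚ) ≤ w := by exact_mod_cast hw1
      nlinarith
    have e4 : S ≤ n * (w * τ) := by
      have h7 : (1 : ℚ) ≤ n := by
        rcases Nat.eq_zero_or_pos n with rfl | h
        · simp at hn; nlinarith
        · exact_mod_cast h
      have : (n + 1 : ℚ) ≤ n * w := by nlinarith
      nlinarith
    have mem : ∀ J : ℤ, ∀ j ∈ I.filter fun j => (j - 0) / w = J,
        j ∈ Ico (J * w) (J * w + w) := fun J j hj => by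
      simpa using (ediv_eq_iff hw).1 (mem_filter.1 hj).2
    have cen : ∀ J : ℤ, c + J * (w * τ) = c + (J * w : ℤ) * τ := fun J => by push_cast; ring
    have inv : ∀ J ∈ I.image fun j : ℤ => (j - 0) / (w : ℤ),
        S / κ - w * τ ≤ |c + J * (w * τ) - t| ∧ |c + J * (w * τ) - t| ≤ S + w * τ := by
      intro J hJ
      obtain ⟨j, hj, e⟩ := mem_image.1 hJ
      have h7 := group_le (c := c) h1 (mem J j (mem_filter.2 ⟨hj, e⟩))
      have h8 := h5 j hj
      have h9 := abs_le.1 (abs_abs_sub_abs_le_abs_sub (c + j * τ - t) (c + (J * w : ℤ) * τ - t))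
      rw [sub_sub_sub_cancel_right] at h9
      rw [cen]
      constructor <;> linarith [h8.1, h8.2, h9.1, h9.2]
    have step := ih (w * τ) (I.image fun j => (j - 0) / w)
      (fun J => ∑ j ∈ I with (j - 0) / w = J, f j) e0 e2 e4 h3
      (fun i a b => (h4 i a b).trans (by gcongr; nlinarith)) inv
      fun J _ => Submodule.sum_mem _ fun j hj => Sp_mono
        (InC_mono G h1.le (cen J ▸ group_le h1 (mem J j hj))) (h6 j (mem_filter.1 hj).1)
    have grp : ∀ J ∈ I.image fun j : ℤ => (j - 0) / (w : ℤ),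
        nn (sd l) (∑ j ∈ I with (j - 0) / w = J, f j) ≤
          (w : ℝ) ^ ε * ∑ j ∈ I with (j - 0) / w = J, nn (sd l) (f j) := by
      intro J hJ
      obtain ⟨i1, i2⟩ := inv J hJ
      obtain ⟨G', hG'⟩ := hG m G (c + J * (w * τ)) τ S t ρ w h1 h3 e2
        (by rw [sub_le_iff_le_add, div_le_iff₀ hκQ] at i1; linarith) (by linarith)
        (by
          rw [mul_div_assoc, mul_pow, pow_succ (τ / S), mul_comm _ (τ / S), ← mul_assoc]
          refine mul_le_of_le_one_left (by positivity) ?_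
          rwa [← mul_div_assoc, div_le_one hS]) h4
      refine (hR m G' c τ (J * w) _ f h1 (mem J) fun j hj => ?_).trans
        (mul_le_mul_of_nonneg_right hle (sum_nonneg fun _ _ => nn_nonneg _ _))
      have h7 := mem_Ico.1 (mem J j hj)
      have h8 := hG' (j - J * w) (by linarith [h7.1]) (by linarith [h7.2])
      rw [show c + J * (w * τ) + (j - J * w : ℤ) * τ = c + j * τ by push_cast; ring] at h8
      exact Sp_mono h8 (h6 j (mem_filter.1 hj).1)
    rw [sum_group I (fun j => (j - 0) / w) f, sum_group I (fun j => (j - 0) / w)]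
    refine step.trans ((mul_le_mul_of_nonneg_left (sum_le_sum grp) (by positivity)).trans_eq ?_)
    rw [← mul_sum, mul_assoc, mul_assoc, ← mul_assoc (_ ^ ε), ← Real.mul_rpow (by positivity) hwR.le]
    congr 3
    push_cast
    field_simp

end Pool.Agent.Lib.WC
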