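import Pool.Agent.Lib.WC.Blue

/-! Consequences of the inequality of Hölder for the bilinear constants. -/

namespace Pool.Agent.Lib.WC

open MeasureTheory

namespace HOL

lemma pw {x θ : ℝ} (hx : 0 ≤ x) (h0 : 0 ≤ θ) (h1 : θ ≤ 1) {p₁ p₂ p : ℕ}
    (h : θ * p₁ + (1 - θ) * p₂ = p) : (x ^ p₁) ^ θ * (x ^ p₂) ^ (1 - θ) = x ^ p := by
  have h2 := sub_nonneg.2 h1
  rw [← Real.rpow_natCast x p₁, ← Real.rpow_natCast x p₂, ← Real.rpow_mul hx, ← Real.rpow_mul hx,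
    ← Real.rpow_add_of_nonneg hx (by positivity) (by positivity), mul_comm _ θ, mul_comm _ (1 - θ),
    h, Real.rpow_natCast]

lemma mix {m : ℕ} {F G : TT m → ℂ} (hF : Continuous F) (hG : Continuous G) {θ A A' B₁ B₂ : ℝ}
    (h0 : 0 ≤ θ) (h1 : θ ≤ 1) (hA : 0 ≤ A) (hA' : 0 ≤ A') (hB₁ : 0 ≤ B₁) (hB₂ : 0 ≤ B₂)
    {p₁ p₂ p q₁ q₂ q s : ℕ} (hp : θ * p₁ + (1 - θ) * p₂ = p) (hq : θ * q₁ + (1 - θ) * q₂ = q)
    (e₁ : ∫ x, ‖F x‖ ^ (2 * p₁) * ‖G x‖ ^ (2 * q₁) ≤ B₁ ^ s * A ^ p₁ * A' ^ q₁)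
    (e₂ : ∫ x, ‖F x‖ ^ (2 * p₂) * ‖G x‖ ^ (2 * q₂) ≤ B₂ ^ s * A ^ p₂ * A' ^ q₂) :
    ∫ x, ‖F x‖ ^ (2 * p) * ‖G x‖ ^ (2 * q) ≤ (B₁ ^ θ * B₂ ^ (1 - θ)) ^ s * A ^ p * A' ^ q := by
  have h2 := sub_nonneg.2 h1
  have h := holder (μ := volume) (a := fun x => ‖F x‖ ^ (2 * p₁) * ‖G x‖ ^ (2 * q₁))
    (b := fun x => ‖F x‖ ^ (2 * p₂) * ‖G x‖ ^ (2 * q₂)) (cint (by fun_prop)) (cint (by fun_prop))
    (fun _ => by positivity) (fun _ => by positivity) h0 h1
  calc _ = ∫ x, (‖F x‖ ^ (2 * p₁) * ‖G x‖ ^ (2 * q₁)) ^ θ *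
        (‖F x‖ ^ (2 * p₂) * ‖G x‖ ^ (2 * q₂)) ^ (1 - θ) := by
        refine integral_congr_ae (Filter.Eventually.of_forall fun x => ?_)
        simp only [pow_mul]
        rw [Real.mul_rpow (by positivity) (by positivity),
          Real.mul_rpow (by positivity) (by positivity), mul_mul_mul_comm,
          pw (sq_nonneg _) h0 h1 hp, pw (sq_nonneg _) h0 h1 hq]
    _ ≤ _ := h
    _ ≤ (B₁ ^ s * A ^ p₁ * A' ^ q₁) ^ θ * (B₂ ^ s * A ^ p₂ * A' ^ q₂) ^ (1 - θ) :=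
        mul_le_mul (Real.rpow_le_rpow (integral_nonneg fun _ => by positivity) e₁ h0)
          (Real.rpow_le_rpow (integral_nonneg fun _ => by positivity) e₂ h2)
          (Real.rpow_nonneg (integral_nonneg fun _ => by positivity) _) (by positivity)
    _ = _ := by
        rw [Real.mul_rpow (by positivity) (by positivity),
          Real.mul_rpow (by positivity) (by positivity),
          Real.mul_rpow (by positivity) (by positivity),
          Real.mul_rpow (by positivity) (by positivity), mul_mul_mul_comm,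
          mul_mul_mul_comm ((B₁ ^ s) ^ θ), pw hA h0 h1 hp, pw hA' h0 h1 hq, mul_pow,
          Real.rpow_pow_comm hB₁, Real.rpow_pow_comm hB₂]

lemma cont {m : ℕ} {I : Finset ℤ} {f : ℤ → TT m → ℂ} {P : ℤ → Set (Fin m → ℤ)}
    (h : ∀ i ∈ I, f i ∈ Sp (P i)) : Continuous (∑ i ∈ I, f i) :=
  Sp_cont (Submodule.sum_mem (Sp Set.univ) fun i hi => Sp_mono (Set.subset_univ _) (h i hi))

end HOL

theorem blk_HOL : St_HOL where
  hol := fun k l κ n u' u B₁ B₂ hl hk hB₁ hB₂ h₁ h₂ m F c σ a b b' I I' f g hσ i1 i2 i3 i4 hs hf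
      hg => by
    have e₁ := h₁ m F c σ a a b I' I g f hσ i2 i1 i2 i3
      (fun i hi j hj => by rw [abs_sub_comm]; exact hs j hj i hi) hg hf
    have e₂ := h₂ m F c σ a a b' I I' f g hσ i1 i2 i1 i4 hs hf hg
    have hr : (0 : ℝ) < k - l := sub_pos.2 (by exact_mod_cast hk)
    have hθ : ((k : ℝ) - l) / ((k : ℝ) - l + 1) = 1 - 1 / ((k : ℝ) - l + 1) := by
      field_simp; ring
    rw [hθ]
    simp only [mul_comm (‖(∑ i ∈ I', g i) _‖ ^ _)] at e₁
    rw [mul_right_comm] at e₁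
    refine HOL.mix (HOL.cont hf) (HOL.cont hg) (by positivity)
      ((div_le_one (by linarith)).2 (by linarith))
      (Finset.sum_nonneg fun _ _ => nn_nonneg _ _) (Finset.sum_nonneg fun _ _ => nn_nonneg _ _)
      hB₁ hB₂ ?_ ?_ e₁ e₂
    · rw [Nat.cast_sub (sd_mono (Nat.sub_le k l)), sd_cast, sd_cast, sd_cast, sd_cast,
        Nat.cast_sub hk.le, Nat.cast_sub hl]
      field_simp; ring
    · rw [Nat.cast_sub (sd_mono (by omega)), Nat.cast_sub (sd_mono hk.le), sd_cast, sd_cast,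
        sd_cast, sd_cast, Nat.cast_sub hk.le, Nat.cast_sub hl]
      field_simp; ring
  zero := fun k κ n v u D hk h m F c σ a b b' I I' f g hσ _ _ _ i4 _ _ hg => by
    have e := h m F c σ b' I' g hσ i4 hg
    simp only [sd_zero, mul_zero, pow_zero, one_mul, mul_one, Nat.sub_zero]
    rw [← nn_pow (one_le_sd hk), ← mul_pow]
    exact pow_le_pow_left₀ (nn_nonneg _ _) e _
  triv := fun k l κ n v u D hk hl h m F c σ a b b' I I' f g hσ i1 i2 _ _ _ hf hg => by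
    have e₁ := h m F c σ a I f hσ i1 hf
    have e₂ := h m F c σ a I' g hσ i2 hg
    have hs := one_le_sd hk
    have hs' : (0 : ℝ) < sd k := by exact_mod_cast hs
    have hl' := sd_mono hl
    have e := HOL.mix (HOL.cont hf) (HOL.cont hg) (θ := sd l / sd k) (by positivity)
      ((div_le_one hs').2 (by exact_mod_cast hl')) (nn_nonneg (sd k) (∑ i ∈ I, f i))
      (nn_nonneg (sd k) (∑ j ∈ I', g j)) zero_le_one zero_le_one (p₁ := sd k) (p₂ := 0)
      (p := sd l) (q₁ := 0) (q₂ := sd k) (q := sd k - sd l) (s := 0) (by field_simp; simp)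
      (by rw [Nat.cast_sub hl']; field_simp; simp)
      (by simp [nn_pow hs]) (by simp [nn_pow hs])
    rw [pow_zero, one_mul] at e
    calc _ ≤ _ := e
      _ ≤ (D * ∑ i ∈ I, nn (sd k) (f i)) ^ sd l *
          (D * ∑ j ∈ I', nn (sd k) (g j)) ^ (sd k - sd l) :=
        mul_le_mul (pow_le_pow_left₀ (nn_nonneg _ _) e₁ _) (pow_le_pow_left₀ (nn_nonneg _ _) e₂ _)
          (pow_nonneg (nn_nonneg _ _) _) (pow_nonneg ((nn_nonneg _ _).trans e₁) _)
      _ = _ := by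
        rw [mul_pow, mul_pow, mul_mul_mul_comm, ← pow_add, Nat.add_sub_cancel' hl', mul_assoc]

end Pool.Agent.Lib.WC
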