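import Pool.Agent.Lib.WC.Blue

/-! Large Weyl sums lie on major arcs. -/

namespace Pool.Agent.Lib.WC

open Finset

namespace INV

variable {k : ℕ}

lemma triv {N B A : ℕ} {H : ℝ} (hN : 1 ≤ N) (hH : 2 ≤ H) (h : (N : ℝ) ≤ H ^ B) (hA : B * k ≤ A)
    (x : TT k) : x ∈ Mj k 0 N (H ^ A) := by
  have h1 : (1 : ℝ) ≤ H := by linarith
  have hN0 : (0 : ℝ) < N := by exact_mod_cast hN
  refine ⟨1, le_rfl, by simpa using one_le_pow₀ h1, fun j _ => ?_⟩
  rw [Nat.sub_zero, le_div_iff₀ (by positivity)]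
  have e1 : (N : ℝ) ^ (j.val + 1) ≤ H ^ A := by
    calc (N : ℝ) ^ (j.val + 1) ≤ (H ^ B) ^ (j.val + 1) := by gcongr
      _ = H ^ (B * (j.val + 1)) := (pow_mul _ _ _).symm
      _ ≤ H ^ A := pow_le_pow_right₀ h1 ((Nat.mul_le_mul_left B j.2).trans hA)
  have e2 := norm_le_half (1 • x j)
  have e3 : (0 : ℝ) ≤ (N : ℝ) ^ (j.val + 1) := by positivity
  nlinarith

/-- the statement for phases of degree at most `m` -/
def St (k m : ℕ) : Prop :=
  ∃ A : ℕ, 1 ≤ A ∧ ∀ (N N' : ℕ) (H : ℝ) (x : TT k), 1 ≤ N → N' ≤ N → 2 ≤ H →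
    (∀ j : Fin k, m ≤ j.val → x j = 0) → N / H ≤ ‖S N' x‖ → x ∈ Mj k 0 N (H ^ A)

lemma base (k : ℕ) : St k 0 := by
  refine ⟨1, le_rfl, fun N N' H x _ _ hH hx _ => ⟨1, le_rfl, by simp; linarith, fun j _ => ?_⟩⟩
  rw [hx j (Nat.zero_le _), smul_zero, norm_zero]
  positivity

lemma drop (len M : ℕ) (y : TT k) (i : Fin k) {H r : ℝ} (hH : 2 ≤ H) (hl : len ≤ M) (hr : 0 ≤ r)
    (h1 : ‖y i‖ ≤ r ^ (i.val + 1)) (h2 : M * r ≤ 1 / H ^ 6) :
    ‖S len y‖ - M / (4 * H) ≤ ‖S len (Function.update y i 0)‖ := by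
  have e1 := norm_S_sub_le len y (Function.update y i 0)
  rw [Finset.sum_eq_single i (fun j _ hj => by simp [Function.update_of_ne hj]) (by simp),
    Function.update_self, sub_zero] at e1
  have hl' : (len : ℝ) ≤ M := by exact_mod_cast hl
  have hH0 : 0 < H := by linarith
  have h6 : (1 : ℝ) / H ^ 6 ≤ 1 := by
    rw [div_le_one (by positivity)]; exact one_le_pow₀ (by linarith)
  have e2 : (len : ℝ) ^ (i.val + 1) * ‖y i‖ ≤ 1 / H ^ 6 := by
    calc _ ≤ (M : ℝ) ^ (i.val + 1) * r ^ (i.val + 1) := by gcongr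
      _ = (M * r) ^ (i.val + 1) := (mul_pow _ _ _).symm
      _ ≤ (M * r) ^ 1 := pow_le_pow_of_le_one (by positivity) (h2.trans h6) (by omega)
      _ ≤ _ := by rwa [pow_one]
  have e3 : 2 * Real.pi * (1 / H ^ 6) ≤ 1 / (4 * H) := by
    rw [mul_one_div, div_le_div_iff₀ (by positivity) (by positivity)]
    have h5 : (2 : ℝ) ^ 5 ≤ H ^ 5 := by gcongr
    have := Real.pi_le_four
    nlinarith
  have e4 : (len : ℝ) * (2 * Real.pi * ((len : ℝ) ^ (i.val + 1) * ‖y i‖)) ≤ M * (1 / (4 * H)) := by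
    have := Real.pi_pos
    gcongr
    exact le_trans (by gcongr) e3
  have e5 := norm_sub_norm_le (S len y) (S len (Function.update y i 0))
  rw [mul_one_div] at e4
  linarith

lemma step (hS : St_SPL) (hL : St_LEAD) {m : ℕ} (hm : m < k) (ih : St k m) : St k (m + 1) := by
  obtain ⟨A2, hA2, ih⟩ := ih
  obtain ⟨A1, hA1⟩ := hL k ⟨m, hm⟩
  set i : Fin k := ⟨m, hm⟩ with hi
  refine ⟨2 * k + (A1 * k + 3 * A2 + (A1 + 7) * k), by omega, fun N N' H x hN hN' hH hx hs => ?_⟩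
  have h1 : (1 : ℝ) ≤ H := by linarith
  have hH0 : 0 < H := by linarith
  have hN0 : (0 : ℝ) < N := by exact_mod_cast hN
  by_cases hb : (N : ℝ) ≤ H ^ (A1 + 7)
  · exact triv hN hH hb (by omega) x
  push Not at hb
  have hx' : ∀ j, i < j → x j = 0 := fun j hj => hx j hj
  obtain ⟨q, q1, q2, q3⟩ := hA1 N N' H x hN hN' hH hx' hs
  set M := ⌊(N : ℝ) / H ^ (A1 + 6)⌋₊ with hM
  have m0 : 2 ≤ (N : ℝ) / H ^ (A1 + 6) := by
    rw [le_div_iff₀ (by positivity)]
    have : H ^ (A1 + 7) = H * H ^ (A1 + 6) := by ring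
    nlinarith [pow_pos hH0 (A1 + 6)]
  have m1 : (M : ℝ) ≤ N / H ^ (A1 + 6) := Nat.floor_le (by positivity)
  have m2 : (N : ℝ) / H ^ (A1 + 6) < M + 1 := Nat.lt_floor_add_one _
  have m3 : 1 ≤ M := by
    have : (1 : ℝ) < M := by linarith
    exact_mod_cast this.le
  have m4 : (0 : ℝ) < M := by exact_mod_cast m3
  have m5 : (N : ℝ) ≤ H ^ (A1 + 7) * M := by
    have e1 : (N : ℝ) / H ^ (A1 + 6) ≤ H * M := by nlinarith
    rw [div_le_iff₀ (by positivity)] at e1
    calc _ ≤ _ := e1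
      _ = _ := by ring
  have m6 : H ^ A1 ≤ H ^ (A1 + 6) := pow_le_pow_right₀ h1 (by omega)
  have qN : q ≤ N' := by
    have e1 : H ^ (A1 + 6) ≤ N / H := by
      rw [le_div_iff₀ hH0, ← pow_succ]; exact hb.le
    have : (q : ℝ) ≤ N' := by linarith [norm_S_le N' x]
    exact_mod_cast this
  obtain ⟨P, t, len, p1, p2, p3⟩ := hS k N' q M q1 qN m3
  have p4 : (P.card : ℝ) ≤ 2 * N / M := by
    have e1 : (N' : ℝ) / M ≤ N / M := by gcongr
    have e2 : H ^ (A1 + 6) ≤ N / M := by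
      rw [le_div_iff₀ m4, mul_comm, ← le_div_iff₀ (by positivity)]; exact m1
    rw [mul_div_assoc]
    linarith
  have p5 : P.Nonempty := by
    rw [nonempty_iff_ne_empty]
    rintro rfl
    have := hs.trans (p3 x)
    rw [sum_empty] at this
    exact absurd this (not_le.mpr (by positivity))
  obtain ⟨p, hp, p6⟩ := exists_le_of_sum_le p5 (f := fun _ => (M : ℝ) / (2 * H))
    (g := fun p => ‖S (len p) (Dl q (U (t p) x))‖) (by
      refine le_trans ?_ (hs.trans (p3 x))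
      rw [sum_const, nsmul_eq_mul]
      calc _ ≤ 2 * N / M * (M / (2 * H)) := by gcongr
        _ = _ := by field_simp)
  set z := U (t p) x with hz
  set y := Dl q z with hy
  have y1 : ‖y i‖ ≤ (H ^ A1 / N) ^ (i.val + 1) := by
    rw [hy, Dl_apply, hz, U_top hx' le_rfl, pow_succ, mul_smul, div_pow, pow_succ (H ^ A1),
      mul_div_assoc]
    refine (norm_nsmul_le' _ _).trans ?_
    push_cast
    gcongr
  have y2 := drop (len p) M y i hH (p2 p hp).2 (by positivity) y1 (by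
    calc (M : ℝ) * (H ^ A1 / N) ≤ N / H ^ (A1 + 6) * (H ^ A1 / N) := by gcongr
      _ = 1 / H ^ 6 := by rw [pow_add]; field_simp)
  obtain ⟨q', r1, r2, r3⟩ := ih M (len p) (H ^ 3) (Function.update y i 0) m3 (p2 p hp).2
    (hH.trans (le_self_pow₀ h1 (by norm_num))) (fun j hj => by
      by_cases hji : j = i
      · rw [hji, Function.update_self]
      · have : i < j := lt_of_le_of_ne hj (Ne.symm hji)
        rw [Function.update_of_ne hji, hy, Dl_apply, hz, U_top hx' this.le, hx' j this, smul_zero])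
    (by
      refine le_trans ?_ y2
      have e1 : (M : ℝ) / H ^ 3 ≤ M / (4 * H) := by
        have : 4 * H ≤ H ^ 3 := by nlinarith [mul_le_mul hH hH two_pos.le hH0.le]
        gcongr
      have e2 : (M : ℝ) / (2 * H) = M / (4 * H) + M / (4 * H) := by field_simp; ring
      linarith)
  rw [← pow_mul] at r2 r3
  have r4 : ∀ j : Fin k, ‖q' • y j‖ ≤ H ^ (3 * A2) * (H ^ (A1 + 7) / N) ^ (j.val + 1) := by
    intro j
    by_cases hji : j = i
    · rw [hji]
      refine (norm_nsmul_le' _ _).trans ?_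
      have : H ^ A1 ≤ H ^ (A1 + 7) := pow_le_pow_right₀ h1 (by omega)
      gcongr
      exact y1.trans (by gcongr)
    · have := r3 j (Nat.zero_le _)
      rw [Function.update_of_ne hji, Nat.sub_zero, div_eq_mul_inv, ← inv_pow] at this
      refine this.trans ?_
      have : (M : ℝ)⁻¹ ≤ H ^ (A1 + 7) / N := by
        rw [le_div_iff₀ hN0, inv_mul_le_iff₀ m4, mul_comm]; exact m5
      gcongr
  have hz' : z ∈ Mj k 0 N (H ^ (A1 * k + 3 * A2 + (A1 + 7) * k)) := by
    refine ⟨q ^ k * q', Nat.mul_pos (Nat.pow_pos q1) r1, ?_, fun j _ => ?_⟩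
    · push_cast
      calc (q : ℝ) ^ k * q' ≤ (H ^ A1) ^ k * H ^ (3 * A2) := by gcongr
        _ = H ^ (A1 * k + 3 * A2) := by rw [← pow_mul, ← pow_add]
        _ ≤ _ := pow_le_pow_right₀ h1 (by omega)
    · have e1 : (q ^ k * q') • z j = q ^ (k - (j.val + 1)) • (q' • y j) := by
        rw [hy, Dl_apply, smul_smul, smul_smul]
        congr 1
        rw [mul_right_comm, ← pow_add, Nat.sub_add_cancel j.2]
      rw [e1, Nat.sub_zero]
      refine (norm_nsmul_le' _ _).trans ?_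
      have e2 : ((q ^ (k - (j.val + 1)) : ℕ) : ℝ) ≤ H ^ (A1 * k) := by
        push_cast
        calc (q : ℝ) ^ (k - (j.val + 1)) ≤ (H ^ A1) ^ (k - (j.val + 1)) := by gcongr
          _ = H ^ (A1 * (k - (j.val + 1))) := (pow_mul _ _ _).symm
          _ ≤ _ := pow_le_pow_right₀ h1 (Nat.mul_le_mul_left _ (Nat.sub_le _ _))
      have e3 : (H ^ (A1 + 7) / N) ^ (j.val + 1) ≤ H ^ ((A1 + 7) * k) / (N : ℝ) ^ (j.val + 1) := by
        rw [div_pow, ← pow_mul]
        gcongr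
        exact j.2
      calc _ ≤ H ^ (A1 * k) * (H ^ (3 * A2) * (H ^ ((A1 + 7) * k) / (N : ℝ) ^ (j.val + 1))) := by
            gcongr
            exact (r4 j).trans (by gcongr)
        _ = _ := by rw [pow_add, pow_add]; ring
  have ht : |-t p| ≤ N := by
    rw [abs_neg]; exact (p2 p hp).1.trans (by exact_mod_cast hN')
  have := Mj_shear hz' hN ht
  rw [hz, U_neg_U] at this
  refine Mj_mono ?_ this
  rw [pow_add H (2 * k), pow_mul]
  gcongr
  nlinarith

end INV

theorem blk_INV (hS : St_SPL) (hL : St_LEAD) : St_INV := by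
  intro k
  have key : ∀ m, m ≤ k → INV.St k m := fun m => by
    induction m with
    | zero => exact fun _ => INV.base k
    | succ m ih => exact fun hm => INV.step hS hL hm (ih (by omega))
  obtain ⟨A, hA, h⟩ := key k le_rfl
  exact ⟨A, hA, fun N N' H x h1 h2 h3 h4 =>
    h N N' H x h1 h2 h3 (fun j hj => absurd j.2 (not_lt.mpr hj)) h4⟩

end Pool.Agent.Lib.WC
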