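import Pool.Agent.Lib.WC.Blue

namespace Pool.Agent.Lib.WC

open MeasureTheory Finset

namespace KER

lemma decay (r : ℕ) (z : UnitAddCircle) (hr : 1 ≤ r) : ‖dk r z‖ * (1 + r * ‖z‖) ≤ 3 / 2 := by
  have h0 : (0 : ℝ) < r := by exact_mod_cast hr
  have h1 : ‖∑ j ∈ range r, ee (j • z)‖ * ‖ee z - 1‖ ≤ 2 := by
    simp_rw [ee_nsmul]
    rw [← norm_mul, geom_sum_mul]
    refine (norm_sub_le _ _).trans ?_
    rw [norm_pow, norm_ee, one_pow, norm_one]
    norm_num
  have h2 : ‖dk r z‖ * r = ‖∑ j ∈ range r, ee (j • z)‖ := by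
    rw [dk, norm_mul, norm_inv, Complex.norm_natCast]
    field_simp
  have h3 := mul_le_mul_of_nonneg_left (le_norm_ee_sub_one z)
    (norm_nonneg (∑ j ∈ range r, ee (j • z)))
  have h4 := norm_dk_le r z
  rw [mul_add, ← mul_assoc, h2]
  linarith

lemma l2 (r : ℕ) (hr : 1 ≤ r) : ∫ z, (r : ℝ) * ‖dk r z‖ ^ 2 = 1 := by
  have h0 : (r : ℂ) ≠ 0 := by exact_mod_cast (by omega : r ≠ 0)
  have h1 : ∀ z, (((r : ℝ) * ‖dk r z‖ ^ 2 : ℝ) : ℂ) =
      (r : ℂ)⁻¹ * ∑ i ∈ range r, ∑ j ∈ range r, ee (((i : ℤ) - j) • z) := fun z => by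
    push_cast
    rw [← Complex.mul_conj', dk, map_mul, map_sum, map_inv₀, map_natCast]
    simp_rw [sub_smul, ee_sub, natCast_zsmul, ← Finset.mul_sum, ← Finset.sum_mul]
    field_simp
  apply Complex.ofReal_injective
  rw [← integral_complex_ofReal]
  simp_rw [h1]
  rw [integral_const_mul, integral_finsetSum _ fun i _ => cint (by fun_prop),
    Finset.sum_congr rfl (g := fun _ => 1) fun i hi => ?_]
  · simp [h0]
  · rw [integral_finsetSum _ fun j _ => cint (by fun_prop)]
    simp_rw [integral_ee, sub_eq_zero, Nat.cast_inj]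
    rw [Finset.sum_ite_eq, if_pos hi]

lemma low (r : ℕ) (z : UnitAddCircle) (hr : 1 ≤ r) (hz : 10 * r * ‖z‖ ≤ 1) : 1 / 2 ≤ ‖dk r z‖ := by
  have h0 : (0 : ℝ) < r := by exact_mod_cast hr
  have h0' : (r : ℂ) ≠ 0 := by exact_mod_cast h0.ne'
  have h1 : dk r z - 1 = (r : ℂ)⁻¹ * ∑ j ∈ range r, (ee (j • z) - 1) := by
    rw [dk, Finset.sum_sub_distrib, mul_sub]; simp [h0']
  have h2 : ∑ j ∈ range r, (j : ℝ) ≤ r * r / 2 := by
    have := Finset.sum_range_id_mul_two r
    have h : (∑ j ∈ range r, j) * 2 ≤ r * r := by rw [this]; exact Nat.mul_le_mul_left _ (by omega)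
    have h' := (Nat.cast_le (α := ℝ)).mpr h
    push_cast at h'
    linarith
  have h3 : ‖∑ j ∈ range r, (ee (j • z) - 1)‖ ≤ 2 * Real.pi * ‖z‖ * (r * r / 2) := by
    calc _ ≤ ∑ j ∈ range r, 2 * Real.pi * ‖z‖ * j := norm_sum_le_of_le _ fun j _ =>
          (norm_ee_sub_one_le _).trans (by
            rw [mul_assoc _ ‖z‖, mul_comm ‖z‖]
            exact mul_le_mul_of_nonneg_left (norm_nsmul_le' j z) (by positivity))
      _ ≤ _ := by rw [← Finset.mul_sum]; gcongr
  have h4 : ‖dk r z - 1‖ ≤ Real.pi * (r * ‖z‖) := by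
    rw [h1, norm_mul, norm_inv, Complex.norm_natCast, inv_mul_le_iff₀ h0]
    linarith
  have h5 := norm_sub_norm_le 1 (dk r z)
  rw [norm_sub_rev, norm_one] at h5
  nlinarith [Real.pi_lt_four, Real.pi_pos, mul_nonneg h0.le (norm_nonneg z)]

lemma mass (r μ : ℕ) (hr : 1 ≤ r) : 1 / (5 * 2 ^ μ) ≤ ∫ z, (r : ℝ) * ‖dk r z‖ ^ μ := by
  have h0 : (1 : ℝ) ≤ r := by exact_mod_cast hr
  have hv : volume.real (Metric.closedBall (0 : UnitAddCircle) (1 / (10 * r))) = 1 / (5 * r) := by
    rw [Measure.real, AddCircle.volume_closedBall, min_eq_right, ENNReal.toReal_ofReal (by positivity)]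
    · field_simp; norm_num
    · rw [← mul_div_assoc, div_le_one (by positivity)]; linarith
  have h1 := setIntegral_ge_of_const_le_real (μ := volume) (c := r * (1 / 2) ^ μ)
    (f := fun z => (r : ℝ) * ‖dk r z‖ ^ μ)
    (s := Metric.closedBall (0 : UnitAddCircle) (1 / (10 * r))) measurableSet_closedBall
    (measure_ne_top _ _) (fun z hz => by
      rw [mem_closedBall_zero_iff, le_div_iff₀ (by positivity)] at hz
      have := low r z hr (by linarith)
      gcongr) (cint (by fun_prop))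
  refine le_trans (le_of_eq ?_) (h1.trans (setIntegral_le_integral (cint (by fun_prop))
    (Filter.Eventually.of_forall fun z => by positivity)))
  rw [hv, one_div_pow]
  field_simp

lemma tail (R b : ℝ) (ζ : UnitAddCircle) (hR : 0 < R) (hb : 1 < b) :
    ∫ z, R / (1 + R * ‖z - ζ‖) ^ b ≤ 2 / (b - 1) := by
  have hc : Continuous fun x : ℝ => R / (1 + R * |x|) ^ b :=
    continuous_const.div (Continuous.rpow_const (by fun_prop) fun _ => Or.inr (by linarith))
      fun x => by positivity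
  have h1 : ∫ x in (0 : ℝ)..1 / 2, R / (1 + R * |x|) ^ b ≤ 1 / (b - 1) := by
    have hd : ∀ x ∈ Set.uIcc (0 : ℝ) (1 / 2), HasDerivAt
        (fun x : ℝ => (1 + R * x) ^ (1 - b) / (1 - b)) (R / (1 + R * x) ^ b) x := fun x hx => by
      rw [Set.uIcc_of_le (by norm_num)] at hx
      have hp : 0 < 1 + R * x := by have := hx.1; positivity
      refine ((((hasDerivAt_id x).const_mul R).const_add 1).rpow_const (p := 1 - b)
        (Or.inl hp.ne')).div_const (1 - b) |>.congr_deriv ?_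
      have : 1 - b ≠ 0 := by linarith
      rw [show 1 - b - 1 = -b by ring, id, Real.rpow_neg hp.le]
      field_simp
    have he : Set.EqOn (fun x : ℝ => R / (1 + R * |x|) ^ b) (fun x => R / (1 + R * x) ^ b)
        (Set.uIcc (0 : ℝ) (1 / 2)) := fun x hx => by
      rw [Set.uIcc_of_le (by norm_num)] at hx
      simp only [abs_of_nonneg hx.1]
    rw [intervalIntegral.integral_congr he, intervalIntegral.integral_eq_sub_of_hasDerivAt hd
      (hc.continuousOn.congr he.symm).intervalIntegrable]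
    have h2 : (1 + R * (1 / 2)) ^ (1 - b) / (1 - b) ≤ 0 :=
      div_nonpos_of_nonneg_of_nonpos (by positivity) (by linarith)
    rw [mul_zero, add_zero, Real.one_rpow, ← neg_sub b 1, div_neg (1 : ℝ), neg_sub]
    linarith
  have h2 : ∫ x in (-(1 / 2) : ℝ)..0, R / (1 + R * |x|) ^ b =
      ∫ x in (0 : ℝ)..1 / 2, R / (1 + R * |x|) ^ b := by
    have := intervalIntegral.integral_comp_neg (a := 0) (b := 1 / 2)
      fun x : ℝ => R / (1 + R * |x|) ^ b
    simp only [abs_neg, neg_zero] at this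
    exact this.symm
  rw [integral_sub_right_eq_self (fun z : UnitAddCircle => R / (1 + R * ‖z‖) ^ b) ζ,
    ← UnitAddCircle.intervalIntegral_preimage (-(1 / 2)),
    intervalIntegral.integral_congr (g := fun x : ℝ => R / (1 + R * |x|) ^ b) fun x hx => ?_,
    ← intervalIntegral.integral_add_adjacent_intervals (b := 0) (hc.intervalIntegrable _ _)
      (hc.intervalIntegrable _ _), h2, show -(1 / 2) + 1 = (1 / 2 : ℝ) by norm_num]
  · rw [show 2 / (b - 1) = 1 / (b - 1) + 1 / (b - 1) by ring]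
    linarith
  · rw [Set.uIcc_of_le (by norm_num)] at hx
    rw [(AddCircle.norm_coe_eq_abs_iff 1 one_ne_zero).mpr]
    rw [abs_one, abs_le]
    constructor <;> linarith [hx.1, hx.2]

lemma kn (l μ : ℕ) (r : Fin l → ℕ) (hr : ∀ i, 1 ≤ r i) (hμ : 2 ≤ μ) : ∫ v, Kn r μ v ≤ 1 := by
  unfold Kn
  rw [integral_fintype_prod_volume_eq_prod fun i (z : UnitAddCircle) =>
    (r i : ℝ) * ‖dk (r i) z‖ ^ μ]
  refine Finset.prod_le_one (fun i _ => integral_nonneg fun z => by positivity) fun i _ => ?_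
  refine le_of_le_of_eq ?_ (l2 _ (hr i))
  exact integral_mono (cint (by fun_prop)) (cint (by fun_prop)) fun z =>
    mul_le_mul_of_nonneg_left (pow_le_pow_of_le_one (norm_nonneg _) (norm_dk_le _ _) hμ)
      (by positivity)

lemma wk (k M : ℕ) (hM : 1 ≤ M) : ∫ z : TT k, Wk M z ≤ 2 ^ k := by
  have h0 : (0 : ℝ) < M := by exact_mod_cast hM
  unfold Wk
  rw [integral_fintype_prod_volume_eq_prod fun (j : Fin k) (z : UnitAddCircle) =>
    wt ((M : ℝ) ^ (j.val + 1)) z]
  refine (Finset.prod_le_prod (g := fun _ => 2)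
    (fun i _ => integral_nonneg fun z => by unfold wt; positivity) fun i _ => ?_).trans (by simp)
  have := tail ((M : ℝ) ^ (i.val + 1)) 2 0 (by positivity) one_lt_two
  simp only [sub_zero, Real.rpow_two] at this
  exact this.trans (by norm_num)

end KER

theorem blk_KER : St_KER :=
  ⟨KER.decay, KER.l2, KER.low, KER.mass, KER.tail, KER.kn, KER.wk⟩

end Pool.Agent.Lib.WC
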