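import Pool.Agent.Lib.WC.Blue

/-! Block KEY: the key estimate. -/

namespace Pool.Agent.Lib.WC

open MeasureTheory

namespace KEY

lemma hold {k N s : ℕ} (E : Set (TT k)) (hs : 1 ≤ s) (hN : 1 ≤ N) {p ε V : ℝ} (hp : 0 ≤ p)
    (hps : p ≤ 2 * s) (hε : 0 < ε) (hV : 0 < V)
    (hE : ∫ x in E, ‖S N x‖ ^ (2 * s) ≤ V * (N : ℝ) ^ ((s : ℝ) + ε)) (hv : volume.real E ≤ V) :
    ∫ x in E, ‖S N x‖ ^ p ≤ V * (N : ℝ) ^ (p / 2 + ε) := by
  have hs' : (0 : ℝ) < s := by exact_mod_cast hs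
  have hN' : (1 : ℝ) ≤ N := by exact_mod_cast hN
  have e : ∀ x : TT k, ‖S N x‖ ^ (2 * (s : ℝ)) = ‖S N x‖ ^ (2 * s) := fun x => by
    rw [← Real.rpow_natCast]; push_cast; rfl
  have h := holder_pow (μ := volume.restrict E) (f := fun x : TT k => ‖S N x‖)
    (fun x => norm_nonneg _) (P := 2 * s) (by positivity) hp hps
    (by simp only [e]; exact cint (by fun_prop))
  simp only [e, measureReal_restrict_apply_univ] at h
  have t0 : 0 ≤ p / (2 * s) := by positivity
  have t1 : p / (2 * s) ≤ 1 := (div_le_one (by positivity)).2 hps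
  refine h.trans ?_
  calc _ ≤ (V * (N : ℝ) ^ ((s : ℝ) + ε)) ^ (p / (2 * s)) * V ^ (1 - p / (2 * s)) :=
        mul_le_mul (Real.rpow_le_rpow (integral_nonneg fun _ => by positivity) hE t0)
          (Real.rpow_le_rpow measureReal_nonneg hv (by linarith)) (by positivity) (by positivity)
    _ = V * (N : ℝ) ^ (((s : ℝ) + ε) * (p / (2 * s))) := by
        rw [Real.mul_rpow hV.le (by positivity), ← Real.rpow_mul (by positivity), mul_right_comm,
          ← Real.rpow_add hV, add_sub_cancel, Real.rpow_one]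
    _ ≤ _ := by
        refine mul_le_mul_of_nonneg_left (Real.rpow_le_rpow_of_exponent_le hN' ?_) hV.le
        have : (s : ℝ) * (p / (2 * s)) = p / 2 := by field_simp
        nlinarith

end KEY

theorem blk_KEY (hV : St_VM) (h1 : St_E1) (h2 : St_E2) : St_KEY := by
  intro d hd
  obtain ⟨A, B1, hA, h1⟩ := h1 d hd
  obtain ⟨B2, c, δ₀, hc, hδ₀, h2⟩ := h2 d A hd hA
  refine ⟨max B1 B2, min c 1, by positivity, fun ε hε => ?_⟩
  obtain ⟨C0, c0, hV⟩ := hV (d + 1) ε (by omega) hε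
  obtain ⟨C1, c1, h1⟩ := h1 ε hε
  obtain ⟨C2, c2, h2⟩ := h2 ε hε
  set d1 : ℝ := min δ₀ (1 / 20) with hd1
  have d0 : 0 < d1 := by positivity
  have k0 : 0 < C0 / d1 ^ (d + 1) := by positivity
  have k1 : (0 : ℝ) < 2 ^ (d + 1) := by positivity
  refine ⟨C0 / d1 ^ (d + 1) + (C1 + 2 ^ (d + 1)) + C2, by linarith,
    fun N δ p ξ hN hδ hδ1 hB hp hp' => ?_⟩
  have hs : 1 ≤ sd (d + 1) := one_le_sd (by omega)
  have hs' : (1 : ℝ) ≤ sd (d + 1) := by exact_mod_cast hs
  have p0 : 0 ≤ p := by have := min_le_right c 1; linarith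
  have hN' : (0 : ℝ) < N := by exact_mod_cast hN
  have x0 : 0 ≤ δ ^ (d + 1) * (N : ℝ) ^ (p / 2 + ε) := by positivity
  have y0 : 0 ≤ (N : ℝ) ^ (p - sd (d + 1) + ε) := by positivity
  have z0 : 0 ≤ (N : ℝ) ^ ((sd (d + 1) : ℝ) + ε) := by positivity
  have dk : 0 < δ ^ (d + 1) := by positivity
  rcases le_or_gt d1 δ with h | h
  · have v1 : C0 ≤ C0 / d1 ^ (d + 1) * δ ^ (d + 1) := by
      rw [div_mul_eq_mul_div, le_div_iff₀ (by positivity)]
      gcongr
    have := KEY.hold (Metric.closedBall ξ δ) hs hN p0 hp' hε (mul_pos k0 dk)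
      ((setIntegral_le_integral (cint (by fun_prop))
        (Filter.Eventually.of_forall fun _ => by positivity)).trans
          ((hV N hN).trans (mul_le_mul_of_nonneg_right v1 z0)))
      (measureReal_le_one.trans (c0.trans v1))
    rw [mul_assoc] at this
    nlinarith
  · have i1 : 1 ≤ 1 / δ := one_le_one_div hδ hδ1
    have a1 := h1 N δ ξ hδ (h.le.trans (min_le_right _ _))
      ((pow_le_pow_right₀ i1 (le_max_left _ _)).trans hB)
    have a2 := h2 N δ p ξ hN hδ (h.le.trans (min_le_left _ _))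
      ((pow_le_pow_right₀ i1 (le_max_right _ _)).trans hB)
      (by have := min_le_left c 1; linarith) hp'
    have a3 := KEY.hold _ hs hN p0 hp' hε (V := (C1 + 2 ^ (d + 1)) * δ ^ (d + 1)) (by positivity)
      (a1.trans (by gcongr; linarith))
      ((measureReal_mono Set.sdiff_subset).trans ((vol_ball ξ hδ.le).trans (by
        rw [mul_pow]; gcongr; linarith)))
    have hi : IntegrableOn (fun x : TT (d + 1) => ‖S N x‖ ^ p) (Metric.closedBall ξ δ) :=
      cint ((continuous_S N).norm.rpow_const fun _ => Or.inr p0)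
    rw [← integral_inter_add_sdiff (measurableSet_Mj 1 N ((1 / δ) ^ A)) hi]
    rw [mul_assoc] at a3
    nlinarith

end Pool.Agent.Lib.WC
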