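import Pool.Agent.Lib.WC.Blue

namespace Pool.Agent.Lib.WC

open MeasureTheory Polynomial Finset

namespace KL

lemma diff {m : ℝ} (hm : 1 ≤ m) (j : ℕ) :
    0 ≤ (m + 1) ^ (j + 1) - m ^ (j + 1) ∧
      (m + 1) ^ (j + 1) - m ^ (j + 1) ≤ (2 ^ (j + 1) - 1) * m ^ j := by
  refine ⟨sub_nonneg.2 (pow_le_pow_left₀ (by linarith) (by linarith) _), ?_⟩
  induction j with
  | zero => norm_num
  | succ j ih =>
    have h1 : (m + 1) ^ (j + 1 + 1) - m ^ (j + 1 + 1) =
        (m + 1) * ((m + 1) ^ (j + 1) - m ^ (j + 1)) + m ^ (j + 1) := by ring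
    have h2 : (0 : ℝ) ≤ (2 ^ (j + 1) - 1) * m ^ j :=
      mul_nonneg (sub_nonneg.2 (one_le_pow₀ one_le_two)) (by positivity)
    have h3 : (m + 1) * ((m + 1) ^ (j + 1) - m ^ (j + 1)) ≤
        (2 * m) * ((2 ^ (j + 1) - 1) * m ^ j) :=
      (mul_le_mul_of_nonneg_left ih (by linarith)).trans
        (mul_le_mul_of_nonneg_right (by linarith) h2)
    rw [h1]
    refine (add_le_add_left h3 _).trans (le_of_eq ?_)
    ring

variable {k : ℕ}

/-- The real polynomial with coefficients `β`. -/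
noncomputable def pl (β : Fin k → ℝ) : ℝ[X] := ∑ j : Fin k, C (β j) * X ^ (j.val + 1)

lemma pl_deg (β : Fin k → ℝ) : (pl β).natDegree ≤ k :=
  natDegree_sum_le_of_forall_le _ _ fun j _ => (natDegree_C_mul_X_pow_le _ _).trans j.2

lemma pl_coeff (β : Fin k → ℝ) (j : Fin k) : (pl β).coeff (j.val + 1) = β j := by
  simp only [pl, finsetSum_coeff, coeff_C_mul, coeff_X_pow]
  rw [Finset.sum_eq_single j] <;> simp +contextual [Fin.ext_iff, eq_comm]

lemma pl_eval (β : Fin k → ℝ) (t : ℝ) : (pl β).eval t = ∑ j : Fin k, β j * t ^ (j.val + 1) := by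
  simp [pl, eval_finsetSum]

lemma pl_ph {β : Fin k → ℝ} {x : TT k} (h : ∀ j, (β j : UnitAddCircle) = x j) (n : ℕ) :
    (((pl β).eval ((n : ℝ) + 1) : ℝ) : UnitAddCircle) = ph x ((n : ℤ) + 1) := by
  rw [pl_eval, ph, QuotientAddGroup.mk_sum]
  refine Finset.sum_congr rfl fun j _ => ?_
  rw [← h j, ← AddCircle.coe_zsmul]
  congr 1
  simp [mul_comm]

lemma four_le (hk : 1 ≤ k) : (k : ℝ) / 4 ^ k ≤ 1 / 4 := by
  obtain ⟨m, rfl⟩ : ∃ m, k = m + 1 := ⟨k - 1, by omega⟩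
  have h : m + 1 ≤ 4 ^ m := Nat.lt_pow_self (by norm_num)
  have h' : ((m + 1 : ℕ) : ℝ) ≤ 4 ^ m := by exact_mod_cast h
  rw [div_le_div_iff₀ (by positivity) (by norm_num), pow_succ]
  linarith

lemma psi_le (hk : 1 ≤ k) {β : Fin k → ℝ} {N : ℕ} (h0 : ∀ j, |β j| ≤ 1 / 2)
    (h1 : ∀ j : Fin k, 1 ≤ j.val → |β j| ≤ 1 / 8 ^ k / (N : ℝ) ^ j.val) {n : ℕ} (hn : n < N) :
    |(pl β).eval ((n : ℝ) + 2) - (pl β).eval ((n : ℝ) + 1)| ≤ 3 / 4 := by
  have hm : (1 : ℝ) ≤ n + 1 := by linarith [Nat.cast_nonneg (α := ℝ) n]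
  have hN : (n : ℝ) + 1 ≤ N := by exact_mod_cast hn
  rw [pl_eval, pl_eval, ← Finset.sum_sub_distrib]
  refine (Finset.abs_sum_le_sum_abs _ _).trans ((Finset.sum_le_sum
    (g := fun j : Fin k => (if j = ⟨0, hk⟩ then 1 / 2 else 0) + 1 / (4 : ℝ) ^ k)
    fun j _ => ?_).trans ?_)
  · obtain ⟨h2, h3⟩ := diff hm j.val
    rw [← mul_sub, abs_mul, show (n : ℝ) + 2 = n + 1 + 1 by ring, abs_of_nonneg h2]
    split_ifs with e
    · subst e
      have := h0 ⟨0, hk⟩
      have h4 : (0 : ℝ) ≤ 1 / 4 ^ k := by positivity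
      simp only [zero_add, pow_one, add_sub_cancel_left, mul_one]
      linarith
    · have hj : 1 ≤ j.val := Nat.one_le_iff_ne_zero.2 fun h => e (Fin.ext h)
      have h4 : (2 ^ (j.val + 1) - 1) * ((n : ℝ) + 1) ^ j.val ≤ 2 ^ k * (N : ℝ) ^ j.val := by
        have : (2 : ℝ) ^ (j.val + 1) ≤ 2 ^ k := pow_le_pow_right₀ one_le_two j.2
        exact mul_le_mul (by linarith) (pow_le_pow_left₀ (by linarith) hN _) (by positivity)
          (by positivity)
      refine (mul_le_mul (h1 j hj) (h3.trans h4) h2 (by positivity)).trans (le_of_eq ?_)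
      have hN0 : (N : ℝ) ≠ 0 := by linarith
      rw [zero_add, show (8 : ℝ) ^ k = 4 ^ k * 2 ^ k by rw [← mul_pow]; norm_num]
      field_simp
  · have := four_le hk
    rw [Finset.sum_add_distrib, Finset.sum_ite_eq', if_pos (Finset.mem_univ _), Finset.sum_const,
      Finset.card_univ, Fintype.card_fin, nsmul_eq_mul, mul_one_div]
    linarith

end KL

theorem blk_KL (h1 : St_KL1) (h2 : St_KL2) : St_KL := by
  intro k hk
  obtain ⟨C1, hC1, h1⟩ := h1 k
  obtain ⟨C2, hC2, h2⟩ := h2 k hk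
  have hk' : (1 : ℝ) ≤ k := by exact_mod_cast hk
  have e1 : 0 ≤ 2 * (8 * C1 + 4 * k) ^ k := by positivity
  have e2 : 0 ≤ 2 ^ k * C1 * C2 := by positivity
  refine ⟨2 * (8 * C1 + 4 * k) ^ k + (1 + 2 ^ k * C1 * C2), by linarith, ?_⟩
  intro N N₁ x hN hN1 hx j
  have hN' : (1 : ℝ) ≤ N := by exact_mod_cast hN
  have hNk : (1 : ℝ) ≤ (N : ℝ) ^ k := one_le_pow₀ hN'
  have hs0 := norm_nonneg (S N₁ x)
  rcases le_or_gt ‖S N₁ x‖ (8 * C1 + 4 * k) with hs | hs
  · have h3 : 1 + (N : ℝ) ^ (j.val + 1) * ‖x j‖ ≤ 2 * (N : ℝ) ^ k := by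
      have h4 : (N : ℝ) ^ (j.val + 1) ≤ (N : ℝ) ^ k := pow_le_pow_right₀ hN' j.2
      have h5 := mul_le_mul h4 (norm_le_half (x j)) (norm_nonneg _) (by positivity)
      linarith
    refine (mul_le_mul (pow_le_pow_left₀ hs0 hs k) h3 (by positivity) (by positivity)).trans ?_
    rw [add_mul]
    refine le_trans (le_of_eq (by ring)) (le_add_of_nonneg_right (by positivity))
  · choose β hβ hβ' using fun j => exists_rep (x j)
    set s := ‖S N₁ x‖ with hsd
    have hsp : 0 < s := by linarith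
    have hl0 : 0 < 2 * C1 / s := by positivity
    have hl1 : 2 * C1 / s ≤ 1 / 4 := by rw [div_le_iff₀ hsp]; linarith
    have hψ : ∀ n ∈ range N₁, |(KL.pl β).eval ((n : ℝ) + 2) - (KL.pl β).eval ((n : ℝ) + 1)| ≤
        3 / 4 := fun n hn => KL.psi_le hk (fun j => (hβ' j).trans_le (norm_le_half _))
          (fun j hj => by simpa [hβ' j] using hx j hj) ((mem_range.1 hn).trans_le hN1)
    have h3 := h1 (KL.pl β) N₁ _ (KL.pl_deg β) hl0 hl1 hψ
    set W := (range N₁).filter fun n : ℕ =>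
      ¬ 2 * C1 / s ≤ |(KL.pl β).eval ((n : ℝ) + 2) - (KL.pl β).eval ((n : ℝ) + 1)| with hW
    have h4 : s ≤ C1 / (2 * C1 / s) + W.card := by
      have h5 : S N₁ x = ∑ n ∈ range N₁,
          ee (((KL.pl β).eval ((n : ℝ) + 1) : ℝ) : UnitAddCircle) := by
        simp only [S, KL.pl_ph hβ]
      rw [← Finset.sum_filter_add_sum_filter_not _ fun n : ℕ =>
        2 * C1 / s ≤ |(KL.pl β).eval ((n : ℝ) + 2) - (KL.pl β).eval ((n : ℝ) + 1)|] at h5
      refine (hsd.trans (congrArg norm h5)).trans_le ?_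
      exact (norm_add_le _ _).trans (add_le_add h3 ((norm_sum_le _ _).trans (by simp [hW])))
    have h5 : C1 / (2 * C1 / s) = s / 2 := by field_simp
    have h6 : s / 2 ≤ W.card := by linarith
    have h7 : 2 * k ≤ W.card := by
      have : (2 : ℝ) * k ≤ W.card := by linarith
      exact_mod_cast this
    have h8 := h2 (KL.pl β) N W (2 * C1 / s) (KL.pl_deg β)
      ((filter_subset _ _).trans (range_subset_range.2 hN1)) h7
      (fun n hn => (not_le.1 (mem_filter.1 hn).2).le) (j.val + 1) (by omega)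
    rw [KL.pl_coeff, hβ', Nat.add_sub_cancel] at h8
    have h9 : ((N : ℝ) / W.card) ^ (k - 1) ≤ ((N : ℝ) / (s / 2)) ^ (k - 1) :=
      pow_le_pow_left₀ (by positivity)
        (div_le_div_of_nonneg_left (by positivity) (by positivity) h6) _
    have h10 := h8.trans (mul_le_mul_of_nonneg_left h9 (by positivity))
    have h11 : s ^ k ≤ (N : ℝ) ^ k :=
      pow_le_pow_left₀ hs0 ((norm_S_le N₁ x).trans (by exact_mod_cast hN1)) k
    have h12 : s ^ k * ((N : ℝ) ^ (j.val + 1) * ‖x j‖) ≤ 2 ^ k * C1 * C2 * (N : ℝ) ^ k := by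
      have h13 := mul_le_mul_of_nonneg_left h10 (by positivity : 0 ≤ s ^ k * N)
      refine le_trans (le_of_eq (by ring)) (h13.trans (le_of_eq ?_))
      obtain ⟨m, rfl⟩ : ∃ m, k = m + 1 := ⟨k - 1, by omega⟩
      rw [Nat.add_sub_cancel, div_pow, div_pow]
      field_simp
      ring
    have h14 := mul_nonneg e1 (zero_le_one.trans hNk)
    rw [mul_add, mul_one, add_mul, add_mul, one_mul]
    linarith

end Pool.Agent.Lib.WC
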