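import Pool.Agent.Lib.WC.Blue

/-! The first derivative test for polynomial phases. -/

namespace Pool.Agent.Lib.WC

open Polynomial Finset

namespace KL1

/-- The truncated weight. -/
noncomputable def ww (lam u : ℝ) : ℂ := if lam ≤ |u| then (ee (u : UnitAddCircle) - 1)⁻¹ else 0

/-- A monotone majorant of its variation. -/
noncomputable def GG (lam u : ℝ) : ℝ :=
  if lam ≤ u then 2 / lam - 1 / u else if u ≤ -lam then -(2 / lam) - 1 / u else 0

lemma abs_le_norm {u : ℝ} (hu : |u| ≤ 3 / 4) : |u| ≤ 3 * ‖(u : UnitAddCircle)‖ := by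
  obtain ⟨x, hx, hx'⟩ := exists_rep (u : UnitAddCircle)
  obtain ⟨n, hn⟩ := exists_int_of_coe_eq hx
  rw [← hx']
  by_cases h0 : n = 0
  · rw [hn, h0]; simp only [Int.cast_zero, add_zero]; linarith [abs_nonneg u]
  · have h1 : (1 : ℝ) ≤ |(n : ℝ)| := by exact_mod_cast Int.one_le_abs h0
    have h2 : |(n : ℝ)| ≤ |x| + |u| := by
      rw [show (n : ℝ) = x - u by linarith]; exact abs_sub _ _
    linarith

lemma le_norm {u : ℝ} (hu : |u| ≤ 3 / 4) : 4 / 3 * |u| ≤ ‖ee (u : UnitAddCircle) - 1‖ := by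
  linarith [abs_le_norm hu, le_norm_ee_sub_one (u : UnitAddCircle)]

variable {lam : ℝ}

lemma norm_ww (hl : 0 < lam) {u : ℝ} (hu : |u| ≤ 3 / 4) : ‖ww lam u‖ ≤ 1 / lam := by
  unfold ww
  split_ifs with h
  · rw [norm_inv, one_div]
    exact inv_anti₀ hl (by linarith [le_norm hu])
  · rw [norm_zero]; positivity

lemma GG_pos (hl : 0 < lam) {u : ℝ} (h : lam ≤ u) : 1 / lam ≤ GG lam u ∧ GG lam u ≤ 2 / lam := by
  have h1 : 1 / u ≤ 1 / lam := one_div_le_one_div_of_le hl h
  have h2 : 0 ≤ 1 / u := by have := hl.trans_le h; positivity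
  have h3 : 2 / lam = 2 * (1 / lam) := by ring
  rw [GG, if_pos h]; constructor <;> linarith

lemma GG_neg (hl : 0 < lam) {u : ℝ} (h : u ≤ -lam) :
    -(2 / lam) ≤ GG lam u ∧ GG lam u ≤ -(1 / lam) := by
  have h1 : 1 / (-u) ≤ 1 / lam := one_div_le_one_div_of_le hl (by linarith)
  have h2 : 0 ≤ 1 / (-u) := by have : 0 < -u := by linarith
                               positivity
  have h3 : 2 / lam = 2 * (1 / lam) := by ring
  rw [one_div_neg_eq_neg_one_div] at h1 h2
  rw [GG, if_neg (by linarith), if_pos h]; constructor <;> linarith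

lemma GG_mid {u : ℝ} (h : ¬ lam ≤ u) (h' : ¬ u ≤ -lam) : GG lam u = 0 := by
  rw [GG, if_neg h, if_neg h']

lemma abs_GG (hl : 0 < lam) (u : ℝ) : |GG lam u| ≤ 2 / lam := by
  have h0 : 0 < 1 / lam := by positivity
  have h3 : 2 / lam = 2 * (1 / lam) := by ring
  rw [abs_le]
  by_cases h : lam ≤ u
  · have := GG_pos hl h; constructor <;> linarith
  by_cases h' : u ≤ -lam
  · have := GG_neg hl h'; constructor <;> linarith
  · rw [GG_mid h h']; constructor <;> linarith

lemma GG_mono (hl : 0 < lam) : Monotone (GG lam) := by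
  intro u v huv
  have h0 : 0 < 1 / lam := by positivity
  by_cases h : lam ≤ u
  · rw [GG, GG, if_pos h, if_pos (h.trans huv)]
    linarith [one_div_le_one_div_of_le (hl.trans_le h) huv]
  by_cases h' : v ≤ -lam
  · rw [GG, GG, if_neg h, if_neg (by linarith : ¬ lam ≤ v), if_pos (huv.trans h'), if_pos h']
    have := one_div_le_one_div_of_le (by linarith : 0 < -v) (by linarith : -v ≤ -u)
    rw [one_div_neg_eq_neg_one_div, one_div_neg_eq_neg_one_div] at this
    linarith
  have h1 : GG lam u ≤ 0 := by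
    by_cases h2 : u ≤ -lam
    · linarith [(GG_neg hl h2).2]
    · rw [GG_mid h h2]
  have h2 : 0 ≤ GG lam v := by
    by_cases h2 : lam ≤ v
    · linarith [(GG_pos hl h2).1]
    · rw [GG_mid h2 h']
  linarith

lemma ww_same (hl : 0 < lam) {u v : ℝ} (hu : |u| ≤ 3 / 4) (hv : |v| ≤ 3 / 4) (h1 : lam ≤ |u|)
    (h2 : lam ≤ |v|) : ‖ww lam u - ww lam v‖ ≤ 4 * |1 / u - 1 / v| := by
  have hu0 : 0 < |u| := hl.trans_le h1
  have hv0 : 0 < |v| := hl.trans_le h2
  have a1 := le_norm hu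
  have a2 := le_norm hv
  have b1 : ee (u : UnitAddCircle) - 1 ≠ 0 := norm_pos_iff.1 (by linarith)
  have b2 : ee (v : UnitAddCircle) - 1 ≠ 0 := norm_pos_iff.1 (by linarith)
  have c1 : ‖ee (v : UnitAddCircle) - ee (u : UnitAddCircle)‖ ≤ 7 * |v - u| := by
    refine (norm_ee_sub_le _ _).trans ?_
    rw [← AddCircle.coe_sub]
    have := norm_coe_le (v - u)
    have h7 : 2 * Real.pi ≤ 7 := by linarith [Real.pi_lt_d2]
    gcongr
  rw [ww, ww, if_pos h1, if_pos h2, inv_sub_inv b1 b2, sub_sub_sub_cancel_right, norm_div, norm_mul,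
    div_sub_div _ _ (abs_pos.1 hu0) (abs_pos.1 hv0), abs_div, abs_mul, one_mul, mul_one]
  calc _ ≤ 7 * |v - u| / (4 / 3 * |u| * (4 / 3 * |v|)) := by gcongr
    _ = 63 / 16 * (|v - u| / (|u| * |v|)) := by field_simp; ring
    _ ≤ _ := by gcongr; norm_num

lemma ww_sub (hl : 0 < lam) {u v : ℝ} (hu : |u| ≤ 3 / 4) (hv : |v| ≤ 3 / 4) :
    ‖ww lam u - ww lam v‖ ≤ 4 * |GG lam u - GG lam v| := by
  wlog huv : v ≤ u generalizing u v
  · rw [norm_sub_rev, abs_sub_comm]; exact this hv hu (le_of_not_ge huv)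
  have h0 : 0 < 1 / lam := by positivity
  have far : 1 / lam ≤ GG lam u - GG lam v → ‖ww lam u - ww lam v‖ ≤ 4 * |GG lam u - GG lam v| :=
    fun h => by
      linarith [norm_sub_le (ww lam u) (ww lam v), norm_ww hl hu, norm_ww hl hv,
        le_abs_self (GG lam u - GG lam v)]
  by_cases h : lam ≤ v
  · refine (ww_same hl hu hv ((h.trans huv).trans (le_abs_self _))
      (h.trans (le_abs_self _))).trans (le_of_eq ?_)
    rw [GG, GG, if_pos h, if_pos (h.trans huv), abs_sub_comm]; congr 2; ring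
  by_cases h' : u ≤ -lam
  · refine (ww_same hl hu hv (le_trans (by linarith) (neg_le_abs _))
      (le_trans (by linarith) (neg_le_abs _))).trans (le_of_eq ?_)
    rw [GG, GG, if_neg h, if_neg (by linarith), if_pos (huv.trans h'), if_pos h', abs_sub_comm]
    congr 2; ring
  by_cases h1 : lam ≤ u
  · refine far ?_
    by_cases h2 : v ≤ -lam
    · linarith [(GG_pos hl h1).1, (GG_neg hl h2).2]
    · rw [GG_mid h h2]; linarith [(GG_pos hl h1).1]
  by_cases h2 : v ≤ -lam
  · refine far ?_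
    rw [GG_mid h1 h']; linarith [(GG_neg hl h2).2]
  · rw [ww, ww, if_neg (not_le.2 (abs_lt.2 ⟨by linarith, by linarith⟩)),
      if_neg (not_le.2 (abs_lt.2 ⟨by linarith, by linarith⟩)), sub_zero, norm_zero]
    positivity

/-- Total variation and sign changes. -/
lemma tv {g s : ℕ → ℝ} {K : ℝ} (hg : ∀ n, |g n| ≤ K) (hs : ∀ n, s n = 1 ∨ s n = -1)
    (h : ∀ n, |g (n + 1) - g n| = s n * (g (n + 1) - g n)) (N : ℕ) :
    ∑ n ∈ range N, |g (n + 1) - g n| ≤
      K + s N * g N + 2 * K * ((range N).filter fun n => s (n + 1) ≠ s n).card := by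
  induction N with
  | zero => rcases hs 0 with e | e <;> simp [e] <;> linarith [abs_le.1 (hg 0)]
  | succ N ih =>
    rw [sum_range_succ, h N, range_add_one, filter_insert]
    split_ifs with hc
    · rw [card_insert_of_notMem (by simp)]
      push_cast
      have := abs_le.1 (hg (N + 1))
      rcases hs N with e | e <;> rcases hs (N + 1) with e' | e' <;> rw [e] at ih <;>
        rw [e, e'] <;> linarith
    · rw [not_not.1 hc]; linarith

lemma changes (P : ℝ[X]) (N : ℕ) :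
    ((range N).filter fun n : ℕ => (if 0 ≤ P.eval ((n + 1 : ℕ) : ℝ) then (1 : ℝ) else -1) ≠
      if 0 ≤ P.eval (n : ℝ) then 1 else -1).card ≤ 2 * P.natDegree := by
  classical
  by_cases hP : P = 0
  · simp [hP]
  refine (card_le_card (t := P.roots.toFinset.biUnion fun r => {⌊r⌋₊, ⌊r⌋₊ - 1})
    fun n hn => ?_).trans ((card_biUnion_le_card_mul _ _ 2 fun r _ => card_le_two).trans ?_)
  · have h0 : (0 : ℝ) ∈ Set.uIcc (P.eval (n : ℝ)) (P.eval ((n + 1 : ℕ) : ℝ)) := by
      have := (mem_filter.1 hn).2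
      rw [Set.mem_uIcc]
      split_ifs at this with h1 h2 h2
      · exact absurd rfl this
      · exact Or.inl ⟨(not_le.1 h2).le, h1⟩
      · exact Or.inr ⟨(not_le.1 h1).le, h2⟩
      · exact absurd rfl this
    obtain ⟨r, hr, hr0⟩ := intermediate_value_uIcc (f := fun x => P.eval x)
      P.continuous.continuousOn h0
    rw [Set.uIcc_of_le (by push_cast; linarith)] at hr
    have h1 : n ≤ ⌊r⌋₊ := Nat.le_floor hr.1
    have h2 : ⌊r⌋₊ ≤ n + 1 := Nat.floor_le_of_le hr.2
    refine mem_biUnion.2 ⟨r, Multiset.mem_toFinset.2 ((mem_roots hP).2 hr0), ?_⟩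
    simp only [mem_insert, mem_singleton]; omega
  · rw [mul_comm]
    exact Nat.mul_le_mul_left 2 ((Multiset.toFinset_card_le _).trans P.card_roots')

lemma abel (w a : ℕ → ℂ) (ha : ∀ n, ‖a n‖ = 1) (N : ℕ) :
    ‖∑ n ∈ range (N + 1), w n * (a (n + 1) - a n) - w N * a (N + 1)‖ ≤
      ‖w 0‖ + ∑ n ∈ range N, ‖w (n + 1) - w n‖ := by
  induction N with
  | zero => simp [mul_sub, ha]
  | succ N ih =>
    rw [sum_range_succ, sum_range_succ (fun n => ‖w (n + 1) - w n‖), ← add_assoc]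
    refine le_trans (le_of_eq ?_) ((norm_sub_le _ ((w (N + 1) - w N) * a (N + 1))).trans
      (add_le_add ih (by rw [norm_mul, ha, mul_one])))
    congr 1; ring

end KL1

open KL1 in
theorem blk_KL1 : St_KL1 := by
  intro k
  refine ⟨2 + 16 * (1 + 2 * k), by linarith [Nat.cast_nonneg (α := ℝ) k], ?_⟩
  intro φ N lam hφ hl hl4 hψ
  rcases N with _ | N
  · simp only [range_zero, filter_empty, sum_empty, norm_zero]; positivity
  set ψ : ℕ → ℝ := fun n => φ.eval ((n : ℝ) + 2) - φ.eval ((n : ℝ) + 1) with hψd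
  set a : ℕ → ℂ := fun n => ee ((φ.eval ((n : ℝ) + 1) : ℝ) : UnitAddCircle) with ha
  have hψ' : ∀ n, n ≤ N → |ψ n| ≤ 3 / 4 := fun n hn => hψ n (mem_range.2 (by omega))
  have e1 : ∑ n ∈ (range (N + 1)).filter fun n => lam ≤ |ψ n|, a n =
      ∑ n ∈ range (N + 1), ww lam (ψ n) * (a (n + 1) - a n) := by
    rw [sum_filter]
    refine sum_congr rfl fun n hn => ?_
    unfold ww
    split_ifs with h
    · have h1 : ee (ψ n : UnitAddCircle) - 1 ≠ 0 := norm_pos_iff.1 (by
        linarith [le_norm (hψ n hn)])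
      have h2 : a (n + 1) = ee (ψ n : UnitAddCircle) * a n := by
        simp only [ha, hψd]
        rw [← ee_add, ← AddCircle.coe_add]
        congr 2; push_cast; rw [add_assoc]; norm_num
      rw [h2]; field_simp
    · rw [zero_mul]
  set P : ℝ[X] := taylor 3 φ - taylor 2 φ - (taylor 2 φ - taylor 1 φ) with hP
  have hPe : ∀ n : ℕ, P.eval (n : ℝ) = ψ (n + 1) - ψ n := fun n => by
    simp only [hP, hψd, eval_sub, taylor_eval]
    push_cast
    rw [show (n : ℝ) + 1 + 2 = n + 3 by ring, show (n : ℝ) + 1 + 1 = n + 2 by ring]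
  have hPd : P.natDegree ≤ k := by
    refine (natDegree_sub_le _ _).trans (max_le ?_ ?_) <;>
      refine (natDegree_sub_le _ _).trans (max_le ?_ ?_) <;> rwa [natDegree_taylor]
  have h3 := tv (g := fun n => GG lam (ψ n)) (s := fun n => if 0 ≤ P.eval (n : ℝ) then 1 else -1)
    (K := 2 / lam) (fun n => abs_GG hl _) (fun n => by split_ifs <;> simp) (fun n => by
      rw [hPe]
      split_ifs with h
      · rw [one_mul, abs_of_nonneg (sub_nonneg.2 (GG_mono hl (by linarith)))]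
      · rw [neg_one_mul, abs_of_nonpos (sub_nonpos.2 (GG_mono hl (by linarith)))]) N
  have h4 : (((range N).filter fun n : ℕ => (if 0 ≤ P.eval ((n + 1 : ℕ) : ℝ) then (1 : ℝ) else -1) ≠
      if 0 ≤ P.eval (n : ℝ) then 1 else -1).card : ℝ) ≤ 2 * k := by
    exact_mod_cast (changes P N).trans (Nat.mul_le_mul_left 2 hPd)
  have h5 : (if 0 ≤ P.eval (N : ℝ) then (1 : ℝ) else -1) * GG lam (ψ N) ≤ 2 / lam := by
    have := abs_le.1 (abs_GG hl (ψ N))
    split_ifs <;> linarith
  have h6 : ∑ n ∈ range N, ‖ww lam (ψ (n + 1)) - ww lam (ψ n)‖ ≤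
      4 * ∑ n ∈ range N, |GG lam (ψ (n + 1)) - GG lam (ψ n)| := by
    rw [mul_sum]
    refine sum_le_sum fun n hn => ?_
    have := mem_range.1 hn
    exact ww_sub hl (hψ' _ (by omega)) (hψ' _ (by omega))
  have h7 := abel (fun n => ww lam (ψ n)) a (fun n => norm_ee _) N
  have h8 : ‖ww lam (ψ N) * a (N + 1)‖ ≤ 1 / lam := by
    rw [norm_mul, norm_ee, mul_one]; exact norm_ww hl (hψ' N le_rfl)
  have h9 := norm_ww hl (hψ' 0 (Nat.zero_le _))
  have h10 : 2 * (2 / lam) * (((range N).filter fun n : ℕ =>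
      (if 0 ≤ P.eval ((n + 1 : ℕ) : ℝ) then (1 : ℝ) else -1) ≠
      if 0 ≤ P.eval (n : ℝ) then 1 else -1).card : ℝ) ≤ 2 * (2 / lam) * (2 * k) := by gcongr
  refine le_trans (le_of_eq (congrArg norm e1)) ?_
  refine (norm_le_norm_sub_add _ (ww lam (ψ N) * a (N + 1))).trans ?_
  have h11 : (2 + 16 * (1 + 2 * k)) / lam =
      1 / lam + 4 * (2 / lam + 2 / lam + 2 * (2 / lam) * (2 * k)) + 1 / lam := by ring
  rw [h11]; linarith

end Pool.Agent.Lib.WC
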