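import Pool.Agent.Lib.WC.Blue

namespace Pool.Agent.Lib.WC

open Polynomial Finset

namespace KL2

/-- All coefficients are bounded with the weights `N ^ a`. -/
def Wb (N : ℝ) (p : ℝ[X]) (K : ℝ) : Prop := ∀ a, |p.coeff a| * N ^ a ≤ K

lemma Wb.lin {N K x : ℝ} {p : ℝ[X]} (hN : 0 ≤ N) (hx : |x| ≤ N) (h : Wb N p K) :
    Wb N ((X - C x) * p) (2 * N * K) := by
  have hK : 0 ≤ K := le_trans (by positivity) (h 0)
  intro a
  have h1 : |x * p.coeff a| * N ^ a ≤ N * K := by
    rw [abs_mul, mul_assoc]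
    exact mul_le_mul hx (h a) (by positivity) hN
  rw [sub_mul, coeff_sub, coeff_C_mul]
  rcases a with _ | a
  · rw [coeff_X_mul_zero, zero_sub, abs_neg]
    nlinarith [mul_nonneg hN hK]
  · rw [coeff_X_mul]
    have h2 : |p.coeff a| * N ^ (a + 1) ≤ N * K := by
      rw [pow_succ', mul_left_comm]
      exact mul_le_mul_of_nonneg_left (h a) hN
    calc |p.coeff a - x * p.coeff (a + 1)| * N ^ (a + 1)
        ≤ (|p.coeff a| + |x * p.coeff (a + 1)|) * N ^ (a + 1) := by
          gcongr
          exact abs_sub _ _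
      _ ≤ _ := by rw [add_mul]; linarith

lemma Wb.const {N K c d : ℝ} {p : ℝ[X]} (hN : 0 ≤ N) (hc : |c| ≤ d) (h : Wb N p K) :
    Wb N (C c * p) (d * K) := by
  intro a
  rw [coeff_C_mul, abs_mul, mul_assoc]
  exact mul_le_mul hc (h a) (by positivity) ((abs_nonneg _).trans hc)

lemma Wb.one (N : ℝ) : Wb N 1 1 := by
  intro a
  rcases a with _ | a
  · simp
  · simp [coeff_one]

lemma Wb.sum {ι : Type} {N K : ℝ} (hN : 0 ≤ N) (s : Finset ι) (p : ι → ℝ[X])
    (h : ∀ i ∈ s, Wb N (p i) K) : Wb N (∑ i ∈ s, p i) (s.card * K) := by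
  intro a
  rw [finsetSum_coeff]
  calc |∑ i ∈ s, (p i).coeff a| * N ^ a ≤ (∑ i ∈ s, |(p i).coeff a|) * N ^ a := by
        gcongr
        exact abs_sum_le_sum_abs _ _
    _ = ∑ i ∈ s, |(p i).coeff a| * N ^ a := sum_mul _ _ _
    _ ≤ _ := by
        rw [← nsmul_eq_mul]
        exact sum_le_card_nsmul _ _ _ fun i hi => h i hi a

lemma Wb.prod {ι : Type} {N g y : ℝ} (hN : 0 ≤ N) (hg : 0 < g) (s : Finset ι) (x : ι → ℝ)
    (hx : ∀ i, |x i| ≤ N) (h : ∀ i ∈ s, g ≤ |y - x i|) :
    Wb N (∏ i ∈ s, Lagrange.basisDivisor y (x i)) ((2 * N / g) ^ s.card) := by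
  classical
  induction s using Finset.induction_on with
  | empty => simpa using Wb.one N
  | insert i s hi ih =>
    rw [prod_insert hi, card_insert_of_notMem hi, Lagrange.basisDivisor, mul_assoc]
    have h1 : |(y - x i)⁻¹| ≤ g⁻¹ := by
      rw [abs_inv]
      exact inv_anti₀ hg (h i (mem_insert_self _ _))
    convert ((ih fun j hj => h j (mem_insert_of_mem hj)).lin hN (hx i)).const hN h1 using 1
    rw [pow_succ]
    ring

lemma interp {k : ℕ} {N g lam : ℝ} (hN : 0 ≤ N) (hg : 0 < g) (x : Fin k → ℝ)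
    (hx : ∀ i, |x i| ≤ N) (h : ∀ i j, i ≠ j → g ≤ |x i - x j|) (ψ : ℝ[X]) (hψ : ψ.degree < k)
    (hl : ∀ i, |ψ.eval (x i)| ≤ lam) : Wb N ψ (k * (lam * (2 * N / g) ^ (k - 1))) := by
  have hinj : Set.InjOn x (univ : Finset (Fin k)) := fun i _ j _ e => by
    by_contra h0
    have := h i j h0
    rw [e, sub_self, abs_zero] at this
    linarith
  rw [Lagrange.eq_interpolate (f := ψ) hinj (by simpa using hψ), Lagrange.interpolate_apply]
  have := Wb.sum hN univ (fun i => C (ψ.eval (x i)) * Lagrange.basis univ x i)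
    (K := lam * (2 * N / g) ^ (k - 1)) fun i _ => by
      have h1 := Wb.prod hN hg (univ.erase i) x hx (y := x i)
        fun j hj => h i j (mem_erase.1 hj).1.symm
      rw [card_erase_of_mem (mem_univ i), card_univ, Fintype.card_fin] at h1
      exact h1.const hN (hl i)
  simpa using this

lemma nodes (W : Finset ℕ) : ∃ e : ℕ → ℕ, (∀ i, i < W.card → e i ∈ W) ∧
    ∀ i d, i + d < W.card → e i + d ≤ e (i + d) := by
  refine ⟨fun i => if h : i < W.card then W.orderEmbOfFin rfl ⟨i, h⟩ else 0, fun i hi => ?_,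
    fun i d => ?_⟩
  · simp only [dif_pos hi]
    exact W.orderEmbOfFin_mem rfl _
  · induction d with
    | zero => exact fun _ => le_rfl
    | succ d ih =>
      intro h
      have h1 := ih (by omega)
      have h2 : i + d < W.card := by omega
      have h3 := (W.orderEmbOfFin rfl).strictMono
        (show (⟨i + d, h2⟩ : Fin W.card) < ⟨i + (d + 1), h⟩ from Nat.lt_succ_self _)
      simp only [dif_pos h2, dif_pos h] at h1 ⊢
      omega

lemma coeff_taylor {k : ℕ} {φ : ℝ[X]} (h : φ.natDegree ≤ k) (a : ℕ) :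
    (taylor 1 φ).coeff a = ∑ j ∈ range (k + 1), φ.coeff j * (j.choose a : ℝ) := by
  conv_lhs => rw [φ.as_sum_range' (k + 1) (by omega)]
  rw [map_sum, finsetSum_coeff]
  refine sum_congr rfl fun j _ => ?_
  rw [taylor_monomial, coeff_C_mul, coeff_X_add_C_pow, one_pow, one_mul]

lemma coeff_diff {k : ℕ} {φ : ℝ[X]} (h : φ.natDegree ≤ k) (a : ℕ) :
    (taylor 1 φ - φ).coeff a = φ.coeff (a + 1) * (a + 1) +
      ∑ j ∈ (range (k + 1)).filter fun j => a + 2 ≤ j, φ.coeff j * (j.choose a : ℝ) := by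
  have h0 : ∀ j, j ∉ range (k + 1) → φ.coeff j = 0 := fun j hj =>
    coeff_eq_zero_of_natDegree_lt (by rw [mem_range] at hj; omega)
  have h1 : ∀ j, φ.coeff j * (j.choose a : ℝ) = (if j = a then φ.coeff j else 0) +
      ((if j = a + 1 then φ.coeff j * (a + 1) else 0) +
        if a + 2 ≤ j then φ.coeff j * (j.choose a : ℝ) else 0) := by
    intro j
    rcases lt_trichotomy j a with hj | rfl | hj
    · rw [Nat.choose_eq_zero_of_lt hj, if_neg (by omega), if_neg (by omega), if_neg (by omega)]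
      simp
    · simp
    · rcases (show j = a + 1 ∨ a + 2 ≤ j by omega) with rfl | hj2
      · simp
      · rw [if_neg (by omega), if_neg (by omega), if_pos hj2]
        simp
  rw [coeff_sub, coeff_taylor h, sum_congr rfl fun j _ => h1 j, sum_add_distrib, sum_add_distrib,
    sum_ite_eq', sum_ite_eq', sum_filter]
  have h2 : (if a ∈ range (k + 1) then φ.coeff a else 0) = φ.coeff a := by
    split_ifs with h3
    · rfl
    · exact (h0 _ h3).symm
  have h3 : (if a + 1 ∈ range (k + 1) then φ.coeff (a + 1) * (a + 1) else 0) =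
      φ.coeff (a + 1) * (a + 1) := by
    split_ifs with h3
    · rfl
    · rw [h0 _ h3, zero_mul]
  rw [h2, h3]
  ring

lemma deg_diff {k : ℕ} {φ : ℝ[X]} (h : φ.natDegree ≤ k) : (taylor 1 φ - φ).degree < k := by
  rw [degree_lt_iff_coeff_zero]
  intro a ha
  rw [coeff_diff h, coeff_eq_zero_of_natDegree_lt (by omega), zero_mul, zero_add]
  refine sum_eq_zero fun j hj => ?_
  rw [mem_filter, mem_range] at hj
  omega

lemma down {k : ℕ} {φ : ℝ[X]} {N K : ℝ} (hN : 1 ≤ N) (h : φ.natDegree ≤ k)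
    (hK : Wb N (taylor 1 φ - φ) K) (t : ℕ) : ∀ j, 1 ≤ j → k < j + t →
      |φ.coeff j| * N ^ (j - 1) ≤ (1 + (k + 1) * 2 ^ k) ^ t * K := by
  have hK0 : 0 ≤ K := le_trans (by positivity) (hK 0)
  induction t with
  | zero =>
    intro j _ hj
    rw [coeff_eq_zero_of_natDegree_lt (by omega)]
    simpa using hK0
  | succ t ih =>
    intro j hj1 hj
    obtain ⟨a, rfl⟩ : ∃ a, j = a + 1 := ⟨j - 1, by omega⟩
    set A : ℝ := (1 + (k + 1) * 2 ^ k) ^ t with hA
    have hA1 : 1 ≤ A := one_le_pow₀ (le_add_of_nonneg_right (by positivity))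
    have h1 := hK a
    have h2 : |∑ j ∈ (range (k + 1)).filter fun j => a + 2 ≤ j, φ.coeff j * (j.choose a : ℝ)| *
        N ^ a ≤ (k + 1) * (2 ^ k * (A * K)) := by
      refine (mul_le_mul_of_nonneg_right (abs_sum_le_sum_abs _ _) (by positivity)).trans ?_
      rw [sum_mul]
      refine (sum_le_card_nsmul _ _ (2 ^ k * (A * K)) fun i hi => ?_).trans ?_
      · rw [mem_filter, mem_range] at hi
        have h3 := ih i (by omega) (by omega)
        have h4 : (i.choose a : ℝ) ≤ 2 ^ k := by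
          have := (Nat.choose_le_two_pow i a).trans (Nat.pow_le_pow_right two_pos
            (show i ≤ k by omega))
          exact_mod_cast this
        have h5 : N ^ a ≤ N ^ (i - 1) := pow_le_pow_right₀ hN (by omega)
        rw [abs_mul, Nat.abs_cast, mul_comm |φ.coeff i|, mul_assoc]
        refine mul_le_mul h4 (le_trans ?_ h3) (by positivity) (by positivity)
        gcongr
      · rw [nsmul_eq_mul]
        have : ((((range (k + 1)).filter fun j => a + 2 ≤ j).card : ℕ) : ℝ) ≤ k + 1 := by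
          exact_mod_cast (card_filter_le _ _).trans (card_range _).le
        gcongr
    have h3 : |φ.coeff (a + 1)| ≤ |φ.coeff (a + 1) * (a + 1)| := by
      rw [abs_mul]
      refine le_mul_of_one_le_right (abs_nonneg _) ?_
      rw [abs_of_nonneg (by positivity)]
      exact le_add_of_nonneg_left (by positivity)
    rw [eq_sub_of_add_eq (coeff_diff h a).symm] at h3
    have h4 := mul_le_mul_of_nonneg_right (h3.trans (abs_sub _ _)) (show 0 ≤ N ^ a by positivity)
    rw [add_mul] at h4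
    rw [Nat.add_sub_cancel, pow_succ, ← hA]
    nlinarith [mul_le_mul_of_nonneg_right hA1 hK0]

end KL2

open KL2 in
theorem blk_KL2 : St_KL2 := by
  intro k hk
  refine ⟨(1 + (k + 1) * 2 ^ k) ^ k * (k * (4 * k) ^ (k - 1)), ?_,
    fun φ N W lam hφ hW hc hl j hj => ?_⟩
  · have h1 : (1 : ℝ) ≤ k := by exact_mod_cast hk
    exact one_le_mul_of_one_le_of_one_le (one_le_pow₀ (le_add_of_nonneg_right (by positivity)))
      (one_le_mul_of_one_le_of_one_le h1 (one_le_pow₀ (by linarith)))
  obtain ⟨e, he1, he2⟩ := nodes W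
  set g := W.card / k with hg
  have hg2 : 2 ≤ g := (Nat.le_div_iff_mul_le hk).2 hc
  have hgk : g * k ≤ W.card := Nat.div_mul_le_self _ _
  have hgk2 : W.card ≤ 2 * k * g := by
    have := Nat.lt_div_mul_add (a := W.card) hk
    rw [← hg] at this
    nlinarith
  have hlt : ∀ i : Fin k, i.val * g < W.card := fun i => by
    have := i.2
    nlinarith
  have hWN : W.card ≤ N := (card_le_card hW).trans (card_range N).le
  have hN : (1 : ℝ) ≤ N := by exact_mod_cast (show 1 ≤ N by omega)
  have hgap : ∀ i j : Fin k, i < j → e (i.val * g) + g ≤ e (j.val * g) := fun i j hij => by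
    obtain ⟨d, hd⟩ := Nat.exists_eq_add_of_lt (show i.val < j.val from hij)
    have h1 : j.val * g = i.val * g + (d + 1) * g := by rw [hd]; ring
    have h2 := he2 (i.val * g) ((d + 1) * g) (h1 ▸ hlt j)
    rw [← h1] at h2
    nlinarith
  have hl0 : 0 ≤ lam := le_trans (abs_nonneg _) (hl _ (he1 0 (by omega)))
  have hg0 : (0 : ℝ) < g := by exact_mod_cast (show 0 < g by omega)
  have h1 := interp (N := N) (g := g) (lam := lam) (by linarith) hg0
    (fun i : Fin k => (e (i.val * g) : ℝ) + 1)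
    (fun i => by
      have := mem_range.1 (hW (he1 _ (hlt i)))
      rw [abs_of_nonneg (by positivity)]
      exact_mod_cast this)
    (fun i j hij => by
      rw [add_sub_add_right_eq_sub, le_abs]
      rcases lt_or_gt_of_ne hij with h | h
      · have : (e (i.val * g) : ℝ) + g ≤ e (j.val * g) := by exact_mod_cast hgap i j h
        right
        linarith
      · have : (e (j.val * g) : ℝ) + g ≤ e (i.val * g) := by exact_mod_cast hgap j i h
        left
        linarith)
    _ (deg_diff hφ)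
    (fun i => by
      rw [eval_sub, taylor_eval, add_assoc, one_add_one_eq_two]
      exact hl _ (he1 _ (hlt i)))
  refine (down hN hφ h1 k j hj (by omega)).trans ?_
  have hc0 : (0 : ℝ) < W.card := by exact_mod_cast (show 0 < W.card by omega)
  have h2 : 2 * (N : ℝ) / g ≤ 4 * k * (N / W.card) := by
    rw [← mul_div_assoc, div_le_div_iff₀ hg0 hc0]
    have : (W.card : ℝ) ≤ 2 * k * g := by exact_mod_cast hgk2
    nlinarith
  calc (1 + ((k : ℝ) + 1) * 2 ^ k) ^ k * (k * (lam * (2 * N / g) ^ (k - 1)))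
      ≤ (1 + ((k : ℝ) + 1) * 2 ^ k) ^ k * (k * (lam * (4 * k * (N / W.card)) ^ (k - 1))) := by
        gcongr
    _ = _ := by rw [mul_pow]; ring

end Pool.Agent.Lib.WC
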