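import Pool.Agent.Lib.WC.Blue

/-! The key step of the bilinear iteration. -/

namespace Pool.Agent.Lib.WC

open MeasureTheory Polynomial Finset

namespace LD

lemma geo {κ n w : ℕ} {c σ : ℚ} {b i j : ℤ} (hκ : 1 ≤ κ) (hσ : 0 < σ)
    (hi : i ∈ Finset.Ico b (b + w)) (h1 : (n : ℤ) ≤ κ * |i - j|) (h2 : |i - j| ≤ n) :
    n * σ / κ - w * σ ≤ |c + b * σ - (c + j * σ)| ∧ |c + b * σ - (c + j * σ)| ≤ n * σ + w * σ := by
  rw [Finset.mem_Ico] at hi
  have e : c + b * σ - (c + j * σ) = (b - j) * σ := by ring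
  have hκ' : (0 : ℚ) < κ := by exact_mod_cast hκ
  have a1 : (n : ℚ) ≤ κ * |(i : ℚ) - j| := by exact_mod_cast h1
  have a2 : |(i : ℚ) - j| ≤ n := by exact_mod_cast h2
  have a3 : |(i : ℚ) - b| ≤ w := by
    have : |i - b| ≤ w := by rw [abs_le]; constructor <;> omega
    exact_mod_cast this
  have a4 : (n : ℚ) / κ ≤ |(i : ℚ) - j| := by rwa [div_le_iff₀' hκ']
  have a5 := abs_sub_le (i : ℚ) b j
  have a6 := abs_sub_le (b : ℚ) i j
  rw [abs_sub_comm (b : ℚ) i] at a6
  rw [e, abs_mul, abs_of_pos hσ, mul_div_right_comm, ← sub_mul, ← add_mul]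
  exact ⟨mul_le_mul_of_nonneg_right (by linarith) hσ.le,
    mul_le_mul_of_nonneg_right (by linarith) hσ.le⟩

end LD

theorem blk_LD (h : St_LD1) : St_LD := by
  intro k l κ K ε hl hlk hκ hε hD
  have hq : 1 ≤ sd k - sd l := by have := sd_strictMono hlk; omega
  have hs : sd l ≠ 0 := by have := one_le_sd hl; omega
  obtain ⟨C, hC, h⟩ := h k l κ K (sd k - sd l) ε hl hlk.le hκ hq hε hD
  refine ⟨C, hC, fun n u' u B hu' hun hu hB hK hb => ?_⟩
  intro m F c σ a b b' I I' f g hσ hI hI' _ hI'b hsep hf hg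
  have hn : (1 : ℝ) ≤ n := by exact_mod_cast hu'.trans hun
  have hA : 0 ≤ ∑ i ∈ I, nn (sd k) (f i) := Finset.sum_nonneg fun _ _ => nn_nonneg _ _
  have hA' : 0 ≤ ∑ i ∈ I', nn (sd k) (g i) := Finset.sum_nonneg fun _ _ => nn_nonneg _ _
  have hC0 : 0 ≤ C := by linarith
  rcases I'.eq_empty_or_nonempty with rfl | hne
  · simp [zero_pow (by omega : 2 * (sd k - sd l) ≠ 0), zero_pow (by omega : sd k - sd l ≠ 0)]
  have hj0 := I'.min'_mem hne
  set j0 := I'.min' hne with hj
  have hn0 : (0 : ℚ) < n := by exact_mod_cast hu'.trans hun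
  have hu0 : (0 : ℚ) < u' := by exact_mod_cast hu'
  have hgrp : ∀ J : ℤ, ∀ i ∈ I.filter fun i => (i - a) / u' = J,
      i ∈ Finset.Ico (a + J * u') (a + J * u' + u') := fun J i hi =>
    (ediv_eq_iff hu').mp (Finset.mem_filter.mp hi).2
  have hc : ∀ J : ℤ, c + a * σ + J * (u' * σ) = c + ((a + J * u' : ℤ) : ℚ) * σ := fun J => by
    push_cast; ring
  set E := (B ^ sd k * (∑ i ∈ I', nn (sd k) (g i)) ^ (sd k - sd l)) ^ ((sd l : ℝ)⁻¹) with hE
  have hE0 : 0 ≤ E := by positivity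
  have hEp : E ^ sd l = B ^ sd k * (∑ i ∈ I', nn (sd k) (g i)) ^ (sd k - sd l) :=
    Real.rpow_inv_natCast_pow (by positivity) hs
  have key := h m F (c + a * σ) (u' * σ) (n * σ) (c + j0 * σ) (u * σ)
    (I.image fun i => (i - a) / u') (fun J => ∑ i ∈ I with (i - a) / u' = J, f i) (∑ j ∈ I', g j)
    (fun J => (∑ i ∈ I with (i - a) / u' = J, nn (sd k) (f i)) * E) (by positivity)
    (mul_le_mul_of_nonneg_right (by exact_mod_cast hun) hσ.le) (by positivity)
    (fun i h1 h2 => by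
      have h3 : (u : ℚ) ^ i * n ^ l ≤ K * (u' ^ l * n ^ i) := by exact_mod_cast hK i h1 h2
      rw [mul_div_mul_right _ _ hσ.ne', mul_div_mul_right _ _ hσ.ne', div_pow, div_pow,
        ← mul_div_assoc, div_le_div_iff₀ (by positivity) (by positivity)]
      linarith)
    (fun J hJ => by
      obtain ⟨i, hi, rfl⟩ := Finset.mem_image.mp hJ
      have h1 := Finset.mem_Ico.mp (hI hi)
      have h2 := Finset.mem_Ico.mp (hI' hj0)
      rw [hc]
      exact LD.geo hκ hσ (hgrp _ i (Finset.mem_filter.mpr ⟨hi, rfl⟩)) (hsep i hi j0 hj0)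
        (by rw [abs_le]; constructor <;> omega))
    (fun J _ => Submodule.sum_mem _ fun i hi => by
      rw [hc]
      exact Sp_mono (In_mono F hσ.le (group_le hσ (hgrp J i hi)))
        (hf i (Finset.mem_filter.mp hi).1))
    (Submodule.sum_mem _ fun j hj' => Sp_mono (In_mono F hσ.le (group_le hσ (by
      have h1 := Finset.mem_Ico.mp (hI'b hj')
      have h2 := Finset.mem_Ico.mp (hI'b hj0)
      have h3 : j0 ≤ j := I'.min'_le j hj'
      rw [Finset.mem_Ico]; constructor <;> omega))) (hg j hj'))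
    (fun J _ => mul_nonneg (Finset.sum_nonneg fun _ _ => nn_nonneg _ _) hE0)
    fun J _ y => by
      have h1 := hb m F c σ a (a + J * u') b' (I.filter fun i => (i - a) / u' = J) I' f
        (fun j x => g j (x + y)) hσ ((Finset.filter_subset _ _).trans hI) hI' (hgrp J) hI'b
        (fun i hi => hsep i (Finset.mem_filter.mp hi).1)
        (fun i hi => hf i (Finset.mem_filter.mp hi).1) fun j hj' => Sp_translate (hg j hj') y
      simp only [nn_translate, Finset.sum_apply] at h1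
      simp only [Finset.sum_apply]
      rw [mul_pow, hEp]
      exact h1.trans (le_of_eq (by ring))
  rw [← sum_group, ← Finset.sum_mul, ← sum_group, mul_div_mul_right _ _ hσ.ne'] at key
  refine key.trans ?_
  have h1 : (((n : ℚ) / u' : ℚ) : ℝ) ^ ε ≤ (n : ℝ) ^ ε := by
    push_cast
    exact Real.rpow_le_rpow (by positivity) (div_le_self (by positivity) (by exact_mod_cast hu'))
      hε.le
  have h2 : 1 ≤ C * (n : ℝ) ^ ε := one_le_mul_of_one_le_of_one_le hC (Real.one_le_rpow hn hε.le)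
  have h3 : (C * (((n : ℚ) / u' : ℚ) : ℝ) ^ ε) ^ sd l ≤ (C * (n : ℝ) ^ ε) ^ sd k :=
    (pow_le_pow_left₀ (by positivity) (mul_le_mul_of_nonneg_left h1 hC0) _).trans
      (pow_le_pow_right₀ h2 (sd_mono hlk.le))
  rw [mul_pow, mul_pow _ E, hEp, mul_pow _ B]
  refine (mul_le_mul_of_nonneg_right h3 (by positivity)).trans (le_of_eq (by ring))

end Pool.Agent.Lib.WC
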