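import Pool.Agent.Lib.WC.Blue

/-! Integral coordinates for the projection. -/

namespace Pool.Agent.Lib.WC

open MeasureTheory Polynomial Finset

namespace LD0

/-- The Taylor coefficient of order `e` at `t`. -/
noncomputable def phi (t : ℚ) (e : ℕ) : ℚ[X] →ₗ[ℚ] ℚ := (lcoeff ℚ e).comp (taylor t)

lemma phi_pow (t : ℚ) (e i : ℕ) : phi t e ((X - C t) ^ i) = if e = i then 1 else 0 := by
  have h : taylor t ((X - C t : ℚ[X]) ^ i) = X ^ i := by
    rw [taylor_apply]; simp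
  simp only [phi, LinearMap.comp_apply, h, lcoeff_apply, coeff_X_pow]

lemma phi_one (t : ℚ) (e : ℕ) : phi t e 1 = if e = 0 then 1 else 0 := by
  simpa using phi_pow t e 0

lemma exists_den {ι : Type} [Fintype ι] (x : ι → ℚ) :
    ∃ Q : ℕ, 1 ≤ Q ∧ ∃ z : ι → ℤ, ∀ a, (z a : ℚ) = Q * x a := by
  classical
  refine ⟨∏ a, (x a).den, Nat.one_le_iff_ne_zero.2 (prod_ne_zero_iff.2 fun a _ => (x a).den_nz), ?_⟩
  have : ∀ a, ∃ z : ℤ, (z : ℚ) = (∏ a, (x a).den : ℕ) * x a := by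
    intro a
    obtain ⟨c, hc⟩ : (x a).den ∣ ∏ a, (x a).den := dvd_prod_of_mem _ (mem_univ a)
    refine ⟨c * (x a).num, ?_⟩
    rw [hc]
    push_cast
    rw [← Rat.den_mul_eq_num (x a)]
    ring
  choose z hz using this
  exact ⟨z, hz⟩

lemma B_expand {m : ℕ} (F : Fam m) (ω : Fin m → ℤ) (p : ℚ[X]) :
    F.B ω p = ∑ a, (ω a : ℚ) * F.B (Pi.single a 1) p := by
  have h : ω = ∑ a, ω a • (Pi.single a (1 : ℤ) : Fin m → ℤ) := by
    ext b; simp [Finset.sum_apply, Pi.single_apply]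
  conv_lhs => rw [h, map_sum, LinearMap.sum_apply]
  refine sum_congr rfl fun a _ => ?_
  rw [map_zsmul, LinearMap.smul_apply, zsmul_eq_mul]

/-- The integral matrix as a homomorphism. -/
def mat {m l : ℕ} (z : Fin m × Fin l → ℤ) : (Fin m → ℤ) →+ (Fin l → ℤ) where
  toFun := fun ω i => ∑ a, ω a * z (a, i)
  map_zero' := by ext i; simp
  map_add' := fun x y => by ext i; simp [add_mul, sum_add_distrib]

/-- The projected family. -/
noncomputable def fam {l : ℕ} (t : ℚ) (e : Fin l → ℕ) (he : ∀ i, e i ≠ 0) (s b : Fin l → ℚ) :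
    Fam l where
  B := { toFun := fun ν => ∑ i, ((ν i : ℚ) * s i) • phi t (e i)
         map_zero' := by simp
         map_add' := fun x y => by simp [add_mul, add_smul, sum_add_distrib] }
  B0 := phi t 0 + ∑ i, b i • phi t (e i)
  B_one := fun ν => by simp [LinearMap.sum_apply, phi_one, he]
  B0_one := by simp [LinearMap.sum_apply, phi_one, he]

lemma fam_L {l : ℕ} (t : ℚ) (e : Fin l → ℕ) (he : ∀ i, e i ≠ 0) (hinj : Function.Injective e)
    (s b : Fin l → ℚ) (ν : Fin l → ℤ) (i : Fin l) :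
    (fam t e he s b).L ν ((X - C t) ^ e i) = ν i * s i + b i := by
  have h0 : (0 : ℕ) ≠ e i := (he i).symm
  simp [Fam.L, fam, LinearMap.sum_apply, phi_pow, hinj.eq_iff, h0]

end LD0

open LD0 in
theorem blk_LD0 : St_LD0 := by
  intro k l m F t ρ hlk hρ
  set e : Fin l → ℕ := fun i => k - l + 1 + i.val with he_def
  have he : ∀ i, e i ≠ 0 := fun i => by simp only [he_def]; omega
  have hinj : Function.Injective e := fun i j h => by
    simp only [he_def] at h; exact Fin.ext (by omega)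
  have hek : ∀ i, e i ≤ k := fun i => by
    have := i.isLt; simp only [he_def]; omega
  obtain ⟨Q, hQ, z, hz⟩ := exists_den fun p : Fin m × Fin l =>
    F.B (Pi.single p.1 1) ((X - C t) ^ e p.2) / ρ ^ e p.2
  have hQ0 : (0 : ℚ) < Q := by exact_mod_cast hQ
  have hM : ∀ ω i, (mat z ω i : ℚ) = Q * F.B ω ((X - C t) ^ e i) / ρ ^ e i := by
    intro ω i
    rw [B_expand F ω, mul_sum, sum_div]
    simp only [mat, AddMonoidHom.coe_mk, ZeroHom.coe_mk]
    push_cast
    refine sum_congr rfl fun a _ => ?_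
    rw [hz]; ring
  refine ⟨Q, mat z, fun i => ((Q * F.B0 ((X - C t) ^ e i) / ρ ^ e i : ℚ) : ℝ),
    fam t e he (fun i => -(ρ ^ e i / Q)) fun i => F.B0 ((X - C t) ^ e i), hQ, ?_, ?_⟩
  · intro ω hω i
    have h1 : |F.L ω ((X - C t) ^ e i)| ≤ ρ ^ e i :=
      hω (e i) (Nat.one_le_iff_ne_zero.2 (he i)) (hek i)
    have hp : 0 < ρ ^ e i := pow_pos hρ _
    have h2 : |(mat z ω i : ℚ) + Q * F.B0 ((X - C t) ^ e i) / ρ ^ e i| ≤ Q := by
      have : (mat z ω i : ℚ) + Q * F.B0 ((X - C t) ^ e i) / ρ ^ e i =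
          Q * F.L ω ((X - C t) ^ e i) / ρ ^ e i := by
        rw [hM, Fam.L, LinearMap.add_apply]; ring
      rw [this, abs_div, abs_mul, abs_of_pos hQ0, abs_of_pos hp, div_le_iff₀ hp]
      exact mul_le_mul_of_nonneg_left h1 hQ0.le
    have h3 : ((|(mat z ω i : ℚ) + Q * F.B0 ((X - C t) ^ e i) / ρ ^ e i| : ℚ) : ℝ) ≤
        ((Q : ℚ) : ℝ) := Rat.cast_le.2 h2
    rw [Rat.cast_abs, Rat.cast_add, Rat.cast_intCast, Rat.cast_natCast] at h3
    exact h3
  · intro c τ ω hω h hh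
    refine ⟨F.L ω, F.L_one ω, hω, fun j hj hjk => ?_⟩
    obtain ⟨i, rfl⟩ : ∃ i, e i = j := ⟨⟨j - (k - l + 1), by omega⟩, by simp only [he_def]; omega⟩
    have hp : 0 < ρ ^ e i := pow_pos hρ _
    rw [fam_L t e he hinj]
    have h1 : (((h - mat z ω) i : ℤ) : ℚ) * -(ρ ^ e i / Q) + F.B0 ((X - C t) ^ e i) -
        F.L ω ((X - C t) ^ e i) = -(h i * (ρ ^ e i / Q)) := by
      rw [Pi.sub_apply, Int.cast_sub, hM, Fam.L, LinearMap.add_apply]
      field_simp
      ring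
    have h2 : (0 : ℚ) ≤ h i := by exact_mod_cast (hh i).1
    have h3 : (h i : ℚ) ≤ Q := by exact_mod_cast (hh i).2
    rw [h1, abs_neg, abs_of_nonneg (by positivity)]
    calc (h i : ℚ) * (ρ ^ e i / Q) ≤ Q * (ρ ^ e i / Q) := by gcongr
      _ = ρ ^ e i := by field_simp

end Pool.Agent.Lib.WC
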