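import Pool.Agent.Lib.WC.Blue

/-! Block LEAD: the leading coefficient of a large Weyl sum. -/

namespace Pool.Agent.Lib.WC

open Finset

namespace LEAD

lemma tri_sum (f : ℕ → ℕ → ℂ) (M : ℕ) : ∑ m ∈ range M, ∑ n ∈ range m, f m n =
    ∑ h ∈ Icc 1 M, ∑ n ∈ range (M - h), f (n + h) n := by
  rw [Finset.sum_sigma', Finset.sum_sigma']
  refine Finset.sum_nbij' (fun p => ⟨p.1 - p.2, p.2⟩) (fun p => ⟨p.2 + p.1, p.2⟩) ?_ ?_ ?_ ?_ ?_
  · rintro ⟨m, n⟩ hp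
    simp only [mem_sigma, mem_range, mem_Icc] at hp ⊢
    omega
  · rintro ⟨m, n⟩ hp
    simp only [mem_sigma, mem_range, mem_Icc] at hp ⊢
    omega
  · rintro ⟨m, n⟩ hp
    simp only [mem_sigma, mem_range] at hp
    simp only [Sigma.mk.injEq, heq_eq_eq, and_true]
    omega
  · rintro ⟨m, n⟩ _
    simp
  · rintro ⟨m, n⟩ hp
    simp only [mem_sigma, mem_range] at hp
    simp only
    rw [show n + (m - n) = m by omega]

lemma sq_sum (a : ℕ → ℂ) (ha : ∀ n, ‖a n‖ = 1) (M : ℕ) : ‖∑ n ∈ range M, a n‖ ^ 2 =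
    M + 2 * (∑ m ∈ range M, ∑ n ∈ range m, a m * (starRingEnd ℂ) (a n)).re := by
  induction M with
  | zero => simp
  | succ M ih =>
    rw [sum_range_succ, sum_range_succ, Complex.add_re, Complex.sq_norm, add_comm _ (a M),
      Complex.normSq_add, ← Complex.sq_norm, ← Complex.sq_norm, ih, ha, ← Finset.mul_sum,
      ← map_sum]
    push_cast
    ring

variable {k : ℕ}

lemma weyl (M : ℕ) (x : TT k) :
    ‖S M x‖ ^ 2 ≤ M + 2 * ∑ h ∈ Icc 1 M, ‖S (M - h) (U (h : ℤ) x - x)‖ := by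
  rw [S, sq_sum (fun n : ℕ => ee (ph x ((n : ℤ) + 1))) (fun n => norm_ee _), tri_sum]
  gcongr
  refine (Complex.re_le_norm _).trans ((norm_sum_le _ _).trans (le_of_eq ?_))
  refine Finset.sum_congr rfl fun h _ => ?_
  have : ∑ n ∈ range (M - h), ee (ph x (((n + h : ℕ) : ℤ) + 1)) *
      (starRingEnd ℂ) (ee (ph x ((n : ℤ) + 1))) = ee (ph x h) * S (M - h) (U (h : ℤ) x - x) := by
    rw [S, Finset.mul_sum]
    refine Finset.sum_congr rfl fun n _ => ?_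
    rw [show (((n + h : ℕ) : ℤ) + 1) = (n : ℤ) + 1 + h by push_cast; ring, ph_U, ph_sub, ee_sub,
      ee_add, mul_assoc]
  rw [this, norm_mul, norm_ee, one_mul]

lemma many {N N' : ℕ} {H : ℝ} {x : TT k} (hN : 1 ≤ N) (hN' : N' ≤ N) (hH : 2 ≤ H)
    (h2 : 2 * H ^ 2 ≤ N) (hS : N / H ≤ ‖S N' x‖) :
    N / (8 * H ^ 2) ≤ (((Icc 1 N').filter fun h : ℕ =>
      N / (8 * H ^ 2) ≤ ‖S (N' - h) (U (h : ℤ) x - x)‖).card : ℝ) := by
  have hN0 : (0 : ℝ) < N := by exact_mod_cast hN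
  have hH0 : 0 < H := by linarith
  have hN1 : (N' : ℝ) ≤ N := by exact_mod_cast hN'
  set t : ℝ := N / (8 * H ^ 2) with ht
  have ht0 : 0 < t := by positivity
  set G := (Icc 1 N').filter fun h : ℕ => t ≤ ‖S (N' - h) (U (h : ℤ) x - x)‖ with hG
  have h3 : ∑ h ∈ Icc 1 N', ‖S (N' - h) (U (h : ℤ) x - x)‖ ≤ G.card * N + N * t := by
    rw [← Finset.sum_filter_add_sum_filter_not (Icc 1 N')
      (fun h : ℕ => t ≤ ‖S (N' - h) (U (h : ℤ) x - x)‖)]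
    gcongr
    · rw [← nsmul_eq_mul]
      refine Finset.sum_le_card_nsmul _ _ _ fun h _ => (norm_S_le _ _).trans ?_
      exact_mod_cast (by omega : N' - h ≤ N)
    · refine (Finset.sum_le_card_nsmul _ _ t fun h hh => (not_le.1 (mem_filter.1 hh).2).le).trans ?_
      rw [nsmul_eq_mul]
      gcongr
      refine (card_filter_le _ _).trans ?_
      simpa using hN'
  have h4 := weyl N' x
  have h5 : (N / H) ^ 2 ≤ ‖S N' x‖ ^ 2 := by gcongr
  have h6 : (N / H) ^ 2 = 8 * (N * t) := by rw [ht]; field_simp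
  have h7 : (N : ℝ) ≤ 4 * (N * t) := by
    have : 1 ≤ 4 * t := by
      rw [ht, ← mul_div_assoc, le_div_iff₀ (by positivity)]
      linarith
    nlinarith
  have h8 : N * t ≤ N * G.card := by linarith
  exact le_of_mul_le_mul_left h8 hN0

lemma base (hk : 0 < k) {N N' : ℕ} {H : ℝ} {x : TT k} (hN : 1 ≤ N) (hH : 2 ≤ H)
    (hx : ∀ j, (⟨0, hk⟩ : Fin k) < j → x j = 0) (hS : N / H ≤ ‖S N' x‖) :
    ‖x ⟨0, hk⟩‖ ≤ H / N := by
  have hN0 : (0 : ℝ) < N := by exact_mod_cast hN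
  have hH0 : 0 < H := by linarith
  set z := x ⟨0, hk⟩
  have h1 : ∀ n : ℕ, ph x ((n : ℤ) + 1) = (n + 1) • z := fun n => by
    rw [ph, Finset.sum_eq_single ⟨0, hk⟩]
    · rw [← natCast_zsmul]; simp [z]
    · intro j _ hj
      rw [hx j (lt_of_le_of_ne (Nat.zero_le _) hj.symm), smul_zero]
    · simp
  have h2 : S N' x * (ee z - 1) = ee z * (ee z ^ N' - 1) := by
    rw [← geom_sum_mul, S, ← mul_assoc, Finset.mul_sum]
    congr 1
    exact Finset.sum_congr rfl fun n _ => by rw [h1, ee_nsmul, pow_succ']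
  have h3 : ‖S N' x‖ * ‖ee z - 1‖ ≤ 2 := by
    rw [← norm_mul, h2, norm_mul, norm_ee, one_mul]
    refine (norm_sub_le _ _).trans ?_
    rw [norm_pow, norm_ee]
    norm_num
  have h4 := le_norm_ee_sub_one z
  have h5 : N / H * (4 * ‖z‖) ≤ 2 := le_trans (by gcongr) h3
  rw [div_mul_eq_mul_div, div_le_iff₀ hH0] at h5
  rw [le_div_iff₀ hN0]
  nlinarith [norm_nonneg z]

lemma U_prev {m : ℕ} (hm : m + 1 < k) {x : TT k} (hx : ∀ j, (⟨m + 1, hm⟩ : Fin k) < j → x j = 0)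
    (h : ℕ) : (U (h : ℤ) x - x) ⟨m, by omega⟩ = ((m + 2) * h) • x ⟨m + 1, hm⟩ := by
  rw [Pi.sub_apply, U_apply, Finset.sum_eq_add (⟨m, Nat.lt_of_succ_lt hm⟩ : Fin k) ⟨m + 1, hm⟩
    (Fin.ne_of_val_ne (Nat.lt_succ_self m).ne)]
  · simp only [Nat.choose_self, Nat.cast_one, Nat.sub_self, pow_zero, mul_one, one_smul,
      add_sub_cancel_left, Nat.add_sub_cancel_left, pow_one, Nat.choose_succ_self_right]
    rw [← natCast_zsmul]
    push_cast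
    rw [add_assoc, one_add_one_eq_two]
  · intro l _ hl
    have h1 : l.val ≠ m := fun e => hl.1 (Fin.ext e)
    have h2 : l.val ≠ m + 1 := fun e => hl.2 (Fin.ext e)
    rcases lt_or_gt_of_ne h1 with h3 | h3
    · rw [Nat.choose_eq_zero_of_lt (by simpa using h3)]; simp
    · rw [hx l (Fin.lt_def.2 (by simp only; omega)), smul_zero]
  · simp
  · simp

lemma pigeon {G : Finset ℕ} {g : ℕ → ℕ} {Q c : ℝ} (hQ : 1 ≤ Q) (hc : 0 ≤ c)
    (hg : ∀ h ∈ G, 1 ≤ g h ∧ (g h : ℝ) ≤ Q) (h : Q * c ≤ G.card) :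
    ∃ q : ℕ, 1 ≤ q ∧ (q : ℝ) ≤ Q ∧ c ≤ (G.filter fun h => g h = q).card := by
  have h0 : 0 ≤ Q := by linarith
  have h1 : ∀ h ∈ G, g h ∈ Icc 1 ⌊Q⌋₊ := fun h hh =>
    mem_Icc.2 ⟨(hg h hh).1, Nat.le_floor (hg h hh).2⟩
  have h2 : (G.card : ℝ) = ∑ q ∈ Icc 1 ⌊Q⌋₊, ((G.filter fun h => g h = q).card : ℝ) := by
    rw [Finset.card_eq_sum_card_fiberwise h1]
    push_cast
    rfl
  have h3 : ∑ _q ∈ Icc 1 ⌊Q⌋₊, c ≤ ∑ q ∈ Icc 1 ⌊Q⌋₊, ((G.filter fun h => g h = q).card : ℝ) := by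
    rw [← h2, Finset.sum_const, Nat.card_Icc, nsmul_eq_mul]
    refine le_trans ?_ h
    gcongr
    simpa using Nat.floor_le h0
  obtain ⟨q, hq, h4⟩ := Finset.exists_le_of_sum_le
    ⟨1, mem_Icc.2 ⟨le_rfl, Nat.le_floor (by simpa using hQ)⟩⟩ h3
  exact ⟨q, (mem_Icc.1 hq).1, (Nat.le_floor_iff h0).1 (mem_Icc.1 hq).2, h4⟩

/-- the statement for one index -/
def P (k A : ℕ) (i : Fin k) : Prop :=
  ∀ (N N' : ℕ) (H : ℝ) (x : TT k), 1 ≤ N → N' ≤ N → 2 ≤ H →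
    (∀ j, i < j → x j = 0) → N / H ≤ ‖S N' x‖ →
    ∃ q : ℕ, 1 ≤ q ∧ (q : ℝ) ≤ H ^ A ∧ ‖q • x i‖ ≤ H ^ A / (N : ℝ) ^ (i.val + 1)

lemma step (hV : St_VIN) {m A : ℕ} (hm : m + 1 < k) (ih : P k A ⟨m, by omega⟩) :
    P k ((10 * A + 14) * (m + 2)) ⟨m + 1, hm⟩ := by
  intro N N' H x hN hN' hH hx hS
  have hN0 : (0 : ℝ) < N := by exact_mod_cast hN
  have hN1 : (1 : ℝ) ≤ N := by exact_mod_cast hN
  have hH0 : 0 < H := by linarith
  have hH1 : 1 ≤ H := by linarith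
  have hp : ∀ n : ℕ, (2 : ℝ) ^ n ≤ H ^ n := fun n => by gcongr
  have hmono : ∀ a b : ℕ, a ≤ b → H ^ a ≤ H ^ b := fun a b hab => pow_le_pow_right₀ hH1 hab
  by_cases hB : (N : ℝ) ≤ H ^ (10 * A + 14)
  · refine ⟨1, le_rfl, by simpa using one_le_pow₀ hH1, ?_⟩
    refine (norm_le_half _).trans (le_trans (by norm_num : (1 : ℝ) / 2 ≤ 1) ?_)
    rw [le_div_iff₀ (by positivity), one_mul, pow_mul]
    gcongr
  rw [not_le] at hB
  have h3 : (8 : ℝ) ≤ H ^ 3 := le_trans (by norm_num) (hp 3)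
  have h8 : 8 * H ^ 2 ≤ H ^ 5 := by
    rw [show H ^ 5 = H ^ 3 * H ^ 2 by ring]; gcongr
  have h2 : 2 * H ^ 2 ≤ N := by
    have := hmono 5 (10 * A + 14) (by omega)
    have := sq_nonneg H
    linarith
  have hG := many hN hN' hH h2 hS
  set G := (Icc 1 N').filter fun h : ℕ => N / (8 * H ^ 2) ≤ ‖S (N' - h) (U (h : ℤ) x - x)‖
  have h5 : (2 : ℝ) ≤ H ^ 5 := le_trans (by norm_num) (hp 5)
  have key : ∀ h : ℕ, ∃ q : ℕ, h ∈ G → 1 ≤ q ∧ (q : ℝ) ≤ H ^ (5 * A) ∧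
      ‖q • (((m + 2) * h) • x ⟨m + 1, hm⟩)‖ ≤ H ^ (5 * A) / (N : ℝ) ^ (m + 1) := by
    intro h
    by_cases hh : h ∈ G
    · obtain ⟨q, hq⟩ := ih N (N' - h) (H ^ 5) (U (h : ℤ) x - x) hN (by omega) h5
        (fun j hj => by
          rw [Pi.sub_apply, U_top hx (Fin.le_def.2 (by simpa using Fin.lt_def.1 hj)), sub_self])
        (le_trans (by gcongr) (mem_filter.1 hh).2)
      rw [U_prev hm hx, ← pow_mul] at hq
      exact ⟨q, fun _ => hq⟩
    · exact ⟨0, fun h => absurd h hh⟩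
  choose g hg using key
  set η : ℝ := 1 / H ^ (5 * A + 5) with hη
  have hη0 : 0 < η := by positivity
  obtain ⟨q, hq1, hq2, hq3⟩ := pigeon (G := G) (g := g) (Q := H ^ (5 * A)) (c := η * N)
    (one_le_pow₀ hH1) (by positivity) (fun h hh => ⟨(hg h hh).1, (hg h hh).2.1⟩) (by
      refine le_trans ?_ hG
      rw [show H ^ (5 * A) * (η * N) = N / H ^ 5 by rw [hη]; field_simp; ring]
      gcongr)
  have hNm : (N : ℝ) ≤ (N : ℝ) ^ (m + 1) := le_self_pow₀ hN1 (by omega)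
  obtain ⟨q', h1', h2', h3'⟩ := hV ((q * (m + 2)) • x ⟨m + 1, hm⟩) N η
    (H ^ (5 * A) / (N : ℝ) ^ (m + 1)) hη0
    (by rw [hη, div_le_one (by positivity)]; exact one_le_pow₀ hH1) (by positivity)
    (by
      rw [hη, ← mul_div_assoc, div_le_div_iff₀ (by positivity) (by positivity), one_mul]
      have e1 : (32 : ℝ) ≤ H ^ 5 := le_trans (by norm_num) (hp 5)
      calc 32 * H ^ (5 * A) * H ^ (5 * A + 5) ≤ H ^ 5 * H ^ (5 * A) * H ^ (5 * A + 5) := by gcongr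
        _ = H ^ (10 * A + 10) := by ring
        _ ≤ H ^ (10 * A + 14) := hmono _ _ (by omega)
        _ ≤ _ := hB.le.trans hNm)
    (by
      rw [hη, div_pow, one_pow, div_mul_eq_mul_div, one_mul, le_div_iff₀ (by positivity)]
      have e1 : (16 : ℝ) ≤ H ^ 4 := le_trans (by norm_num) (hp 4)
      calc 16 * (H ^ (5 * A + 5)) ^ 2 ≤ H ^ 4 * (H ^ (5 * A + 5)) ^ 2 := by gcongr
        _ = H ^ (10 * A + 14) := by ring
        _ ≤ _ := hB.le)
    (by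
      refine hq3.trans ?_
      gcongr with
      intro h hh
      obtain ⟨hh1, hh2⟩ := mem_filter.1 hh
      have hh3 := mem_Icc.1 (mem_filter.1 hh1).1
      refine mem_filter.2 ⟨mem_Icc.2 ⟨hh3.1, hh3.2.trans hN'⟩, ?_⟩
      have := (hg h hh1).2.2
      rw [hh2, ← mul_smul] at this
      rw [← mul_smul, show h * (q * (m + 2)) = q * ((m + 2) * h) by ring]
      exact this)
  refine ⟨q' * (q * (m + 2)), Nat.mul_pos h1' (Nat.mul_pos hq1 (by omega)), ?_, ?_⟩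
  · have e1 : ((m + 2 : ℕ) : ℝ) ≤ H ^ (m + 2) :=
      le_trans (by exact_mod_cast (Nat.lt_two_pow_self).le) (hp (m + 2))
    have e2 : (q' : ℝ) ≤ H * H ^ (5 * A + 5) := by
      refine h2'.trans ?_
      rw [hη, div_div_eq_mul_div, div_one]
      gcongr
    rw [Nat.cast_mul, Nat.cast_mul]
    calc (q' : ℝ) * (q * ((m + 2 : ℕ) : ℝ)) ≤
          H * H ^ (5 * A + 5) * (H ^ (5 * A) * H ^ (m + 2)) := by gcongr
      _ = H ^ (10 * A + 8 + m) := by ring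
      _ ≤ _ := hmono _ _ (by nlinarith)
  · rw [mul_smul]
    refine h3'.trans ?_
    have e1 : (16 : ℝ) ≤ H ^ 4 := le_trans (by norm_num) (hp 4)
    rw [show 16 * (H ^ (5 * A) / (N : ℝ) ^ (m + 1)) / (η ^ 2 * N) =
      16 * H ^ (15 * A + 10) / (N : ℝ) ^ (m + 1 + 1) by rw [hη]; field_simp; ring]
    gcongr
    calc 16 * H ^ (15 * A + 10) ≤ H ^ 4 * H ^ (15 * A + 10) := by gcongr
      _ = H ^ (15 * A + 14) := by ring
      _ ≤ _ := hmono _ _ (by nlinarith)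

end LEAD

theorem blk_LEAD (_hK : St_KER) (hV : St_VIN) : St_LEAD := by
  intro k i
  obtain ⟨m, hm⟩ := i
  induction m with
  | zero =>
    refine ⟨1, fun N N' H x hN _ hH hx hS => ⟨1, le_rfl, by simpa using by linarith, ?_⟩⟩
    simpa using LEAD.base hm hN hH hx hS
  | succ m ih =>
    obtain ⟨A, hA⟩ := ih (by omega)
    exact ⟨_, LEAD.step hV hm hA⟩

end Pool.Agent.Lib.WC
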