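import Pool.Agent.Lib.WC.Blue

/-! Block LEV: the wide arcs off the major arcs. -/

namespace Pool.Agent.Lib.WC

open MeasureTheory

theorem blk_LEV (hY : St_YS) (hI : St_INV) : St_LEV := by
  intro k hk
  obtain ⟨AY, C, hAY, hC, hY⟩ := hY k hk
  obtain ⟨AI, hAI, hI⟩ := hI k
  refine ⟨2 * AY * AI, C, Nat.mul_pos (by omega) hAI, hC, fun N H p hN hH hp => ?_⟩
  have hN0 : (0 : ℝ) < N := by exact_mod_cast hN
  have hH1 : 1 ≤ H := by linarith
  have hH' : 2 ≤ H ^ (2 * AY) := hH.trans (le_self_pow₀ hH1 (by omega))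
  set e : ℝ := p - ((k ^ 2 + 1 : ℕ) : ℝ) with he
  have he1 : 1 / 2 ≤ e := by rw [he]; push_cast; linarith
  have hp0 : 0 ≤ p := by have := sq_nonneg (k : ℝ); linarith
  have hc : Continuous fun x : TT k => ‖S N x‖ ^ (k ^ 2 + 1) := by fun_prop
  have hc' : Continuous fun x : TT k => ‖S N x‖ ^ p :=
    (Real.continuous_rpow_const hp0).comp (by fun_prop)
  have h1 : ∫ x in Mj k 1 N H \ Mj k 0 N (H ^ (2 * AY * AI)), ‖S N x‖ ^ p ≤
      ∫ x in Mj k 1 N H \ Mj k 0 N (H ^ (2 * AY * AI)),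
        (N / H ^ (2 * AY)) ^ e * ‖S N x‖ ^ (k ^ 2 + 1) := by
    refine setIntegral_mono_on (cint hc') (cint (continuous_const.mul hc))
      ((measurableSet_Mj _ _ _).diff (measurableSet_Mj _ _ _)) fun x hx => ?_
    have h2 : ‖S N x‖ ≤ N / H ^ (2 * AY) := by
      by_contra h
      exact hx.2 (by rw [pow_mul]; exact hI N N _ x hN le_rfl hH' (not_le.1 h).le)
    rw [show p = e + ((k ^ 2 + 1 : ℕ) : ℝ) by rw [he]; ring,
      Real.rpow_add_of_nonneg (norm_nonneg _) (by linarith) (by positivity), Real.rpow_natCast]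
    exact mul_le_mul_of_nonneg_right (Real.rpow_le_rpow (norm_nonneg _) h2 (by linarith))
      (by positivity)
  have h3 : ∫ x in Mj k 1 N H \ Mj k 0 N (H ^ (2 * AY * AI)), ‖S N x‖ ^ (k ^ 2 + 1) ≤
      ∫ x in Mj k 1 N H, ‖S N x‖ ^ (k ^ 2 + 1) :=
    setIntegral_mono_set (cint hc) (Filter.Eventually.of_forall fun x => by positivity)
      Set.sdiff_subset.eventuallyLE
  have h4 : H ^ AY ≤ (H ^ (2 * AY)) ^ e := by
    calc H ^ AY = (H ^ (2 * AY)) ^ (1 / 2 : ℝ) := by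
          rw [mul_comm, pow_mul, ← Real.sqrt_eq_rpow, Real.sqrt_sq (by positivity)]
      _ ≤ _ := Real.rpow_le_rpow_of_exponent_le (by linarith) he1
  have h5 : (N : ℝ) ^ (p - sd k) = (N : ℝ) ^ e * (N : ℝ) ^ (k ^ 2 + 1) / (N : ℝ) ^ sd k := by
    rw [Real.rpow_sub hN0, Real.rpow_natCast, show p = e + ((k ^ 2 + 1 : ℕ) : ℝ) by rw [he]; ring,
      Real.rpow_add hN0, Real.rpow_natCast]
  rw [integral_const_mul] at h1
  calc _ ≤ (N / H ^ (2 * AY)) ^ e * (C * H ^ AY * (N : ℝ) ^ (k ^ 2 + 1) / (N : ℝ) ^ sd k) :=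
        h1.trans (mul_le_mul_of_nonneg_left (h3.trans (hY N H hN hH)) (by positivity))
    _ ≤ (N / H ^ (2 * AY)) ^ e *
        (C * (H ^ (2 * AY)) ^ e * (N : ℝ) ^ (k ^ 2 + 1) / (N : ℝ) ^ sd k) := by gcongr
    _ = _ := by
      rw [h5, Real.div_rpow hN0.le (by positivity)]
      field_simp

end Pool.Agent.Lib.WC
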