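import Pool.Agent.Lib.WC.Blue

/-! The mean value of Weyl sums near the origin. -/

namespace Pool.Agent.Lib.WC

open MeasureTheory Polynomial Finset

theorem blk_LP (hK : St_KER) (h : St_KL) : St_LP := by
  intro k hk
  obtain ⟨C, hC, h⟩ := h k hk
  have hk' : (1 : ℝ) ≤ k := by exact_mod_cast hk
  obtain ⟨b, hb⟩ : ∃ b : ℝ, b = 1 + 1 / (k : ℝ) ^ 2 := ⟨_, rfl⟩
  have hb1 : 1 < b := by rw [hb]; exact lt_add_of_pos_right _ (by positivity)
  have hb2 : 2 / (b - 1) = 2 * (k : ℝ) ^ 2 := by rw [hb]; field_simp; ring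
  have hp : ∀ a : ℝ, 0 ≤ a → ((a ^ k) ^ b) ^ k = a ^ (k ^ 2 + 1) := fun a ha => by
    rw [← Real.rpow_natCast a k, ← Real.rpow_mul ha, ← Real.rpow_mul_natCast ha,
      ← Real.rpow_natCast, hb]
    congr 1
    push_cast
    field_simp
  refine ⟨(C ^ b * (2 * k ^ 2)) ^ k, one_le_pow₀ (one_le_mul_of_one_le_of_one_le
    (Real.one_le_rpow hC (by linarith)) (by nlinarith)), fun N N₁ hN hN₁ => ?_⟩
  have hN' : (0 : ℝ) < N := by exact_mod_cast hN
  let g : Fin k → UnitAddCircle → ℝ := fun j z => (C * (N : ℝ) ^ k) ^ b / (N : ℝ) ^ (j.val + 1) *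
    ((N : ℝ) ^ (j.val + 1) / (1 + (N : ℝ) ^ (j.val + 1) * ‖z - 0‖) ^ b)
  have g0 : ∀ j z, 0 ≤ g j z := fun j z => by positivity
  have gc : Continuous fun x : TT k => ∏ j, g j (x j) :=
    continuous_finsetProd _ fun j _ => continuous_const.mul (continuous_const.div
      (Continuous.rpow_const (by fun_prop) fun x => Or.inl (by positivity)) fun x => by positivity)
  calc ∫ x in Zr k N, ‖S N₁ x‖ ^ (k ^ 2 + 1) ≤ ∫ x in Zr k N, ∏ j, g j (x j) := by
        refine setIntegral_mono_on (cint (by fun_prop)) (cint gc) (measurableSet_Zr N) fun x hx => ?_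
        rw [← hp _ (norm_nonneg _), ← Fin.prod_const]
        refine prod_le_prod (fun j _ => by positivity) fun j _ => ?_
        have h1 := Real.rpow_le_rpow (by positivity) (h N N₁ x hN hN₁ hx j) (by linarith : 0 ≤ b)
        rw [Real.mul_rpow (by positivity) (by positivity), ← le_div_iff₀ (by positivity)] at h1
        refine h1.trans_eq ?_
        simp only [g, sub_zero]
        field_simp
    _ ≤ ∫ x : TT k, ∏ j, g j (x j) := setIntegral_le_integral (cint gc)
        (Filter.Eventually.of_forall fun x => prod_nonneg fun j _ => g0 j _)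
    _ ≤ ∏ j : Fin k, (C * (N : ℝ) ^ k) ^ b / (N : ℝ) ^ (j.val + 1) * (2 * k ^ 2) := by
        rw [integral_fintype_prod_volume_eq_prod g]
        refine prod_le_prod (fun j _ => integral_nonneg (g0 j)) fun j _ => ?_
        rw [integral_const_mul, ← hb2]
        exact mul_le_mul_of_nonneg_left (hK.tail _ b 0 (by positivity) hb1) (by positivity)
    _ = _ := by
        rw [prod_mul_distrib, prod_div_distrib, prod_pow_eq_pow_sum, sum_eq_sd, Fin.prod_const,
          Fin.prod_const, Real.mul_rpow (by linarith) (by positivity), mul_pow, hp _ hN'.le, mul_pow]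
        ring

end Pool.Agent.Lib.WC
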