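import Pool.Agent.Lib.WC.Blue

/-! The major arcs inside a small cube. -/

namespace Pool.Agent.Lib.WC

open MeasureTheory

namespace MA

variable {k : ℕ}

lemma exists_rho {N : ℕ} {T : ℝ} {x : TT k} (h : x ∈ Mj k 0 N T) :
    ∃ (q : ℕ) (ρ : TT k), 1 ≤ q ∧ (q : ℝ) ≤ T ∧ q • ρ = 0 ∧ Ap 0 1 N T (x - ρ) := by
  obtain ⟨q, h1, h2, h3⟩ := h
  choose a _ ha using fun j => exists_tors h1 (x j)
  refine ⟨q, fun j => (((a j : ℝ) / q : ℝ) : UnitAddCircle), h1, h2,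
    funext fun j => nsmul_coe_div h1 (a j), fun j hj => ?_⟩
  rw [one_smul]
  exact (ha j).trans ((div_le_self (norm_nonneg _) (by exact_mod_cast h1)).trans (h3 j hj))

lemma ap_le {N : ℕ} {T : ℝ} {β : TT k} (h : Ap 0 1 N T β) (hT : 0 ≤ T) (hN : (1 : ℝ) ≤ N)
    (j : Fin k) : ‖β j‖ ≤ T / N := by
  have := h j (Nat.zero_le _)
  rw [one_smul, Nat.sub_zero] at this
  refine this.trans (div_le_div_of_nonneg_left hT (by linarith) ?_)
  exact le_self_pow₀ hN (Nat.succ_ne_zero _)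

lemma rho_eq {N q q' : ℕ} {T δ : ℝ} {ξ x x' ρ ρ' : TT k} (hT : 2 ≤ T) (hN : 8 * T ^ 3 ≤ N)
    (hδ : 0 < δ) (hδT : 4 * δ * T ^ 2 ≤ 1) (hx : x ∈ Metric.closedBall ξ δ)
    (hx' : x' ∈ Metric.closedBall ξ δ) (hq : 1 ≤ q) (hq' : 1 ≤ q') (hqT : (q : ℝ) ≤ T)
    (hqT' : (q' : ℝ) ≤ T) (h0 : q • ρ = 0) (h0' : q' • ρ' = 0) (h : Ap 0 1 N T (x - ρ))
    (h' : Ap 0 1 N T (x' - ρ')) : ρ = ρ' := by
  have hT0 : 0 < T := by linarith
  have hT3 : 8 ≤ T ^ 3 := by
    have := pow_le_pow_left₀ (by norm_num : (0 : ℝ) ≤ 2) hT 3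
    linarith
  have hN1 : (1 : ℝ) ≤ N := by linarith
  funext j
  rw [← sub_eq_zero]
  refine eq_zero_of_tors (q := q * q') ?_ ?_ (Nat.mul_pos hq hq')
  · have e1 : q • ρ j = 0 := congrFun h0 j
    have e2 : q' • ρ' j = 0 := congrFun h0' j
    rw [smul_sub, mul_smul q q' (ρ' j), e2, mul_comm, mul_smul, e1]; simp
  · have a1 := ap_le h hT0.le hN1 j
    have a2 := ap_le h' hT0.le hN1 j
    have a3 := (mem_ball_iff hδ.le).1 hx j
    have a4 := (mem_ball_iff hδ.le).1 hx' j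
    have e : ρ j - ρ' j = (x' - ρ') j - (x - ρ) j + ((x j - ξ j) - (x' j - ξ j)) := by
      simp only [Pi.sub_apply]; abel
    have a5 : ‖ρ j - ρ' j‖ ≤ 2 * (T / N) + 2 * δ := by
      rw [e]
      refine (norm_add_le _ _).trans ?_
      have := norm_sub_le ((x' - ρ') j) ((x - ρ) j)
      have := norm_sub_le (x j - ξ j) (x' j - ξ j)
      linarith
    have a6 : ((q * q' : ℕ) : ℝ) ≤ T ^ 2 := by
      push_cast; rw [sq]; exact mul_le_mul hqT hqT' (Nat.cast_nonneg _) hT0.le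
    have a7 : T ^ 2 * (T / N) ≤ 1 / 8 := by
      rw [← mul_div_assoc, div_le_div_iff₀ (by linarith) (by norm_num)]
      nlinarith
    calc ((q * q' : ℕ) : ℝ) * ‖ρ j - ρ' j‖ ≤ T ^ 2 * (2 * (T / N) + 2 * δ) :=
          mul_le_mul a6 a5 (norm_nonneg _) (by positivity)
      _ < 1 := by nlinarith

lemma box_sub {N : ℕ} {T : ℝ} (hN : 8 ^ k * T ≤ N) (hN1 : (1 : ℝ) ≤ N) :
    {β : TT k | Ap 0 1 N T β} ⊆ Zr k N := fun β h j hj => by
  refine (h j (Nat.zero_le _)).trans ?_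
  rw [Nat.sub_zero, Nat.add_sub_cancel, pow_succ, mul_comm, ← div_div]
  refine div_le_div_of_nonneg_right ?_ (by positivity)
  rw [div_le_div_iff₀ (by linarith) (by positivity)]
  linarith

end MA

theorem blk_MA (hL : St_LP) (h0 : St_MA0) : St_MA := by
  intro k hk
  obtain ⟨CL, hCL, hL⟩ := hL k hk
  obtain ⟨C0, hC0, h0⟩ := h0 k
  set p := k ^ 2 + 1 with hp
  have h2p : (1 : ℝ) ≤ 2 ^ (p - 1) := one_le_pow₀ (by norm_num)
  refine ⟨3 * k + 6, 2 ^ (p - 1) * (CL + (2 * C0) ^ p * 2 ^ k), ?_, ?_⟩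
  · exact one_le_mul_of_one_le_of_one_le h2p (le_add_of_le_of_nonneg hCL (by positivity))
  intro N T δ ξ hT hN hδ hδT
  have hT0 : 0 < T := by linarith
  have hT1 : 1 ≤ T := by linarith
  have hT3 : 8 ≤ T ^ 3 := by
    have := pow_le_pow_left₀ (by norm_num : (0 : ℝ) ≤ 2) hT 3
    linarith
  have hN8 : 8 * T ^ 3 ≤ N := by
    refine le_trans ?_ hN
    calc 8 * T ^ 3 ≤ T ^ 3 * T ^ 3 := by gcongr
      _ = T ^ 6 := by ring
      _ ≤ _ := pow_le_pow_right₀ hT1 (by omega)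
  have hNk : 8 ^ k * T ≤ N := by
    refine le_trans ?_ hN
    calc 8 ^ k * T ≤ (T ^ 3) ^ k * T := by gcongr
      _ = T ^ (3 * k + 1) := by ring
      _ ≤ _ := pow_le_pow_right₀ hT1 (by omega)
  have hN1 : (1 : ℝ) ≤ N := by linarith
  rcases (Metric.closedBall ξ δ ∩ Mj k 0 N T).eq_empty_or_nonempty with he | ⟨x0, hx0, hx0'⟩
  · rw [he, Measure.restrict_empty, integral_zero_measure]; positivity
  obtain ⟨q0, ρ0, hq0, hq0T, hρ0, hA0⟩ := MA.exists_rho hx0'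
  set Bx := {β : TT k | Ap 0 1 N T β} with hBx
  have hBm : MeasurableSet Bx := (isClosed_Ap _ _ _ _).measurableSet
  have hsub : Metric.closedBall ξ δ ∩ Mj k 0 N T ⊆ (fun x => x - ρ0) ⁻¹' Bx := by
    rintro x ⟨hx, hx'⟩
    obtain ⟨q, ρ, hq, hqT, hρ, hA⟩ := MA.exists_rho hx'
    rw [MA.rho_eq hT hN8 hδ hδT hx hx0 hq hq0 hqT hq0T hρ hρ0 hA hA0] at hA
    exact hA
  have hc : Continuous fun β : TT k => ‖S N (ρ0 + β)‖ ^ p := by fun_prop
  have hc' : Continuous fun β : TT k => ‖S N β‖ ^ p := by fun_prop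
  have hvol : volume.real Bx ≤ T * (2 * T) ^ k / (N : ℝ) ^ sd k :=
    (measureReal_mono (show Bx ⊆ Mj k 0 N T from
      fun β h => ⟨1, le_rfl, by simpa using hT1, h⟩)).trans (vol_Mj hT0.le)
  have hpow : (2 * C0 * T ^ 2) ^ p * (T * (2 * T) ^ k) ≤ (2 * C0) ^ p * 2 ^ k * (N : ℝ) ^ p := by
    have h1 : T ^ (2 * p + 1 + k) ≤ (N : ℝ) ^ p := by
      calc T ^ (2 * p + 1 + k) ≤ T ^ (3 * p) :=
            pow_le_pow_right₀ hT1 (by rw [hp]; nlinarith)
        _ = (T ^ 3) ^ p := by ring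
        _ ≤ _ := pow_le_pow_left₀ (by positivity) (by linarith) p
    calc _ = (2 * C0) ^ p * 2 ^ k * T ^ (2 * p + 1 + k) := by ring
      _ ≤ _ := by gcongr
  calc ∫ x in Metric.closedBall ξ δ ∩ Mj k 0 N T, ‖S N x‖ ^ p
      ≤ ∫ x in (fun x => x - ρ0) ⁻¹' Bx, ‖S N x‖ ^ p :=
        setIntegral_mono_set (cint hc') (Filter.Eventually.of_forall fun _ => by positivity)
          hsub.eventuallyLE
    _ = ∫ β in Bx, ‖S N (ρ0 + β)‖ ^ p := by
        rw [← setInt_mp (measurePreserving_sub_right volume ρ0) hBm hc.aestronglyMeasurable]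
        simp
    _ ≤ ∫ β in Bx, 2 ^ (p - 1) * (‖S N β‖ ^ p + (2 * C0 * T ^ 2) ^ p) := by
        refine setIntegral_mono_on (cint hc) (cint (by fun_prop)) hBm fun β hβ => ?_
        refine le_trans ?_ (add_pow_le (norm_nonneg _) (by positivity) p)
        refine pow_le_pow_left₀ (norm_nonneg _) ((h0 N q0 T ρ0 β (by exact_mod_cast hN1) hq0
          hT0.le hρ0 hβ).trans (add_le_add le_rfl ?_)) p
        calc C0 * q0 * (1 + T) ≤ C0 * T * (T + T) := by gcongr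
          _ = _ := by ring
    _ = 2 ^ (p - 1) * ((∫ β in Bx, ‖S N β‖ ^ p) + volume.real Bx * (2 * C0 * T ^ 2) ^ p) := by
        rw [integral_const_mul, integral_add (cint hc') (integrable_const _), setIntegral_const,
          smul_eq_mul]
    _ ≤ 2 ^ (p - 1) * (CL * (N : ℝ) ^ p / (N : ℝ) ^ sd k +
          (2 * C0) ^ p * 2 ^ k * (N : ℝ) ^ p / (N : ℝ) ^ sd k) := by
        refine mul_le_mul_of_nonneg_left (add_le_add ?_ ?_) (by positivity)
        · exact (setIntegral_mono_set (cint hc') (Filter.Eventually.of_forall fun _ => by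
            positivity) (MA.box_sub hNk hN1).eventuallyLE).trans
            (hL N N (by exact_mod_cast hN1) le_rfl)
        · refine (mul_le_mul_of_nonneg_right hvol (by positivity)).trans ?_
          rw [div_mul_eq_mul_div, mul_comm]
          exact div_le_div_of_nonneg_right hpow (by positivity)
    _ = _ := by ring

end Pool.Agent.Lib.WC
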