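import Pool.Agent.Lib.WC.Blue

/-! Block MA0: removing a rational point. -/

namespace Pool.Agent.Lib.WC

open Finset

namespace MA0

lemma abel (c b : ℕ → ℂ) (N : ℕ) : ∑ n ∈ range N, c n * b n =
    (∑ n ∈ range N, c n) * b N - ∑ n ∈ range N, (∑ i ∈ range (n + 1), c i) * (b (n + 1) - b n) := by
  induction N with
  | zero => simp
  | succ N ih => rw [sum_range_succ, ih, sum_range_succ _ N, sum_range_succ (fun n =>
      (∑ i ∈ range (n + 1), c i) * (b (n + 1) - b n)) N, sum_range_succ _ N]; ring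

lemma sum_bound {c : ℕ → ℂ} {q : ℕ} (hq : 1 ≤ q) (hp : ∀ n, c (n + q) = c n)
    (h0 : ∑ n ∈ range q, c n = 0) (hc : ∀ n, ‖c n‖ ≤ 2) (m : ℕ) :
    ‖∑ n ∈ range m, c n‖ ≤ 2 * q := by
  have hper : Function.Periodic (fun m => ∑ n ∈ range m, c n) q := fun m => by
    induction m with
    | zero => simpa using h0
    | succ m ih =>
      simp only at ih ⊢
      rw [show m + 1 + q = (m + q) + 1 by ring, sum_range_succ, sum_range_succ, ih, hp]
  have h1 := hper.map_mod_nat m
  rw [← h1]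
  refine (norm_sum_le _ _).trans ((sum_le_card_nsmul _ _ _ fun n _ => hc n).trans ?_)
  have : ((m % q : ℕ) : ℝ) ≤ q := by exact_mod_cast (Nat.mod_lt m hq).le
  rw [card_range, nsmul_eq_mul]
  linarith

lemma ph_per {k q : ℕ} {ρ : TT k} (h : q • ρ = 0) (n : ℤ) : ph ρ (n + q) = ph ρ n := by
  refine sum_congr rfl fun j _ => ?_
  obtain ⟨w, hw⟩ := sub_dvd_pow_sub_pow (n + q) n (j.val + 1)
  have h1 : (q : ℤ) • ρ j = 0 := by rw [natCast_zsmul]; exact congrFun h j
  rw [eq_add_of_sub_eq hw, add_sub_cancel_left, add_smul, mul_comm, mul_smul, h1, smul_zero,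
    zero_add]

lemma step {k N : ℕ} {T : ℝ} {β : TT k} (hN : 1 ≤ N) (hT : 0 ≤ T) (h : Ap 0 1 N T β) {n : ℕ}
    (hn : n < N) : ‖ee (ph β (((n + 1 : ℕ) : ℤ) + 1)) - ee (ph β ((n : ℤ) + 1))‖ ≤
      2 * Real.pi * (k * (4 ^ k * T / N)) := by
  refine (norm_ee_sub_le _ _).trans (mul_le_mul_of_nonneg_left ?_ (by positivity))
  have h1 := h.shear hT hN (t := (n : ℤ) + 1) (by rw [abs_of_nonneg (by positivity)]; omega)
  rw [Nat.cast_succ, add_comm _ (1 : ℤ), ph_U, add_sub_cancel_left, ph]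
  refine (norm_sum_le _ _).trans ((sum_le_card_nsmul _ _ (4 ^ k * T / N) fun j _ => ?_).trans
    (by simp))
  have h2 := h1 j (Nat.zero_le _)
  rw [one_smul, Nat.sub_zero] at h2
  rw [one_pow, one_smul]
  have h3 : (1 : ℝ) ≤ N := by exact_mod_cast hN
  exact h2.trans (div_le_div_of_nonneg_left (by positivity) (by positivity)
    (le_self_pow₀ h3 (by omega)))

end MA0

theorem blk_MA0 : St_MA0 := by
  intro k
  have hpi := Real.pi_pos
  have hE : 0 ≤ 2 * Real.pi * (k * 4 ^ k) := by positivity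
  refine ⟨2 + 2 * (2 * Real.pi * (k * 4 ^ k)), by linarith, ?_⟩
  intro N q T ρ β hN hq hT hρ hβ
  set a : ℕ → ℂ := fun n => ee (ph ρ ((n : ℤ) + 1)) with ha
  set b : ℕ → ℂ := fun n => ee (ph β ((n : ℤ) + 1)) with hb
  set μ : ℂ := (∑ n ∈ range q, a n) / q with hμ
  have hq0 : (0 : ℝ) < q := by exact_mod_cast hq
  have hN0 : (0 : ℝ) < N := by exact_mod_cast hN
  have hqc : (q : ℂ) ≠ 0 := Nat.cast_ne_zero.2 (by omega)
  have hμ1 : ‖μ‖ ≤ 1 := by
    rw [hμ, norm_div, Complex.norm_natCast, div_le_one hq0]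
    exact (norm_sum_le _ _).trans (by simp [ha])
  have hA := MA0.sum_bound (c := fun n => a n - μ) hq (fun n => by
      simp only [ha]
      rw [Nat.cast_add, add_right_comm, MA0.ph_per hρ]) (by
      rw [sum_sub_distrib, sum_const, card_range, nsmul_eq_mul, hμ, mul_div_cancel₀ _ hqc,
        sub_self]) fun n => (norm_sub_le _ _).trans (by simp only [ha, norm_ee]; linarith)
  have e : S N (ρ + β) = μ * S N β + ∑ n ∈ range N, (a n - μ) * b n := by
    simp only [S, ph_add, ee_add, mul_sum, ← sum_add_distrib]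
    exact sum_congr rfl fun n _ => by simp only [ha, hb]; ring
  have h1 : ‖∑ n ∈ range N, (a n - μ) * b n‖ ≤
      2 * q + N * (2 * q * (2 * Real.pi * (k * (4 ^ k * T / N)))) := by
    rw [MA0.abel]
    refine (norm_sub_le _ _).trans (add_le_add ?_ ?_)
    · rw [norm_mul, hb, norm_ee, mul_one]
      exact hA N
    · refine (norm_sum_le _ _).trans ((sum_le_card_nsmul _ _
        (2 * q * (2 * Real.pi * (k * (4 ^ k * T / N)))) fun n hn => ?_).trans (by simp))
      rw [norm_mul]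
      exact mul_le_mul (hA _) (MA0.step hN hT hβ (mem_range.1 hn)) (norm_nonneg _) (by positivity)
  have h2 : (N : ℝ) * (2 * q * (2 * Real.pi * (k * (4 ^ k * T / N)))) =
      2 * (2 * Real.pi * (k * 4 ^ k)) * q * T := by field_simp
  rw [e]
  refine (norm_add_le _ _).trans (add_le_add ?_ (h1.trans ?_))
  · rw [norm_mul]
    exact mul_le_of_le_one_left (norm_nonneg _) hμ1
  · rw [h2]
    nlinarith [mul_nonneg hE hq0.le, mul_nonneg hq0.le hT]

end Pool.Agent.Lib.WC
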