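import Pool.Agent.Lib.WC.Blue

/-! Block SIG: the smoothed square function off the wide arcs. -/

namespace Pool.Agent.Lib.WC

open MeasureTheory Finset

namespace SIG

variable {k : ℕ}

lemma phase (M : ℕ) (y z : TT k) (j m : ℤ) :
    ph (U (j * M) y + z) (m + 1) = ph y (m + 1 - M) + ph z (m + 1) - ph y (j * M) +
      ph (Dl M (U (m + 1 - M) y)) (j + 1) := by
  have h1 := ph_U y (m + 1) (j * M)
  have h2 := ph_U y (M * (j + 1)) (m + 1 - M)
  rw [show (M * (j + 1) + (m + 1 - M) : ℤ) = m + 1 + j * M by ring, h1, ← ph_Dl] at h2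
  rw [ph_add, eq_sub_of_add_eq' h2]
  abel

lemma sum_sq_le (M n : ℕ) (y z : TT k) :
    ∑ j ∈ range n, ‖S M (U ((j : ℤ) * M) y + z)‖ ^ 2 ≤ ∑ m ∈ range M, ∑ m' ∈ range M,
      ‖S n (Dl M (U ((m : ℤ) + 1 - M) y - U ((m' : ℤ) + 1 - M) y))‖ := by
  have h : ((∑ j ∈ range n, ‖S M (U ((j : ℤ) * M) y + z)‖ ^ 2 : ℝ) : ℂ) =
      ∑ m ∈ range M, ∑ m' ∈ range M,
        ee (ph y ((m : ℤ) + 1 - M) + ph z (m + 1) - (ph y ((m' : ℤ) + 1 - M) + ph z (m' + 1))) *
          S n (Dl M (U ((m : ℤ) + 1 - M) y - U ((m' : ℤ) + 1 - M) y)) := by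
    push_cast
    simp only [← Complex.mul_conj', S, map_sum, sum_mul_sum, ← ee_sub]
    simp only [mul_sum, ← ee_add]
    rw [sum_comm]
    refine sum_congr rfl fun m _ => ?_
    rw [sum_comm]
    refine sum_congr rfl fun m' _ => sum_congr rfl fun j _ => ?_
    rw [phase, phase, map_sub, ph_sub]
    congr 1
    abel
  have h2 := congrArg norm h
  rw [Complex.norm_real, Real.norm_of_nonneg (by positivity)] at h2
  rw [h2]
  refine (norm_sum_le _ _).trans (sum_le_sum fun m _ => (norm_sum_le _ _).trans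
    (sum_le_sum fun m' _ => ?_))
  rw [norm_mul, norm_ee, one_mul]

lemma ap_of {M n q A : ℕ} (hM : 2 ≤ M) (hn : 1 ≤ n) {w : TT k}
    (h : Ap 0 q n ((M : ℝ) ^ A) (Dl M w)) : Ap 0 (q * M ^ k) (n * M) ((M : ℝ) ^ (A + 2 * k)) w := by
  intro j hj
  have h1 := h j hj
  have hM1 : (1 : ℝ) ≤ M := by exact_mod_cast (by omega : 1 ≤ M)
  have hn0 : (0 : ℝ) < n := by exact_mod_cast hn
  have hjk := j.2
  have e : (q * M ^ k) • w j = M ^ (k - (j.val + 1)) • q • Dl M w j := by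
    rw [Dl_apply, smul_smul, smul_smul]
    congr 1
    rw [mul_comm _ q, mul_assoc, ← pow_add, Nat.sub_add_cancel (by omega)]
  rw [e]
  refine (norm_nsmul_le' _ _).trans ?_
  simp only [Nat.sub_zero] at h1 ⊢
  push_cast
  calc (M : ℝ) ^ (k - (j.val + 1)) * ‖q • Dl M w j‖
      ≤ (M : ℝ) ^ k * ((M : ℝ) ^ A / (n : ℝ) ^ (j.val + 1)) := by
        gcongr
        omega
    _ = (M : ℝ) ^ (A + k) * (M : ℝ) ^ (j.val + 1) / ((n : ℝ) * M) ^ (j.val + 1) := by
        rw [mul_pow, pow_add (M : ℝ) A k]; field_simp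
    _ ≤ (M : ℝ) ^ (A + k) * (M : ℝ) ^ k / ((n : ℝ) * M) ^ (j.val + 1) := by
        gcongr
        omega
    _ = _ := by rw [← pow_add, add_assoc, two_mul]

lemma off (hI : St_INV) (hT : St_TRI) (k : ℕ) : ∃ A : ℕ, ∀ (M n : ℕ) (y : TT k), 2 ≤ M → 1 ≤ n →
    y ∉ Mj k 1 (n * M) ((M : ℝ) ^ A) → ∀ m ∈ range M, ∀ m' ∈ range M, m ≠ m' →
      ‖S n (Dl M (U ((m : ℤ) + 1 - M) y - U ((m' : ℤ) + 1 - M) y))‖ ≤ n / M := by
  obtain ⟨A1, hA1, h1⟩ := hI k
  obtain ⟨A2, h2⟩ := hT k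
  refine ⟨2 * k + (A1 + 2 * k) * A2, fun M n y hM hn hy m hm m' hm' hne => ?_⟩
  by_contra hlt
  have hM2 : (2 : ℝ) ≤ M := by exact_mod_cast hM
  have hM1 : (1 : ℝ) ≤ M := by linarith
  obtain ⟨q, q1, q2, q3⟩ := h1 n n M _ hn le_rfl hM2 (not_le.1 hlt).le
  have hH : (M : ℝ) ≤ (M : ℝ) ^ (A1 + 2 * k) := le_self_pow₀ hM1 (by omega)
  rw [mem_range] at hm hm'
  have hnM : M ≤ n * M := Nat.le_mul_of_pos_left M hn
  have h3 := h2 (n * M) (q * M ^ k) ((M : ℝ) ^ (A1 + 2 * k)) ((m : ℤ) - m')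
    (U ((m' : ℤ) + 1 - M) y) (by omega) (hM2.trans hH) (by omega)
    (by
      refine le_trans ?_ hH
      have : |(m : ℤ) - m'| ≤ M := abs_le.2 ⟨by omega, by omega⟩
      exact_mod_cast this)
    (Nat.mul_pos q1 (by positivity))
    (by
      push_cast
      calc (q : ℝ) * (M : ℝ) ^ k ≤ (M : ℝ) ^ A1 * (M : ℝ) ^ (2 * k) := by
            gcongr
            omega
        _ = _ := (pow_add _ _ _).symm)
    (by
      rw [U_U, show (m : ℤ) - m' + (m' + 1 - M) = m + 1 - M by ring]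
      exact ap_of hM hn q3)
  have h4 := Mj_shear h3 (by omega) (t := -((m' : ℤ) + 1 - M)) (abs_le.2 ⟨by omega, by omega⟩)
  rw [U_neg_U] at h4
  refine hy (Mj_mono ?_ h4)
  rw [pow_add (M : ℝ) (2 * k), pow_mul (M : ℝ) (A1 + 2 * k), pow_mul (M : ℝ) 2 k]
  gcongr
  nlinarith

end SIG

open SIG in
theorem blk_SIG (hK : St_KER) (hI : St_INV) (hT : St_TRI) : St_SIG := by
  intro k
  obtain ⟨A, hA⟩ := off hI hT k
  refine ⟨A, 1 + 2 ^ k * 2, le_add_of_nonneg_right (by positivity), fun M n y hM hn hy => ?_⟩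
  have hM0 : (0 : ℝ) < M := by exact_mod_cast (by omega : 0 < M)
  have hb : ∀ z, ∑ j ∈ range n, ‖S M (U ((j : ℤ) * M) y + z)‖ ^ 2 ≤ 2 * (n * M) := fun z => by
    refine (sum_sq_le M n y z).trans ((sum_le_card_nsmul _ _ (2 * n : ℝ) fun m hm => ?_).trans
      (le_of_eq (by simp; ring)))
    calc _ ≤ ∑ m' ∈ range M, ((if m = m' then (n : ℝ) else 0) + n / M) := by
          refine sum_le_sum fun m' hm' => ?_
          split_ifs with h
          · exact (norm_S_le _ _).trans (le_add_of_nonneg_right (by positivity))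
          · rw [zero_add]; exact hA M n y hM hn hy m hm m' hm' h
      _ = 2 * n := by
          rw [sum_add_distrib, sum_ite_eq, if_pos hm, sum_const, card_range, nsmul_eq_mul]
          field_simp; ring
  simp only [sig, sg, sum_add_distrib, sum_const, card_range, nsmul_eq_mul]
  rw [← integral_finsetSum _ fun j _ => cint (by fun_prop)]
  have h1 : ∫ z : TT k, ∑ j ∈ range n, Wk M z * ‖S M (U ((j : ℤ) * M) y + z)‖ ^ 2 ≤
      ∫ z : TT k, Wk M z * (2 * (n * M)) := by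
    refine integral_mono (cint (by fun_prop)) (cint (by fun_prop)) fun z => ?_
    simp only [← mul_sum]
    exact mul_le_mul_of_nonneg_left (hb z) (Wk_nonneg M z)
  rw [integral_mul_const] at h1
  have h2 := mul_le_mul_of_nonneg_right (hK.wk k M (by omega))
    (show (0 : ℝ) ≤ 2 * (n * M) by positivity)
  linarith

end Pool.Agent.Lib.WC
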