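import Pool.Agent.Lib.WC.Blue

/-! Block SPL: splitting a Weyl sum into short progressions. -/

namespace Pool.Agent.Lib.WC

open Finset

namespace SPL

lemma exists_len (N q L r i : ℕ) : ∃ n : ℕ, ∀ m, m < n ↔ m < L ∧ r + q * (L * i + m) < N := by
  have h : ∃ m, L ≤ m ∨ N ≤ r + q * (L * i + m) := ⟨L, Or.inl le_rfl⟩
  refine ⟨Nat.find h, fun m => (Nat.lt_find_iff h m).trans ⟨fun h1 => ?_, fun h1 j hj => ?_⟩⟩
  · have := h1 m le_rfl
    omega
  · have : q * (L * i + j) ≤ q * (L * i + m) := by gcongr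
    omega

lemma fibre {N q L r i n : ℕ} (hr : r < q) (hL : 1 ≤ L)
    (h : ∀ m, m < n ↔ m < L ∧ r + q * (L * i + m) < N) (a : ℕ → ℂ) :
    ∑ j ∈ range N with (j % q, j / q / L) = (r, i), a j =
      ∑ m ∈ range n, a (r + q * (L * i + m)) := by
  have hq : 0 < q := by omega
  have e1 : ∀ j, (j % q, j / q / L) = (r, i) → r + q * (L * i + j / q % L) = j := fun j hj => by
    obtain ⟨rfl, rfl⟩ := Prod.mk.inj hj
    rw [Nat.div_add_mod, Nat.mod_add_div]
  have e2 : ∀ m, (r + q * (L * i + m)) / q = L * i + m := fun m => by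
    rw [Nat.add_mul_div_left _ _ hq, Nat.div_eq_of_lt hr, zero_add]
  refine sum_nbij' (fun j => j / q % L) (fun m => r + q * (L * i + m)) (fun j hj => ?_)
    (fun m hm => ?_) (fun j hj => e1 j (mem_filter.1 hj).2) (fun m hm => ?_)
    fun j hj => by rw [e1 j (mem_filter.1 hj).2]
  · rw [mem_range, h, e1 j (mem_filter.1 hj).2]
    exact ⟨Nat.mod_lt _ hL, mem_range.1 (mem_filter.1 hj).1⟩
  · obtain ⟨h1, h2⟩ := (h m).1 (mem_range.1 hm)
    rw [mem_filter, mem_range, e2, Nat.add_mul_mod_self_left, Nat.mod_eq_of_lt hr,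
      Nat.mul_add_div hL, Nat.div_eq_of_lt h1]
    exact ⟨h2, rfl⟩
  · rw [e2, Nat.mul_add_mod, Nat.mod_eq_of_lt ((h m).1 (mem_range.1 hm)).1]

end SPL

open SPL in
theorem blk_SPL : St_SPL := by
  intro k N q L hq hqN hL
  choose len hlen using exists_len N q L
  refine ⟨range q ×ˢ range (N / (q * L) + 1), fun p => (q * L * p.2 : ℕ) + p.1 + 1 - q,
    fun p => len p.1 p.2, ?_, fun p hp => ⟨?_, ?_⟩, fun x => ?_⟩
  · have h1 : ((N / (q * L) : ℕ) : ℝ) ≤ N / (q * L : ℕ) := Nat.cast_div_le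
    have h2 : (0 : ℝ) < q := by exact_mod_cast hq
    rw [card_product, card_range, card_range]
    push_cast at h1 ⊢
    rw [← div_div, div_right_comm, le_div_iff₀ h2] at h1
    linarith
  · obtain ⟨h1, h2⟩ := mem_product.1 hp
    have h3 : q * L * p.2 ≤ N :=
      (Nat.mul_le_mul_left _ (Nat.lt_succ_iff.1 (mem_range.1 h2))).trans (Nat.mul_div_le _ _)
    rw [mem_range] at h1
    rw [abs_le]
    dsimp only
    omega
  · exact not_lt.1 fun h => lt_irrefl _ ((hlen p.1 p.2 L).1 h).1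
  · rw [S, ← sum_fiberwise_of_maps_to (t := range q ×ˢ range (N / (q * L) + 1))
      (g := fun j => (j % q, j / q / L)) fun j hj => ?_]
    · refine (norm_sum_le _ _).trans (sum_le_sum fun p hp => le_of_eq ?_)
      rw [fibre (mem_range.1 (mem_product.1 hp).1) hL (hlen p.1 p.2)]
      have : ∀ m : ℕ, ((p.1 + q * (L * p.2 + m) : ℕ) : ℤ) + 1 =
          q * (m + 1) + ((q * L * p.2 : ℕ) + p.1 + 1 - q) := fun m => by push_cast; ring
      simp only [this, ph_U, ← ph_Dl, ee_add, ← mul_sum, norm_mul, norm_ee, one_mul, S]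
    · rw [mem_product, mem_range, mem_range, Nat.div_div_eq_div_mul]
      exact ⟨Nat.mod_lt _ hq, Nat.lt_succ_of_le (Nat.div_le_div_right (mem_range.1 hj).le)⟩

end Pool.Agent.Lib.WC
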