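import Pool.Agent.Lib.WC.Blue

/-! Splitting the second family of the bilinear estimate. -/

namespace Pool.Agent.Lib.WC

open MeasureTheory Finset

namespace SPW

lemma cont_sum {m : ℕ} (I : Finset ℤ) (f : ℤ → TT m → ℂ) (h : ∀ i ∈ I, Continuous (f i)) :
    Continuous (∑ i ∈ I, f i) := by
  have : (∑ i ∈ I, f i) = fun x => ∑ i ∈ I, f i x := by
    ext x; rw [Finset.sum_apply]
  rw [this]
  exact continuous_finsetSum I h

end SPW

theorem blk_SPW : St_SPW := by
  intro k l κ n u P B hlk hu hP hn hB h m F c σ a b b' I I' f g h1 h2 h3 h4 h5 h6 h7 h8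
  have hs : 1 ≤ sd k - sd l := by
    have := sd_strictMono hlk
    omega
  have hsk : sd k - sd l ≤ sd k := Nat.sub_le _ _
  set s := sd k - sd l with hsdef
  set q : ℤ → ℤ := fun j => (j - a) / u with hq
  have hA : 0 ≤ ∑ i ∈ I, nn (sd k) (f i) := Finset.sum_nonneg fun _ _ => nn_nonneg _ _
  have hA' : 0 ≤ ∑ i ∈ I', nn (sd k) (g i) := Finset.sum_nonneg fun _ _ => nn_nonneg _ _
  set A := ∑ i ∈ I, nn (sd k) (f i) with hAdef
  have hT : 0 ≤ B ^ sd k * A ^ sd l := by positivity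
  set T := B ^ sd k * A ^ sd l with hTdef
  have hR : 0 ≤ T ^ ((s : ℝ)⁻¹) := Real.rpow_nonneg hT _
  have hRs : (T ^ ((s : ℝ)⁻¹)) ^ s = T := Real.rpow_inv_natCast_pow hT (by omega)
  have hfc : Continuous (∑ i ∈ I, f i) := SPW.cont_sum I f fun i hi => Sp_cont (h7 i hi)
  have key := weighted_sum_le (I'.image q) (w := fun x => ‖(∑ i ∈ I, f i) x‖ ^ (2 * sd l))
    (f := fun J => ∑ j ∈ I' with q j = J, g j)
    (β := fun J => T ^ ((s : ℝ)⁻¹) * ∑ j ∈ I' with q j = J, nn (sd k) (g j)) hs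
    (hfc.norm.pow _) (fun x => by positivity)
    (fun J _ => SPW.cont_sum _ g fun j hj => Sp_cont (h8 j (Finset.mem_filter.1 hj).1))
    (fun J _ => mul_nonneg hR (Finset.sum_nonneg fun _ _ => nn_nonneg _ _))
    (fun J _ => by
      rw [mul_pow, hRs]
      exact h m F c σ a b (a + J * u) I (I'.filter fun j => q j = J) f g h1 h2
        ((Finset.filter_subset _ _).trans h3) h4
        (fun j hj => (ediv_eq_iff hu).1 (Finset.mem_filter.1 hj).2)
        (fun i hi j hj => h6 i hi j (Finset.mem_filter.1 hj).1) h7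
        (fun j hj => h8 j (Finset.mem_filter.1 hj).1))
  rw [← sum_group I' q g, ← Finset.mul_sum, ← sum_group I' q fun j => nn (sd k) (g j)] at key
  refine key.trans ?_
  have hcard : (I'.image q).card ≤ P := by
    have hsub : I'.image q ⊆ Finset.Ico (0 : ℤ) P := by
      intro J hJ
      obtain ⟨j, hj, rfl⟩ := Finset.mem_image.1 hJ
      have hj' := Finset.mem_Ico.1 (h3 hj)
      have hu' : (0 : ℤ) < u := by exact_mod_cast hu
      have hn' : (n : ℤ) ≤ P * u := by exact_mod_cast hn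
      rw [Finset.mem_Ico]
      refine ⟨Int.ediv_nonneg (by omega) hu'.le, ?_⟩
      rw [hq]
      exact Int.ediv_lt_of_lt_mul hu' (by omega)
    simpa using Finset.card_le_card hsub
  have hcard' : ((I'.image q).card : ℝ) ≤ P := by exact_mod_cast hcard
  have hP' : (1 : ℝ) ≤ P := by exact_mod_cast hP
  rw [mul_pow, mul_pow, hRs, mul_pow, hTdef]
  have e1 : ((I'.image q).card : ℝ) ^ s ≤ (P : ℝ) ^ sd k :=
    (pow_le_pow_left₀ (Nat.cast_nonneg _) hcard' s).trans (pow_le_pow_right₀ hP' hsk)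
  calc ((I'.image q).card : ℝ) ^ s *
        (B ^ sd k * A ^ sd l * (∑ j ∈ I', nn (sd k) (g j)) ^ s)
      ≤ (P : ℝ) ^ sd k * (B ^ sd k * A ^ sd l * (∑ j ∈ I', nn (sd k) (g j)) ^ s) :=
        mul_le_mul_of_nonneg_right e1 (by positivity)
    _ = _ := by ring

end Pool.Agent.Lib.WC
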