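import Pool.Agent.Lib.WC.Blue

/-! Block SV: slow variation of the square function. -/

namespace Pool.Agent.Lib.WC

open MeasureTheory Finset

namespace SV

variable {k : ℕ}

lemma wt_sub {R : ℝ} (hR : 0 ≤ R) (z u : UnitAddCircle) :
    wt R (z - u) ≤ (1 + R * ‖u‖) ^ 2 * wt R z := by
  have h1 : ‖z‖ ≤ ‖z - u‖ + ‖u‖ := by simpa using norm_add_le (z - u) u
  have h2 : 1 + R * ‖z‖ ≤ (1 + R * ‖u‖) * (1 + R * ‖z - u‖) := by
    have := mul_le_mul_of_nonneg_left h1 hR
    have h3 : 0 ≤ R * ‖u‖ * (R * ‖z - u‖) := by positivity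
    nlinarith
  unfold wt
  rw [← mul_div_assoc, div_le_div_iff₀ (by positivity) (by positivity)]
  calc R * (1 + R * ‖z‖) ^ 2 ≤ R * ((1 + R * ‖u‖) * (1 + R * ‖z - u‖)) ^ 2 := by gcongr
    _ = _ := by ring

lemma one_add_sum {ι : Type*} (s : Finset ι) (a : ι → ℝ) (h : ∀ i, 0 ≤ a i) :
    1 + ∑ i ∈ s, a i ≤ ∏ i ∈ s, (1 + a i) := by
  classical
  induction s using Finset.induction_on with
  | empty => simp
  | insert i s hi ih =>
    rw [sum_insert hi, prod_insert hi]
    have h1 : 0 ≤ ∑ i ∈ s, a i := sum_nonneg fun i _ => h i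
    nlinarith [h i, mul_le_mul_of_nonneg_left ih (h i), mul_nonneg (h i) h1]

lemma coord {M L : ℕ} {t : ℤ} (hML : M ≤ L) (ht : |t| ≤ L) (v : TT k) (j : Fin k) :
    1 + (M : ℝ) ^ (j.val + 1) * ‖U t v j‖ ≤ 2 ^ k * Th M L v := by
  have ht' : |(t : ℝ)| ≤ L := by exact_mod_cast ht
  have hML' : (M : ℝ) ≤ L := by exact_mod_cast hML
  have h1 : (M : ℝ) ^ (j.val + 1) * ‖U t v j‖ ≤
      2 ^ k * ∑ l : Fin k, (M : ℝ) * (L : ℝ) ^ l.val * ‖v l‖ := by
    rw [U_apply, mul_sum]
    refine (mul_le_mul_of_nonneg_left (norm_sum_le _ _) (by positivity)).trans ?_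
    rw [mul_sum]
    refine sum_le_sum fun l _ => ?_
    refine (mul_le_mul_of_nonneg_left (norm_zsmul_le' _ _) (by positivity)).trans ?_
    by_cases hl : l.val < j.val
    · rw [Nat.choose_eq_zero_of_lt (by omega)]; simp; positivity
    · have h1 : (((l.val + 1).choose (j.val + 1) : ℕ) : ℝ) ≤ 2 ^ k := by
        have := (Nat.choose_le_two_pow (l.val + 1) (j.val + 1)).trans
          (Nat.pow_le_pow_right two_pos (Nat.succ_le_of_lt l.2))
        exact_mod_cast this
      push_cast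
      rw [abs_mul, abs_pow, Nat.abs_cast, pow_succ']
      calc _ ≤ (M : ℝ) * (L : ℝ) ^ j.val * (2 ^ k * (L : ℝ) ^ (l.val - j.val) * ‖v l‖) := by
            gcongr
        _ = 2 ^ k * ((M : ℝ) * ((L : ℝ) ^ j.val * (L : ℝ) ^ (l.val - j.val)) * ‖v l‖) := by ring
        _ = _ := by rw [← pow_add, Nat.add_sub_cancel' (not_lt.1 hl)]
  have h2 := one_add_sum univ (fun l : Fin k => (M : ℝ) * (L : ℝ) ^ l.val * ‖v l‖)
    fun l => by positivity
  have h3 : (1 : ℝ) ≤ 2 ^ k := one_le_pow₀ one_le_two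
  have h4 := mul_le_mul_of_nonneg_left h2 (zero_le_one.trans h3)
  unfold Th
  linarith

end SV

open SV in
theorem blk_SV : St_SV := by
  intro k M L t y v _ hML ht
  have h0 : (1 : ℝ) ≤ 2 ^ k * Th M L v :=
    one_le_mul_of_one_le_of_one_le (one_le_pow₀ one_le_two) (one_le_Th M L v)
  have hW : ∀ z : TT k, Wk M (z - U t v) ≤ (2 ^ k * Th M L v) ^ (2 * k) * Wk M z := fun z => by
    have : (2 ^ k * Th M L v) ^ (2 * k) = ∏ _j : Fin k, (2 ^ k * Th M L v) ^ 2 := by
      rw [prod_const, card_univ, Fintype.card_fin, pow_mul]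
    rw [this, Wk, Wk, ← prod_mul_distrib]
    refine prod_le_prod (fun j _ => wt_nonneg (by positivity) _) fun j _ => ?_
    refine (wt_sub (by positivity) _ _).trans (mul_le_mul_of_nonneg_right ?_
      (wt_nonneg (by positivity) _))
    exact pow_le_pow_left₀ (by positivity) (coord hML ht v j) 2
  unfold sg
  rw [mul_add, ← integral_const_mul, ← int_sub _ (U t v)]
  refine add_le_add (le_mul_of_one_le_left (Nat.cast_nonneg _) (one_le_pow₀ h0))
    (integral_mono (cint (by fun_prop)) (cint (by fun_prop)) fun z => ?_)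
  simp only [map_add, add_assoc, add_sub_cancel, ← mul_assoc]
  exact mul_le_mul_of_nonneg_right (hW z) (by positivity)

end Pool.Agent.Lib.WC
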