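import Pool.Agent.Lib.WC.Blue

namespace Pool.Agent.Lib.WC

open Finset

namespace TRI

variable {k : ℕ}

lemma split (h : ℤ) (y : TT k) (j m : Fin k) (hm : m.val = j.val + 1) :
    (U h y - y) j = (((m.val + 1 : ℕ) : ℤ) * h) • y m +
      ∑ l ∈ univ.filter fun l : Fin k => m.val < l.val,
        (((l.val + 1).choose (j.val + 1) : ℤ) * h ^ (l.val - j.val)) • y l := by
  have h1 : ∀ l : Fin k, (((l.val + 1).choose (j.val + 1) : ℤ) * h ^ (l.val - j.val)) • y l =
      (if l = j then y l else 0) + ((if l = m then (((m.val + 1 : ℕ) : ℤ) * h) • y l else 0) +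
        if m.val < l.val then (((l.val + 1).choose (j.val + 1) : ℤ) * h ^ (l.val - j.val)) • y l
        else 0) := by
    intro l
    rcases lt_trichotomy l.val j.val with hl | hl | hl
    · rw [Nat.choose_eq_zero_of_lt (by omega), if_neg (fun e => by rw [e] at hl; omega),
        if_neg (fun e => by rw [e] at hl; omega), if_neg (by omega)]
      simp
    · rw [if_pos (Fin.ext hl), if_neg (fun e => by rw [e] at hl; omega), if_neg (by omega), hl]
      simp
    · rw [if_neg (fun e => by rw [e] at hl; omega)]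
      by_cases hl2 : l = m
      · rw [if_pos hl2, if_neg (by rw [hl2]; omega), hl2, hm]
        simp
      · rw [if_neg hl2, if_pos (by have := Fin.val_ne_of_ne hl2; omega)]
        simp
  have h2 : U h y j =
      ∑ l : Fin k, (((l.val + 1).choose (j.val + 1) : ℤ) * h ^ (l.val - j.val)) • y l := rfl
  rw [Pi.sub_apply, h2, sum_congr rfl fun l _ => h1 l, sum_add_distrib, sum_add_distrib,
    sum_ite_eq', sum_ite_eq', sum_filter, if_pos (mem_univ _), if_pos (mem_univ _)]
  abel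

lemma step (k t : ℕ) : ∃ a : ℕ, ∀ (N q : ℕ) (H : ℝ) (h : ℤ) (y : TT k), 1 ≤ N → 2 ≤ H → h ≠ 0 →
    (|h| : ℝ) ≤ H → 1 ≤ q → (q : ℝ) ≤ H → Ap 0 q N H (U h y - y) →
    ∃ Q : ℕ, 1 ≤ Q ∧ (Q : ℝ) ≤ H ^ a ∧
      ∀ l : Fin k, 1 ≤ l.val → k ≤ l.val + t → ‖Q • y l‖ ≤ H ^ a / (N : ℝ) ^ l.val := by
  induction t with
  | zero =>
    exact ⟨0, fun N q H h y _ _ _ _ _ _ _ =>
      ⟨1, le_rfl, by simp, fun l _ hl => absurd l.2 (by omega)⟩⟩
  | succ t ih =>
    obtain ⟨a, ha⟩ := ih
    by_cases hk : k ≤ t + 1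
    · refine ⟨a, fun N q H h y h1 h2 h3 h4 h5 h6 h7 => ?_⟩
      obtain ⟨Q, hQ1, hQ2, hQ⟩ := ha N q H h y h1 h2 h3 h4 h5 h6 h7
      exact ⟨Q, hQ1, hQ2, fun l hl _ => hQ l hl (by omega)⟩
    refine ⟨a + 3 * k + 2, fun N q H h y h1 h2 h3 h4 h5 h6 h7 => ?_⟩
    obtain ⟨Q, hQ1, hQ2, hQ⟩ := ha N q H h y h1 h2 h3 h4 h5 h6 h7
    let m : Fin k := ⟨k - (t + 1), by omega⟩
    let j : Fin k := ⟨k - (t + 2), by omega⟩
    have hm : m.val = j.val + 1 := by simp only [m, j]; omega
    have hm' : m.val + t + 1 = k := by simp only [m]; omega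
    have hN : (1 : ℝ) ≤ N := by exact_mod_cast h1
    have hH1 : (1 : ℝ) ≤ H := by linarith
    have h2k : (2 : ℝ) ^ k ≤ H ^ k := pow_le_pow_left₀ (by norm_num) h2 k
    have hkk : (k : ℝ) ≤ H ^ k := le_trans (by exact_mod_cast (Nat.lt_two_pow_self).le) h2k
    have hmk : ((m.val + 1 : ℕ) : ℝ) ≤ H ^ k :=
      le_trans (by exact_mod_cast Nat.succ_le_of_lt m.2) hkk
    have hab : ((h.natAbs : ℕ) : ℝ) ≤ H := by rwa [Nat.cast_natAbs, Int.cast_abs]
    have hc : ((q * ((m.val + 1) * h.natAbs) : ℕ) : ℝ) ≤ H ^ (k + 2) := by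
      rw [Nat.cast_mul, Nat.cast_mul]
      calc _ ≤ H * (H ^ k * H) := by gcongr
        _ = _ := by ring
    have hp : H ^ (k + 2) * H ^ a ≤ H ^ (a + 3 * k + 2) := by
      rw [← pow_add]
      exact pow_le_pow_right₀ hH1 (by omega)
    refine ⟨q * ((m.val + 1) * h.natAbs) * Q, ?_, ?_, fun l hl1 hl => ?_⟩
    · exact Nat.mul_pos (Nat.mul_pos h5 (Nat.mul_pos m.val.succ_pos (Int.natAbs_pos.2 h3))) hQ1
    · rw [Nat.cast_mul]
      exact le_trans (by gcongr) hp
    by_cases hl2 : k ≤ l.val + t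
    · rw [mul_smul]
      refine (norm_nsmul_le' _ _).trans ?_
      refine (mul_le_mul hc (hQ l hl1 hl2) (norm_nonneg _) (by positivity)).trans ?_
      rw [← mul_div_assoc]
      gcongr
    obtain rfl : l = m := Fin.ext (by omega)
    have e1 : ‖(q * ((m.val + 1) * h.natAbs) * Q) • y m‖ =
        ‖(Q * q) • ((((m.val + 1 : ℕ) : ℤ) * h) • y m)‖ := by
      rw [← natCast_zsmul, ← natCast_zsmul, smul_smul]
      rcases Int.natAbs_eq h with e | e
      · congr 2
        push_cast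
        rw [← Int.natCast_natAbs, ← e]
        ring
      · rw [← norm_neg, ← neg_smul]
        congr 2
        push_cast
        rw [← Int.natCast_natAbs]
        linear_combination (-(q : ℤ) * (m.val + 1) * Q) * e
    have b1 : ‖(Q * q) • (U h y - y) j‖ ≤ H ^ (a + 3 * k + 1) / (N : ℝ) ^ m.val := by
      rw [mul_smul]
      refine (norm_nsmul_le' _ _).trans ?_
      have h8 := h7 j (Nat.zero_le _)
      rw [Nat.sub_zero, ← hm] at h8
      refine (mul_le_mul hQ2 h8 (norm_nonneg _) (by positivity)).trans ?_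
      rw [← mul_div_assoc, ← pow_succ]
      gcongr
      omega
    have b2 : ‖(Q * q) • ∑ l ∈ univ.filter fun l : Fin k => m.val < l.val,
        (((l.val + 1).choose (j.val + 1) : ℤ) * h ^ (l.val - j.val)) • y l‖ ≤
        H ^ (a + 3 * k + 1) / (N : ℝ) ^ m.val := by
      rw [smul_sum]
      refine (norm_sum_le _ _).trans ?_
      refine (sum_le_card_nsmul _ _ (H * (H ^ k * H ^ k * (H ^ a / (N : ℝ) ^ m.val)))
        fun l hl => ?_).trans ?_
      · have hl' := (mem_filter.1 hl).2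
        rw [mul_comm Q, mul_smul, smul_comm Q]
        refine (norm_nsmul_le' _ _).trans (mul_le_mul h6 ?_ (norm_nonneg _) (by positivity))
        refine (norm_zsmul_le' _ _).trans (mul_le_mul ?_ ?_ (norm_nonneg _) (by positivity))
        · have c1 : (((l.val + 1).choose (j.val + 1) : ℕ) : ℝ) ≤ 2 ^ k := by
            exact_mod_cast (Nat.choose_le_two_pow _ _).trans
              (Nat.pow_le_pow_right two_pos (Nat.succ_le_of_lt l.2))
          have c2 : |(h : ℝ)| ^ (l.val - j.val) ≤ H ^ k :=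
            (pow_le_pow_left₀ (abs_nonneg _) h4 _).trans (pow_le_pow_right₀ hH1 (by omega))
          push_cast
          rw [abs_mul, abs_pow, Nat.abs_cast]
          exact mul_le_mul (c1.trans h2k) c2 (by positivity) (by positivity)
        · refine (hQ l (by omega) (by omega)).trans ?_
          gcongr
      · rw [nsmul_eq_mul]
        have : (((univ.filter fun l : Fin k => m.val < l.val).card : ℕ) : ℝ) ≤ k := by
          exact_mod_cast (card_le_univ _).trans (Fintype.card_fin k).le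
        calc _ ≤ H ^ k * (H * (H ^ k * H ^ k * (H ^ a / (N : ℝ) ^ m.val))) := by
              gcongr
              exact this.trans hkk
          _ = _ := by ring
    rw [e1, eq_sub_of_add_eq (split h y j m hm).symm, smul_sub]
    refine (norm_sub_le _ _).trans ((add_le_add b1 b2).trans ?_)
    rw [← add_div, pow_succ H (a + 3 * k + 1)]
    gcongr
    nlinarith [pow_pos (show 0 < H by linarith) (a + 3 * k + 1)]

end TRI

theorem blk_TRI : St_TRI := by
  intro k
  obtain ⟨a, ha⟩ := TRI.step k k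
  refine ⟨a, fun N q H h y h1 h2 h3 h4 h5 h6 h7 => ?_⟩
  obtain ⟨Q, hQ1, hQ2, hQ⟩ := ha N q H h y h1 h2 h3 h4 h5 h6 h7
  exact ⟨Q, hQ1, hQ2, fun j hj => hQ j hj (by omega)⟩

end Pool.Agent.Lib.WC
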