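import Pool.Agent.Lib.WC.Blue

/-! Block UP: the uncertainty principle. -/

namespace Pool.Agent.Lib.WC

open MeasureTheory Finset

namespace UP

variable {l : ℕ}

lemma repro (B : Finset (Fin l → ℤ)) (ν : Fin l → ℤ) {Q : Set (Fin l → ℤ)}
    (hQ : ∀ h ∈ Q, -(h + ν) ∈ B) {P : TT l → ℂ} (hP : P ∈ Sp Q) :
    ∫ v, P v * (∑ h ∈ B, ch h v) * ch ν v = P 0 := by
  refine Sp_ind (p := fun P => ∫ v, P v * (∑ h ∈ B, ch h v) * ch ν v = P 0) ?_ ?_ ?_ ?_ hP
  · intro h' hh'
    have e : ∀ v, ch h' v * (∑ h ∈ B, ch h v) * ch ν v = ∑ h ∈ B, ch (h + (h' + ν)) v := fun v => by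
      simp only [ch_add, Finset.mul_sum, Finset.sum_mul]
      exact Finset.sum_congr rfl fun h _ => by ring
    simp only [e]
    rw [integral_finsetSum _ fun h _ => cint (continuous_ch _)]
    simp only [integral_ch, add_eq_zero_iff_eq_neg]
    rw [Finset.sum_ite_eq' B, if_pos (hQ h' hh')]
    simp [ch]
  · simp
  · intro f g hf hg e1 e2
    have c1 := Sp_cont hf
    have c2 := Sp_cont hg
    simp only [Pi.add_apply, add_mul]
    rw [integral_add (cint (by fun_prop)) (cint (by fun_prop)), e1, e2]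
  · intro c f _ e
    simp only [Pi.smul_apply, smul_eq_mul, mul_assoc] at e ⊢
    rw [integral_const_mul, e]

lemma conv {m : ℕ} (M : (Fin m → ℤ) →+ (Fin l → ℤ)) {V : TT l → ℂ} (hV : Continuous V)
    {Q : Set (Fin m → ℤ)} (hQ : ∀ ω ∈ Q, ∫ v, V v * ch (M ω) v = 1) {g : TT m → ℂ}
    (hg : g ∈ Sp Q) (x : TT m) : ∫ v, V v * g (x + tr M v) = g x := by
  refine Sp_ind (p := fun g => ∫ v, V v * g (x + tr M v) = g x) ?_ ?_ ?_ ?_ hg
  · intro ω hω
    simp only [ch_add_pt, ch_tr, mul_left_comm _ (ch ω x)]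
    rw [integral_const_mul, hQ ω hω, mul_one]
  · simp
  · intro f g hf hg e1 e2
    have c1 := Sp_cont hf
    have c2 := Sp_cont hg
    simp only [Pi.add_apply, mul_add]
    rw [integral_add (cint (by fun_prop)) (cint (by fun_prop)), e1, e2]
  · intro c f _ e
    simp only [Pi.smul_apply, smul_eq_mul, mul_left_comm _ c]
    rw [integral_const_mul, e]

end UP

theorem blk_UP (hK : St_KER) : St_UP := by
  intro m l M o r μ q g x hr hμ hq hg
  set a : Fin l → ℤ := fun i => ⌈-o i - r i⌉ with ha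
  set B : Finset (Fin l → ℤ) :=
    Fintype.piFinset fun i => Finset.Icc (-a i - 2 * r i - μ * r i) (-a i) with hB
  set P : TT l → ℂ := fun v => ∏ i, dk (r i) (v i) ^ μ with hP
  have hPm := dk_prod_mem r μ
  have hPc : Continuous P := Sp_cont hPm
  have hP0 : P 0 = 1 := by
    refine Finset.prod_eq_one fun i _ => ?_
    have : (r i : ℂ) ≠ 0 := Nat.cast_ne_zero.2 (by have := hr i; omega)
    simp [dk, this]
  have hgc := Sp_cont hg
  have h1 := UP.conv M (V := fun v => P v * ∑ h ∈ B, ch h v) (by fun_prop) (fun ω hω => by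
    rw [← hP0]
    refine UP.repro B (M ω) (fun h hh => ?_) hPm
    rw [hB, Fintype.mem_piFinset]
    intro i
    obtain ⟨b1, b2⟩ := abs_le.1 (hω i)
    obtain ⟨b3, b4⟩ := hh i
    have b5 : a i ≤ M ω i := Int.ceil_le.2 (by linarith)
    have b6 : M ω i ≤ a i + 2 * r i := by
      have : -o i - r i ≤ (a i : ℝ) := Int.le_ceil _
      have : (M ω i : ℝ) ≤ a i + 2 * r i := by linarith
      exact_mod_cast this
    simp only [Finset.mem_Icc, Pi.neg_apply, Pi.add_apply]
    constructor <;> linarith) hg x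
  have hcard : (B.card : ℝ) ≤ ((μ : ℝ) + 3) ^ l * ∏ i, (r i : ℝ) := by
    rw [hB, Fintype.card_piFinset, Nat.cast_prod]
    have : ((μ : ℝ) + 3) ^ l = ∏ _i : Fin l, ((μ : ℝ) + 3) := by simp
    rw [this, ← Finset.prod_mul_distrib]
    refine Finset.prod_le_prod (fun i _ => Nat.cast_nonneg _) fun i _ => ?_
    have e : (-a i + 1 - (-a i - 2 * r i - μ * r i)) = ((2 * r i + μ * r i + 1 : ℕ) : ℤ) := by
      push_cast; ring
    rw [Int.card_Icc, e, Int.toNat_natCast]
    have : (1 : ℝ) ≤ r i := by exact_mod_cast hr i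
    push_cast
    linarith
  have h2 : ‖g x‖ ≤ ((μ : ℝ) + 3) ^ l * ∫ v, Kn r μ v * ‖g (x + tr M v)‖ := by
    rw [← h1, ← integral_const_mul]
    refine norm_integral_le_of_norm_le (cint (by fun_prop)) (Filter.Eventually.of_forall fun v => ?_)
    rw [norm_mul, norm_mul, ← mul_assoc]
    refine mul_le_mul_of_nonneg_right ?_ (norm_nonneg _)
    have e := Kn_eq r μ 1 v
    rw [one_mul, pow_one] at e
    rw [e, ← mul_assoc, mul_comm]
    refine mul_le_mul_of_nonneg_right ((norm_sum_le _ _).trans ?_) (norm_nonneg _)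
    simpa using hcard
  have h3 := jensen (μ := volume) (w := Kn r μ) (f := fun v => ‖g (x + tr M v)‖) (Kn_nonneg r μ)
    (fun v => norm_nonneg _) hq (cint (by fun_prop)) (cint (by fun_prop))
  have h4 : (∫ v, Kn r μ v) ^ (q - 1) ≤ 1 :=
    pow_le_one₀ (integral_nonneg (Kn_nonneg r μ)) (hK.kn l μ r hr hμ)
  have h5 : 0 ≤ ∫ v, Kn r μ v * ‖g (x + tr M v)‖ ^ q :=
    integral_nonneg fun v => mul_nonneg (Kn_nonneg r μ v) (by positivity)
  refine (pow_le_pow_left₀ (norm_nonneg _) h2 q).trans ?_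
  rw [mul_pow, ← pow_mul]
  exact mul_le_mul_of_nonneg_left (h3.trans (mul_le_of_le_one_left h5 h4)) (by positivity)

end Pool.Agent.Lib.WC
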