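import Pool.Agent.Lib.WC.Blue

/-! A quantitative lemma of Vinogradov type. -/

namespace Pool.Agent.Lib.WC

open Finset

namespace VIN

lemma card_int_le (S : Finset ℤ) (c L : ℝ) (hL : 0 ≤ L) (h : ∀ z ∈ S, |(z : ℝ) - c| ≤ L) :
    (S.card : ℝ) ≤ 2 * L + 1 := by
  have hsub : S ⊆ Icc ⌈c - L⌉ ⌊c + L⌋ := fun z hz => by
    have := abs_le.mp (h z hz)
    rw [mem_Icc, Int.ceil_le, Int.le_floor]
    constructor <;> linarith [this.1, this.2]
  have h1 : (S.card : ℝ) ≤ ((Icc ⌈c - L⌉ ⌊c + L⌋).card : ℝ) := by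
    exact_mod_cast card_le_card hsub
  refine h1.trans ?_
  rw [Int.card_Icc]
  have h2 := Int.le_ceil (c - L)
  have h3 := Int.floor_le (c + L)
  rcases le_total 0 (⌊c + L⌋ + 1 - ⌈c - L⌉) with h4 | h4
  · have : (((⌊c + L⌋ + 1 - ⌈c - L⌉).toNat : ℤ) : ℝ) = ((⌊c + L⌋ + 1 - ⌈c - L⌉ : ℤ) : ℝ) := by
      rw [Int.toNat_of_nonneg h4]
    rw [Int.cast_natCast] at this
    rw [this]; push_cast; linarith
  · rw [Int.toNat_of_nonpos h4]; push_cast; linarith

lemma close_pair (A : Finset ℕ) (N : ℕ) (η : ℝ) (h0 : 0 < η) (hA : A ⊆ Icc 1 N)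
    (h2 : 2 < η * N) (hc : η * N ≤ A.card) :
    ∃ h ∈ A, ∃ q : ℕ, 1 ≤ q ∧ (q : ℝ) ≤ 2 / η ∧ h + q ∈ A := by
  set Q := ⌊2 / η⌋₊ with hQ
  have hQ1 : (Q : ℝ) ≤ 2 / η := Nat.floor_le (by positivity)
  have hQ2 : 2 / η < Q + 1 := Nat.lt_floor_add_one _
  have hcard : (range (N / (Q + 1) + 1)).card < A.card := by
    rw [card_range]
    have e1 : ((N / (Q + 1) : ℕ) : ℝ) ≤ N / ((Q + 1 : ℕ) : ℝ) := Nat.cast_div_le
    have e2 : (N : ℝ) / ((Q + 1 : ℕ) : ℝ) ≤ η * N / 2 := by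
      push_cast
      rw [div_le_div_iff₀ (by positivity) two_pos]
      rw [div_lt_iff₀ h0] at hQ2
      nlinarith [Nat.cast_nonneg (α := ℝ) N]
    have : ((N / (Q + 1) + 1 : ℕ) : ℝ) < A.card := by push_cast at e1 e2 ⊢; linarith
    exact_mod_cast this
  obtain ⟨x, hx, y, hy, hne, hxy⟩ := exists_ne_map_eq_of_card_lt_of_maps_to hcard
    (f := fun h => h / (Q + 1)) fun h hh => by
      have := (mem_Icc.mp (hA hh)).2
      exact mem_coe.mpr (mem_range.mpr (Nat.lt_succ_of_le (Nat.div_le_div_right this)))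
  have key : ∀ x y : ℕ, x < y → x / (Q + 1) = y / (Q + 1) → y - x ≤ Q := by
    intro x y _ he
    have a1 := Nat.div_add_mod x (Q + 1)
    have a2 := Nat.div_add_mod y (Q + 1)
    have a3 : y % (Q + 1) < Q + 1 := Nat.mod_lt y (Nat.succ_pos Q)
    rw [he] at a1
    generalize x % (Q + 1) = u at a1
    generalize y % (Q + 1) = v at a2 a3
    generalize (Q + 1) * (y / (Q + 1)) = w at a1 a2
    omega
  rcases lt_or_gt_of_ne hne with hlt | hlt
  · refine ⟨x, hx, y - x, by omega, le_trans (by exact_mod_cast key x y hlt hxy) hQ1, ?_⟩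
    rwa [Nat.add_sub_cancel' hlt.le]
  · refine ⟨y, hy, x - y, by omega, le_trans (by exact_mod_cast key y x hlt hxy.symm) hQ1, ?_⟩
    rwa [Nat.add_sub_cancel' hlt.le]

lemma class_bound (B : Finset ℕ) (q r : ℕ) (M ρ θ ε : ℝ) (hθ : θ ≠ 0) (hε : 0 ≤ ε) (hM : 0 ≤ M)
    (h1 : ∀ h ∈ B, h % q = r) (h2 : ∀ h ∈ B, ((h / q : ℕ) : ℝ) ≤ M)
    (h3 : ∀ h ∈ B, |ρ + (h / q : ℕ) * θ - round (ρ + (h / q : ℕ) * θ)| ≤ ε) :
    (B.card : ℝ) ≤ (2 * (|θ| * M + ε) + 1) * (2 * (ε / |θ|) + 1) := by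
  have hθ' : 0 < |θ| := abs_pos.mpr hθ
  set z : ℕ → ℤ := fun h => round (ρ + (h / q : ℕ) * θ) with hz
  have c1 : ((B.image z).card : ℝ) ≤ 2 * (|θ| * M + ε) + 1 := by
    refine card_int_le _ ρ _ (by positivity) fun w hw => ?_
    obtain ⟨h, hh, rfl⟩ := mem_image.mp hw
    have e1 : |((h / q : ℕ) : ℝ) * θ| ≤ |θ| * M := by
      rw [abs_mul, Nat.abs_cast, mul_comm]
      exact mul_le_mul_of_nonneg_left (h2 h hh) hθ'.le
    have e2 := abs_le.mp (h3 h hh)
    have e3 := abs_le.mp e1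
    rw [abs_le]
    constructor <;> simp only [hz] <;> linarith [e2.1, e2.2, e3.1, e3.2]
  have c2 : ∀ w ∈ B.image z, ((B.filter fun h => z h = w).card : ℝ) ≤ 2 * (ε / |θ|) + 1 := by
    intro w _
    rw [← card_image_of_injOn (f := fun h : ℕ => ((h / q : ℕ) : ℤ))]
    · refine card_int_le _ ((w - ρ) / θ) _ (by positivity) fun m hm => ?_
      obtain ⟨h, hh, rfl⟩ := mem_image.mp hm
      obtain ⟨hB, hw⟩ := mem_filter.mp hh
      have e1 := h3 h hB
      have e2 : round (ρ + (h / q : ℕ) * θ) = w := hw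
      rw [e2] at e1
      rw [le_div_iff₀ hθ', ← abs_mul, Int.cast_natCast]
      have : (((h / q : ℕ) : ℝ) - (w - ρ) / θ) * θ = ρ + (h / q : ℕ) * θ - w := by
        field_simp; ring
      rwa [this]
    · intro x hx y hy hxy
      have a1 := h1 x (mem_filter.mp (mem_coe.mp hx)).1
      have a2 := h1 y (mem_filter.mp (mem_coe.mp hy)).1
      have a3 : x / q = y / q := Nat.cast_injective (R := ℤ) hxy
      rw [← Nat.div_add_mod x q, ← Nat.div_add_mod y q, a1, a2, a3]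
  rw [card_eq_sum_card_image z B]
  push_cast
  calc _ ≤ ∑ _w ∈ B.image z, (2 * (ε / |θ|) + 1) := sum_le_sum c2
    _ = (B.image z).card * (2 * (ε / |θ|) + 1) := by rw [sum_const, nsmul_eq_mul]
    _ ≤ _ := mul_le_mul_of_nonneg_right c1 (by positivity)

end VIN

open VIN

theorem blk_VIN : St_VIN := by
  intro α N η ε h0 h1 hε h32 h16 hc
  set A := (Icc 1 N).filter fun h : ℕ => ‖h • α‖ ≤ ε with hA
  have hN : (0 : ℝ) ≤ N := Nat.cast_nonneg N
  have hηN : 16 ≤ η * N := by nlinarith [mul_nonneg h0.le hN]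
  obtain ⟨h, hh, q, q1, q2, q3⟩ := close_pair A N η h0 (filter_subset _ _) (by linarith) hc
  refine ⟨q, q1, q2, ?_⟩
  have hq0 : (0 : ℝ) < q := by exact_mod_cast q1
  have hq : ‖q • α‖ ≤ 2 * ε := by
    have e1 := (mem_filter.mp hh).2
    have e2 := (mem_filter.mp q3).2
    have : q • α = (h + q) • α - h • α := by rw [add_nsmul]; abel
    rw [this]
    linarith [norm_sub_le ((h + q) • α) (h • α)]
  obtain ⟨θ, t1, t2⟩ := exists_rep (q • α)
  by_cases hθ : θ = 0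
  · rw [← t2, hθ, abs_zero]; positivity
  have hθ' : 0 < |θ| := abs_pos.mpr hθ
  obtain ⟨r, -, hr⟩ := exists_le_card_fiber_of_nsmul_le_card_of_maps_to (s := A) (t := range q)
    (f := fun h => h % q) (b := η * N / q)
    (fun a _ => mem_range.mpr (Nat.mod_lt a q1)) ⟨0, mem_range.mpr q1⟩
    (by rw [card_range, nsmul_eq_mul, mul_div_cancel₀ _ hq0.ne']; exact hc)
  obtain ⟨ρ, r1, -⟩ := exists_rep (r • α)
  have cb := class_bound (A.filter fun h => h % q = r) q r (N / q) ρ θ ε hθ hε (by positivity)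
    (fun h hh => (mem_filter.mp hh).2)
    (fun h hh => by
      have e1 := (mem_Icc.mp (mem_filter.mp (mem_filter.mp hh).1).1).2
      refine Nat.cast_div_le.trans ?_
      gcongr)
    (fun h hh => by
      obtain ⟨e1, e2⟩ := mem_filter.mp hh
      have e3 := (mem_filter.mp e1).2
      rw [← UnitAddCircle.norm_eq, AddCircle.coe_add, ← nsmul_eq_mul, AddCircle.coe_nsmul, r1, t1,
        ← mul_nsmul, ← add_nsmul, ← e2, Nat.mod_add_div]
      exact e3)
  rw [← t2] at hq ⊢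
  set t := |θ| with ht
  set M := (N : ℝ) / q with hM
  have hM0 : 0 ≤ M := by positivity
  have e1 : η * M ≤ (2 * (t * M + ε) + 1) * (2 * (ε / t) + 1) := by
    refine le_trans ?_ (hr.trans cb)
    rw [hM, mul_div_assoc]
  set u := ε / t with hu
  have hut : u * t = ε := by rw [hu]; field_simp
  have hu1 : 1 ≤ 2 * u := by
    rw [hu, ← mul_div_assoc, le_div_iff₀ hθ']; linarith
  have e2 : (2 * (t * M + ε) + 1) * (2 * u + 1) =
      4 * ε * M + 2 * t * M + (2 * ε + 1) * (2 * u + 1) := by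
    rw [← hut]; ring
  have e3 : (2 * ε + 1) * (2 * u + 1) ≤ 17 / 16 * (4 * u) := by
    apply mul_le_mul <;> linarith
  have e4 : 4 * ε * M + 2 * t * M ≤ η / 4 * M := by nlinarith
  have e5 : 3 / 4 * η * M ≤ 17 / 4 * u := by linarith
  have e6 : η * N ≤ 2 * M := by
    rw [hM, ← mul_div_assoc, le_div_iff₀ hq0]
    rw [le_div_iff₀ h0] at q2
    nlinarith
  rw [le_div_iff₀ (by linarith), ← hut]
  have e7 : η ^ 2 * N ≤ 16 * u := by nlinarith
  nlinarith

end Pool.Agent.Lib.WC
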