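import Pool.Agent.Lib.WC.Blue

/-! The mean value theorem from decoupling. -/

namespace Pool.Agent.Lib.WC

open MeasureTheory Polynomial Finset

theorem blk_VM (hD : St_DEC) : St_VM := by
  intro k ε hk hε
  have hs := one_le_sd hk
  have hs' : (0 : ℝ) < sd k := by exact_mod_cast hs
  obtain ⟨C, hC, hD⟩ := hD k hk (ε / sd k) (by positivity)
  refine ⟨C ^ sd k, one_le_pow₀ hC, fun N hN => ?_⟩
  have hN' : (0 : ℝ) < N := by exact_mod_cast hN
  have h := hD N hN k (stdFam k) 0 1 1 (Ico 1 (1 + N)) (fun j => ch (mom k j)) one_pos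
    Subset.rfl (fun j _ => ch_mem (mom_mem j (by simp)))
  have e : (S N : TT k → ℂ) = ∑ j ∈ Ico (1 : ℤ) (1 + N), ch (mom k j) := by
    rw [S_eq]
    refine sum_bij (fun n _ => (n : ℤ) + 1) (fun n hn => ?_) (fun a _ b _ h => by omega)
      (fun j hj => ⟨(j - 1).toNat, ?_, ?_⟩) (fun _ _ => rfl)
    · simp only [mem_range, mem_Ico] at hn ⊢; omega
    · simp only [mem_range, mem_Ico] at hj ⊢; omega
    · simp only [mem_Ico] at hj; omega
  rw [← e] at h
  simp only [nn_ch, sum_const, Int.card_Ico, nsmul_eq_mul, mul_one] at h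
  rw [show (1 + (N : ℤ) - 1).toNat = N by omega] at h
  rw [← nn_pow hs]
  refine (pow_le_pow_left₀ (nn_nonneg _ _) h _).trans (le_of_eq ?_)
  rw [mul_pow, mul_pow, ← Real.rpow_natCast ((N : ℝ) ^ (ε / sd k)), ← Real.rpow_mul hN'.le,
    div_mul_cancel₀ _ hs'.ne', Real.rpow_add hN', Real.rpow_natCast]
  ring

end Pool.Agent.Lib.WC
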