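import Pool.Agent.Lib.WC.Blue

/-! The mean value over the wide arcs. -/

namespace Pool.Agent.Lib.WC

open MeasureTheory Finset

namespace YS

variable {k : ℕ}

lemma int_union_le {ι : Type} (s : Finset ι) (A : ι → Set (TT k)) {f : TT k → ℝ}
    (hf : Continuous f) (h0 : ∀ x, 0 ≤ f x) :
    ∫ x in ⋃ i ∈ s, A i, f x ≤ ∑ i ∈ s, ∫ x in A i, f x := by
  classical
  induction s using Finset.induction_on with
  | empty => simp
  | insert i s hi ih =>
    rw [Finset.set_biUnion_insert, sum_insert hi]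
    refine (integral_mono_measure (Measure.restrict_union_le _ _) (ae_of_all _ h0)
      (cint hf)).trans ?_
    rw [integral_add_measure (cint hf) (cint hf)]
    gcongr

lemma mem_Zr {q N M : ℕ} {H : ℝ} {t : ℤ} {x : TT k} (hN : 1 ≤ N) (hM1 : 1 ≤ M) (hH : 1 ≤ H)
    (hq : (q : ℝ) ≤ H) (hM : 32 ^ k * H ^ 2 * M ≤ N) (ht : |t| ≤ N) (h : Ap 1 q N H x) :
    Dl q (U t x) ∈ Zr k M := fun j hj => by
  have h1 := h.shear (by linarith) hN ht j hj
  rw [Nat.add_sub_cancel] at h1 ⊢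
  rw [one_smul, Dl_apply, pow_succ, mul_smul]
  refine (norm_nsmul_le' _ _).trans ((mul_le_mul_of_nonneg_left h1 (by positivity)).trans ?_)
  have hN0 : (0 : ℝ) < N := by exact_mod_cast hN
  have hM0 : (0 : ℝ) < M := by exact_mod_cast hM1
  rw [← mul_div_assoc, div_div, div_le_div_iff₀ (by positivity) (by positivity), one_mul]
  refine le_trans ?_ (pow_le_pow_left₀ (by positivity) hM j.val)
  have h2 : (32 : ℝ) ^ k ≤ (32 ^ k) ^ j.val := le_self_pow₀ (one_le_pow₀ (by norm_num)) (by omega)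
  have h3 : H ^ j.val * H ≤ (H ^ 2) ^ j.val := by
    rw [← pow_succ, ← pow_mul]
    exact pow_le_pow_right₀ hH (by omega)
  calc ((q ^ j.val : ℕ) : ℝ) * (4 ^ k * H) * (8 ^ k * M ^ j.val)
      = 32 ^ k * (q ^ j.val * H) * M ^ j.val := by
        rw [show (32 : ℝ) = 4 * 8 by norm_num, mul_pow]; push_cast; ring
    _ ≤ (32 ^ k) ^ j.val * (H ^ 2) ^ j.val * M ^ j.val := by
        gcongr
        exact le_trans (by gcongr) h3
    _ = _ := by rw [mul_pow, mul_pow]

end YS

theorem blk_YS (hS : St_SPL) (hL : St_LP) : St_YS := by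
  intro k hk
  obtain ⟨C, hC, hL⟩ := hL k hk
  set p := k ^ 2 + 1 with hp
  have hsp : sd k ≤ p := (sd_le_sq k).trans (Nat.le_succ _)
  have hc : (1 : ℝ) ≤ 32 ^ k := one_le_pow₀ (by norm_num)
  refine ⟨2 * p + 1, (3 * 32 ^ k) ^ p * C, by omega,
    one_le_mul_of_one_le_of_one_le (one_le_pow₀ (by linarith)) hC, fun N H hN hH => ?_⟩
  have hN0 : (0 : ℝ) < N := by exact_mod_cast hN
  have hH2 : H ≤ H ^ 2 := by nlinarith
  set B : ℝ := 32 ^ k * H ^ 2 with hB
  have hHB : H ≤ B := hH2.trans (le_mul_of_one_le_left (by positivity) hc)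
  have h0 : (3 * 32 ^ k) ^ p * C * H ^ (2 * p + 1) = H * ((3 * B) ^ p * C) := by
    rw [hB, ← mul_assoc 3, mul_pow _ (H ^ 2), ← pow_mul]; ring
  rw [h0]
  rcases lt_or_ge (N : ℝ) B with h1 | h1
  · refine le_trans (setIntegral_le_integral (cint (by fun_prop))
      (ae_of_all _ fun x => by positivity)) ((integral_mono (cint (by fun_prop))
      (integrable_const ((N : ℝ) ^ p)) fun x => pow_le_pow_left₀ (norm_nonneg _)
        (norm_S_le N x) _).trans ?_)
    rw [integral_const, probReal_univ, one_smul, le_div_iff₀ (by positivity), mul_comm]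
    gcongr
    calc (N : ℝ) ^ sd k ≤ (3 * B) ^ sd k := pow_le_pow_left₀ hN0.le (by linarith) _
      _ ≤ (3 * B) ^ p := pow_le_pow_right₀ (by linarith) hsp
      _ ≤ H * ((3 * B) ^ p * C) := le_trans (le_mul_of_one_le_right (by positivity) hC)
          (le_mul_of_one_le_left (by positivity) (by linarith))
  have hB0 : 0 < B := by positivity
  set M := ⌊N / B⌋₊ with hM
  have h2 : 1 ≤ N / B := (one_le_div hB0).mpr h1
  have hM1 : 1 ≤ M := Nat.le_floor (by exact_mod_cast h2)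
  have hM0 : (1 : ℝ) ≤ M := by exact_mod_cast hM1
  have h3 : B * M ≤ N := (le_div_iff₀' hB0).mp (Nat.floor_le (by positivity))
  have h4 : (N : ℝ) / M ≤ 2 * B := by
    rw [div_le_iff₀ (by positivity)]
    have h5 := (div_lt_iff₀ hB0).mp (Nat.lt_floor_add_one (N / B))
    rw [← hM] at h5
    nlinarith
  have h5 : (M : ℝ) ^ p / M ^ sd k ≤ N ^ p / N ^ sd k := by
    rw [div_eq_mul_inv, div_eq_mul_inv, ← pow_sub₀ _ (by positivity) hsp,
      ← pow_sub₀ _ hN0.ne' hsp]
    exact pow_le_pow_left₀ (by positivity) (by nlinarith) _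
  rw [Mj_eq]
  refine (YS.int_union_le _ _ (by fun_prop) fun x => by positivity).trans
    ((sum_le_card_nsmul _ _ ((3 * B) ^ p * C * (N ^ p / N ^ sd k)) fun q hq => ?_).trans ?_)
  swap
  · rw [Nat.card_Icc, Nat.add_sub_cancel, nsmul_eq_mul, mul_div_assoc, mul_assoc H]
    gcongr
    exact Nat.floor_le (by linarith)
  obtain ⟨hq1, hq2⟩ := mem_Icc.mp hq
  have hqH : (q : ℝ) ≤ H := (Nat.le_floor_iff (by linarith)).mp hq2
  obtain ⟨P, t, len, h6, h7, h8⟩ := hS k N q M hq1 (by exact_mod_cast hqH.trans (hHB.trans h1)) hM1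
  have h9 : (P.card : ℝ) ≤ 3 * B := by linarith
  have h10 : ∀ r ∈ P, ∫ x in {x : TT k | Ap 1 q N H x}, ‖S (len r) (Dl q (U (t r) x))‖ ^ p ≤
      C * (N ^ p / N ^ sd k) := fun r hr => by
    refine (setIntegral_mono_set (t := (Dl q ∘ U (t r)) ⁻¹' Zr k M) (cint (by fun_prop))
      (ae_of_all _ fun x => by positivity) (ae_of_all _ fun x hx =>
        YS.mem_Zr hN hM1 (by linarith) hqH h3 (h7 r hr).1 hx)).trans ?_
    refine (setInt_mp ((mp_Dl hq1).comp (mp_U (t r))) (f := fun x => ‖S (len r) x‖ ^ p)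
      (measurableSet_Zr M) (Continuous.aestronglyMeasurable (by fun_prop))).le.trans
      ((hL M _ hM1 (h7 r hr).2).trans ?_)
    rw [mul_div_assoc]
    gcongr
  calc ∫ x in {x : TT k | Ap 1 q N H x}, ‖S N x‖ ^ p
      ≤ ∫ x in {x : TT k | Ap 1 q N H x},
          (P.card : ℝ) ^ k ^ 2 * ∑ r ∈ P, ‖S (len r) (Dl q (U (t r) x))‖ ^ p :=
        integral_mono (cint (by fun_prop)) (cint (by fun_prop)) fun x =>
          (pow_le_pow_left₀ (norm_nonneg _) (h8 x) _).trans
            (pow_sum_le_card_mul_sum_pow (fun _ _ => norm_nonneg _) _)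
    _ ≤ (P.card : ℝ) ^ k ^ 2 * (P.card * (C * (N ^ p / N ^ sd k))) := by
        rw [integral_const_mul, integral_finsetSum _ fun r _ => cint (by fun_prop), ← nsmul_eq_mul]
        gcongr
        exact sum_le_card_nsmul _ _ _ h10
    _ ≤ _ := by
        rw [← mul_assoc, ← pow_succ, mul_assoc]
        gcongr

end Pool.Agent.Lib.WC
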