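import Pool.Agent.Lib.WC.Asm
import Pool.Agent.Lib.WC.ARC
import Pool.Agent.Lib.WC.AVG
import Pool.Agent.Lib.WC.BN
import Pool.Agent.Lib.WC.BOOT1
import Pool.Agent.Lib.WC.BR
import Pool.Agent.Lib.WC.C1
import Pool.Agent.Lib.WC.DB
import Pool.Agent.Lib.WC.DEC
import Pool.Agent.Lib.WC.E1
import Pool.Agent.Lib.WC.E2
import Pool.Agent.Lib.WC.E3
import Pool.Agent.Lib.WC.FEJ0
import Pool.Agent.Lib.WC.FEJ1
import Pool.Agent.Lib.WC.FEJ2
import Pool.Agent.Lib.WC.FIN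
import Pool.Agent.Lib.WC.G0
import Pool.Agent.Lib.WC.G1
import Pool.Agent.Lib.WC.G1a
import Pool.Agent.Lib.WC.G2
import Pool.Agent.Lib.WC.GC1
import Pool.Agent.Lib.WC.GC2
import Pool.Agent.Lib.WC.HOL
import Pool.Agent.Lib.WC.INV
import Pool.Agent.Lib.WC.KER
import Pool.Agent.Lib.WC.KEY
import Pool.Agent.Lib.WC.KL
import Pool.Agent.Lib.WC.KL1
import Pool.Agent.Lib.WC.KL2
import Pool.Agent.Lib.WC.LD
import Pool.Agent.Lib.WC.LD0
import Pool.Agent.Lib.WC.LD1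
import Pool.Agent.Lib.WC.LEAD
import Pool.Agent.Lib.WC.LEV
import Pool.Agent.Lib.WC.LP
import Pool.Agent.Lib.WC.MA
import Pool.Agent.Lib.WC.MA0
import Pool.Agent.Lib.WC.SIG
import Pool.Agent.Lib.WC.SPL
import Pool.Agent.Lib.WC.SPW
import Pool.Agent.Lib.WC.SV
import Pool.Agent.Lib.WC.TRI
import Pool.Agent.Lib.WC.UP
import Pool.Agent.Lib.WC.VIN
import Pool.Agent.Lib.WC.VM
import Pool.Agent.Lib.WC.YS

/-! All blocks, unconditionally. -/

namespace Pool.Agent.Lib.WC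

theorem stC1 : St_C1 := blk_C1
theorem stKER : St_KER := blk_KER
theorem stUP : St_UP := blk_UP stKER
theorem stDB : St_DB := blk_DB
theorem stGC1 : St_GC1 := blk_GC1 stDB
theorem stGC2 : St_GC2 := blk_GC2 stC1 stGC1
theorem stLD0 : St_LD0 := blk_LD0
theorem stLD1 : St_LD1 := blk_LD1 stKER stUP stGC2 stLD0
theorem stLD : St_LD := blk_LD stLD1
theorem stHOL : St_HOL := blk_HOL
theorem stBOOT1 : St_BOOT1 := blk_BOOT1 stLD stHOL
theorem stSPW : St_SPW := blk_SPW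
theorem stBN : St_BN := blk_BN stC1
theorem stDEC : St_DEC := blk_DEC stC1 stBOOT1 stSPW stBN
theorem stG0 : St_G0 := blk_G0 stKER stUP
theorem stSV : St_SV := blk_SV
theorem stG1a : St_G1a := blk_G1a
theorem stG1 : St_G1 := blk_G1 stKER stC1 stSV stG1a
theorem stG2 : St_G2 := blk_G2 stDEC stG0 stG1
theorem stSPL : St_SPL := blk_SPL
theorem stVIN : St_VIN := blk_VIN
theorem stLEAD : St_LEAD := blk_LEAD stKER stVIN
theorem stINV : St_INV := blk_INV stSPL stLEAD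
theorem stTRI : St_TRI := blk_TRI
theorem stSIG : St_SIG := blk_SIG stKER stINV stTRI
theorem stARC : St_ARC := blk_ARC stG2 stSIG
theorem stAVG : St_AVG := blk_AVG stKER
theorem stBR : St_BR := blk_BR
theorem stFEJ0 : St_FEJ0 := blk_FEJ0 stKER
theorem stFEJ1 : St_FEJ1 := blk_FEJ1 stFEJ0 stINV
theorem stE1 : St_E1 := blk_E1 stAVG stFEJ1 stARC
theorem stKL1 : St_KL1 := blk_KL1
theorem stKL2 : St_KL2 := blk_KL2
theorem stKL : St_KL := blk_KL stKL1 stKL2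
theorem stLP : St_LP := blk_LP stKER stKL
theorem stYS : St_YS := blk_YS stSPL stLP
theorem stLEV : St_LEV := blk_LEV stYS stINV
theorem stFEJ2 : St_FEJ2 := blk_FEJ2 stFEJ0 stINV
theorem stVM : St_VM := blk_VM stDEC
theorem stE3 : St_E3 := blk_E3 stAVG stFEJ2 stVM
theorem stMA0 : St_MA0 := blk_MA0
theorem stMA : St_MA := blk_MA stLP stMA0
theorem stE2 : St_E2 := blk_E2 stLEV stE3 stMA
theorem stKEY : St_KEY := blk_KEY stVM stE1 stE2
theorem stFIN : St_FIN := blk_FIN stKEY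

end Pool.Agent.Lib.WC
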