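import Pool.Agent.Lib.WC.Blue

/-! The final statement from the last two blocks. -/

namespace Pool.Agent.Lib.WC

open MP_4e7873_nt

theorem main_of (hF : St_FIN) (hB : St_BR) (d : ℕ) (hd : 2 ≤ d) :
    ∃ c : ℝ, 0 < c ∧ ∀ s ε : ℝ, 0 < s → 0 < ε → ∃ N₀ : ℕ, ∀ N : ℕ, N₀ ≤ N →
      ∀ δ : ℝ, 0 < δ → δ ≤ 1 → ((d : ℝ) * (d + 1) / 2 - d * c ≤ s ∨ (N : ℝ) ^ (-c) ≤ δ) →
      ∀ ξ : Fin d → ℝ, localMean s d δ ξ N ≤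
        δ ^ d * (N : ℝ) ^ (s + ε) + (N : ℝ) ^ (2 * s - (d : ℝ) * (d + 1) / 2 + ε) := by
  obtain ⟨d, rfl⟩ : ∃ e, d = e + 1 := ⟨d - 1, by omega⟩
  obtain ⟨c, hc, h⟩ := hF d (by omega)
  refine ⟨c, hc, fun s ε hs hε => ?_⟩
  obtain ⟨N₀, h⟩ := h s ε hs hε
  refine ⟨N₀, fun N hN δ h0 h1 h2 ξ => (hB (d + 1) N s δ ξ hs h0 h1).trans ?_⟩
  rw [← sd_cast] at h2 ⊢
  exact h N hN δ h0 h1 (by simpa using h2) _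

end Pool.Agent.Lib.WC
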