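import Pool.Agent.Lib.WC.Defs

/-! Basic facts on the circle, characters, trigonometric polynomials and integrals on tori. -/

namespace Pool.Agent.Lib.WC

open MeasureTheory

section circle

lemma ee_add (a b : UnitAddCircle) : ee (a + b) = ee a * ee b := by
  simp [ee, AddCircle.toCircle_add]

@[simp] lemma ee_zero : ee 0 = 1 := by simp [ee]

@[simp] lemma norm_ee (a : UnitAddCircle) : ‖ee a‖ = 1 := Circle.norm_coe _

lemma ee_ne_zero (a : UnitAddCircle) : ee a ≠ 0 := by
  intro h; simpa [h] using norm_ee a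

lemma ee_neg (a : UnitAddCircle) : ee (-a) = (starRingEnd ℂ) (ee a) := by
  rw [ee, AddCircle.toCircle_neg, Circle.coe_inv_eq_conj, ee]

lemma ee_sub (a b : UnitAddCircle) : ee (a - b) = ee a * (starRingEnd ℂ) (ee b) := by
  rw [sub_eq_add_neg, ee_add, ee_neg]

lemma ee_nsmul (n : ℕ) (a : UnitAddCircle) : ee (n • a) = ee a ^ n := by
  simp [ee, AddCircle.toCircle_nsmul]

lemma ee_sum {ι : Type*} (s : Finset ι) (a : ι → UnitAddCircle) :
    ee (∑ i ∈ s, a i) = ∏ i ∈ s, ee (a i) := by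
  classical
  induction s using Finset.induction_on with
  | empty => simp
  | insert i s hi ih => rw [Finset.sum_insert hi, Finset.prod_insert hi, ee_add, ih]

@[fun_prop] lemma continuous_ee : Continuous ee :=
  continuous_induced_dom.comp AddCircle.continuous_toCircle

lemma ee_coe (x : ℝ) : ee (x : UnitAddCircle) = Complex.exp (2 * Real.pi * Complex.I * x) := by
  rw [ee, AddCircle.toCircle_apply_mk, Circle.coe_exp]; congr 1; push_cast; ring

lemma norm_le_half (z : UnitAddCircle) : ‖z‖ ≤ 1 / 2 := by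
  simpa using AddCircle.norm_le_half_period (p := 1) (x := z) one_ne_zero

lemma norm_coe_le (x : ℝ) : ‖(x : UnitAddCircle)‖ ≤ |x| := QuotientAddGroup.norm_mk_le_norm

lemma coe_int_eq_zero (n : ℤ) : ((n : ℝ) : UnitAddCircle) = 0 := by
  rw [AddCircle.coe_eq_zero_iff]; exact ⟨n, by simp⟩

/-- A representative of least absolute value. -/
lemma exists_rep (z : UnitAddCircle) : ∃ x : ℝ, (x : UnitAddCircle) = z ∧ |x| = ‖z‖ := by
  induction z using QuotientAddGroup.induction_on with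
  | H y => exact ⟨y - round y, by rw [AddCircle.coe_sub, coe_int_eq_zero, sub_zero],
      UnitAddCircle.norm_eq.symm⟩

lemma exists_int_of_coe_eq {x y : ℝ} (h : (x : UnitAddCircle) = y) : ∃ n : ℤ, x = y + n := by
  have : ((x - y : ℝ) : UnitAddCircle) = 0 := by rw [AddCircle.coe_sub, h, sub_self]
  obtain ⟨n, hn⟩ := (AddCircle.coe_eq_zero_iff _).1 this
  exact ⟨n, by simp at hn; linarith⟩

lemma norm_nsmul_le' (n : ℕ) (z : UnitAddCircle) : ‖n • z‖ ≤ n * ‖z‖ := norm_nsmul_le

lemma norm_zsmul_le' (n : ℤ) (z : UnitAddCircle) : ‖n • z‖ ≤ |(n : ℝ)| * ‖z‖ := by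
  simpa [Int.norm_eq_abs] using norm_zsmul_le n z

lemma norm_ee_sub_one (x : ℝ) :
    ‖ee (x : UnitAddCircle) - 1‖ = 2 * |Real.sin (Real.pi * x)| := by
  rw [ee_coe, show (2 * Real.pi * Complex.I * x : ℂ) = Complex.I * ((2 * Real.pi * x : ℝ) : ℂ) by
    push_cast; ring, Complex.norm_exp_I_mul_ofReal_sub_one, Real.norm_eq_abs, abs_mul,
    show 2 * Real.pi * x / 2 = Real.pi * x by ring]
  norm_num

lemma norm_ee_sub_one_le (z : UnitAddCircle) : ‖ee z - 1‖ ≤ 2 * Real.pi * ‖z‖ := by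
  obtain ⟨x, rfl, hx⟩ := exists_rep z
  rw [norm_ee_sub_one, ← hx]
  have := Real.abs_sin_le_abs (x := Real.pi * x)
  rw [abs_mul, abs_of_pos Real.pi_pos] at this
  linarith

lemma le_norm_ee_sub_one (z : UnitAddCircle) : 4 * ‖z‖ ≤ ‖ee z - 1‖ := by
  have h2 := norm_le_half z
  obtain ⟨x, rfl, hx⟩ := exists_rep z
  rw [norm_ee_sub_one, ← hx]
  rw [← hx] at h2
  have h3 : |Real.pi * x| = Real.pi * |x| := by rw [abs_mul, abs_of_pos Real.pi_pos]
  have := Real.mul_abs_le_abs_sin (x := Real.pi * x) (by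
    rw [h3]; nlinarith [Real.pi_pos])
  rw [h3, ← mul_assoc, div_mul_cancel₀ _ Real.pi_pos.ne'] at this
  linarith

lemma norm_ee_sub_le (a b : UnitAddCircle) : ‖ee a - ee b‖ ≤ 2 * Real.pi * ‖a - b‖ := by
  have : ee a - ee b = ee b * (ee (a - b) - 1) := by
    rw [mul_sub, ← ee_add]; simp
  rw [this, norm_mul, norm_ee, one_mul]; exact norm_ee_sub_one_le _

/-- A point with `‖q z‖` small is close to a rational with denominator `q`. -/
lemma exists_tors {q : ℕ} (hq : 1 ≤ q) (z : UnitAddCircle) :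
    ∃ a : ℕ, a < q ∧ ‖z - (((a : ℝ) / q : ℝ) : UnitAddCircle)‖ ≤ ‖q • z‖ / q := by
  have hq0 : (0 : ℝ) < q := by exact_mod_cast hq
  obtain ⟨y, hy, hy'⟩ := exists_rep (q • z)
  obtain ⟨x, rfl, -⟩ := exists_rep z
  rw [← AddCircle.coe_nsmul] at hy
  obtain ⟨n, hn⟩ := exists_int_of_coe_eq hy.symm
  have hqz : (0 : ℤ) < q := by exact_mod_cast hq
  refine ⟨(n % q).toNat, ?_, ?_⟩
  · have := Int.emod_lt_of_pos n hqz
    have := Int.emod_nonneg n hqz.ne'
    omega
  · have h1 : (((n % q).toNat : ℕ) : ℝ) = n - q * (n / q : ℤ) := by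
      have h0 := Int.toNat_of_nonneg (Int.emod_nonneg n hqz.ne')
      have h2 : ((n % q).toNat : ℤ) = n - q * (n / q) := by rw [h0, Int.emod_def]
      exact_mod_cast h2
    have h3 : x - ((n % q).toNat : ℕ) / q = y / q + ((n / q : ℤ) : ℝ) := by
      rw [h1]; simp only [nsmul_eq_mul] at hn; field_simp; linarith
    rw [← AddCircle.coe_sub, h3, AddCircle.coe_add, coe_int_eq_zero, add_zero, ← hy']
    refine (norm_coe_le _).trans ?_
    rw [abs_div, abs_of_pos hq0]

lemma nsmul_coe_div {q : ℕ} (hq : 1 ≤ q) (a : ℕ) :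
    q • ((((a : ℝ) / q : ℝ)) : UnitAddCircle) = 0 := by
  have hq0 : (q : ℝ) ≠ 0 := by exact_mod_cast (by omega : q ≠ 0)
  rw [← AddCircle.coe_nsmul, nsmul_eq_mul, mul_div_cancel₀ _ hq0]
  exact_mod_cast coe_int_eq_zero a

/-- A nonzero torsion point is not too small. -/
lemma eq_zero_of_tors {q : ℕ} {z : UnitAddCircle} (h : q • z = 0) (hz : q * ‖z‖ < 1)
    (hq : 1 ≤ q) : z = 0 := by
  obtain ⟨x, rfl, hx⟩ := exists_rep z
  rw [← AddCircle.coe_nsmul, ← AddCircle.coe_zero] at h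
  obtain ⟨n, hn⟩ := exists_int_of_coe_eq h
  have hq0 : (0 : ℝ) < q := by exact_mod_cast hq
  rw [nsmul_eq_mul, zero_add] at hn
  have : |(n : ℝ)| < 1 := by rw [← hn, abs_mul, abs_of_pos hq0, hx]; exact hz
  have hn0 : n = 0 := by
    have : |n| < 1 := by exact_mod_cast this
    exact Int.abs_lt_one_iff.1 this
  have : x = 0 := by
    rw [hn0, Int.cast_zero] at hn
    exact (mul_eq_zero.1 hn).resolve_left hq0.ne'
  simp [this]

lemma integral_ee (n : ℤ) : ∫ z : UnitAddCircle, ee (n • z) = if n = 0 then 1 else 0 := by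
  split_ifs with h
  · simp [h]
  · exact integral_eq_zero_of_add_right_eq_neg (g := ((1 / 2 / n : ℝ) : UnitAddCircle))
      fun x => by simpa [ee] using fourier_add_half_inv_index h one_pos x

@[fun_prop] lemma continuous_dk (r : ℕ) : Continuous (dk r) := by unfold dk; fun_prop

lemma norm_dk_le (r : ℕ) (z : UnitAddCircle) : ‖dk r z‖ ≤ 1 := by
  rw [dk, norm_mul, norm_inv, Complex.norm_natCast]
  rcases Nat.eq_zero_or_pos r with rfl | hr
  · simp
  · have : ‖∑ j ∈ Finset.range r, ee (j • z)‖ ≤ r := by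
      simpa using norm_sum_le (Finset.range r) fun j => ee (j • z)
    have hr' : (0 : ℝ) < r := by exact_mod_cast hr
    rw [inv_mul_le_iff₀ hr']; simpa using this

end circle

section integrals

variable {X Y E : Type*} [TopologicalSpace X] [CompactSpace X] [MeasurableSpace X]
  [OpensMeasurableSpace X] [NormedAddCommGroup E]

/-- Continuous functions on compact spaces are integrable. -/
lemma cint {μ : Measure X} [IsFiniteMeasure μ] {f : X → E} (hf : Continuous f) :
    Integrable f μ := hf.integrable_of_hasCompactSupport (HasCompactSupport.of_compactSpace f)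

variable [NormedSpace ℝ E] {a b : ℕ}

/-- Continuity of parametric integrals over a torus. -/
lemma cont_int {f : TT a → TT b → E} (hf : Continuous fun p : TT a × TT b => f p.1 p.2) :
    Continuous fun x => ∫ y, f x y := by
  simpa using continuous_parametric_integral_of_continuous (μ := volume) (f := f) hf isCompact_univ

/-- Fubini for continuous functions. -/
lemma swap_int {f : TT a → TT b → E} (hf : Continuous fun p : TT a × TT b => f p.1 p.2) :
    ∫ x, ∫ y, f x y = ∫ y, ∫ x, f x y := integral_integral_swap (cint hf)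

lemma int_add (f : TT a → E) (y : TT a) : ∫ x, f (x + y) = ∫ x, f x :=
  integral_add_right_eq_self f y

lemma int_sub (f : TT a → E) (y : TT a) : ∫ x, f (x - y) = ∫ x, f x :=
  integral_sub_right_eq_self f y

/-- Continuous surjective homomorphisms of tori preserve the measure. -/
lemma mp_hom (φ : TT a →+ TT b) (hc : Continuous φ) (hs : Function.Surjective φ) :
    MeasurePreserving φ volume volume := φ.measurePreserving hc hs (by simp)

/-- Change of variables along a measure preserving map. -/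
lemma int_mp {α β : Type*} [MeasurableSpace α] [MeasurableSpace β] {μ : Measure α}
    {ν : Measure β} {φ : α → β} (hφ : MeasurePreserving φ μ ν) {f : β → E}
    (hf : AEStronglyMeasurable f ν) : ∫ x, f (φ x) ∂μ = ∫ y, f y ∂ν := by
  rw [← hφ.map_eq] at hf ⊢
  exact (integral_map hφ.measurable.aemeasurable hf).symm

/-- Change of variables in a set integral. -/
lemma setInt_mp {α β : Type*} [MeasurableSpace α] [MeasurableSpace β] {μ : Measure α}
    {ν : Measure β} {φ : α → β} (hφ : MeasurePreserving φ μ ν) {f : β → E} {s : Set β}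
    (hs : MeasurableSet s) (hf : AEStronglyMeasurable f ν) :
    ∫ x in φ ⁻¹' s, f (φ x) ∂μ = ∫ y in s, f y ∂ν :=
  int_mp (hφ.restrict_preimage hs) hf.restrict

lemma int_eval (j : Fin a) {f : UnitAddCircle → E} (hf : Continuous f) :
    ∫ y : TT a, f (y j) = ∫ z, f z :=
  int_mp (measurePreserving_eval (fun _ : Fin a => (volume : Measure UnitAddCircle)) j)
    hf.aestronglyMeasurable

/-- The measure of a box. -/
lemma vol_box (ξ : TT a) (r : Fin a → ℝ) (hr : ∀ j, 0 ≤ r j) :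
    volume.real {x : TT a | ∀ j, ‖x j - ξ j‖ ≤ r j} ≤ ∏ j, 2 * r j := by
  have : {x : TT a | ∀ j, ‖x j - ξ j‖ ≤ r j} =
      Set.univ.pi fun j => Metric.closedBall (ξ j) (r j) := by
    ext x; simp [dist_eq_norm]
  rw [this, Measure.real, volume_pi_pi, ENNReal.toReal_prod]
  refine Finset.prod_le_prod (fun j _ => ENNReal.toReal_nonneg) fun j _ => ?_
  rw [AddCircle.volume_closedBall, ENNReal.toReal_ofReal (le_min zero_le_one (by linarith [hr j]))]
  exact min_le_right _ _

lemma mem_ball_iff {ξ x : TT a} {δ : ℝ} (hδ : 0 ≤ δ) :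
    x ∈ Metric.closedBall ξ δ ↔ ∀ j, ‖x j - ξ j‖ ≤ δ := by
  rw [Metric.mem_closedBall, dist_pi_le_iff hδ]; simp [dist_eq_norm]

lemma vol_ball (ξ : TT a) {δ : ℝ} (hδ : 0 ≤ δ) :
    volume.real (Metric.closedBall ξ δ) ≤ (2 * δ) ^ a := by
  have : Metric.closedBall ξ δ = {x : TT a | ∀ j, ‖x j - ξ j‖ ≤ δ} := by
    ext x; exact mem_ball_iff hδ
  simpa [this] using vol_box ξ (fun _ => δ) fun _ => hδ

end integrals

section chars

variable {n m l : ℕ}

lemma ch_add (ω ω' : Fin n → ℤ) (x : TT n) : ch (ω + ω') x = ch ω x * ch ω' x := by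
  simp [ch, add_smul, Finset.sum_add_distrib, ee_add]

lemma ch_add_pt (ω : Fin n → ℤ) (x y : TT n) : ch ω (x + y) = ch ω x * ch ω y := by
  simp [ch, Finset.sum_add_distrib, ee_add]

@[simp] lemma ch_zero (x : TT n) : ch 0 x = 1 := by simp [ch]

@[simp] lemma norm_ch (ω : Fin n → ℤ) (x : TT n) : ‖ch ω x‖ = 1 := norm_ee _

lemma ch_neg (ω : Fin n → ℤ) (x : TT n) : ch (-ω) x = (starRingEnd ℂ) (ch ω x) := by
  simp [ch, ← ee_neg]

lemma ch_single (i : Fin n) (h : ℤ) (x : TT n) : ch (Pi.single i h) x = ee (h • x i) := by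
  rw [ch, Finset.sum_eq_single i] <;> simp +contextual

@[fun_prop] lemma continuous_ch (ω : Fin n → ℤ) : Continuous (ch ω) := by unfold ch; fun_prop

lemma integral_ch (ω : Fin n → ℤ) : ∫ x, ch ω x = if ω = 0 then 1 else 0 := by
  simp_rw [ch, ee_sum]
  rw [integral_fintype_prod_volume_eq_prod fun i (z : UnitAddCircle) => ee (ω i • z)]
  simp_rw [integral_ee]
  split_ifs with h
  · simp [h]
  · obtain ⟨i, hi⟩ := Function.ne_iff.1 h
    exact Finset.prod_eq_zero (Finset.mem_univ i) (if_neg hi)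

@[fun_prop] lemma continuous_tr (M : (Fin m → ℤ) →+ (Fin l → ℤ)) : Continuous (tr M) := by
  unfold tr; fun_prop

lemma tr_neg (M : (Fin m → ℤ) →+ (Fin l → ℤ)) (v : TT l) : tr (-M) v = - tr M v := by
  ext a; simp [tr]

lemma tr_id (v : TT m) : tr (AddMonoidHom.id _) v = v := by
  ext a; rw [tr, Finset.sum_eq_single a] <;> simp +contextual

lemma ch_tr (M : (Fin m → ℤ) →+ (Fin l → ℤ)) (ω : Fin m → ℤ) (v : TT l) :
    ch ω (tr M v) = ch (M ω) v := by
  have h : M ω = ∑ a, ω a • M (Pi.single a 1) := by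
    conv_lhs => rw [← Finset.univ_sum_single ω]
    rw [map_sum]
    refine Finset.sum_congr rfl fun a _ => ?_
    rw [← map_zsmul, ← Pi.single_smul, smul_eq_mul, mul_one]
  simp only [ch, tr, h, Finset.sum_apply, Pi.smul_apply, smul_eq_mul, Finset.smul_sum,
    Finset.sum_smul, mul_smul]
  rw [Finset.sum_comm]

lemma ch_mem {P : Set (Fin n → ℤ)} {ω : Fin n → ℤ} (h : ω ∈ P) : ch ω ∈ Sp P :=
  Submodule.subset_span ⟨ω, h, rfl⟩

lemma Sp_mono {P Q : Set (Fin n → ℤ)} (h : P ⊆ Q) : Sp P ≤ Sp Q :=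
  Submodule.span_mono (Set.image_mono h)

/-- Induction on trigonometric polynomials. -/
lemma Sp_ind {P : Set (Fin n → ℤ)} {p : (TT n → ℂ) → Prop} (hc : ∀ ω ∈ P, p (ch ω))
    (h0 : p 0) (ha : ∀ f g, f ∈ Sp P → g ∈ Sp P → p f → p g → p (f + g))
    (hs : ∀ (c : ℂ) f, f ∈ Sp P → p f → p (c • f)) {f : TT n → ℂ} (hf : f ∈ Sp P) : p f := by
  induction hf using Submodule.span_induction with
  | mem x hx => obtain ⟨ω, hω, rfl⟩ := hx; exact hc ω hω
  | zero => exact h0
  | add x y hx hy h1 h2 => exact ha x y hx hy h1 h2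
  | smul c x hx h => exact hs c x hx h

lemma Sp_cont {P : Set (Fin n → ℤ)} {f : TT n → ℂ} (hf : f ∈ Sp P) : Continuous f :=
  Sp_ind (fun ω _ => continuous_ch ω) continuous_zero (fun _ _ _ _ => Continuous.add)
    (fun c _ _ h => h.const_smul c) hf

lemma Sp_mul {P Q R : Set (Fin n → ℤ)} {f g : TT n → ℂ} (hf : f ∈ Sp P) (hg : g ∈ Sp Q)
    (h : ∀ a ∈ P, ∀ b ∈ Q, a + b ∈ R) : f * g ∈ Sp R := by
  refine Sp_ind (p := fun f => f * g ∈ Sp R) (fun a ha => ?_) (by simp)
    (fun f f' _ _ h1 h2 => by rw [add_mul]; exact add_mem h1 h2)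
    (fun c f _ h1 => by rw [smul_mul_assoc]; exact Submodule.smul_mem _ c h1) hf
  refine Sp_ind (p := fun g => ch a * g ∈ Sp R) (fun b hb => ?_) (by simp)
    (fun f f' _ _ h1 h2 => by rw [mul_add]; exact add_mem h1 h2)
    (fun c f _ h1 => by rw [mul_smul_comm]; exact Submodule.smul_mem _ c h1) hg
  have : ch a * ch b = ch (a + b) := by ext x; simp [ch_add]
  rw [this]; exact ch_mem (h a ha b hb)

/-- Restriction to a translated subtorus. -/
lemma Sp_tr {P : Set (Fin m → ℤ)} {f : TT m → ℂ} (hf : f ∈ Sp P)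
    (M : (Fin m → ℤ) →+ (Fin l → ℤ)) (x : TT m) : (fun v => f (x + tr M v)) ∈ Sp (M '' P) := by
  refine Sp_ind (p := fun f => (fun v => f (x + tr M v)) ∈ Sp (M '' P)) (fun a ha => ?_)
    (zero_mem _) (fun f f' _ _ h1 h2 => add_mem h1 h2)
    (fun c f _ h1 => Submodule.smul_mem _ c h1) hf
  have : (fun v => ch a (x + tr M v)) = ch a x • ch (M a) := by
    ext v; simp [ch_add_pt, ch_tr]
  rw [this]; exact Submodule.smul_mem _ _ (ch_mem ⟨a, ha, rfl⟩)

lemma Sp_translate {P : Set (Fin m → ℤ)} {f : TT m → ℂ} (hf : f ∈ Sp P) (y : TT m) :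
    (fun x => f (x + y)) ∈ Sp P := by
  simpa [tr_id, add_comm] using Sp_tr hf (AddMonoidHom.id _) y

/-- Orthogonality. -/
lemma Sp_orth {P Q : Set (Fin n → ℤ)} {f g : TT n → ℂ} (hf : f ∈ Sp P) (hg : g ∈ Sp Q)
    (h : Disjoint P Q) : ∫ x, f x * (starRingEnd ℂ) (g x) = 0 := by
  have hgc := Sp_cont hg
  refine Sp_ind (p := fun f => ∫ x, f x * (starRingEnd ℂ) (g x) = 0) (fun a ha => ?_) (by simp)
    (fun f f' hf hf' h1 h2 => ?_) (fun c f _ h1 => ?_) hf
  · refine Sp_ind (p := fun g => ∫ x, ch a x * (starRingEnd ℂ) (g x) = 0) (fun b hb => ?_)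
      (by simp) (fun f f' hf hf' h1 h2 => ?_) (fun c f _ h1 => ?_) hg
    · simp_rw [← ch_neg, ← ch_add]
      rw [integral_ch, if_neg]
      intro h0
      have : a = b := by rwa [← sub_eq_add_neg, sub_eq_zero] at h0
      exact Set.disjoint_left.1 h ha (this ▸ hb)
    · have := Sp_cont hf
      have := Sp_cont hf'
      simp_rw [Pi.add_apply, map_add, mul_add]
      rw [integral_add (cint (by fun_prop)) (cint (by fun_prop)), h1, h2, add_zero]
    · simp_rw [Pi.smul_apply, smul_eq_mul, map_mul, mul_left_comm _ ((starRingEnd ℂ) c)]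
      rw [integral_const_mul, h1, mul_zero]
  · have := Sp_cont hf
    have := Sp_cont hf'
    simp_rw [Pi.add_apply, add_mul]
    rw [integral_add (cint (by fun_prop)) (cint (by fun_prop)), h1, h2, add_zero]
  · simp_rw [Pi.smul_apply, smul_eq_mul, mul_assoc]
    rw [integral_const_mul, h1, mul_zero]

/-- Frequencies of a product over a finite set, coordinate by coordinate. -/
lemma Sp_prod_box {ι : Type*} (s : Finset ι) (f : ι → TT n → ℂ) (b : ι → Fin n → ℤ)
    (hf : ∀ i ∈ s, f i ∈ Sp {h | ∀ j, 0 ≤ h j ∧ h j ≤ b i j}) :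
    (∏ i ∈ s, f i) ∈ Sp {h | ∀ j, 0 ≤ h j ∧ h j ≤ ∑ i ∈ s, b i j} := by
  classical
  induction s using Finset.induction_on with
  | empty =>
    have : (∏ i ∈ (∅ : Finset ι), f i) = ch 0 := by ext x; simp
    rw [this]; exact ch_mem (by simp)
  | insert i s hi ih =>
    rw [Finset.prod_insert hi]
    refine Sp_mul (hf i (Finset.mem_insert_self _ _))
      (ih fun j hj => hf j (Finset.mem_insert_of_mem hj)) fun a ha c hc j => ?_
    rw [Finset.sum_insert hi]
    exact ⟨add_nonneg (ha j).1 (hc j).1, add_le_add (ha j).2 (hc j).2⟩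

/-- Frequencies of the product of Dirichlet kernels. -/
lemma dk_prod_mem (r : Fin n → ℕ) (μ : ℕ) :
    (fun v : TT n => ∏ i, dk (r i) (v i) ^ μ) ∈ Sp {h | ∀ j, 0 ≤ h j ∧ h j ≤ μ * r j} := by
  have h1 : ∀ i, (fun v : TT n => dk (r i) (v i)) ∈
      Sp {h | ∀ j, 0 ≤ h j ∧ h j ≤ (Pi.single i (r i : ℤ) : Fin n → ℤ) j} := fun i => by
    have : (fun v : TT n => dk (r i) (v i)) =
        (r i : ℂ)⁻¹ • ∑ t ∈ Finset.range (r i), ch (Pi.single i (t : ℤ)) := by
      ext v; simp [dk, ch_single]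
    rw [this]
    refine Submodule.smul_mem _ _ (Submodule.sum_mem _ fun t ht => ch_mem fun j => ?_)
    have := Finset.mem_range.1 ht
    by_cases hj : j = i
    · subst hj; simp; omega
    · simp [hj]
  have h2 := Sp_prod_box (Finset.univ ×ˢ Finset.range μ) (fun p v => dk (r p.1) (v p.1))
    (fun p => Pi.single p.1 (r p.1 : ℤ)) fun p _ => h1 p.1
  have e1 : (∏ p ∈ Finset.univ ×ˢ Finset.range μ, fun v : TT n => dk (r p.1) (v p.1)) =
      fun v : TT n => ∏ i, dk (r i) (v i) ^ μ := by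
    ext v; simp [Finset.prod_product]
  rw [e1] at h2
  refine Sp_mono (fun h hh j => ⟨(hh j).1, (hh j).2.trans (le_of_eq ?_)⟩) h2
  rw [Finset.sum_product, Finset.sum_eq_single j] <;> simp +contextual [eq_comm]

@[fun_prop] lemma continuous_Kn (r : Fin l → ℕ) (μ : ℕ) : Continuous (Kn r μ) := by
  unfold Kn; fun_prop

lemma Kn_nonneg (r : Fin l → ℕ) (μ : ℕ) (v : TT l) : 0 ≤ Kn r μ v :=
  Finset.prod_nonneg fun _ _ => by positivity

lemma Kn_eq (r : Fin l → ℕ) (μ p : ℕ) (v : TT l) :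
    Kn r (p * μ) v = (∏ i, (r i : ℝ)) * ‖∏ i, dk (r i) (v i) ^ μ‖ ^ p := by
  simp only [Kn, Finset.prod_mul_distrib, norm_prod, norm_pow, ← Finset.prod_pow, ← pow_mul,
    mul_comm μ p]

end chars

end Pool.Agent.Lib.WC
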