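import Pool.Agent.Lib.WC.Bas1

/-! The inequalities of Hölder, Jensen and Minkowski, and the squared norms `nn`. -/

namespace Pool.Agent.Lib.WC

open MeasureTheory Filter Topology

section ineq

variable {α : Type*} [MeasurableSpace α] {μ : Measure α}

/-- The inequality of Hölder. -/
lemma holder {a b : α → ℝ} (ha : Integrable a μ) (hb : Integrable b μ) (a0 : ∀ x, 0 ≤ a x)
    (b0 : ∀ x, 0 ≤ b x) {θ : ℝ} (h0 : 0 ≤ θ) (h1 : θ ≤ 1) :
    ∫ x, a x ^ θ * b x ^ (1 - θ) ∂μ ≤ (∫ x, a x ∂μ) ^ θ * (∫ x, b x ∂μ) ^ (1 - θ) := by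
  have hA : 0 ≤ ∫ x, a x ∂μ := integral_nonneg a0
  have hB : 0 ≤ ∫ x, b x ∂μ := integral_nonneg b0
  have h1' : 0 ≤ 1 - θ := by linarith
  have key : ∀ η : ℝ, 0 < η → ∫ x, a x ^ θ * b x ^ (1 - θ) ∂μ ≤
      (∫ x, a x ∂μ + η) ^ θ * (∫ x, b x ∂μ + η) ^ (1 - θ) := by
    intro η hη
    set A := ∫ x, a x ∂μ + η with hAd
    set B := ∫ x, b x ∂μ + η with hBd
    have hA0 : 0 < A := by positivity
    have hB0 : 0 < B := by positivity
    have hpt : ∀ x, a x ^ θ * b x ^ (1 - θ) ≤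
        A ^ θ * B ^ (1 - θ) * (θ * (a x / A) + (1 - θ) * (b x / B)) := fun x => by
      have := Real.geom_mean_le_arith_mean2_weighted h0 h1' (div_nonneg (a0 x) hA0.le)
        (div_nonneg (b0 x) hB0.le) (by ring)
      refine le_trans (le_of_eq ?_) (mul_le_mul_of_nonneg_left this (by positivity))
      rw [Real.div_rpow (a0 x) hA0.le, Real.div_rpow (b0 x) hB0.le]
      have := (Real.rpow_pos_of_pos hA0 θ).ne'
      have := (Real.rpow_pos_of_pos hB0 (1 - θ)).ne'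
      field_simp
    have hi1 : Integrable (fun x => θ * (a x / A)) μ := (ha.div_const A).const_mul θ
    have hi2 : Integrable (fun x => (1 - θ) * (b x / B)) μ := (hb.div_const B).const_mul _
    refine (integral_mono_of_nonneg (Eventually.of_forall fun x =>
      mul_nonneg (Real.rpow_nonneg (a0 x) _) (Real.rpow_nonneg (b0 x) _))
      ((hi1.add hi2).const_mul _) (Eventually.of_forall hpt)).trans ?_
    simp only [Pi.add_apply]
    rw [integral_const_mul, integral_add hi1 hi2, integral_const_mul, integral_const_mul,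
      integral_div, integral_div]
    refine mul_le_of_le_one_right (by positivity) ?_
    have e1 : (∫ x, a x ∂μ) / A ≤ 1 := (div_le_one hA0).2 (by linarith)
    have e2 : (∫ x, b x ∂μ) / B ≤ 1 := (div_le_one hB0).2 (by linarith)
    nlinarith
  have hc : Continuous fun η : ℝ => (∫ x, a x ∂μ + η) ^ θ * (∫ x, b x ∂μ + η) ^ (1 - θ) :=
    ((Real.continuous_rpow_const h0).comp (by fun_prop)).mul
      ((Real.continuous_rpow_const h1').comp (by fun_prop))
  have ht := (hc.tendsto 0).mono_left (nhdsWithin_le_nhds (s := Set.Ioi 0))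
  simp only [add_zero] at ht
  exact ge_of_tendsto ht (eventually_mem_nhdsWithin.mono fun η hη => key η hη)

/-- Comparison of moments. -/
lemma holder_pow [IsFiniteMeasure μ] {f : α → ℝ} (f0 : ∀ x, 0 ≤ f x) {p P : ℝ} (hP : 0 < P)
    (hp : 0 ≤ p) (hpP : p ≤ P) (hf : Integrable (fun x => f x ^ P) μ) :
    ∫ x, f x ^ p ∂μ ≤ (∫ x, f x ^ P ∂μ) ^ (p / P) * μ.real Set.univ ^ (1 - p / P) := by
  have := holder hf (integrable_const (1 : ℝ)) (fun x => Real.rpow_nonneg (f0 x) _)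
    (fun _ => zero_le_one) (θ := p / P) (by positivity) ((div_le_one hP).2 hpP)
  simp only [Real.one_rpow, mul_one, integral_const, smul_eq_mul] at this
  refine le_trans (le_of_eq ?_) this
  refine integral_congr_ae (Eventually.of_forall fun x => ?_)
  simp only
  rw [← Real.rpow_mul (f0 x), mul_div_cancel₀ _ hP.ne']

/-- The inequality of Jensen for a weight. -/
lemma jensen {w f : α → ℝ} (w0 : ∀ x, 0 ≤ w x) (f0 : ∀ x, 0 ≤ f x) {q : ℕ} (hq : 1 ≤ q)
    (hw : Integrable w μ) (hf : Integrable (fun x => w x * f x ^ q) μ) :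
    (∫ x, w x * f x ∂μ) ^ q ≤ (∫ x, w x ∂μ) ^ (q - 1) * ∫ x, w x * f x ^ q ∂μ := by
  have hq0 : (0 : ℝ) < q := by exact_mod_cast hq
  have hq1 : (1 : ℝ) ≤ q := by exact_mod_cast hq
  have hθ : (q : ℝ)⁻¹ ≤ 1 := inv_le_one_of_one_le₀ hq1
  have h := holder hf hw (fun x => mul_nonneg (w0 x) (pow_nonneg (f0 x) _)) w0
    (θ := (q : ℝ)⁻¹) (by positivity) hθ
  have e : ∀ x, (w x * f x ^ q) ^ (q : ℝ)⁻¹ * w x ^ (1 - (q : ℝ)⁻¹) = w x * f x := fun x => by
    rw [Real.mul_rpow (w0 x) (pow_nonneg (f0 x) _), Real.pow_rpow_inv_natCast (f0 x) (by omega),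
      mul_right_comm, ← Real.rpow_add' (w0 x) (by simp)]
    simp
  simp_rw [e] at h
  have hA : 0 ≤ ∫ x, w x * f x ^ q ∂μ :=
    integral_nonneg fun x => mul_nonneg (w0 x) (pow_nonneg (f0 x) _)
  have hB : 0 ≤ ∫ x, w x ∂μ := integral_nonneg w0
  refine (pow_le_pow_left₀ (integral_nonneg fun x => mul_nonneg (w0 x) (f0 x)) h q).trans
    (le_of_eq ?_)
  rw [mul_pow, Real.rpow_inv_natCast_pow hA (by omega), ← Real.rpow_natCast, ← Real.rpow_mul hB,
    mul_comm, ← Real.rpow_natCast, Nat.cast_sub hq]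
  congr 2; field_simp; simp

/-- A discrete weighted power mean inequality. -/
lemma radon {ι : Type*} (S : Finset ι) {b σ : ι → ℝ} (b0 : ∀ i ∈ S, 0 ≤ b i)
    (σ0 : ∀ i ∈ S, 0 < σ i) {s : ℕ} (hs : 1 ≤ s) :
    (∑ i ∈ S, b i) ^ s ≤ (∑ i ∈ S, σ i) ^ (s - 1) * ∑ i ∈ S, b i ^ s / σ i ^ (s - 1) := by
  rcases S.eq_empty_or_nonempty with rfl | hS
  · simp [zero_pow (by omega : s ≠ 0)]
  obtain ⟨s, rfl⟩ : ∃ t, s = t + 1 := ⟨s - 1, by omega⟩
  set T := ∑ i ∈ S, σ i with hT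
  have hT0 : 0 < T := Finset.sum_pos σ0 hS
  have := Real.pow_arith_mean_le_arith_mean_pow S (fun i => σ i / T) (fun i => T * b i / σ i)
    (fun i hi => (div_pos (σ0 i hi) hT0).le) (by rw [← Finset.sum_div, div_self hT0.ne'])
    (fun i hi => div_nonneg (mul_nonneg hT0.le (b0 i hi)) (σ0 i hi).le) (s + 1)
  rw [Finset.sum_congr rfl (g := b) fun i hi => by have := (σ0 i hi).ne'; field_simp] at this
  refine this.trans (le_of_eq ?_)
  rw [Finset.mul_sum, Nat.add_sub_cancel]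
  refine Finset.sum_congr rfl fun i hi => ?_
  have := (σ0 i hi).ne'
  rw [div_pow, mul_pow]; field_simp; ring

/-- The inequality of Minkowski for a weight, in power form. -/
lemma minkowski {ι : Type*} (S : Finset ι) {w : α → ℝ} {a : ι → α → ℝ} {β : ι → ℝ} {s : ℕ}
    (hs : 1 ≤ s) (w0 : ∀ x, 0 ≤ w x) (a0 : ∀ j ∈ S, ∀ x, 0 ≤ a j x) (β0 : ∀ j ∈ S, 0 ≤ β j)
    (hi : ∀ j ∈ S, Integrable (fun x => w x * a j x ^ s) μ)
    (hβ : ∀ j ∈ S, ∫ x, w x * a j x ^ s ∂μ ≤ β j ^ s) :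
    ∫ x, w x * (∑ j ∈ S, a j x) ^ s ∂μ ≤ (∑ j ∈ S, β j) ^ s := by
  have key : ∀ η : ℝ, 0 < η → ∫ x, w x * (∑ j ∈ S, a j x) ^ s ∂μ ≤ (∑ j ∈ S, (β j + η)) ^ s := by
    intro η hη
    have σ0 : ∀ j ∈ S, 0 < β j + η := fun j hj => by linarith [β0 j hj]
    have hi' : ∀ j ∈ S, Integrable (fun x => w x * a j x ^ s / (β j + η) ^ (s - 1)) μ :=
      fun j hj => (hi j hj).div_const _
    have hpt : ∀ x, w x * (∑ j ∈ S, a j x) ^ s ≤ (∑ j ∈ S, (β j + η)) ^ (s - 1) *
        ∑ j ∈ S, w x * a j x ^ s / (β j + η) ^ (s - 1) := fun x => by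
      refine (mul_le_mul_of_nonneg_left (radon S (fun j hj => a0 j hj x) σ0 hs) (w0 x)).trans
        (le_of_eq ?_)
      rw [mul_left_comm, Finset.mul_sum]
      simp_rw [mul_div_assoc]
    refine (integral_mono_of_nonneg (Eventually.of_forall fun x => mul_nonneg (w0 x)
      (pow_nonneg (Finset.sum_nonneg fun j hj => a0 j hj x) _))
      ((integrable_finsetSum S hi').const_mul _) (Eventually.of_forall hpt)).trans ?_
    rw [integral_const_mul, integral_finsetSum S hi']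
    have hT : 0 ≤ ∑ j ∈ S, (β j + η) := Finset.sum_nonneg fun j hj => (σ0 j hj).le
    obtain ⟨s, rfl⟩ : ∃ t, s = t + 1 := ⟨s - 1, by omega⟩
    rw [Nat.add_sub_cancel, pow_succ]
    refine mul_le_mul_of_nonneg_left (Finset.sum_le_sum fun j hj => ?_) (pow_nonneg hT _)
    rw [integral_div, div_le_iff₀ (pow_pos (σ0 j hj) _), ← pow_succ']
    exact (hβ j hj).trans (pow_le_pow_left₀ (β0 j hj) (by linarith) _)
  have hc : Continuous fun η : ℝ => (∑ j ∈ S, (β j + η)) ^ s := by fun_prop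
  have ht := (hc.tendsto 0).mono_left (nhdsWithin_le_nhds (s := Set.Ioi 0))
  simp only [add_zero] at ht
  exact ge_of_tendsto ht (eventually_mem_nhdsWithin.mono fun η hη => key η hη)

end ineq

section nn

variable {n s : ℕ} {f g : TT n → ℂ}

lemma nn_nonneg (s : ℕ) (f : TT n → ℂ) : 0 ≤ nn s f :=
  Real.rpow_nonneg (integral_nonneg fun _ => by positivity) _

lemma nn_pow (hs : 1 ≤ s) (f : TT n → ℂ) : nn s f ^ s = ∫ x, ‖f x‖ ^ (2 * s) :=
  Real.rpow_inv_natCast_pow (integral_nonneg fun _ => by positivity) (by omega)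

lemma nn_le_iff (hs : 1 ≤ s) {B : ℝ} (hB : 0 ≤ B) :
    nn s f ≤ B ↔ ∫ x, ‖f x‖ ^ (2 * s) ≤ B ^ s := by
  rw [← nn_pow hs, pow_le_pow_iff_left₀ (nn_nonneg _ _) hB (by omega)]

lemma nn_congr (h : ∀ x, ‖f x‖ = ‖g x‖) : nn s f = nn s g := by simp only [nn, h]

lemma nn_translate (s : ℕ) (f : TT n → ℂ) (y : TT n) : nn s (fun x => f (x + y)) = nn s f := by
  rw [nn, nn, int_add (fun x => ‖f x‖ ^ (2 * s)) y]

lemma nn_zero (hs : 1 ≤ s) : nn s (0 : TT n → ℂ) = 0 :=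
  le_antisymm ((nn_le_iff hs le_rfl).2 (by simp [zero_pow (by omega : 2 * s ≠ 0)]))
    (nn_nonneg _ _)

lemma nn_ch (ω : Fin n → ℤ) : nn s (ch ω) = 1 := by simp [nn]

/-- The trivial decoupling inequality against a weight, in power form. -/
lemma weighted_sum_le {ι : Type*} (S : Finset ι) {w : TT n → ℝ} {f : ι → TT n → ℂ} {β : ι → ℝ}
    (hs : 1 ≤ s) (hw : Continuous w) (w0 : ∀ x, 0 ≤ w x) (hf : ∀ j ∈ S, Continuous (f j))
    (β0 : ∀ j ∈ S, 0 ≤ β j) (hβ : ∀ j ∈ S, ∫ x, w x * ‖f j x‖ ^ (2 * s) ≤ β j ^ s) :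
    ∫ x, w x * ‖(∑ j ∈ S, f j) x‖ ^ (2 * s) ≤ (S.card * ∑ j ∈ S, β j) ^ s := by
  have hi : ∀ j ∈ S, Integrable (fun x => w x * (‖f j x‖ ^ 2) ^ s) := fun j hj => by
    have := hf j hj
    exact cint (by fun_prop)
  have h := minkowski S (a := fun j x => ‖f j x‖ ^ 2) hs w0 (fun _ _ _ => by positivity) β0 hi
    (by simpa only [← pow_mul] using hβ)
  have hc : Continuous fun x => w x * (∑ j ∈ S, ‖f j x‖ ^ 2) ^ s :=
    hw.mul ((continuous_finsetSum S fun j hj => (hf j hj).norm.pow 2).pow s)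
  rw [mul_pow]
  refine le_trans ?_ (mul_le_mul_of_nonneg_left h (by positivity))
  rw [← integral_const_mul]
  refine integral_mono_of_nonneg (Eventually.of_forall fun x => mul_nonneg (w0 x) (by positivity))
    ((cint hc).const_mul _) (Eventually.of_forall fun x => ?_)
  simp only
  rw [mul_left_comm, ← mul_pow, pow_mul, Finset.sum_apply]
  refine mul_le_mul_of_nonneg_left (pow_le_pow_left₀ (by positivity) ?_ _) (w0 x)
  exact (pow_le_pow_left₀ (norm_nonneg _) (norm_sum_le _ _) 2).trans sq_sum_le_card_mul_sum_sq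

/-- The trivial decoupling inequality. -/
lemma nn_sum_le {ι : Type*} (S : Finset ι) {f : ι → TT n → ℂ} (hs : 1 ≤ s)
    (hf : ∀ j ∈ S, Continuous (f j)) : nn s (∑ j ∈ S, f j) ≤ S.card * ∑ j ∈ S, nn s (f j) := by
  rw [nn_le_iff hs (mul_nonneg (Nat.cast_nonneg _) (Finset.sum_nonneg fun j _ => nn_nonneg _ _))]
  simpa using weighted_sum_le S (w := fun _ => 1) hs continuous_const (fun _ => zero_le_one) hf
    (fun j _ => nn_nonneg s (f j)) fun j _ => by simp [nn_pow hs]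

end nn

end Pool.Agent.Lib.WC
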