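import Pool.Agent.Lib.WC.Bas2

/-! Basic facts on triangular numbers, frequency boxes and decoupling constants. -/

namespace Pool.Agent.Lib.WC

open MeasureTheory Polynomial

lemma two_mul_sd (k : ℕ) : 2 * sd k = k * (k + 1) :=
  Nat.mul_div_cancel' (Nat.even_mul_succ_self k).two_dvd

@[simp] lemma sd_zero : sd 0 = 0 := rfl

@[simp] lemma sd_one : sd 1 = 1 := rfl

lemma sd_succ (k : ℕ) : sd (k + 1) = sd k + (k + 1) := by
  have := two_mul_sd k
  have := two_mul_sd (k + 1)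
  nlinarith

lemma sd_cast (k : ℕ) : (sd k : ℝ) = k * (k + 1) / 2 := by
  have : ((2 * sd k : ℕ) : ℝ) = (k * (k + 1) : ℕ) := by rw [two_mul_sd]
  push_cast at this; linarith

lemma sd_strictMono : StrictMono sd := strictMono_nat_of_lt_succ fun k => by rw [sd_succ]; omega

lemma sd_mono : Monotone sd := sd_strictMono.monotone

lemma one_le_sd {k : ℕ} (hk : 1 ≤ k) : 1 ≤ sd k := sd_mono hk

lemma sum_eq_sd (k : ℕ) : ∑ j : Fin k, (j.val + 1) = sd k := by
  induction k with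
  | zero => simp
  | succ k ih => rw [Fin.sum_univ_castSucc, sd_succ, ← ih]; simp

lemma sd_le_sq (k : ℕ) : sd k ≤ k ^ 2 := by
  have := two_mul_sd k
  nlinarith [Nat.le_mul_self k]

section near

variable {k m l : ℕ} {lam : ℚ[X] →ₗ[ℚ] ℚ} {c c' σ σ' : ℚ}

lemma Fam.L_one (F : Fam m) (ω : Fin m → ℤ) : F.L ω 1 = 1 := by
  simp [Fam.L, F.B_one, F.B0_one]

lemma Fam.L_add (F : Fam m) (ω h : Fin m → ℤ) (P : ℚ[X]) : F.L (ω + h) P = F.L ω P + F.B h P := by
  simp [Fam.L]; ring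

/-- Expansion of a functional around another centre. -/
lemma lam_expand (lam : ℚ[X] →ₗ[ℚ] ℚ) (c c' : ℚ) (i : ℕ) :
    lam ((X - C c') ^ i) = ∑ r ∈ Finset.range (i + 1),
      (i.choose r : ℚ) * (c - c') ^ (i - r) * lam ((X - C c) ^ r) := by
  have : (X - C c' : ℚ[X]) = (X - C c) + C (c - c') := by rw [C_sub]; ring
  rw [this, add_pow, map_sum]
  refine Finset.sum_congr rfl fun r _ => ?_
  have : (X - C c) ^ r * C (c - c') ^ (i - r) * (i.choose r : ℚ[X]) =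
      ((i.choose r : ℚ) * (c - c') ^ (i - r)) • (X - C c) ^ r := by
    rw [smul_eq_C_mul, C_mul, C_pow, map_natCast]; ring
  rw [this, map_smul, smul_eq_mul]

lemma Near.le (h : Near k lam c σ) (h1 : lam 1 = 1) {i : ℕ} (hi : i ≤ k) :
    |lam ((X - C c) ^ i)| ≤ σ ^ i := by
  rcases Nat.eq_zero_or_pos i with rfl | h0
  · simp [h1]
  · exact h i h0 hi

/-- Boxes are nested. -/
lemma Near.mono (h : Near k lam c σ) (h1 : lam 1 = 1) (hσ : 0 ≤ σ) (hc : σ + |c - c'| ≤ σ') :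
    Near k lam c' σ' := by
  intro i _ hi
  rw [lam_expand lam c c' i]
  refine (Finset.abs_sum_le_sum_abs _ _).trans (le_trans ?_
    (pow_le_pow_left₀ (by positivity) hc i))
  rw [add_pow]
  refine Finset.sum_le_sum fun r hr => ?_
  have hr' : r ≤ k := by have := Finset.mem_range.1 hr; omega
  rw [abs_mul, abs_mul, abs_pow, Nat.abs_cast]
  calc (i.choose r : ℚ) * |c - c'| ^ (i - r) * |lam ((X - C c) ^ r)|
      ≤ (i.choose r : ℚ) * |c - c'| ^ (i - r) * σ ^ r :=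
        mul_le_mul_of_nonneg_left (h.le h1 hr') (by positivity)
    _ = _ := by ring

lemma In_mono (F : Fam m) (hσ : 0 ≤ σ) (hc : σ + |c - c'| ≤ σ') : In k F c σ ⊆ In k F c' σ' :=
  fun ω h => Near.mono h (F.L_one ω) hσ hc

lemma InC_mono (G : Fam m) {t ρ : ℚ} (hσ : 0 ≤ σ) (hc : σ + |c - c'| ≤ σ') :
    InC k l G c σ t ρ ⊆ InC k l G c' σ' t ρ :=
  fun _ ⟨lam, h1, h2, h3⟩ => ⟨lam, h1, h2.mono h1 hσ hc, h3⟩

lemma stdFam_B (h : Fin k → ℤ) (P : ℚ[X]) :
    (stdFam k).B h P = ∑ j : Fin k, (h j : ℚ) * P.coeff (j.val + 1) := by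
  simp [stdFam, LinearMap.sum_apply]

/-- On the moment curve the standard functional is evaluation. -/
lemma stdFam_mom (n : ℤ) {P : ℚ[X]} (hP : P.natDegree ≤ k) :
    (stdFam k).L (mom k n) P = P.eval (n : ℚ) := by
  rw [Fam.L, LinearMap.add_apply, stdFam_B, eval_eq_sum_range' (Nat.lt_succ_of_le hP),
    Finset.sum_range_succ', ← Fin.sum_univ_eq_sum_range fun j => P.coeff (j + 1) * (n : ℚ) ^ (j + 1)]
  simp [stdFam, mom, mul_comm]

lemma mom_mem (n : ℤ) (h : |(n : ℚ) - c| ≤ σ) : mom k n ∈ In k (stdFam k) c σ := by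
  intro i _ hi
  rw [stdFam_mom n (natDegree_pow_le.trans (by rw [natDegree_X_sub_C]; omega))]
  simp only [eval_pow, eval_sub, eval_X, eval_C, abs_pow]
  exact pow_le_pow_left₀ (abs_nonneg _) h i

end near

section mono

variable {k l κ n v u : ℕ} {D D' : ℝ}

lemma Dec.mono (h : Dec k n D) (hD : D ≤ D') : Dec k n D' := fun m F c σ a I f h1 h2 h3 =>
  (h m F c σ a I f h1 h2 h3).trans
    (mul_le_mul_of_nonneg_right hD (Finset.sum_nonneg fun _ _ => nn_nonneg _ _))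

lemma Dec.anti (h : Dec k n D) {n' : ℕ} (hn : n' ≤ n) : Dec k n' D := fun m F c σ a I f h1 h2 h3 =>
  h m F c σ a I f h1 (h2.trans (Finset.Ico_subset_Ico_right (by omega))) h3

lemma Bil.mono (h : Bil k l κ n v u D) (h0 : 0 ≤ D) (hD : D ≤ D') : Bil k l κ n v u D' := by
  intro m F c σ a b b' I I' f g h1 h2 h3 h4 h5 h6 h7 h8
  refine (h m F c σ a b b' I I' f g h1 h2 h3 h4 h5 h6 h7 h8).trans ?_
  have h9 : 0 ≤ ∑ i ∈ I, nn (sd k) (f i) := Finset.sum_nonneg fun _ _ => nn_nonneg _ _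
  have h10 : 0 ≤ ∑ i ∈ I', nn (sd k) (g i) := Finset.sum_nonneg fun _ _ => nn_nonneg _ _
  gcongr

lemma DecE.mono {η η' : ℝ} (h : DecE k η) (hη : η ≤ η') : DecE k η' := by
  obtain ⟨C, hC, h⟩ := h
  refine ⟨C, hC, fun n hn => (h n hn).mono ?_⟩
  exact mul_le_mul_of_nonneg_left
    (Real.rpow_le_rpow_of_exponent_le (by exact_mod_cast hn) hη) (by linarith)

/-- Grouping a sum by the fibres of a map. -/
lemma sum_group {M : Type*} [AddCommMonoid M] (I : Finset ℤ) (g : ℤ → ℤ) (f : ℤ → M) :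
    ∑ j ∈ I, f j = ∑ J ∈ I.image g, ∑ j ∈ I with g j = J, f j :=
  (Finset.sum_fiberwise_of_maps_to (fun _ hj => Finset.mem_image_of_mem g hj) f).symm

/-- The fibre of `j ↦ (j - a) / w` over `J` is an interval of length `w`. -/
lemma ediv_eq_iff {a j J : ℤ} {w : ℕ} (hw : 1 ≤ w) :
    (j - a) / w = J ↔ j ∈ Finset.Ico (a + J * w) (a + J * w + w) := by
  have hw' : (0 : ℤ) < w := by exact_mod_cast hw
  rw [Finset.mem_Ico, Int.ediv_eq_iff_of_pos hw']
  constructor <;> rintro ⟨h1, h2⟩ <;> constructor <;> linarith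

/-- A group of `w` consecutive boxes lies in one box of scale `w σ`. -/
lemma group_le {c σ : ℚ} (hσ : 0 < σ) {b j : ℤ} {w : ℕ} (hj : j ∈ Finset.Ico b (b + w)) :
    σ + |c + j * σ - (c + b * σ)| ≤ w * σ := by
  rw [Finset.mem_Ico] at hj
  have h1 : (b : ℚ) ≤ j := by exact_mod_cast hj.1
  have h2 : (j : ℚ) + 1 ≤ b + w := by exact_mod_cast hj.2
  rw [abs_of_nonneg (by nlinarith)]; nlinarith

end mono

end Pool.Agent.Lib.WC
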