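import Pool.Agent.Lib.WC.Bas3

/-! Basic facts on Weyl sums, shears, dilations and arcs. -/

namespace Pool.Agent.Lib.WC

open MeasureTheory Polynomial

variable {k : ℕ}

section shear

lemma ph_add (x y : TT k) (n : ℤ) : ph (x + y) n = ph x n + ph y n := by
  simp [ph, Finset.sum_add_distrib]

lemma ph_sub (x y : TT k) (n : ℤ) : ph (x - y) n = ph x n - ph y n := by
  simp [ph, smul_sub, Finset.sum_sub_distrib]

@[fun_prop] lemma continuous_ph (n : ℤ) : Continuous fun x : TT k => ph x n := by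
  unfold ph; fun_prop

lemma ch_mom (n : ℤ) (x : TT k) : ch (mom k n) x = ee (ph x n) := rfl

lemma U_apply (t : ℤ) (x : TT k) (j : Fin k) :
    U t x j = ∑ l : Fin k, (((l.val + 1).choose (j.val + 1) : ℤ) * t ^ (l.val - j.val)) • x l := rfl

lemma Dl_apply (q : ℕ) (x : TT k) (j : Fin k) : Dl q x j = q ^ (j.val + 1) • x j := rfl

/-- The binomial theorem over `Fin k`. -/
lemma add_pow_fin {R : Type*} [CommRing R] (n t : R) (l : Fin k) :
    (n + t) ^ (l.val + 1) = t ^ (l.val + 1) +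
      ∑ j : Fin k, n ^ (j.val + 1) * (((l.val + 1).choose (j.val + 1) : R) * t ^ (l.val - j.val)) := by
  rw [Fin.sum_univ_eq_sum_range fun j => n ^ (j + 1) *
    (((l.val + 1).choose (j + 1) : R) * t ^ (l.val - j)), add_pow, Finset.sum_range_succ',
    ← Finset.sum_subset (Finset.range_subset_range.2 (Nat.succ_le_of_lt l.2)), add_comm]
  · congr 1
    · simp
    · exact Finset.sum_congr rfl fun j _ => by rw [Nat.add_sub_add_right]; ring
  · intro j _ hj
    rw [Nat.choose_eq_zero_of_lt (by simp at hj; omega)]; simp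

lemma ph_U (x : TT k) (n t : ℤ) : ph x (n + t) = ph x t + ph (U t x) n := by
  simp only [ph, U_apply, add_pow_fin n t, add_smul, Finset.sum_add_distrib, Finset.sum_smul,
    Finset.smul_sum, mul_smul]
  rw [Finset.sum_comm]

lemma U_U (s t : ℤ) (x : TT k) : U s (U t x) = U (s + t) x := by
  ext j
  simp only [U_apply, Finset.smul_sum, smul_smul]
  rw [Finset.sum_comm]
  refine Finset.sum_congr rfl fun l _ => ?_
  rw [← Finset.sum_smul]
  congr 1
  have h := congrArg (fun P : ℤ[X] => P.coeff (j.val + 1)) (add_pow_fin (X + C s) (C t) l)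
  simp only [add_assoc, ← C_add, coeff_X_add_C_pow, coeff_add, finsetSum_coeff, ← C_pow,
    ← map_natCast C, ← C_mul, coeff_mul_C, coeff_C, Nat.add_sub_add_right] at h
  simp only [Nat.succ_ne_zero, if_false, zero_add] at h
  rw [mul_comm, h]
  exact Finset.sum_congr rfl fun m _ => by ring

@[simp] lemma U_zero (x : TT k) : U 0 x = x := by
  ext j
  rw [U_apply, Finset.sum_eq_single j]
  · simp
  · intro l _ hl
    rcases lt_or_gt_of_ne (Fin.val_ne_of_ne hl) with h | h
    · rw [Nat.choose_eq_zero_of_lt (by omega)]; simp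
    · rw [zero_pow (by omega)]; simp
  · simp

lemma U_neg_U (t : ℤ) (x : TT k) : U (-t) (U t x) = x := by rw [U_U]; simp

/-- The top nonzero coordinate is fixed by the shears. -/
lemma U_top {x : TT k} {i j : Fin k} (hx : ∀ l, i < l → x l = 0) (hj : i ≤ j) (t : ℤ) :
    U t x j = x j := by
  rw [U_apply, Finset.sum_eq_single j]
  · simp
  · intro l _ hl
    rcases lt_or_gt_of_ne hl with h | h
    · rw [Nat.choose_eq_zero_of_lt (by have := Fin.lt_def.1 h; omega)]; simp
    · rw [hx l (lt_of_le_of_lt hj h), smul_zero]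
  · simp

lemma U_last {d : ℕ} (t : ℤ) (x : TT (d + 1)) : U t x (Fin.last d) = x (Fin.last d) :=
  U_top (i := Fin.last d) (fun l hl => absurd hl (not_lt.2 (Fin.le_last l))) le_rfl t

@[fun_prop] lemma continuous_U (t : ℤ) : Continuous (U t : TT k → TT k) :=
  continuous_pi fun j => by simp only [U_apply]; fun_prop

@[fun_prop] lemma continuous_Dl (q : ℕ) : Continuous (Dl q : TT k → TT k) :=
  continuous_pi fun j => by simp only [Dl_apply]; fun_prop

lemma mp_U (t : ℤ) : MeasurePreserving (U t : TT k → TT k) volume volume :=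
  mp_hom _ (continuous_U t) fun y => ⟨U (-t) y, by simpa using U_neg_U (-t) y⟩

lemma nsmul_surj {q : ℕ} (hq : 1 ≤ q) (z : UnitAddCircle) : ∃ w : UnitAddCircle, q • w = z := by
  obtain ⟨x, rfl, -⟩ := exists_rep z
  have hq0 : (q : ℝ) ≠ 0 := by exact_mod_cast (by omega : q ≠ 0)
  exact ⟨((x / q : ℝ) : UnitAddCircle), by
    rw [← AddCircle.coe_nsmul, nsmul_eq_mul, mul_div_cancel₀ _ hq0]⟩

lemma mp_Dl {q : ℕ} (hq : 1 ≤ q) : MeasurePreserving (Dl q : TT k → TT k) volume volume := by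
  refine mp_hom _ (continuous_Dl q) fun y => ?_
  choose w hw using fun j : Fin k => nsmul_surj (Nat.one_le_pow (j.val + 1) q hq) (y j)
  exact ⟨w, funext hw⟩

lemma mp_nsmul {q : ℕ} (hq : 1 ≤ q) : MeasurePreserving (fun x : TT k => q • x) volume volume := by
  refine mp_hom (nsmulAddMonoidHom q) (continuous_nsmul q) fun y => ?_
  choose w hw using fun j : Fin k => nsmul_surj hq (y j)
  exact ⟨w, funext hw⟩

lemma ph_Dl (q : ℕ) (x : TT k) (n : ℤ) : ph (Dl q x) n = ph x (q * n) := by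
  simp only [ph, Dl_apply, mul_pow, mul_smul]
  refine Finset.sum_congr rfl fun j _ => ?_
  rw [smul_comm, ← Nat.cast_pow, natCast_zsmul]

@[fun_prop] lemma continuous_S (N : ℕ) : Continuous (S N : TT k → ℂ) := by unfold S; fun_prop

lemma norm_S_le (N : ℕ) (x : TT k) : ‖S N x‖ ≤ N := by
  simpa [S] using norm_sum_le (Finset.range N) fun n : ℕ => ee (ph x ((n : ℤ) + 1))

lemma S_eq (N : ℕ) : (S N : TT k → ℂ) = ∑ n ∈ Finset.range N, ch (mom k ((n : ℤ) + 1)) := by
  ext x; simp [S, ch_mom]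

lemma S_shift (N : ℕ) (t : ℤ) (x : TT k) :
    ∑ n ∈ Finset.range N, ee (ph x ((n : ℤ) + 1 + t)) = ee (ph x t) * S N (U t x) := by
  simp only [S, ph_U, ee_add, Finset.mul_sum]

lemma S_blocks (w L : ℕ) (x : TT k) : S (w * L) x =
    ∑ i ∈ Finset.range w, ee (ph x ((i : ℤ) * (L : ℕ))) * S L (U ((i : ℤ) * (L : ℕ)) x) := by
  induction w with
  | zero => simp [S]
  | succ w ih =>
    rw [Finset.sum_range_succ, ← ih, ← S_shift, S, S, Nat.succ_mul, Finset.sum_range_add]
    congr 1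
    exact Finset.sum_congr rfl fun n _ => by congr 2; push_cast; ring

lemma norm_S_sub_le (N : ℕ) (x y : TT k) :
    ‖S N x - S N y‖ ≤ N * (2 * Real.pi * ∑ j : Fin k, (N : ℝ) ^ (j.val + 1) * ‖x j - y j‖) := by
  rw [S, S, ← Finset.sum_sub_distrib]
  refine (norm_sum_le _ _).trans ?_
  refine (Finset.sum_le_card_nsmul _ _ _ fun n hn => ?_).trans (by simp; rfl)
  refine (norm_ee_sub_le _ _).trans (mul_le_mul_of_nonneg_left ?_ (by positivity))
  rw [← ph_sub, ph]
  refine (norm_sum_le _ _).trans (Finset.sum_le_sum fun j _ => (norm_zsmul_le' _ _).trans ?_)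
  have : ((n : ℝ) + 1) ≤ N := by exact_mod_cast Finset.mem_range.1 hn
  rw [Pi.sub_apply]
  push_cast
  rw [abs_pow, abs_of_nonneg (by positivity)]
  gcongr

end shear

section arcs

variable {a q N N' : ℕ} {H H' : ℝ} {x : TT k}

lemma Ap.mono (h : Ap a q N H x) (hH : H ≤ H') : Ap a q N H' x := fun j hj =>
  (h j hj).trans (by gcongr)

lemma Ap.anti (h : Ap a q N H x) (hH : 0 ≤ H) (h1 : 1 ≤ N') (hN : N' ≤ N) : Ap a q N' H x :=
  fun j hj => (h j hj).trans (by
    have : (0 : ℝ) < N' := by exact_mod_cast h1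
    gcongr)

lemma Ap.mul (h : Ap a q N H x) (m : ℕ) : Ap a (m * q) N (m * H) x := fun j hj => by
  rw [mul_smul, mul_div_assoc]
  exact (norm_nsmul_le' _ _).trans (mul_le_mul_of_nonneg_left (h j hj) (Nat.cast_nonneg _))

/-- Approximation is stable under shears. -/
lemma Ap.shear (h : Ap a q N H x) (hH : 0 ≤ H) (hN : 1 ≤ N) {t : ℤ} (ht : |t| ≤ N) :
    Ap a q N (4 ^ k * H) (U t x) := by
  intro j hj
  have hN0 : (0 : ℝ) < N := by exact_mod_cast hN
  have ht' : |(t : ℝ)| ≤ N := by exact_mod_cast ht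
  rw [U_apply, Finset.smul_sum]
  refine (norm_sum_le _ _).trans ((Finset.sum_le_card_nsmul _ _
    (2 ^ k * (H / (N : ℝ) ^ (j.val + 1 - a))) fun l _ => ?_).trans ?_)
  · rw [smul_comm]
    refine (norm_zsmul_le' _ _).trans ?_
    by_cases hl : l.val < j.val
    · rw [Nat.choose_eq_zero_of_lt (by omega)]; simp; positivity
    · have h1 : (((l.val + 1).choose (j.val + 1) : ℕ) : ℝ) ≤ 2 ^ k := by
        have := (Nat.choose_le_two_pow (l.val + 1) (j.val + 1)).trans
          (Nat.pow_le_pow_right two_pos (Nat.succ_le_of_lt l.2))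
        exact_mod_cast this
      have h2 := h l (by omega)
      push_cast
      rw [abs_mul, abs_pow, Nat.abs_cast]
      calc _ ≤ 2 ^ k * (N : ℝ) ^ (l.val - j.val) * (H / (N : ℝ) ^ (l.val + 1 - a)) := by gcongr
        _ = _ := by
          rw [show l.val + 1 - a = (l.val - j.val) + (j.val + 1 - a) by omega, pow_add]
          field_simp
  · have h3 : (k : ℝ) ≤ 2 ^ k := by exact_mod_cast Nat.lt_two_pow_self.le
    rw [Finset.card_univ, Fintype.card_fin, nsmul_eq_mul, mul_div_assoc,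
      show (4 : ℝ) ^ k = 2 ^ k * 2 ^ k by rw [← mul_pow]; norm_num, mul_assoc]
    gcongr

lemma Mj.one_le (h : x ∈ Mj k a N H) : 1 ≤ H := by
  obtain ⟨q, h1, h2, -⟩ := h
  exact le_trans (by exact_mod_cast h1) h2

lemma Mj_mono (hH : H ≤ H') : Mj k a N H ⊆ Mj k a N H' :=
  fun _ ⟨q, h1, h2, h3⟩ => ⟨q, h1, h2.trans hH, h3.mono hH⟩

lemma Mj_anti (h1 : 1 ≤ N') (hN : N' ≤ N) : Mj k a N H ⊆ Mj k a N' H :=
  fun _ ⟨q, h2, h3, h4⟩ => ⟨q, h2, h3, h4.anti (le_trans (Nat.cast_nonneg _) h3) h1 hN⟩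

lemma Mj_shear (h : x ∈ Mj k a N H) (hN : 1 ≤ N) {t : ℤ} (ht : |t| ≤ N) :
    U t x ∈ Mj k a N (4 ^ k * H) := by
  have h0 : 0 ≤ H := zero_le_one.trans (Mj.one_le h)
  obtain ⟨q, h1, h2, h3⟩ := h
  exact ⟨q, h1, h2.trans (le_mul_of_one_le_left h0 (one_le_pow₀ (by norm_num))),
    h3.shear h0 hN ht⟩

lemma Mj_sub_single {d : ℕ} (y : TT (d + 1)) (γ : UnitAddCircle) :
    y - Pi.single 0 γ ∈ Mj (d + 1) 1 N H ↔ y ∈ Mj (d + 1) 1 N H := by
  refine exists_congr fun q => and_congr_right fun _ => and_congr_right fun _ =>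
    forall₂_congr fun j hj => ?_
  have : j ≠ 0 := by rintro rfl; simp at hj
  simp [this]

lemma isClosed_Ap (a q N : ℕ) (H : ℝ) : IsClosed {x : TT k | Ap a q N H x} := by
  simp only [Ap, Set.ofPred_forall]
  exact isClosed_iInter fun j => isClosed_iInter fun _ => isClosed_le (by fun_prop) (by fun_prop)

lemma Mj_eq (a N : ℕ) (H : ℝ) :
    Mj k a N H = ⋃ q ∈ Finset.Icc 1 ⌊H⌋₊, {x : TT k | Ap a q N H x} := by
  ext x
  simp only [Mj, Set.mem_ofPred_eq, Finset.mem_Icc, Set.mem_iUnion, exists_prop]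
  refine exists_congr fun q => ?_
  rw [and_assoc]
  exact and_congr_right fun h => and_congr_left fun _ => (Nat.le_floor_iff' (by omega)).symm

lemma measurableSet_Mj (a N : ℕ) (H : ℝ) : MeasurableSet (Mj k a N H) := by
  rw [Mj_eq]
  exact Finset.measurableSet_biUnion _ fun q _ => (isClosed_Ap a q N H).measurableSet

lemma measurableSet_Zr (N : ℕ) : MeasurableSet (Zr k N) := (isClosed_Ap _ _ _ _).measurableSet

lemma measurableSet_Bd (N : ℕ) (H : ℝ) : MeasurableSet (Bd N H) := by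
  have : Bd N H = ⋃ q : ℕ, {z | 1 ≤ q ∧ (q : ℝ) ≤ H ∧ ‖q • z‖ ≤ H / N} := by ext; simp [Bd]
  rw [this]
  refine MeasurableSet.iUnion fun q => ?_
  exact (MeasurableSet.const _).inter ((MeasurableSet.const _).inter
    (isClosed_le (by fun_prop) (by fun_prop) :
      IsClosed {z : UnitAddCircle | ‖q • z‖ ≤ H / N}).measurableSet)

/-- The measure of the major arcs. -/
lemma vol_Mj {T : ℝ} (hT : 0 ≤ T) :
    volume.real (Mj k 0 N T) ≤ T * (2 * T) ^ k / (N : ℝ) ^ sd k := by
  rw [Mj_eq]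
  refine (measureReal_biUnion_finset_le _ _).trans ((Finset.sum_le_card_nsmul _ _
    ((2 * T) ^ k / (N : ℝ) ^ sd k) fun q hq => ?_).trans ?_)
  · have hq1 := (Finset.mem_Icc.1 hq).1
    have e : {x : TT k | Ap 0 q N T x} = (fun x : TT k => q • x) ⁻¹'
        {x | ∀ j, ‖x j - (0 : TT k) j‖ ≤ T / (N : ℝ) ^ (j.val + 1)} := by
      ext x; simp [Ap]
    have hm : MeasurableSet {x : TT k | ∀ j, ‖x j - (0 : TT k) j‖ ≤ T / (N : ℝ) ^ (j.val + 1)} := by
      simp only [Set.ofPred_forall]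
      exact (isClosed_iInter fun j => isClosed_le (by fun_prop) (by fun_prop)).measurableSet
    rw [e, (mp_nsmul hq1).measureReal_preimage hm.nullMeasurableSet]
    refine (vol_box 0 _ fun j => by positivity).trans (le_of_eq ?_)
    simp only [← mul_div_assoc, Finset.prod_div_distrib, Finset.prod_pow_eq_pow_sum, sum_eq_sd]
    simp
  · rw [Nat.card_Icc, Nat.add_sub_cancel, nsmul_eq_mul, mul_div_assoc]
    exact mul_le_mul_of_nonneg_right (Nat.floor_le hT) (by positivity)

lemma cnt_le (N : ℕ) (E : Set (TT k)) (y : TT k) : cnt N E y ≤ N := by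
  classical
  simpa [cnt] using Finset.card_filter_le (Finset.range N) _

lemma cnt_mono (N : ℕ) {E E' : Set (TT k)} (h : E ⊆ E') (y : TT k) : cnt N E y ≤ cnt N E' y := by
  classical
  unfold cnt
  refine Finset.card_le_card fun t ht => ?_
  simp only [Finset.mem_filter] at ht ⊢
  exact ⟨ht.1, h ht.2⟩

lemma cnt_eq_zero_or (N : ℕ) (E : Set (TT k)) (y : TT k) :
    cnt N E y = 0 ∨ ∃ t : ℕ, t < N ∧ U ((t : ℤ) + 1) y ∈ E := by
  classical
  by_cases h : cnt N E y = 0
  · exact Or.inl h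
  · obtain ⟨t, ht⟩ := Finset.card_ne_zero.1 h
    simp only [Finset.mem_filter, Finset.mem_range] at ht
    exact Or.inr ⟨t, ht⟩

end arcs

section weights

lemma wt_nonneg {R : ℝ} (hR : 0 ≤ R) (z : UnitAddCircle) : 0 ≤ wt R z := by
  unfold wt; positivity

lemma continuous_wt {R : ℝ} (hR : 0 ≤ R) : Continuous (wt R) :=
  continuous_const.div (by fun_prop) fun z => by positivity

lemma Wk_nonneg (M : ℕ) (z : TT k) : 0 ≤ Wk M z :=
  Finset.prod_nonneg fun _ _ => wt_nonneg (by positivity) _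

@[fun_prop] lemma continuous_Wk (M : ℕ) : Continuous (Wk M : TT k → ℝ) :=
  continuous_finsetProd _ fun j _ => (continuous_wt (by positivity)).comp (continuous_apply j)

lemma le_sg (M : ℕ) (y : TT k) : (M : ℝ) ≤ sg M y :=
  le_add_of_nonneg_right (integral_nonneg fun z => mul_nonneg (Wk_nonneg M z) (by positivity))

@[fun_prop] lemma continuous_sg (M : ℕ) : Continuous (sg M : TT k → ℝ) :=
  continuous_const.add (cont_int (f := fun y z => Wk M z * ‖S M (y + z)‖ ^ 2) (by fun_prop))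

@[fun_prop] lemma continuous_sig (M n : ℕ) : Continuous (sig M n : TT k → ℝ) := by
  unfold sig; fun_prop

lemma sig_pos {M n : ℕ} (hM : 1 ≤ M) (hn : 1 ≤ n) (y : TT k) : 0 < sig M n y :=
  Finset.sum_pos (fun _ _ => lt_of_lt_of_le (by exact_mod_cast hM) (le_sg M _))
    ⟨0, Finset.mem_range.2 hn⟩

lemma sig_mul (M n w : ℕ) (y : TT k) :
    sig M (w * n) y = ∑ i ∈ Finset.range w, sig M n (U ((i : ℤ) * (n * M : ℕ)) y) := by
  induction w with
  | zero => simp [sig]
  | succ w ih =>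
    rw [Finset.sum_range_succ, ← ih, sig, sig, sig, Nat.succ_mul, Finset.sum_range_add]
    congr 1
    refine Finset.sum_congr rfl fun j _ => ?_
    rw [U_U, show ((w * n + j : ℕ) : ℤ) * M = (j : ℤ) * M + (w : ℤ) * (n * M : ℕ) by
      push_cast; ring]

lemma one_le_Th (M L : ℕ) (v : TT k) : 1 ≤ Th M L v :=
  Finset.prod_induction _ (fun x : ℝ => 1 ≤ x) (fun _ _ => one_le_mul_of_one_le_of_one_le) le_rfl
    fun _ _ => le_add_of_nonneg_right (by positivity)

@[fun_prop] lemma continuous_Th (M L : ℕ) : Continuous (Th M L : TT k → ℝ) := by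
  unfold Th; fun_prop

@[fun_prop] lemma continuous_Kk (M L : ℕ) : Continuous (Kk M L : TT k → ℝ) := continuous_Kn _ _

lemma Kk_nonneg (M L : ℕ) (v : TT k) : 0 ≤ Kk M L v := Kn_nonneg _ _ _

end weights

end Pool.Agent.Lib.WC
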