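import Pool.Agent.Lib.WC.Bas4
import Pool.Agent.Lib.MP_4e7873_nt.Defs

/-! Statements of the blocks of the near-critical small cube estimate. -/

namespace Pool.Agent.Lib.WC

open MeasureTheory Polynomial Finset

/-! ### Part one: decoupling for the moment curve -/

/-- Kernel estimates. -/
structure St_KER : Prop where
  decay : ∀ (r : ℕ) (z : UnitAddCircle), 1 ≤ r → ‖dk r z‖ * (1 + r * ‖z‖) ≤ 3 / 2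
  l2 : ∀ r : ℕ, 1 ≤ r → ∫ z, (r : ℝ) * ‖dk r z‖ ^ 2 = 1
  low : ∀ (r : ℕ) (z : UnitAddCircle), 1 ≤ r → 10 * r * ‖z‖ ≤ 1 → 1 / 2 ≤ ‖dk r z‖
  mass : ∀ r μ : ℕ, 1 ≤ r → 1 / (5 * 2 ^ μ) ≤ ∫ z, (r : ℝ) * ‖dk r z‖ ^ μ
  tail : ∀ (R b : ℝ) (ζ : UnitAddCircle), 0 < R → 1 < b →
    ∫ z, R / (1 + R * ‖z - ζ‖) ^ b ≤ 2 / (b - 1)
  kn : ∀ (l μ : ℕ) (r : Fin l → ℕ), (∀ i, 1 ≤ r i) → 2 ≤ μ → ∫ v, Kn r μ v ≤ 1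
  wk : ∀ k M : ℕ, 1 ≤ M → ∫ z : TT k, Wk M z ≤ 2 ^ k

/-- The uncertainty principle. -/
def St_UP : Prop :=
  ∀ (m l : ℕ) (M : (Fin m → ℤ) →+ (Fin l → ℤ)) (o : Fin l → ℝ) (r : Fin l → ℕ) (μ q : ℕ)
    (g : TT m → ℂ) (x : TT m), (∀ i, 1 ≤ r i) → 2 ≤ μ → 1 ≤ q →
    g ∈ Sp {ω | ∀ i, |(M ω i : ℝ) + o i| ≤ r i} →
    ‖g x‖ ^ q ≤ ((μ : ℝ) + 3) ^ (l * q) * ∫ v, Kn r μ v * ‖g (x + tr M v)‖ ^ q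

/-- Elementary decoupling facts. -/
structure St_C1 : Prop where
  one : ∀ n : ℕ, Dec 1 n 3
  triv : ∀ k n : ℕ, 1 ≤ k → Dec k n n
  rad : ∀ (k lam n : ℕ) (D : ℝ), 1 ≤ k → 1 ≤ lam → 0 ≤ D → Dec k n D → DecR k lam n (lam * D)

/-- A dual basis for the projected curve. -/
def St_DB : Prop :=
  ∀ l r μ : ℕ, 1 ≤ μ → μ ≤ l → ∃ ε e : ℕ → ℚ,
    (C (ε 0) + ∑ i ∈ Ioc r (r + l), C (ε i) * X ^ i : ℚ[X]) =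
      (X - 1) ^ μ + ∑ i ∈ Ioc l (r + l), C (e i) * (X - 1) ^ i

/-- A short piece of the projected curve is a moment curve of lower degree. -/
def St_GC1 : Prop :=
  ∀ k l κ K : ℕ, 1 ≤ l → l ≤ k → 1 ≤ κ → ∃ lam : ℕ, 1 ≤ lam ∧
    ∀ (m : ℕ) (G : Fam m) (c τ S t ρ : ℚ) (w : ℕ), 0 < τ → 0 ≤ ρ → w * τ ≤ S →
      S ≤ 2 * κ * |c - t| → |c - t| ≤ 2 * S → (w * τ / S) ^ (l + 1) ≤ (τ / S) ^ l →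
      (∀ i, k - l < i → i ≤ k → (ρ / S) ^ i ≤ K * (τ / S) ^ l) →
      ∃ G' : Fam m, ∀ j : ℤ, 0 ≤ j → j < w →
        InC k l G (c + j * τ) τ t ρ ⊆ In l G' (c + j * τ) (lam * τ)

/-- Decoupling for the projected curve. -/
def St_GC2 : Prop :=
  ∀ (k l κ K : ℕ) (ε : ℝ), 1 ≤ l → l ≤ k → 1 ≤ κ → 0 < ε → DecAll l → ∃ C : ℝ, 1 ≤ C ∧
    ∀ (m : ℕ) (G : Fam m) (c τ S t ρ : ℚ) (I : Finset ℤ) (f : ℤ → TT m → ℂ), 0 < τ → τ ≤ S →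
      0 ≤ ρ → (∀ i, k - l < i → i ≤ k → (ρ / S) ^ i ≤ K * (τ / S) ^ l) →
      (∀ j ∈ I, S / κ - τ ≤ |c + j * τ - t| ∧ |c + j * τ - t| ≤ S + τ) →
      (∀ j ∈ I, f j ∈ Sp (InC k l G (c + j * τ) τ t ρ)) →
      nn (sd l) (∑ j ∈ I, f j) ≤ C * ((S / τ : ℚ) : ℝ) ^ ε * ∑ j ∈ I, nn (sd l) (f j)

/-- Integral coordinates for the projection. -/
def St_LD0 : Prop :=
  ∀ (k l m : ℕ) (F : Fam m) (t ρ : ℚ), l ≤ k → 0 < ρ →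
    ∃ (Q : ℕ) (M : (Fin m → ℤ) →+ (Fin l → ℤ)) (o : Fin l → ℝ) (G : Fam l), 1 ≤ Q ∧
      (∀ ω ∈ In k F t ρ, ∀ i, |(M ω i : ℝ) + o i| ≤ Q) ∧
      ∀ c τ : ℚ, ∀ ω ∈ In k F c τ, ∀ h : Fin l → ℤ, (∀ i, 0 ≤ h i ∧ h i ≤ Q) →
        h - M ω ∈ InC k l G c τ t ρ

/-- Decoupling of lower degree against a weight. -/
def St_LD1 : Prop :=
  ∀ (k l κ K q : ℕ) (ε : ℝ), 1 ≤ l → l ≤ k → 1 ≤ κ → 1 ≤ q → 0 < ε → DecAll l →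
    ∃ C : ℝ, 1 ≤ C ∧ ∀ (m : ℕ) (F : Fam m) (c τ S t ρ : ℚ) (I : Finset ℤ) (f : ℤ → TT m → ℂ)
      (g : TT m → ℂ) (β : ℤ → ℝ), 0 < τ → τ ≤ S → 0 < ρ →
      (∀ i, k - l < i → i ≤ k → (ρ / S) ^ i ≤ K * (τ / S) ^ l) →
      (∀ j ∈ I, S / κ - τ ≤ |c + j * τ - t| ∧ |c + j * τ - t| ≤ S + τ) →
      (∀ j ∈ I, f j ∈ Sp (In k F (c + j * τ) τ)) → g ∈ Sp (In k F t ρ) →
      (∀ j ∈ I, 0 ≤ β j) →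
      (∀ j ∈ I, ∀ y, ∫ x, ‖f j x‖ ^ (2 * sd l) * ‖g (x + y)‖ ^ (2 * q) ≤ β j ^ sd l) →
      ∫ x, ‖(∑ j ∈ I, f j) x‖ ^ (2 * sd l) * ‖g x‖ ^ (2 * q) ≤
        (C * ((S / τ : ℚ) : ℝ) ^ ε * ∑ j ∈ I, β j) ^ sd l

/-- The key step of the bilinear iteration. -/
def St_LD : Prop :=
  ∀ (k l κ K : ℕ) (ε : ℝ), 1 ≤ l → l < k → 1 ≤ κ → 0 < ε → DecAll l → ∃ C : ℝ, 1 ≤ C ∧
    ∀ (n u' u : ℕ) (B : ℝ), 1 ≤ u' → u' ≤ n → 1 ≤ u → 0 ≤ B →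
      (∀ i, k - l < i → i ≤ k → u ^ i * n ^ l ≤ K * (u' ^ l * n ^ i)) →
      Bil k l κ n u' u B → Bil k l κ n n u (C * (n : ℝ) ^ ε * B)

/-- Consequences of the inequality of Hölder. -/
structure St_HOL : Prop where
  hol : ∀ (k l κ n u' u : ℕ) (B₁ B₂ : ℝ), 1 ≤ l → l < k → 0 ≤ B₁ → 0 ≤ B₂ →
    Bil k (k - l) κ n n u' B₁ → Bil k (l - 1) κ n n u B₂ →
    Bil k l κ n u' u (B₁ ^ (1 / ((k : ℝ) - l + 1)) * B₂ ^ (((k : ℝ) - l) / ((k : ℝ) - l + 1)))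
  zero : ∀ (k κ n v u : ℕ) (D : ℝ), 1 ≤ k → Dec k u D → Bil k 0 κ n v u D
  triv : ∀ (k l κ n v u : ℕ) (D : ℝ), 1 ≤ k → l ≤ k → Dec k n D → Bil k l κ n v u D

/-- Splitting the second family. -/
def St_SPW : Prop :=
  ∀ (k l κ n u P : ℕ) (B : ℝ), l < k → 1 ≤ u → 1 ≤ P → n ≤ P * u → 0 ≤ B →
    Bil k l κ n n u B → Bil k l κ n n n (P * B)

/-- The bilinear reduction. -/
structure St_BN : Prop where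
  step : ∀ (k l κ n w : ℕ) (D B : ℝ), 1 ≤ k → l ≤ k → 1 ≤ w → n ≤ κ * w → 0 ≤ D → 0 ≤ B →
    Dec k w D → Bil k l κ n n n B → Dec k n (3 * D + κ * B)
  iter : ∀ (k : ℕ) (η : ℝ), 1 ≤ k → 0 < η →
    (∀ κ : ℕ, 1 ≤ κ → ∃ l, l ≤ k ∧ ∃ C : ℝ, 1 ≤ C ∧
      ∀ n : ℕ, 1 ≤ n → Bil k l κ n n n (C * (n : ℝ) ^ η)) → DecE k η

/-- The iteration of the bilinear estimates. -/
def St_BOOT1 : Prop :=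
  ∀ (k : ℕ) (η : ℝ) (m : ℕ), 2 ≤ k → 0 < η → (∀ l, 1 ≤ l → l < k → DecAll l) → DecE k η →
    ∃ l, 1 ≤ l ∧ l < k ∧ ∀ (κ : ℕ) (b ε : ℝ), 1 ≤ κ → 0 ≤ b → b ≤ 1 / (k : ℝ) ^ m → 0 < ε →
      ∃ C : ℝ, 1 ≤ C ∧ ∀ n u : ℕ, 1 ≤ n → 1 ≤ u → (u : ℝ) ≤ 2 * (n : ℝ) ^ (1 - b) →
        Bil k l κ n n u (C * (n : ℝ) ^ (η * (1 - m / k * b) + ε))

/-- Sharp decoupling in every degree. -/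
def St_DEC : Prop := ∀ k, 1 ≤ k → DecAll k

/-- The mean value theorem of Vinogradov. -/
def St_VM : Prop :=
  ∀ (k : ℕ) (ε : ℝ), 1 ≤ k → 0 < ε → ∃ C : ℝ, 1 ≤ C ∧ ∀ N : ℕ, 1 ≤ N →
    ∫ x : TT k, ‖S N x‖ ^ (2 * sd k) ≤ C * (N : ℝ) ^ ((sd k : ℝ) + ε)

/-! ### Part two: large Weyl sums -/

/-- Splitting into short progressions. -/
def St_SPL : Prop :=
  ∀ k N q N'' : ℕ, 1 ≤ q → q ≤ N → 1 ≤ N'' →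
    ∃ (P : Finset (ℕ × ℕ)) (t : ℕ × ℕ → ℤ) (len : ℕ × ℕ → ℕ), (P.card : ℝ) ≤ N / N'' + q ∧
      (∀ p ∈ P, |t p| ≤ N ∧ len p ≤ N'') ∧
      ∀ x : TT k, ‖S N x‖ ≤ ∑ p ∈ P, ‖S (len p) (Dl q (U (t p) x))‖

/-- The recurrence lemma of Vinogradov. -/
def St_VIN : Prop :=
  ∀ (α : UnitAddCircle) (N : ℕ) (η ε : ℝ), 0 < η → η ≤ 1 → 0 ≤ ε → 32 * ε ≤ η →
    16 ≤ η ^ 2 * N → η * N ≤ ((Icc 1 N).filter fun h : ℕ => ‖h • α‖ ≤ ε).card →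
    ∃ q : ℕ, 1 ≤ q ∧ (q : ℝ) ≤ 2 / η ∧ ‖q • α‖ ≤ 16 * ε / (η ^ 2 * N)

/-- The leading coefficient of a large Weyl sum. -/
def St_LEAD : Prop :=
  ∀ (k : ℕ) (i : Fin k), ∃ A : ℕ, ∀ (N N' : ℕ) (H : ℝ) (x : TT k), 1 ≤ N → N' ≤ N → 2 ≤ H →
    (∀ j, i < j → x j = 0) → N / H ≤ ‖S N' x‖ →
    ∃ q : ℕ, 1 ≤ q ∧ (q : ℝ) ≤ H ^ A ∧ ‖q • x i‖ ≤ H ^ A / (N : ℝ) ^ (i.val + 1)

/-- Large Weyl sums lie on major arcs. -/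
def St_INV : Prop :=
  ∀ k : ℕ, ∃ A : ℕ, 1 ≤ A ∧ ∀ (N N' : ℕ) (H : ℝ) (x : TT k), 1 ≤ N → N' ≤ N → 2 ≤ H →
    N / H ≤ ‖S N' x‖ → x ∈ Mj k 0 N (H ^ A)

/-- Triangular back substitution. -/
def St_TRI : Prop :=
  ∀ k : ℕ, ∃ A : ℕ, ∀ (N q : ℕ) (H : ℝ) (h : ℤ) (y : TT k), 1 ≤ N → 2 ≤ H → h ≠ 0 →
    (|h| : ℝ) ≤ H → 1 ≤ q → (q : ℝ) ≤ H → Ap 0 q N H (U h y - y) → y ∈ Mj k 1 N (H ^ A)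

/-- The first derivative test. -/
def St_KL1 : Prop :=
  ∀ k : ℕ, ∃ C : ℝ, 1 ≤ C ∧ ∀ (φ : ℝ[X]) (N : ℕ) (lam : ℝ), φ.natDegree ≤ k → 0 < lam →
    lam ≤ 1 / 4 → (∀ n ∈ range N, |φ.eval ((n : ℝ) + 2) - φ.eval ((n : ℝ) + 1)| ≤ 3 / 4) →
    ‖∑ n ∈ (range N).filter fun n : ℕ => lam ≤ |φ.eval ((n : ℝ) + 2) - φ.eval ((n : ℝ) + 1)|,
      ee ((φ.eval ((n : ℝ) + 1) : ℝ) : UnitAddCircle)‖ ≤ C / lam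

/-- The sublevel set estimate. -/
def St_KL2 : Prop :=
  ∀ k : ℕ, 1 ≤ k → ∃ C : ℝ, 1 ≤ C ∧ ∀ (φ : ℝ[X]) (N : ℕ) (W : Finset ℕ) (lam : ℝ),
    φ.natDegree ≤ k → W ⊆ range N → 2 * k ≤ W.card →
    (∀ n ∈ W, |φ.eval ((n : ℝ) + 2) - φ.eval ((n : ℝ) + 1)| ≤ lam) → ∀ j, 1 ≤ j →
    |φ.coeff j| * (N : ℝ) ^ (j - 1) ≤ C * lam * ((N : ℝ) / W.card) ^ (k - 1)

/-- The pointwise bound near the origin. -/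
def St_KL : Prop :=
  ∀ k : ℕ, 1 ≤ k → ∃ C : ℝ, 1 ≤ C ∧ ∀ (N N₁ : ℕ) (x : TT k), 1 ≤ N → N₁ ≤ N → x ∈ Zr k N →
    ∀ j : Fin k, ‖S N₁ x‖ ^ k * (1 + (N : ℝ) ^ (j.val + 1) * ‖x j‖) ≤ C * (N : ℝ) ^ k

/-- The mean value near the origin. -/
def St_LP : Prop :=
  ∀ k : ℕ, 1 ≤ k → ∃ C : ℝ, 1 ≤ C ∧ ∀ N N₁ : ℕ, 1 ≤ N → N₁ ≤ N →
    ∫ x in Zr k N, ‖S N₁ x‖ ^ (k ^ 2 + 1) ≤ C * (N : ℝ) ^ (k ^ 2 + 1) / (N : ℝ) ^ sd k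

/-- The mean value over the wide arcs. -/
def St_YS : Prop :=
  ∀ k : ℕ, 1 ≤ k → ∃ (A : ℕ) (C : ℝ), 1 ≤ A ∧ 1 ≤ C ∧ ∀ (N : ℕ) (H : ℝ), 1 ≤ N → 2 ≤ H →
    ∫ x in Mj k 1 N H, ‖S N x‖ ^ (k ^ 2 + 1) ≤
      C * H ^ A * (N : ℝ) ^ (k ^ 2 + 1) / (N : ℝ) ^ sd k

/-- Removing a rational point. -/
def St_MA0 : Prop :=
  ∀ k : ℕ, ∃ C : ℝ, 1 ≤ C ∧ ∀ (N q : ℕ) (T : ℝ) (ρ β : TT k), 1 ≤ N → 1 ≤ q → 0 ≤ T →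
    q • ρ = 0 → Ap 0 1 N T β → ‖S N (ρ + β)‖ ≤ ‖S N β‖ + C * q * (1 + T)

/-- The major arcs inside a small cube. -/
def St_MA : Prop :=
  ∀ k : ℕ, 1 ≤ k → ∃ (B : ℕ) (C : ℝ), 1 ≤ C ∧ ∀ (N : ℕ) (T δ : ℝ) (ξ : TT k), 2 ≤ T →
    T ^ B ≤ N → 0 < δ → 4 * δ * T ^ 2 ≤ 1 →
    ∫ x in Metric.closedBall ξ δ ∩ Mj k 0 N T, ‖S N x‖ ^ (k ^ 2 + 1) ≤
      C * (N : ℝ) ^ (k ^ 2 + 1) / (N : ℝ) ^ sd k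

/-- The part of the wide arcs off the major arcs. -/
def St_LEV : Prop :=
  ∀ k : ℕ, 1 ≤ k → ∃ (A : ℕ) (C : ℝ), 1 ≤ A ∧ 1 ≤ C ∧ ∀ (N : ℕ) (H p : ℝ), 1 ≤ N → 2 ≤ H →
    (k : ℝ) ^ 2 + 3 / 2 ≤ p →
    ∫ x in Mj k 1 N H \ Mj k 0 N (H ^ A), ‖S N x‖ ^ p ≤ C * (N : ℝ) ^ (p - sd k)

/-! ### Part three: translation averaging -/

open Classical in
/-- Counting points in a box by a majorant. -/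
def St_FEJ0 : Prop :=
  ∀ (k r N : ℕ) (J : Finset (Fin k)) (η : ℝ) (P : ℕ → TT k) (ξ : TT k), 1 ≤ r → 0 ≤ η →
    (∀ h : Fin k → ℤ, h ≠ 0 → (∀ j, |h j| < r) → (∀ j, j ∉ J → h j = 0) →
      ‖∑ t ∈ range N, ch h (P t)‖ ≤ η * N) →
    (((range N).filter fun t => ∀ j ∈ J, 10 * r * ‖P t j - ξ j‖ ≤ 1).card : ℝ) ≤
      ((4 / (r : ℝ)) ^ J.card + 4 ^ J.card * η) * N

/-- Equidistribution of the shears in all coordinates but the last. -/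
def St_FEJ1 : Prop :=
  ∀ d : ℕ, ∃ (A : ℕ) (C : ℝ), 1 ≤ A ∧ 1 ≤ C ∧ ∀ (N : ℕ) (δ : ℝ) (y ξ : TT (d + 1)), 1 ≤ N →
    0 < δ → δ ≤ 1 / 20 → y (Fin.last d) ∉ Bd N ((1 / δ) ^ A) →
    (cnt N (Metric.closedBall ξ δ) y : ℝ) ≤ C * δ ^ d * N

/-- Equidistribution of the shears in the first coordinate. -/
def St_FEJ2 : Prop :=
  ∀ d : ℕ, ∃ (A : ℕ) (C : ℝ), 1 ≤ A ∧ 1 ≤ C ∧ ∀ (N : ℕ) (δ : ℝ) (y ξ : TT (d + 1)), 1 ≤ N →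
    0 < δ → δ ≤ 1 / 20 → y ∉ Mj (d + 1) 1 N ((1 / δ) ^ A) →
    (cnt N (Metric.closedBall ξ δ) y : ℝ) ≤ C * δ * N

/-- Averaging over translations and completing. -/
def St_AVG : Prop :=
  ∀ (s : ℕ) (ε : ℝ), 1 ≤ s → 0 < ε → ∃ C : ℝ, 1 ≤ C ∧
    ∀ (d N L : ℕ) (E : Set (TT (d + 1))) (g : TT (d + 1) → ℝ) (B : ℝ), 1 ≤ N → 2 * N ≤ L →
      MeasurableSet E → Measurable g → (∀ y, 0 ≤ g y ∧ g y ≤ B) →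
      (∀ (y : TT (d + 1)) (γ : UnitAddCircle), (cnt N E (y - Pi.single 0 γ) : ℝ) ≤ N * g y) →
      ∫ x in E, ‖S N x‖ ^ (2 * s) ≤ C * (N : ℝ) ^ ε * ∫ y, g y * ‖S L y‖ ^ (2 * s)

/-! ### Part four: the refined inequality -/

/-- Slow variation of the square function. -/
def St_SV : Prop :=
  ∀ (k M L : ℕ) (t : ℤ) (y v : TT k), 1 ≤ M → M ≤ L → |t| ≤ L →
    sg M (U t (y + v)) ≤ (2 ^ k * Th M L v) ^ (2 * k) * sg M (U t y)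

/-- One block. -/
def St_G0 : Prop :=
  ∀ d : ℕ, 1 ≤ d → ∃ C : ℝ, 1 ≤ C ∧ ∀ (M : ℕ) (R : ℝ) (ζ : UnitAddCircle), 1 ≤ M → 0 < R →
    Phi d M 1 R ζ ≤ C * M / R

/-- Local decoupling of a Weyl sum. -/
def St_G1a : Prop :=
  ∀ d : ℕ, ∃ lam : ℕ, 1 ≤ lam ∧ ∀ (M n w : ℕ) (D : ℝ) (y : TT (d + 1)), 1 ≤ M → 1 ≤ n → 1 ≤ w →
    w ^ d ≤ 2 ^ d * n → DecR (d + 1) lam w D →
    ∫ v, Kk M (w * n * M) v * ‖S (w * n * M) (y + v)‖ ^ (2 * sd (d + 1)) ≤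
      (D * ∑ i ∈ range w, (∫ v, Kk M (w * n * M) v *
        ‖S (n * M) (U ((i : ℤ) * (n * M : ℕ)) (y + v))‖ ^ (2 * sd (d + 1))) ^
          ((sd (d + 1) : ℝ)⁻¹)) ^ sd (d + 1)

/-- The recursion for the refined mean value. -/
def St_G1 : Prop :=
  ∀ d : ℕ, ∃ C : ℝ, 1 ≤ C ∧ ∀ (M n w : ℕ) (D R : ℝ) (ζ : UnitAddCircle), 1 ≤ M → 1 ≤ n →
    1 ≤ w → w ^ d ≤ 2 ^ d * n → 0 ≤ R → R ≤ M → 0 ≤ D → Dec (d + 1) w D →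
    Phi d M (w * n) R ζ ≤ C * D ^ sd (d + 1) * w * Phi d M n R ζ

/-- The refined mean value estimate. -/
def St_G2 : Prop :=
  ∀ (d : ℕ) (ε : ℝ), 1 ≤ d → 0 < ε → ∃ C : ℝ, 1 ≤ C ∧
    ∀ (M a : ℕ) (R : ℝ) (ζ : UnitAddCircle), 1 ≤ M → 0 < R → R ≤ M →
      Phi d M (2 ^ a) R ζ ≤ C * ((2 : ℝ) ^ a) ^ (1 + ε) * M / R

/-- The square function off the wide arcs. -/
def St_SIG : Prop :=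
  ∀ k : ℕ, ∃ (A : ℕ) (C : ℝ), 1 ≤ C ∧ ∀ (M n : ℕ) (y : TT k), 2 ≤ M → 1 ≤ n →
    y ∉ Mj k 1 (n * M) ((M : ℝ) ^ A) → sig M n y ≤ C * (n * M)

/-- A short arc in the last coordinate. -/
def St_ARC : Prop :=
  ∀ d : ℕ, 1 ≤ d → ∃ A : ℕ, ∀ ε : ℝ, 0 < ε → ∃ C : ℝ, 1 ≤ C ∧
    ∀ (M a : ℕ) (R : ℝ) (ζ : UnitAddCircle), 2 ≤ M → 0 < R → R ≤ M →
      ∫ y in {y : TT (d + 1) | ‖y (Fin.last d) - ζ‖ ≤ 1 / R} \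
          Mj (d + 1) 1 (2 ^ a * M) ((M : ℝ) ^ A), ‖S (2 ^ a * M) y‖ ^ (2 * sd (d + 1)) ≤
        C * ((2 ^ a * M : ℕ) : ℝ) ^ ((sd (d + 1) : ℝ) + ε) / R

/-! ### Part five: assembly -/

/-- The cube off the wide arcs. -/
def St_E1 : Prop :=
  ∀ d : ℕ, 1 ≤ d → ∃ A B : ℕ, 1 ≤ A ∧ ∀ ε : ℝ, 0 < ε → ∃ C : ℝ, 1 ≤ C ∧
    ∀ (N : ℕ) (δ : ℝ) (ξ : TT (d + 1)), 0 < δ → δ ≤ 1 / 20 → (1 / δ) ^ B ≤ N →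
      ∫ x in Metric.closedBall ξ δ \ Mj (d + 1) 1 N ((1 / δ) ^ A), ‖S N x‖ ^ (2 * sd (d + 1)) ≤
        C * δ ^ (d + 1) * (N : ℝ) ^ ((sd (d + 1) : ℝ) + ε)

/-- A weak gain off lower wide arcs. -/
def St_E3 : Prop :=
  ∀ d : ℕ, ∃ A : ℕ, 1 ≤ A ∧ ∀ ε : ℝ, 0 < ε → ∃ C : ℝ, 1 ≤ C ∧
    ∀ (N : ℕ) (δ : ℝ) (ξ : TT (d + 1)), 1 ≤ N → 0 < δ → δ ≤ 1 / 20 →
      ∫ x in Metric.closedBall ξ δ \ Mj (d + 1) 1 N ((1 / δ) ^ A), ‖S N x‖ ^ (2 * sd (d + 1)) ≤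
        C * δ * (N : ℝ) ^ ((sd (d + 1) : ℝ) + ε)

/-- The cube on the wide arcs. -/
def St_E2 : Prop :=
  ∀ d A : ℕ, 1 ≤ d → 1 ≤ A → ∃ (B : ℕ) (c δ₀ : ℝ), 0 < c ∧ 0 < δ₀ ∧ ∀ ε : ℝ, 0 < ε →
    ∃ C : ℝ, 1 ≤ C ∧ ∀ (N : ℕ) (δ p : ℝ) (ξ : TT (d + 1)), 1 ≤ N → 0 < δ → δ ≤ δ₀ →
      (1 / δ) ^ B ≤ N → 2 * sd (d + 1) - c ≤ p → p ≤ 2 * sd (d + 1) →
      ∫ x in Metric.closedBall ξ δ ∩ Mj (d + 1) 1 N ((1 / δ) ^ A), ‖S N x‖ ^ p ≤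
        C * (N : ℝ) ^ (p - sd (d + 1) + ε)

/-- The key estimate. -/
def St_KEY : Prop :=
  ∀ d : ℕ, 1 ≤ d → ∃ (B : ℕ) (c : ℝ), 0 < c ∧ ∀ ε : ℝ, 0 < ε → ∃ C : ℝ, 1 ≤ C ∧
    ∀ (N : ℕ) (δ p : ℝ) (ξ : TT (d + 1)), 1 ≤ N → 0 < δ → δ ≤ 1 → (1 / δ) ^ B ≤ N →
      2 * sd (d + 1) - c ≤ p → p ≤ 2 * sd (d + 1) →
      ∫ x in Metric.closedBall ξ δ, ‖S N x‖ ^ p ≤
        C * (δ ^ (d + 1) * (N : ℝ) ^ (p / 2 + ε) + (N : ℝ) ^ (p - sd (d + 1) + ε))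

/-- The theorem on the torus. -/
def St_FIN : Prop :=
  ∀ d : ℕ, 1 ≤ d → ∃ c : ℝ, 0 < c ∧ ∀ s ε : ℝ, 0 < s → 0 < ε → ∃ N₀ : ℕ, ∀ N : ℕ, N₀ ≤ N →
    ∀ δ : ℝ, 0 < δ → δ ≤ 1 → ((sd (d + 1) : ℝ) - (d + 1) * c ≤ s ∨ (N : ℝ) ^ (-c) ≤ δ) →
    ∀ ξ : TT (d + 1), ∫ x in Metric.closedBall ξ δ, ‖S N x‖ ^ (2 * s) ≤
      δ ^ (d + 1) * (N : ℝ) ^ (s + ε) + (N : ℝ) ^ (2 * s - sd (d + 1) + ε)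

/-- From the cube in Euclidean space to the torus. -/
def St_BR : Prop :=
  ∀ (k N : ℕ) (s δ : ℝ) (ξ : Fin k → ℝ), 0 < s → 0 < δ → δ ≤ 1 →
    MP_4e7873_nt.localMean s k δ ξ N ≤
      ∫ x in Metric.closedBall (fun j => (ξ j : UnitAddCircle)) δ, ‖S N (k := k) x‖ ^ (2 * s)

end Pool.Agent.Lib.WC
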