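import Mathlib

/-! Definitions for the near-critical small cube estimate: tori, trigonometric polynomials,
frequency families, decoupling constants, Weyl sums, shears and major arcs. -/

namespace Pool.Agent.Lib.WC

open MeasureTheory Polynomial

/-- The torus of dimension `n`. -/
abbrev TT (n : ℕ) : Type := Fin n → UnitAddCircle

instance isProb_circle : IsProbabilityMeasure (volume : Measure UnitAddCircle) :=
  ⟨UnitAddCircle.measure_univ⟩

/-- The character `z ↦ exp (2 π i z)`. -/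
noncomputable def ee (z : UnitAddCircle) : ℂ := (AddCircle.toCircle z : ℂ)

/-- The character of frequency `ω`. -/
noncomputable def ch {n : ℕ} (ω : Fin n → ℤ) (x : TT n) : ℂ := ee (∑ i, ω i • x i)

/-- Trigonometric polynomials with frequencies in `P`. -/
noncomputable def Sp {n : ℕ} (P : Set (Fin n → ℤ)) : Submodule ℂ (TT n → ℂ) :=
  Submodule.span ℂ (ch '' P)

/-- The homomorphism of tori dual to `M`. -/
noncomputable def tr {m l : ℕ} (M : (Fin m → ℤ) →+ (Fin l → ℤ)) (v : TT l) : TT m :=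
  fun a => ∑ i, M (Pi.single a 1) i • v i

/-- The normalised Dirichlet kernel. -/
noncomputable def dk (r : ℕ) (z : UnitAddCircle) : ℂ :=
  (r : ℂ)⁻¹ * ∑ j ∈ Finset.range r, ee (j • z)

/-- The product kernel `∏ rᵢ |dk rᵢ vᵢ| ^ μ`. -/
noncomputable def Kn {l : ℕ} (r : Fin l → ℕ) (μ : ℕ) (v : TT l) : ℝ :=
  ∏ i, (r i : ℝ) * ‖dk (r i) (v i)‖ ^ μ

/-- The triangular number `k (k + 1) / 2`. -/
def sd (k : ℕ) : ℕ := k * (k + 1) / 2

/-- The square of the `L ^ (2 s)` norm. -/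
noncomputable def nn {n : ℕ} (s : ℕ) (f : TT n → ℂ) : ℝ :=
  (∫ x, ‖f x‖ ^ (2 * s)) ^ ((s : ℝ)⁻¹)

/-- An affine family of normalised functionals on polynomials indexed by frequencies. -/
structure Fam (m : ℕ) where
  B : (Fin m → ℤ) →+ (ℚ[X] →ₗ[ℚ] ℚ)
  B0 : ℚ[X] →ₗ[ℚ] ℚ
  B_one : ∀ ω, B ω 1 = 0
  B0_one : B0 1 = 1

/-- The functional attached to a frequency. -/
noncomputable def Fam.L {m : ℕ} (F : Fam m) (ω : Fin m → ℤ) : ℚ[X] →ₗ[ℚ] ℚ := F.B ω + F.B0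

/-- The functional `lam` is close to evaluation at `c` at scale `σ`. -/
def Near (k : ℕ) (lam : ℚ[X] →ₗ[ℚ] ℚ) (c σ : ℚ) : Prop :=
  ∀ i, 1 ≤ i → i ≤ k → |lam ((X - C c) ^ i)| ≤ σ ^ i

/-- Frequencies in the anisotropic box at `c` of scale `σ`. -/
def In {m : ℕ} (k : ℕ) (F : Fam m) (c σ : ℚ) : Set (Fin m → ℤ) := {ω | Near k (F.L ω) c σ}

/-- Frequencies near the projected curve. -/
def InC {m : ℕ} (k l : ℕ) (G : Fam m) (c τ t ρ : ℚ) : Set (Fin m → ℤ) :=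
  {ν | ∃ lam : ℚ[X] →ₗ[ℚ] ℚ, lam 1 = 1 ∧ Near k lam c τ ∧
    ∀ i, k - l < i → i ≤ k → |G.L ν ((X - C t) ^ i) - lam ((X - C t) ^ i)| ≤ ρ ^ i}

/-- The standard family: `ω` acts by `X ^ (j + 1) ↦ ω j`. -/
noncomputable def stdFam (k : ℕ) : Fam k where
  B := { toFun := fun ω => ∑ j : Fin k, (ω j : ℚ) • lcoeff ℚ (j.val + 1)
         map_zero' := by simp
         map_add' := fun a b => by simp [add_smul, Finset.sum_add_distrib] }
  B0 := lcoeff ℚ 0
  B_one := fun ω => by simp [LinearMap.sum_apply, coeff_one]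
  B0_one := by simp

/-- The moment curve. -/
def mom (k : ℕ) (n : ℤ) : Fin k → ℤ := fun j => n ^ (j.val + 1)

/-- Decoupling of degree `k` for `n` consecutive boxes with (squared) constant `D`. -/
def Dec (k n : ℕ) (D : ℝ) : Prop :=
  ∀ (m : ℕ) (F : Fam m) (c σ : ℚ) (a : ℤ) (I : Finset ℤ) (f : ℤ → TT m → ℂ), 0 < σ →
    I ⊆ Finset.Ico a (a + n) → (∀ j ∈ I, f j ∈ Sp (In k F (c + j * σ) σ)) →
    nn (sd k) (∑ j ∈ I, f j) ≤ D * ∑ j ∈ I, nn (sd k) (f j)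

/-- Decoupling for boxes enlarged by the factor `lam`. -/
def DecR (k lam n : ℕ) (D : ℝ) : Prop :=
  ∀ (m : ℕ) (F : Fam m) (c σ : ℚ) (a : ℤ) (I : Finset ℤ) (f : ℤ → TT m → ℂ), 0 < σ →
    I ⊆ Finset.Ico a (a + n) → (∀ j ∈ I, f j ∈ Sp (In k F (c + j * σ) (lam * σ))) →
    nn (sd k) (∑ j ∈ I, f j) ≤ D * ∑ j ∈ I, nn (sd k) (f j)

/-- Decoupling with exponent `η`. -/
def DecE (k : ℕ) (η : ℝ) : Prop := ∃ C : ℝ, 1 ≤ C ∧ ∀ n : ℕ, 1 ≤ n → Dec k n (C * (n : ℝ) ^ η)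

/-- Sharp decoupling of degree `k`. -/
def DecAll (k : ℕ) : Prop := ∀ η : ℝ, 0 < η → DecE k η

/-- The asymmetric bilinear estimate for separated families of widths `v` and `u`. -/
def Bil (k l κ n v u : ℕ) (B : ℝ) : Prop :=
  ∀ (m : ℕ) (F : Fam m) (c σ : ℚ) (a b b' : ℤ) (I I' : Finset ℤ) (f g : ℤ → TT m → ℂ), 0 < σ →
    I ⊆ Finset.Ico a (a + n) → I' ⊆ Finset.Ico a (a + n) →
    I ⊆ Finset.Ico b (b + v) → I' ⊆ Finset.Ico b' (b' + u) →
    (∀ i ∈ I, ∀ j ∈ I', (n : ℤ) ≤ κ * |i - j|) →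
    (∀ i ∈ I, f i ∈ Sp (In k F (c + i * σ) σ)) → (∀ j ∈ I', g j ∈ Sp (In k F (c + j * σ) σ)) →
    ∫ x, ‖(∑ i ∈ I, f i) x‖ ^ (2 * sd l) * ‖(∑ j ∈ I', g j) x‖ ^ (2 * (sd k - sd l)) ≤
      B ^ sd k * (∑ i ∈ I, nn (sd k) (f i)) ^ sd l * (∑ j ∈ I', nn (sd k) (g j)) ^ (sd k - sd l)

section weyl

variable {k : ℕ}

/-- The polynomial phase `x₁ n + ⋯ + x_k n ^ k`. -/
noncomputable def ph (x : TT k) (n : ℤ) : UnitAddCircle := ∑ j : Fin k, n ^ (j.val + 1) • x j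

/-- The Weyl sum over `1 ≤ n ≤ N`. -/
noncomputable def S (N : ℕ) (x : TT k) : ℂ := ∑ n ∈ Finset.range N, ee (ph x ((n : ℤ) + 1))

/-- The shear induced by the translation `n ↦ n + t`. -/
noncomputable def U (t : ℤ) : TT k →+ TT k where
  toFun := fun x j => ∑ l : Fin k, (((l.val + 1).choose (j.val + 1) : ℤ) * t ^ (l.val - j.val)) • x l
  map_zero' := by ext j; simp
  map_add' := fun x y => by ext j; simp [Finset.sum_add_distrib]

/-- The dilation induced by `n ↦ q n`. -/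
noncomputable def Dl (q : ℕ) : TT k →+ TT k where
  toFun := fun x j => q ^ (j.val + 1) • x j
  map_zero' := by ext j; simp
  map_add' := fun x y => by ext j; simp

/-- Simultaneous approximation of the coordinates `j ≥ a` with denominator `q`. -/
def Ap (a q N : ℕ) (H : ℝ) (x : TT k) : Prop :=
  ∀ j : Fin k, a ≤ j.val → ‖q • x j‖ ≤ H / (N : ℝ) ^ (j.val + 1 - a)

/-- Arcs of height `H`: `Mj k 0` are the major arcs, `Mj k 1` the wide arcs. -/
def Mj (k a N : ℕ) (H : ℝ) : Set (TT k) := {x | ∃ q : ℕ, 1 ≤ q ∧ (q : ℝ) ≤ H ∧ Ap a q N H x}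

/-- The region where the phase has no long oscillation. -/
def Zr (k N : ℕ) : Set (TT k) := {x | Ap 1 1 N (1 / 8 ^ k) x}

/-- Points of the circle near a rational of small height. -/
def Bd (N : ℕ) (H : ℝ) : Set UnitAddCircle :=
  {z | ∃ q : ℕ, 1 ≤ q ∧ (q : ℝ) ≤ H ∧ ‖q • z‖ ≤ H / N}

open Classical in
/-- The number of shears of `y` that land in `E`. -/
noncomputable def cnt (N : ℕ) (E : Set (TT k)) (y : TT k) : ℕ :=
  ((Finset.range N).filter fun t : ℕ => U ((t : ℤ) + 1) y ∈ E).card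

/-- A weight concentrated at scale `1 / R`. -/
noncomputable def wt (R : ℝ) (z : UnitAddCircle) : ℝ := R / (1 + R * ‖z‖) ^ 2

/-- The product weight dual to a block of length `M`. -/
noncomputable def Wk (M : ℕ) (z : TT k) : ℝ := ∏ j : Fin k, wt ((M : ℝ) ^ (j.val + 1)) (z j)

/-- The smoothed square of a block of length `M`. -/
noncomputable def sg (M : ℕ) (y : TT k) : ℝ := M + ∫ z, Wk M z * ‖S M (y + z)‖ ^ 2

/-- The smoothed square function of `n` blocks of length `M`. -/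
noncomputable def sig (M n : ℕ) (y : TT k) : ℝ :=
  ∑ j ∈ Finset.range n, sg M (U ((j : ℤ) * M) y)

/-- The variation factor. -/
noncomputable def Th (M L : ℕ) (v : TT k) : ℝ :=
  ∏ l : Fin k, (1 + (M : ℝ) * (L : ℝ) ^ l.val * ‖v l‖)

/-- The localising kernel. -/
noncomputable def Kk (M L : ℕ) (v : TT k) : ℝ :=
  Kn (fun l : Fin k => M * L ^ l.val) (2 * sd k * (k + 1)) v

end weyl

/-- The refined mean value. -/
noncomputable def Phi (d M n : ℕ) (R : ℝ) (ζ : UnitAddCircle) : ℝ :=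
  ∫ y : TT (d + 1), ‖S (n * M) y‖ ^ (2 * sd (d + 1)) / sig M n y ^ (sd (d + 1) - 1) /
    (1 + R * ‖y (Fin.last d) - ζ‖) ^ 2

end Pool.Agent.Lib.WC
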