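import Pool.Agent.Lib.WC.Blue

/-! Block FIN: the small cube estimate on the torus. -/

namespace Pool.Agent.Lib.WC

open MeasureTheory Filter

namespace FIN

variable {k : ℕ}

lemma cont (N : ℕ) {p : ℝ} (hp : 0 ≤ p) : Continuous fun x : TT k => ‖S N x‖ ^ p :=
  (Real.continuous_rpow_const hp).comp (by fun_prop)

lemma mono (N : ℕ) {p δ δ' : ℝ} (hp : 0 ≤ p) (h : δ ≤ δ') (ξ : TT k) :
    ∫ x in Metric.closedBall ξ δ, ‖S N x‖ ^ p ≤ ∫ x in Metric.closedBall ξ δ', ‖S N x‖ ^ p :=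
  setIntegral_mono_set (cint (cont N hp)) (Eventually.of_forall fun _ => by positivity)
    (Metric.closedBall_subset_closedBall h).eventuallyLE

lemma high (N : ℕ) {p q : ℝ} (hp : 0 < p) (hq : 0 ≤ q) (A : Set (TT k)) :
    ∫ x in A, ‖S N x‖ ^ (q + p) ≤ (N : ℝ) ^ q * ∫ x in A, ‖S N x‖ ^ p := by
  rw [← integral_const_mul]
  refine integral_mono (cint (cont N (by linarith))) ((cint (cont N hp.le)).const_mul _) fun x => ?_
  beta_reduce
  rw [Real.rpow_add' (norm_nonneg _) (by linarith)]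
  exact mul_le_mul_of_nonneg_right (Real.rpow_le_rpow (norm_nonneg _) (norm_S_le N x) hq)
    (by positivity)

lemma low (N : ℕ) (hN : 1 ≤ N) {s s₁ δ C e : ℝ} (hs : 0 < s) (h1 : s ≤ s₁) (hδ : 0 < δ)
    (hC : 1 ≤ C) (he : 0 ≤ e) (ξ : TT k)
    (h : ∫ x in Metric.closedBall ξ δ, ‖S N x‖ ^ (2 * s₁) ≤ C * (δ ^ k * (N : ℝ) ^ (s₁ + e))) :
    ∫ x in Metric.closedBall ξ δ, ‖S N x‖ ^ (2 * s) ≤
      2 ^ k * C * (δ ^ k * (N : ℝ) ^ (s + e)) := by
  have hN' : (1 : ℝ) ≤ N := by exact_mod_cast hN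
  have hs₁ : 0 < s₁ := by linarith
  have h2 := holder_pow (μ := volume.restrict (Metric.closedBall ξ δ))
    (f := fun x : TT k => ‖S N x‖) (fun _ => norm_nonneg _) (p := 2 * s) (P := 2 * s₁)
    (by positivity) (by positivity) (by linarith) (cint (cont N (by positivity)))
  rw [measureReal_restrict_apply_univ, mul_div_mul_left _ _ two_ne_zero] at h2
  have t0 : 0 ≤ s / s₁ := by positivity
  have t1 : s / s₁ ≤ 1 := (div_le_one hs₁).2 h1
  have t2 : (s₁ + e) * (s / s₁) ≤ s + e := by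
    rw [add_mul, mul_div_cancel₀ _ hs₁.ne']
    nlinarith
  refine h2.trans ?_
  generalize s / s₁ = θ at t0 t1 t2
  have h3 : (0 : ℝ) < δ ^ k := by positivity
  calc _ ≤ (C * (δ ^ k * (N : ℝ) ^ (s₁ + e))) ^ θ * ((2 * δ) ^ k) ^ (1 - θ) :=
        mul_le_mul (Real.rpow_le_rpow (integral_nonneg fun _ => by positivity) h t0)
          (Real.rpow_le_rpow measureReal_nonneg (vol_ball ξ hδ.le) (by linarith))
          (by positivity) (by positivity)
    _ = (2 ^ k) ^ (1 - θ) * C ^ θ *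
          ((δ ^ k) ^ θ * (δ ^ k) ^ (1 - θ) * (N : ℝ) ^ ((s₁ + e) * θ)) := by
        rw [mul_pow, Real.mul_rpow (by positivity) (by positivity),
          Real.mul_rpow (by positivity) (by positivity),
          Real.mul_rpow (by positivity) (by positivity), ← Real.rpow_mul (by positivity)]
        ring
    _ ≤ _ := by
        rw [← Real.rpow_add h3, add_sub_cancel, Real.rpow_one]
        have a1 : ((2 : ℝ) ^ k) ^ (1 - θ) ≤ 2 ^ k :=
          Real.rpow_le_self_of_one_le (one_le_pow₀ one_le_two) (by linarith)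
        have a2 : C ^ θ ≤ C := Real.rpow_le_self_of_one_le hC t1
        have a3 := Real.rpow_le_rpow_of_exponent_le hN' t2
        gcongr

end FIN

open FIN in
theorem blk_FIN (h : St_KEY) : St_FIN := by
  intro d hd
  obtain ⟨B, c, hc, hK⟩ := h d hd
  have hk : (0 : ℝ) < d + 1 := by positivity
  have hσ : (1 : ℝ) ≤ sd (d + 1) := by exact_mod_cast one_le_sd (Nat.succ_pos d)
  obtain ⟨c₀, h0, h1, h2⟩ : ∃ c₀ : ℝ, 0 < c₀ ∧ c₀ * B ≤ 1 ∧ 2 * ((d + 1) * c₀) ≤ c := by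
    refine ⟨min (1 / (B + 1)) (c / (2 * (d + 1))), by positivity, ?_, ?_⟩
    · refine (mul_le_mul_of_nonneg_right (min_le_left _ _) B.cast_nonneg).trans ?_
      rw [div_mul_eq_mul_div, div_le_one (by positivity)]
      linarith
    · have := (le_div_iff₀ (by positivity)).1 (min_le_right (1 / ((B : ℝ) + 1)) (c / (2 * (d + 1))))
      linarith
  refine ⟨c₀, h0, fun s ε hs hε => ?_⟩
  obtain ⟨C, hC, hK⟩ := hK (ε / 2) (half_pos hε)
  obtain ⟨N₀, hN₀⟩ := eventually_atTop.1 ((((tendsto_rpow_atTop (half_pos hε)).comp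
    tendsto_natCast_atTop_atTop).eventually_ge_atTop (2 ^ (d + 1) * (2 * C))).and
      (eventually_ge_atTop 1))
  refine ⟨N₀, fun N hN δ hδ hδ1 hyp ξ => ?_⟩
  obtain ⟨hbig, hN1⟩ := hN₀ N hN
  simp only [Function.comp] at hbig
  have hN' : (1 : ℝ) ≤ N := by exact_mod_cast hN1
  have hN0 : (0 : ℝ) < N := by linarith
  have hm : (0 : ℝ) < (N : ℝ) ^ (-c₀) := by positivity
  have hm1 : (N : ℝ) ^ (-c₀) ≤ 1 := Real.rpow_le_one_of_one_le_of_nonpos hN' (by linarith)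
  have hmk : ((N : ℝ) ^ (-c₀)) ^ (d + 1) = (N : ℝ) ^ (-((d + 1) * c₀)) := by
    rw [← Real.rpow_natCast, ← Real.rpow_mul hN0.le]
    push_cast
    congr 1
    ring
  have key : ∀ δ t : ℝ, (N : ℝ) ^ (-c₀) ≤ δ → δ ≤ 1 → sd (d + 1) - (d + 1) * c₀ ≤ t →
      t ≤ sd (d + 1) → ∫ x in Metric.closedBall ξ δ, ‖S N x‖ ^ (2 * t) ≤
        C * (δ ^ (d + 1) * (N : ℝ) ^ (t + ε / 2) + (N : ℝ) ^ (2 * t - sd (d + 1) + ε / 2)) := by
    intro δ t a1 a2 a3 a4
    have := hK N δ (2 * t) ξ hN1 (hm.trans_le a1) a2 ?_ (by linarith) (by linarith)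
    · rwa [mul_div_cancel_left₀ _ two_ne_zero] at this
    · have a5 := hm.trans_le a1
      calc (1 / δ) ^ B ≤ (1 / (N : ℝ) ^ (-c₀)) ^ B := by gcongr
        _ = (N : ℝ) ^ (c₀ * B) := by
          rw [Real.rpow_neg hN0.le, one_div, inv_inv, Real.rpow_mul_natCast hN0.le]
        _ ≤ N := Real.rpow_le_self_of_one_le hN' h1
  have hX : 0 ≤ δ ^ (d + 1) * (N : ℝ) ^ (s + ε / 2) := by positivity
  have hY : 0 ≤ (N : ℝ) ^ (2 * s - sd (d + 1) + ε / 2) := by positivity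
  have h2k : (1 : ℝ) ≤ 2 ^ (d + 1) := one_le_pow₀ one_le_two
  suffices H : ∫ x in Metric.closedBall ξ δ, ‖S N x‖ ^ (2 * s) ≤ 2 ^ (d + 1) * (2 * C) *
      (δ ^ (d + 1) * (N : ℝ) ^ (s + ε / 2) + (N : ℝ) ^ (2 * s - sd (d + 1) + ε / 2)) by
    refine H.trans ((mul_le_mul_of_nonneg_right hbig (add_nonneg hX hY)).trans (le_of_eq ?_))
    rw [mul_add, mul_left_comm, ← Real.rpow_add hN0, ← Real.rpow_add hN0]
    congr 2
    · congr 1
      ring
    · ring
  have fin : ∀ I : ℝ, I ≤ 2 * C *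
      (δ ^ (d + 1) * (N : ℝ) ^ (s + ε / 2) + (N : ℝ) ^ (2 * s - sd (d + 1) + ε / 2)) →
      I ≤ 2 ^ (d + 1) * (2 * C) *
      (δ ^ (d + 1) * (N : ℝ) ^ (s + ε / 2) + (N : ℝ) ^ (2 * s - sd (d + 1) + ε / 2)) :=
    fun I hI => hI.trans (by
      rw [mul_assoc (2 ^ (d + 1))]
      exact le_mul_of_one_le_left (by positivity) h2k)
  have hc' : 0 < (d + 1) * c₀ := by positivity
  rcases le_total (sd (d + 1) : ℝ) s with hs1 | hs1
  · have a1 := high N (p := 2 * sd (d + 1)) (q := 2 * s - 2 * sd (d + 1)) (by linarith)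
      (by linarith) (Metric.closedBall ξ δ)
    have a2 := (mono N (by linarith) hδ1 ξ).trans (key 1 (sd (d + 1)) hm1 le_rfl (by linarith) le_rfl)
    rw [sub_add_cancel] at a1
    refine fin _ (a1.trans ((mul_le_mul_of_nonneg_left a2 (by positivity)).trans ?_))
    rw [one_pow, one_mul, show 2 * (sd (d + 1) : ℝ) - sd (d + 1) = sd (d + 1) by ring, ← two_mul,
      mul_left_comm, mul_left_comm _ 2, ← Real.rpow_add hN0,
      show 2 * s - 2 * (sd (d + 1) : ℝ) + (sd (d + 1) + ε / 2) = 2 * s - sd (d + 1) + ε / 2 by ring]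
    nlinarith
  by_cases hs2 : (sd (d + 1) : ℝ) - (d + 1) * c₀ ≤ s
  · refine fin _ ?_
    rcases le_total ((N : ℝ) ^ (-c₀)) δ with a1 | a1
    · refine (key δ s a1 hδ1 hs2 hs1).trans ?_
      nlinarith
    · refine ((mono N (by linarith) a1 ξ).trans (key _ s le_rfl hm1 hs2 hs1)).trans ?_
      rw [hmk, ← Real.rpow_add hN0]
      have := Real.rpow_le_rpow_of_exponent_le hN'
        (show -((d + 1) * c₀) + (s + ε / 2) ≤ 2 * s - sd (d + 1) + ε / 2 by linarith)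
      nlinarith
  · have a1 := hyp.resolve_left hs2
    have a2 := key δ _ a1 hδ1 le_rfl (by linarith)
    have a3 : (N : ℝ) ^ (2 * (sd (d + 1) - (d + 1) * c₀) - sd (d + 1) + ε / 2) ≤
        δ ^ (d + 1) * (N : ℝ) ^ (sd (d + 1) - (d + 1) * c₀ + ε / 2) := by
      refine le_trans (le_of_eq ?_) (mul_le_mul_of_nonneg_right
        (pow_le_pow_left₀ hm.le a1 (d + 1)) (by positivity))
      rw [hmk, ← Real.rpow_add hN0]
      congr 1
      ring
    refine (low N hN1 (C := 2 * C) (e := ε / 2) hs (not_le.1 hs2).le hδ (by linarith)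
      (by linarith) ξ (a2.trans (by nlinarith))).trans ?_
    exact mul_le_mul_of_nonneg_left (le_add_of_nonneg_right hY) (by positivity)

end Pool.Agent.Lib.WC
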