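import Pool.Agent.Lib.WC.Blue

/-! Block LD1: decoupling of lower degree against a weight. -/

namespace Pool.Agent.Lib.WC

open MeasureTheory Polynomial Finset

namespace LD1

variable {m l : ℕ}

lemma swapA (M : (Fin m → ℤ) →+ (Fin l → ℤ)) (r : Fin l → ℕ) (p q : ℕ) {φ g : TT m → ℂ}
    (hφ : Continuous φ) (hg : Continuous g) :
    ∫ x, ‖φ x‖ ^ p * ∫ v, Kn r p v * ‖g (x + tr M v)‖ ^ q =
      ∫ v, Kn r p v * ∫ x, ‖φ x‖ ^ p * ‖g (x + tr M v)‖ ^ q := by
  simp_rw [← integral_const_mul]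
  rw [swap_int (by fun_prop)]
  congr 1; ext v; congr 1; ext x; ring

lemma swapB (M : (Fin m → ℤ) →+ (Fin l → ℤ)) (r : Fin l → ℕ) (p q : ℕ) {φ g : TT m → ℂ}
    (hφ : Continuous φ) (hg : Continuous g) :
    ∫ x, ((∏ i, (r i : ℝ)) * ‖g x‖ ^ q) *
        ∫ v, ‖(∏ i, dk (r i) (v i) ^ 1) * φ (x + tr (-M) v)‖ ^ p =
      ∫ v, Kn r p v * ∫ x, ‖φ x‖ ^ p * ‖g (x + tr M v)‖ ^ q := by
  simp_rw [← integral_const_mul]
  rw [swap_int (by fun_prop)]
  congr 1; ext v
  rw [← int_add _ (tr M v)]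
  congr 1; ext x
  have := Kn_eq r 1 p v
  rw [mul_one] at this
  rw [this, tr_neg, add_neg_cancel_right, norm_mul, mul_pow]; ring

end LD1

open LD1 in
theorem blk_LD1 (hK : St_KER) (hU : St_UP) (hG : St_GC2) (h0 : St_LD0) : St_LD1 := by
  intro k l κ K q ε hl hlk hκ hq hε hD
  obtain ⟨C, hC, H⟩ := hG k l κ K ε hl hlk hκ hε hD
  have hs : 1 ≤ sd l := one_le_sd hl
  set CU : ℝ := (((2 * sd l : ℕ) : ℝ) + 3) ^ (l * (2 * q)) with hCU
  have hCU1 : 1 ≤ CU := one_le_pow₀ (by have : (0 : ℝ) ≤ ((2 * sd l : ℕ) : ℝ) := Nat.cast_nonneg _; linarith)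
  refine ⟨CU * C, one_le_mul_of_one_le_of_one_le hCU1 hC, ?_⟩
  intro m F c τ S t ρ I f g β hτ hτS hρ h1 h2 hf hg hβ hb
  obtain ⟨Q, M, o, G, hQ, k1, k2⟩ := h0 k l m F t ρ hlk hρ
  have gc := Sp_cont hg
  have fc : ∀ j ∈ I, Continuous (f j) := fun j hj => Sp_cont (hf j hj)
  have Fc : Continuous (∑ j ∈ I, f j) := by
    have : (∑ j ∈ I, f j) = fun x => ∑ j ∈ I, f j x := by ext x; simp
    rw [this]; exact continuous_finsetSum _ fc
  set r : Fin l → ℕ := fun _ => Q with hr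
  set h : ℤ → TT m → TT l → ℂ :=
    fun j x v => (∏ i, dk (r i) (v i) ^ 1) * f j (x + tr (-M) v) with hh
  set E : ℝ := C * ((S / τ : ℚ) : ℝ) ^ ε with hE
  have E0 : 0 ≤ E := mul_nonneg (by linarith) (Real.rpow_nonneg (by
    have : (0 : ℚ) ≤ S / τ := div_nonneg (by linarith) hτ.le
    exact_mod_cast this) _)
  have dec : ∀ x, ∫ v, ‖(∏ i, dk (r i) (v i) ^ 1) * (∑ j ∈ I, f j) (x + tr (-M) v)‖ ^ (2 * sd l) ≤
      E ^ sd l * (∑ j ∈ I, nn (sd l) (h j x)) ^ sd l := by
    intro x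
    have := H l G c τ S t ρ I (fun j => h j x) hτ hτS hρ.le h1 h2 fun j hj =>
      Sp_mul (dk_prod_mem r 1) (Sp_tr (hf j hj) (-M) x) (by
        rintro a ha _ ⟨ω, hω, rfl⟩
        have := k2 _ _ ω hω a fun i => by simpa [hr] using ha i
        simpa [sub_eq_add_neg] using this)
    rw [nn_le_iff hs (mul_nonneg E0 (sum_nonneg fun _ _ => nn_nonneg _ _)), mul_pow] at this
    simpa only [hh, Finset.sum_apply, Finset.mul_sum] using this
  have bc : ∀ j ∈ I, Continuous fun x => nn (sd l) (h j x) := fun j hj => by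
    have := fc j hj
    exact (cont_int (f := fun x v => ‖h j x v‖ ^ (2 * sd l)) (by
      simp only [hh]; fun_prop)).rpow_const fun _ => Or.inr (by positivity)
  have mk := minkowski (μ := volume) I (w := fun x => (∏ i, (r i : ℝ)) * ‖g x‖ ^ (2 * q))
    (a := fun j x => nn (sd l) (h j x)) hs (fun _ => by positivity) (fun _ _ _ => nn_nonneg _ _) hβ
    (fun j hj => by have := bc j hj; exact cint (by fun_prop)) fun j hj => by
      simp only [nn_pow hs, hh]
      rw [swapB M r _ _ (fc j hj) gc]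
      have := fc j hj
      calc _ ≤ ∫ v, Kn r (2 * sd l) v * β j ^ sd l :=
            integral_mono (cint ((continuous_Kn _ _).mul (cont_int (by fun_prop))))
              (cint (by fun_prop)) fun v => mul_le_mul_of_nonneg_left (hb j hj _) (Kn_nonneg _ _ _)
        _ ≤ _ := by
            rw [integral_mul_const]
            exact mul_le_of_le_one_left (pow_nonneg (hβ j hj) _)
              (hK.kn l _ r (fun _ => hQ) (by omega))
  have sc : Continuous fun x => ∑ j ∈ I, nn (sd l) (h j x) := continuous_finsetSum _ bc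
  calc _ ≤ ∫ x, CU * (‖(∑ j ∈ I, f j) x‖ ^ (2 * sd l) *
          ∫ v, Kn r (2 * sd l) v * ‖g (x + tr M v)‖ ^ (2 * q)) := by
        refine integral_mono (cint (by fun_prop)) (cint (continuous_const.mul
          ((by fun_prop : Continuous fun x => ‖(∑ j ∈ I, f j) x‖ ^ (2 * sd l)).mul
            (cont_int (by fun_prop))))) fun x => ?_
        have := hU m l M o r (2 * sd l) (2 * q) g x (fun _ => hQ) (by omega) (by omega)
          (Sp_mono (fun ω hω => k1 ω hω) hg)
        simp only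
        rw [mul_left_comm]
        exact mul_le_mul_of_nonneg_left this (by positivity)
    _ = CU * ∫ x, ((∏ i, (r i : ℝ)) * ‖g x‖ ^ (2 * q)) *
          ∫ v, ‖(∏ i, dk (r i) (v i) ^ 1) * (∑ j ∈ I, f j) (x + tr (-M) v)‖ ^ (2 * sd l) := by
        rw [integral_const_mul, swapA M r _ _ Fc gc, swapB M r _ _ Fc gc]
    _ ≤ CU * ∫ x, E ^ sd l * (((∏ i, (r i : ℝ)) * ‖g x‖ ^ (2 * q)) *
          (∑ j ∈ I, nn (sd l) (h j x)) ^ sd l) := by
        refine mul_le_mul_of_nonneg_left (integral_mono (cint (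
          (by fun_prop : Continuous fun x => (∏ i, (r i : ℝ)) * ‖g x‖ ^ (2 * q)).mul
            (cont_int (by fun_prop)))) (cint (by fun_prop)) fun x => ?_) (by linarith)
        simp only
        rw [mul_left_comm]
        exact mul_le_mul_of_nonneg_left (dec x) (by positivity)
    _ ≤ CU ^ sd l * (E ^ sd l * (∑ j ∈ I, β j) ^ sd l) := by
        rw [integral_const_mul]
        exact mul_le_mul (le_self_pow₀ hCU1 (by omega))
          (mul_le_mul_of_nonneg_left mk (pow_nonneg E0 _))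
          (mul_nonneg (pow_nonneg E0 _) (integral_nonneg fun x => mul_nonneg (by positivity)
            (pow_nonneg (sum_nonneg fun _ _ => nn_nonneg _ _) _))) (by positivity)
    _ = _ := by rw [hE]; ring

end Pool.Agent.Lib.WC
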